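import Pool.Agent.Lib.MP_769d0b_pr.Defs

/-!
LW-Anti: Erdos-Littlewood-Offord via Sperner.
-/

set_option autoImplicit false

open Finset Polynomial

namespace Pool.Agent.Lib.MP_769d0b_pr

open Pool.Agent.Lib.MP_7ab245_nt.Cnt Pool.Agent.Lib.MP_7ab245_nt.LogVar

private theorem sum_symm (v : ℕ → ℝ) (I A : Finset ℕ) (hA : A ⊆ I) :
    ∑ k ∈ A, v k = ∑ k ∈ symmDiff A (I.filter (fun k => v k < 0)), |v k|
      + ∑ k ∈ I.filter (fun k => v k < 0), v k := by
  classical
  set N := I.filter (fun k => v k < 0) with hN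
  have hNn : ∀ k ∈ N, v k < 0 := fun k hk => (Finset.mem_filter.mp hk).2
  have hsd : symmDiff A N = (A \ N) ∪ (N \ A) := rfl
  have hdis : Disjoint (A \ N) (N \ A) := by
    rw [Finset.disjoint_left]
    intro x hx hx'
    simp only [Finset.mem_sdiff] at hx hx'
    exact hx.2 hx'.1
  rw [hsd, Finset.sum_union hdis]
  have h1 : ∑ k ∈ A \ N, |v k| = ∑ k ∈ A \ N, v k := by
    refine Finset.sum_congr rfl fun k hk => ?_
    simp only [Finset.mem_sdiff] at hk
    refine abs_of_nonneg ?_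
    by_contra hlt
    exact hk.2 (Finset.mem_filter.mpr ⟨hA hk.1, not_le.mp hlt⟩)
  have h2 : ∑ k ∈ N \ A, |v k| = - ∑ k ∈ N \ A, v k := by
    rw [← Finset.sum_neg_distrib]
    refine Finset.sum_congr rfl fun k hk => ?_
    simp only [Finset.mem_sdiff] at hk
    exact abs_of_neg (hNn k hk.1)
  rw [h1, h2]
  have h3 : ∑ k ∈ A \ N, v k + ∑ k ∈ A ∩ N, v k = ∑ k ∈ A, v k := by
    have := Finset.sum_inter_add_sum_sdiff A N v
    linarith
  have h4 : ∑ k ∈ N \ A, v k + ∑ k ∈ A ∩ N, v k = ∑ k ∈ N, v k := by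
    have := Finset.sum_inter_add_sum_sdiff N A v
    rw [Finset.inter_comm N A] at this
    linarith
  linarith

theorem antichain_count (v : ℕ → ℝ) (c : ℝ) (hc : 0 < c) (I : Finset ℕ)
    (hv : ∀ k ∈ I, c ≤ |v k|) (t : ℝ) :
    {A : Finset ℕ | A ⊆ I ∧ t ≤ ∑ k ∈ A, v k ∧ ∑ k ∈ A, v k < t + c}.ncard ≤
      I.card.choose (I.card / 2) := by
  classical
  set N := I.filter (fun k => v k < 0) with hN
  set S : Finset (Finset ℕ) :=
    I.powerset.filter (fun A => t ≤ ∑ k ∈ A, v k ∧ ∑ k ∈ A, v k < t + c) with hSdef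
  have hS : {A : Finset ℕ | A ⊆ I ∧ t ≤ ∑ k ∈ A, v k ∧ ∑ k ∈ A, v k < t + c} = (S : Set (Finset ℕ)) := by
    ext A
    simp [S]
  rw [hS, Set.ncard_coe_finset]
  let Φ : Finset ℕ → Finset {x // x ∈ I} := fun A => (symmDiff A N).subtype (· ∈ I)
  have hsub : ∀ A, A ⊆ I → symmDiff A N ⊆ I := by
    intro A hA x hx
    rw [Finset.mem_symmDiff] at hx
    rcases hx with h | h
    · exact hA h.1
    · exact (Finset.mem_filter.mp h.1).1
  have hle : ∀ A B, A ⊆ I → B ⊆ I → Φ A ⊆ Φ B → symmDiff A N ⊆ symmDiff B N := by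
    intro A B hA hB h x hx
    have hxI := hsub A hA hx
    have : (⟨x, hxI⟩ : {x // x ∈ I}) ∈ Φ A := by
      simp only [Φ, Finset.mem_subtype]; exact hx
    have := h this
    simpa only [Φ, Finset.mem_subtype] using this
  have hinj : Set.InjOn Φ (S : Set (Finset ℕ)) := by
    intro A hA B hB h
    simp only [S, Finset.coe_filter, Set.mem_ofPred_eq, Finset.mem_powerset] at hA hB
    have h1 := hle A B hA.1 hB.1 (by rw [h])
    have h2 := hle B A hB.1 hA.1 (by rw [h])
    exact symmDiff_left_injective N (Finset.Subset.antisymm h1 h2)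
  have hanti : IsAntichain (· ⊆ ·) ((S.image Φ : Finset (Finset {x // x ∈ I})) : Set (Finset {x // x ∈ I})) := by
    rintro X hX Y hY hXY hsubXY
    simp only [Finset.coe_image, Set.mem_image, Finset.mem_coe] at hX hY
    obtain ⟨A, hA, rfl⟩ := hX
    obtain ⟨B, hB, rfl⟩ := hY
    simp only [S, Finset.mem_filter, Finset.mem_powerset] at hA hB
    have h1 := hle A B hA.1 hB.1 hsubXY
    have hne : symmDiff A N ≠ symmDiff B N := by
      intro h
      apply hXY
      simp only [Φ, h]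
    obtain ⟨k, hkB, hkA⟩ := Finset.exists_of_ssubset (lt_of_le_of_ne h1 hne)
    have hsA := sum_symm v I A hA.1
    have hsB := sum_symm v I B hB.1
    have h2 : ∑ k ∈ insert k (symmDiff A N), |v k| ≤ ∑ k ∈ symmDiff B N, |v k| := by
      refine Finset.sum_le_sum_of_subset_of_nonneg ?_ fun _ _ _ => abs_nonneg _
      intro x hx
      rw [Finset.mem_insert] at hx
      rcases hx with rfl | hx
      · exact hkB
      · exact h1 hx
    rw [Finset.sum_insert hkA] at h2
    have h3 := hv k (hsub B hB.1 hkB)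
    have h4 := hA.2.1
    have h5 := hB.2.2
    rw [hsA] at h4
    rw [hsB] at h5
    simp only [← hN] at h4 h5
    linarith
  calc S.card = (S.image Φ).card := (Finset.card_image_of_injOn hinj).symm
    _ ≤ _ := by
        have := hanti.sperner
        rwa [Fintype.card_coe] at this

private theorem central_sq (m : ℕ) : (Nat.centralBinom m) ^ 2 * (2 * m + 1) ≤ 16 ^ m := by
  induction m with
  | zero => simp
  | succ m ih =>
    have h := Nat.succ_mul_centralBinom_succ m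
    have h1 : (m + 1) ^ 2 * ((Nat.centralBinom (m + 1)) ^ 2 * (2 * (m + 1) + 1)) ≤
        (m + 1) ^ 2 * 16 ^ (m + 1) := by
      calc (m + 1) ^ 2 * ((Nat.centralBinom (m + 1)) ^ 2 * (2 * (m + 1) + 1))
          = ((m + 1) * Nat.centralBinom (m + 1)) ^ 2 * (2 * m + 3) := by ring
        _ = (2 * (2 * m + 1) * Nat.centralBinom m) ^ 2 * (2 * m + 3) := by rw [h]
        _ = (4 * (2 * m + 1) * (2 * m + 3)) * ((Nat.centralBinom m) ^ 2 * (2 * m + 1)) := by ring
        _ ≤ (4 * (2 * m + 1) * (2 * m + 3)) * 16 ^ m := Nat.mul_le_mul_left _ ih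
        _ ≤ (16 * (m + 1) ^ 2) * 16 ^ m := by
            apply Nat.mul_le_mul_right
            nlinarith
        _ = (m + 1) ^ 2 * 16 ^ (m + 1) := by ring
    exact Nat.le_of_mul_le_mul_left h1 (by positivity)

private theorem aux_real (x N P : ℝ) (hx : 0 ≤ x) (hN : 0 < N) (hP : 0 ≤ P)
    (h : x ^ 2 * N ≤ P ^ 2) : x ≤ P / √N := by
  have hs : 0 < √N := Real.sqrt_pos.mpr hN
  rw [le_div_iff₀ hs]
  have h2 : (x * √N) ^ 2 ≤ P ^ 2 := by
    rw [mul_pow, Real.sq_sqrt hN.le]; exact h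
  exact (sq_le_sq₀ (mul_nonneg hx hs.le) hP).mp h2

theorem choose_half (N : ℕ) (hN : 1 ≤ N) : (N.choose (N / 2) : ℝ) ≤ 2 ^ N / √N := by
  have hN0 : (0 : ℝ) < N := by exact_mod_cast hN
  apply aux_real _ _ _ (by positivity) hN0 (by positivity)
  rcases Nat.even_or_odd' N with ⟨m, rfl | rfl⟩
  · have h := central_sq m
    rw [Nat.centralBinom_eq_two_mul_choose] at h
    rw [Nat.mul_div_cancel_left m (by norm_num)]
    have h2 : ((2 * m).choose m) ^ 2 * (2 * m) ≤ 16 ^ m :=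
      le_trans (Nat.mul_le_mul_left _ (by omega)) h
    have h3 : (((2 * m).choose m : ℕ) : ℝ) ^ 2 * ((2 * m : ℕ) : ℝ) ≤ 16 ^ m := by
      exact_mod_cast h2
    calc _ ≤ (16 : ℝ) ^ m := h3
      _ = (2 ^ (2 * m)) ^ 2 := by
          rw [← pow_mul, show 2 * m * 2 = 4 * m by ring, pow_mul]; norm_num
  · have h := central_sq (m + 1)
    have h0 : Nat.centralBinom (m + 1) = 2 * (2 * m + 1).choose m := by
      rw [Nat.centralBinom_eq_two_mul_choose, show 2 * (m + 1) = (2 * m + 1) + 1 by ring,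
        Nat.choose_succ_succ, ← Nat.choose_symm_half m]
      ring
    rw [h0] at h
    have hd : (2 * m + 1) / 2 = m := by omega
    rw [hd]
    have h2 : ((2 * m + 1).choose m) ^ 2 * (2 * m + 1) * 4 ≤ 16 ^ (m + 1) := by
      refine le_trans ?_ h
      calc ((2 * m + 1).choose m) ^ 2 * (2 * m + 1) * 4
          = (2 * (2 * m + 1).choose m) ^ 2 * (2 * m + 1) := by ring
        _ ≤ _ := Nat.mul_le_mul_left _ (by omega)
    have h3 : (((2 * m + 1).choose m : ℕ) : ℝ) ^ 2 * ((2 * m + 1 : ℕ) : ℝ) * 4 ≤ 16 ^ (m + 1) := by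
      exact_mod_cast h2
    have h4 : ((2 : ℝ) ^ (2 * m + 1)) ^ 2 * 4 = 16 ^ (m + 1) := by
      rw [← pow_mul, show (2 * m + 1) * 2 = 4 * m + 2 by ring, pow_add, pow_mul, pow_succ]
      norm_num
      ring
    linarith

end Pool.Agent.Lib.MP_769d0b_pr
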