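import Pool.Agent.Lib.MP_769d0b_pr.Defs
import Pool.Agent.Lib.MP_7ab245_nt.Solv.DegDrop

/-!
LW-BadPrimes: few primes p with alpha^p = beta^p for conjugates.

PROOF.
Let `α` be a root of `G`. CLAIM: for `p` in `P`, `ℚ(α^p) ≠ ℚ(α)`: otherwise `α = h(α^p)` with `h ∈ ℚ[X]`, so `G` (irreducible over `ℚ`, Gauss; `IsPrimitive` as it is irreducible of degree ≥ 1) divides `X - h(X^p)` and every root satisfies `α_i = h(α_i^p)`, so `α_i^p = α_j^p` implies `α_i = α_j`. Contradiction.
So `[ℚ(α^p):ℚ] < [ℚ(α):ℚ] = natDegree G` and (Solv/DegDrop.lean, `deg_drop_count` with `r = 1`, `U = ⊤`, `m = 1`: `fld α m U = ℚ(α^m)`) `2^|P| ≤ natDegree G`. It may be easier to repeat the short proof of `deg_drop_count` for one number: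
`2^|P| [ℚ(α^{∏P}):ℚ] ≤ [ℚ(α):ℚ]` by induction: if `ℚ(α^{qp}) = ℚ(α^q)` with `(p,q) = 1`, then `α^q, α^p ∈ ℚ(α^p)`, so (Bezout, `α ≠ 0`) `α ∈ ℚ(α^p)`; and for fields `K < L`, `[L:ℚ] ≥ 2[K:ℚ]`.
-/

set_option autoImplicit false

open Finset Polynomial

namespace Pool.Agent.Lib.MP_769d0b_pr

open Pool.Agent.Lib.MP_7ab245_nt.Cnt Pool.Agent.Lib.MP_7ab245_nt.LogVar

private theorem cx_eval (G : ℤ[X]) (z : ℂ) :
    (cx G).eval z = aeval z (G.map (Int.castRingHom ℚ)) := by
  unfold cx
  rw [aeval_def, eval₂_map, eval_map]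
  congr 1

theorem bad_primes (G : ℤ[X]) (hG : Irreducible G) (hm : 1 ≤ G.natDegree) (h0 : G.coeff 0 ≠ 0)
    (P : Finset ℕ) (hP : ∀ p ∈ P, p.Prime ∧ ∃ α β : ℂ, (cx G).eval α = 0 ∧ (cx G).eval β = 0 ∧
      α ≠ β ∧ α ^ p = β ^ p) : 2 ^ P.card ≤ G.natDegree := by
  classical
  have hprim : G.IsPrimitive := hG.isPrimitive (by omega)
  have hirr : Irreducible (G.map (Int.castRingHom ℚ)) :=
    (IsPrimitive.Int.irreducible_iff_irreducible_map_cast hprim).mp hG
  have hdeg : (G.map (Int.castRingHom ℚ)).natDegree = G.natDegree :=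
    natDegree_map_eq_of_injective (Int.cast_injective) G
  -- a root
  obtain ⟨a, ha⟩ : ∃ a : ℂ, (cx G).eval a = 0 := by
    have : (cx G).degree ≠ 0 := by
      intro h
      have h1 : (cx G).natDegree = 0 := natDegree_eq_of_degree_eq_some h
      have h2 : (cx G).natDegree = G.natDegree :=
        natDegree_map_eq_of_injective (Int.cast_injective) G
      omega
    exact IsAlgClosed.exists_root (cx G) this
  have ha' : aeval a (G.map (Int.castRingHom ℚ)) = 0 := by rw [← cx_eval, ha]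
  have hane : a ≠ 0 := by
    rintro rfl
    rw [← coeff_zero_eq_eval_zero] at ha
    unfold cx at ha
    rw [coeff_map] at ha
    apply h0
    rw [eq_intCast] at ha
    exact_mod_cast ha
  have hint : IsIntegral ℚ a := by
    rw [← isAlgebraic_iff_isIntegral]
    exact ⟨_, hirr.ne_zero, ha'⟩
  have hmin : (minpoly ℚ a).natDegree ≤ G.natDegree := by
    rw [← hdeg]
    exact natDegree_le_of_dvd (minpoly.dvd ℚ a ha') hirr.ne_zero
  set α : Fin 1 → ℂ := fun _ => a with hα
  have hα0 : ∀ i, α i ≠ 0 := fun _ => hane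
  have hαi : ∀ i, IsIntegral ℚ (α i) := fun _ => hint
  have key := Pool.Agent.Lib.MP_7ab245_nt.Solv.deg_drop_count α hα0 hαi 1 ⊤ P ?_
  · refine key.trans ?_
    refine (Pool.Agent.Lib.MP_7ab245_nt.Solv.finrank_fld_le α hαi 1 ⊤).trans ?_
    have hbig : Pool.Agent.Lib.MP_7ab245_nt.Solv.big α ≤ IntermediateField.adjoin ℚ {a} := by
      unfold Pool.Agent.Lib.MP_7ab245_nt.Solv.big
      apply IntermediateField.adjoin.mono
      rintro x ⟨i, rfl⟩
      exact rfl
    have hfd : FiniteDimensional ℚ (IntermediateField.adjoin ℚ {a}) :=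
      IntermediateField.adjoin.finiteDimensional hint
    refine (LinearMap.finrank_le_finrank_of_injective
      (f := (IntermediateField.inclusion hbig).toLinearMap)
      (IntermediateField.inclusion_injective hbig)).trans ?_
    rw [IntermediateField.adjoin.finrank hint]
    exact hmin
  · intro p hp
    obtain ⟨hpp, b, c, hb, hc, hbc, hpow⟩ := hP p hp
    refine ⟨hpp, ?_⟩
    by_contra hcon
    push Not at hcon
    have heq := Pool.Agent.Lib.MP_7ab245_nt.Solv.fld_eq α hαi 1 p ⊤ hcon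
    have hmem : a ∈ Pool.Agent.Lib.MP_7ab245_nt.Solv.fld α 1 ⊤ := by
      unfold Pool.Agent.Lib.MP_7ab245_nt.Solv.fld
      refine IntermediateField.subset_adjoin _ _ ⟨fun _ => 1, AddSubgroup.mem_top _, ?_⟩
      simp [Pool.Agent.Lib.MP_7ab245_nt.Solv.mono, hα]
    rw [← heq] at hmem
    have hsub : Pool.Agent.Lib.MP_7ab245_nt.Solv.fld α (1 * p) ⊤ ≤
        IntermediateField.adjoin ℚ {a ^ p} := by
      unfold Pool.Agent.Lib.MP_7ab245_nt.Solv.fld
      rw [IntermediateField.adjoin_le_iff]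
      rintro _ ⟨e, -, rfl⟩
      have : Pool.Agent.Lib.MP_7ab245_nt.Solv.mono α (1 * p) e = (a ^ p) ^ (e 0) := by
        simp only [Pool.Agent.Lib.MP_7ab245_nt.Solv.mono, hα, Finset.univ_unique,
          Finset.prod_singleton, one_mul]
        rw [zpow_mul, zpow_natCast]
        rfl
      rw [this]
      exact zpow_mem (IntermediateField.subset_adjoin _ _ (Set.mem_singleton _)) _
    have hmem2 := hsub hmem
    have halg : IsAlgebraic ℚ (a ^ p) := (hint.pow p).isAlgebraic
    rw [← IntermediateField.mem_toSubalgebra,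
      IntermediateField.adjoin_simple_toSubalgebra_of_isAlgebraic halg,
      Algebra.adjoin_singleton_eq_range_aeval] at hmem2
    obtain ⟨h, hh⟩ := hmem2
    -- G divides h(X^p) - X
    have hdvd : G.map (Int.castRingHom ℚ) ∣ h.comp (X ^ p) - X := by
      have h1 : minpoly ℚ a ∣ h.comp (X ^ p) - X := by
        apply minpoly.dvd
        rw [map_sub, aeval_comp, map_pow, aeval_X, sub_eq_zero]
        exact hh
      have h2 : G.map (Int.castRingHom ℚ) * C (G.map (Int.castRingHom ℚ)).leadingCoeff⁻¹ =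
          minpoly ℚ a := minpoly.eq_of_irreducible hirr ha'
      exact (Dvd.intro _ h2).trans h1
    have hroot : ∀ z : ℂ, (cx G).eval z = 0 → z = aeval (z ^ p) h := by
      intro z hz
      rw [cx_eval] at hz
      obtain ⟨k, hk⟩ := hdvd
      have h3 : aeval z (h.comp (X ^ p) - X) = 0 := by
        rw [hk, map_mul, hz, zero_mul]
      rw [map_sub, aeval_comp, map_pow, aeval_X, sub_eq_zero] at h3
      exact h3.symm
    apply hbc
    rw [hroot b hb, hroot c hc, hpow]

end Pool.Agent.Lib.MP_769d0b_pr
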