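import Pool.Agent.Lib.MP_769d0b_pr.Defs

/-!
LW-Geo: pointwise bound of the weight of the bad points.

PROOF.
`n ≥ 2`: `0 < rr n < 1` (`0 < n^(-4/5) < 1`). `1 ≤ A1`: `max r ‖z‖ ≤ max 1 ‖z‖`; `1 ≤ A2, A3, A4`: numerator `≥` denominator `> 0`. Let `‖z‖ < 1`, `z` not good.
(i) `‖z‖ > rr n`: `A1 = 1/‖z‖`, the others `≥ 1`. (ii) `‖z‖ < 1 - 1/10^4`: `A2 ≥ ((1 - 1/(4·10^4))/‖z‖)² ≥ 1/‖z‖` as `(1 - 1/(4·10^4))² ≥ 1 - 1/10^4 ≥ ‖z‖`.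
(iii) else `|Im z| < 50 s`, `s = 1 - ‖z‖ ∈ (0, 1/10^4]`. Say `Re z ≥ 0` (else use `A4`, symmetric). `Re z ≥ ‖z‖ - 2500 s²/‖z‖` since `(‖z‖ - Re z)(‖z‖ + Re z) = (Im z)² ≤ 2500 s²` and
`‖z‖ + Re z ≥ ‖z‖`. So `4‖z - 1/2‖² = 4‖z‖² - 4 Re z + 1 ≤ (1 - 2‖z‖)² + 10^4 s²/‖z‖ = (1-2s)² + 10^4 s²/‖z‖ ≤ 1 - 4s + 4s² + 1.001·s·... ≤ 1 - 2s ≤ ‖z‖`
(`10^4 s² ≤ s`, `‖z‖ ≥ 0.9999`). Hence `A3 ≥ (1/2)²/‖z-1/2‖² = 1/(4‖z-1/2‖²) ≥ 1/‖z‖`.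
-/

set_option autoImplicit false

open Finset Polynomial

namespace Pool.Agent.Lib.MP_769d0b_pr

open Pool.Agent.Lib.MP_7ab245_nt.Cnt Pool.Agent.Lib.MP_7ab245_nt.LogVar

private theorem core_ineq (t x y : ℝ) (hx0 : 0 ≤ x) (hy0 : 0 ≤ y) (ht : t ^ 2 = x ^ 2 + y)
    (hy : y ≤ 2500 * (1 - t) ^ 2) (hD : 1 - t ≤ 1 / 10000) (hD0 : 0 < 1 - t) :
    4 * t ^ 2 - 4 * x + 1 ≤ t := by
  have hDD : (1 - t) ^ 2 ≤ 1 / 10000 * (1 - t) := by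
    have := mul_le_mul_of_nonneg_right hD hD0.le
    calc (1 - t) ^ 2 = (1 - t) * (1 - t) := by ring
      _ ≤ _ := this
  have hy1 : y ≤ 1 / 4 * (1 - t) := by linarith
  have h5 : t - 101 / 100 * y ≤ x := by
    by_contra h6
    push Not at h6
    have h7 : 0 < (t - 101 / 100 * y - x) * (t - 101 / 100 * y + x) :=
      mul_pos (by linarith) (by linarith)
    have h8 : 0 ≤ y * (202 / 100 * t - 1 - 10201 / 10000 * y) :=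
      mul_nonneg hy0 (by linarith)
    nlinarith [h7, h8, ht]
  nlinarith [h5, hDD, hy]

private theorem rr_pos (n : ℕ) (hn : 2 ≤ n) : 0 < rr n ∧ rr n ≤ 1 := by
  have h0 : (0 : ℝ) < (n : ℝ) ^ (-(4 / 5) : ℝ) := by positivity
  have h1 : (n : ℝ) ^ (-(4 / 5) : ℝ) < 1 :=
    Real.rpow_lt_one_of_one_lt_of_neg (by exact_mod_cast (by omega : 1 < n)) (by norm_num)
  unfold rr dl
  constructor <;> linarith

private theorem gen_ineq (t : ℝ) (ht0 : 0 < t) (w : ℂ) (hw : 0 < ‖w‖) (hw4 : 4 * ‖w‖ ^ 2 ≤ t) :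
    t⁻¹ ≤ (max (1 / 2) ‖w‖ / ‖w‖) ^ 2 := by
  have h6 : (1 / 2 : ℝ) / ‖w‖ ≤ max (1 / 2) ‖w‖ / ‖w‖ := by
    gcongr
    exact le_max_left _ _
  calc t⁻¹ ≤ ((1 / 2 : ℝ) / ‖w‖) ^ 2 := by
        rw [div_pow, inv_eq_one_div, div_le_div_iff₀ ht0 (by positivity)]
        linarith
    _ ≤ _ := by gcongr

private theorem rad_ineq (t : ℝ) (ht0 : 0 < t) (h2 : t < 1 - 1 / 10 ^ 4) :
    t⁻¹ ≤ (max (1 - 1 / (4 * 10 ^ 4)) t / t) ^ 2 := by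
  have h3 : (1 - 1 / (4 * 10 ^ 4) : ℝ) / t ≤ max (1 - 1 / (4 * 10 ^ 4)) t / t := by
    gcongr
    exact le_max_left _ _
  have h4 : (0 : ℝ) < 1 - 1 / (4 * 10 ^ 4) := by norm_num
  calc t⁻¹ ≤ ((1 - 1 / (4 * 10 ^ 4) : ℝ) / t) ^ 2 := by
        rw [div_pow, inv_eq_one_div, div_le_div_iff₀ ht0 (by positivity)]
        have h5 : t * t ≤ t * (1 - 1 / (4 * 10 ^ 4)) ^ 2 := by
          refine mul_le_mul_of_nonneg_left ?_ ht0.le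
          norm_num at h2 ⊢
          linarith
        calc 1 * t ^ 2 = t * t := by ring
          _ ≤ _ := h5
          _ = _ := by ring
    _ ≤ _ := by gcongr

private theorem stolz_ineq (z : ℂ) (h2 : 1 - 1 / 10 ^ 4 ≤ ‖z‖) (hlt : ‖z‖ < 1)
    (h3 : |z.im| < 50 * (1 - ‖z‖)) :
    (0 ≤ z.re → 4 * ‖z - 1 / 2‖ ^ 2 ≤ ‖z‖) ∧ (z.re ≤ 0 → 4 * ‖z - -(1 / 2)‖ ^ 2 ≤ ‖z‖) := by
  have hyy : z.im ^ 2 ≤ 2500 * (1 - ‖z‖) ^ 2 := by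
    rw [← sq_abs z.im]
    calc |z.im| ^ 2 ≤ (50 * (1 - ‖z‖)) ^ 2 := pow_le_pow_left₀ (abs_nonneg _) h3.le 2
      _ = _ := by ring
  have hD : (1 - ‖z‖) ≤ 1 / 10000 := by norm_num at h2 ⊢; linarith
  have hD0 : 0 < 1 - ‖z‖ := by linarith
  have hsq : ‖z‖ ^ 2 = z.re ^ 2 + z.im ^ 2 := by
    rw [Complex.sq_norm, Complex.normSq_apply]
    ring
  constructor
  · intro h4
    have h5 := core_ineq ‖z‖ z.re (z.im ^ 2) h4 (sq_nonneg _) hsq hyy hD hD0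
    have h6 : ‖z - 1 / 2‖ ^ 2 = z.re ^ 2 + z.im ^ 2 - z.re + 1 / 4 := by
      rw [Complex.sq_norm, Complex.normSq_apply]
      simp only [Complex.sub_re, Complex.sub_im]
      have e1 : (1 / 2 : ℂ).re = 1 / 2 := by norm_num
      have e2 : (1 / 2 : ℂ).im = 0 := by norm_num
      rw [e1, e2]
      ring
    rw [h6]
    linarith
  · intro h4
    have h5 := core_ineq ‖z‖ (-z.re) (z.im ^ 2) (by linarith) (sq_nonneg _) (by rw [hsq]; ring)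
      hyy hD hD0
    have h6 : ‖z - -(1 / 2)‖ ^ 2 = z.re ^ 2 + z.im ^ 2 + z.re + 1 / 4 := by
      rw [Complex.sq_norm, Complex.normSq_apply]
      simp only [Complex.sub_re, Complex.sub_im, Complex.neg_re, Complex.neg_im]
      have e1 : (1 / 2 : ℂ).re = 1 / 2 := by norm_num
      have e2 : (1 / 2 : ℂ).im = 0 := by norm_num
      rw [e1, e2]
      ring
    rw [h6]
    linarith

theorem geo (n : ℕ) (hn : 2 ≤ n) (z : ℂ) (hz : z ≠ 0) (h3 : z ≠ 1 / 2) (h4 : z ≠ -(1 / 2)) :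
    1 ≤ A1 n z * A2 z * A3 z * A4 z ∧
      (‖z‖ < 1 → ¬ good n z → ‖z‖⁻¹ ≤ A1 n z * A2 z * A3 z * A4 z) := by
  obtain ⟨hr0, hr1⟩ := rr_pos n hn
  have ht0 : 0 < ‖z‖ := norm_pos_iff.mpr hz
  have hA1 : 1 ≤ A1 n z := by
    unfold A1
    rw [one_le_div (lt_of_lt_of_le hr0 (le_max_left _ _))]
    exact max_le_max hr1 le_rfl
  have hA2 : 1 ≤ A2 z := by
    refine one_le_pow₀ ?_
    rw [one_le_div ht0]
    exact le_max_right _ _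
  have hp1 : 0 < ‖z - 1 / 2‖ := norm_pos_iff.mpr (sub_ne_zero.mpr h3)
  have hp2 : 0 < ‖z - -(1 / 2)‖ := norm_pos_iff.mpr (sub_ne_zero.mpr h4)
  have hA3 : 1 ≤ A3 z := by
    refine one_le_pow₀ ?_
    rw [one_le_div hp1]
    exact le_max_right _ _
  have hA4 : 1 ≤ A4 z := by
    refine one_le_pow₀ ?_
    rw [one_le_div hp2]
    exact le_max_right _ _
  have h12 : 1 ≤ A1 n z * A2 z := one_le_mul_of_one_le_of_one_le hA1 hA2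
  have h123 : 1 ≤ A1 n z * A2 z * A3 z := one_le_mul_of_one_le_of_one_le h12 hA3
  refine ⟨one_le_mul_of_one_le_of_one_le h123 hA4, fun hlt hng => ?_⟩
  rcases lt_or_ge (rr n) ‖z‖ with h1 | h1
  · calc ‖z‖⁻¹ = A1 n z := by
          unfold A1
          rw [max_eq_left hlt.le, max_eq_right h1.le, one_div]
      _ ≤ A1 n z * A2 z := le_mul_of_one_le_right (by linarith) hA2
      _ ≤ A1 n z * A2 z * A3 z := le_mul_of_one_le_right (by linarith) hA3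
      _ ≤ _ := le_mul_of_one_le_right (by linarith) hA4
  rcases lt_or_ge ‖z‖ (1 - 1 / 10 ^ 4) with h2 | h2
  · calc ‖z‖⁻¹ ≤ A2 z := rad_ineq _ ht0 h2
      _ ≤ A1 n z * A2 z := le_mul_of_one_le_left (by linarith) hA1
      _ ≤ A1 n z * A2 z * A3 z := le_mul_of_one_le_right (by linarith) hA3
      _ ≤ _ := le_mul_of_one_le_right (by linarith) hA4
  have h5 : |z.im| < 50 * (1 - ‖z‖) := by
    by_contra h6
    exact hng ⟨h2, h1, not_lt.mp h6⟩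
  obtain ⟨s1, s2⟩ := stolz_ineq z h2 hlt h5
  rcases le_total 0 z.re with h6 | h6
  · calc ‖z‖⁻¹ ≤ A3 z := gen_ineq _ ht0 _ hp1 (s1 h6)
      _ ≤ A1 n z * A2 z * A3 z := le_mul_of_one_le_left (by linarith) h12
      _ ≤ _ := le_mul_of_one_le_right (by linarith) hA4
  · calc ‖z‖⁻¹ ≤ A4 z := gen_ineq _ ht0 _ hp2 (s2 h6)
      _ ≤ _ := le_mul_of_one_le_left (by linarith) h123

end Pool.Agent.Lib.MP_769d0b_pr
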