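import Pool.Agent.Lib.MP_769d0b_pr.MMcomp

/-!
LW-Rad: Landau inequality on the circle of radius rho.

PROOF.
`p.comp (C 0 + C ρ X)` has coefficients `a_k ρ^k` (`Polynomial.comp_C_mul_X_coeff`), and
`Polynomial.mahlerMeasure_le_sqrt_sum_sq_norm_coeff`: `mcr² ≤ ∑_k ‖a_k‖² ρ^(2k) ≤ ∑ ρ^(2k) ≤ 1/(1-ρ²)` (geometric series).
-/

set_option autoImplicit false

open Finset Polynomial

namespace Pool.Agent.Lib.MP_769d0b_pr

open Pool.Agent.Lib.MP_7ab245_nt.Cnt Pool.Agent.Lib.MP_7ab245_nt.LogVar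

theorem mcr_rad (p : ℂ[X]) (hp : ∀ k, ‖p.coeff k‖ ≤ 1) (ρ : ℝ) (h0 : 0 < ρ) (h1 : ρ < 1) :
    mcr p 0 ρ ^ 2 ≤ 1 / (1 - ρ ^ 2) := by
  have h2 : ρ ^ 2 < 1 := by nlinarith
  have h3 : p.comp (C 0 + C (ρ : ℂ) * X) = p.comp (C (ρ : ℂ) * X) := by rw [C_0, zero_add]
  unfold mcr
  have h4 : (p.comp (C 0 + C (ρ : ℂ) * X)).mahlerMeasure ^ 2 ≤
      ∑ i ∈ Finset.range (p.natDegree + 1), (ρ ^ 2) ^ i := by
    have h5 := mahlerMeasure_le_sqrt_sum_sq_norm_coeff (p.comp (C 0 + C (ρ : ℂ) * X))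
    have h6 : (∑ i ∈ (p.comp (C 0 + C (ρ : ℂ) * X)).support,
        ‖(p.comp (C 0 + C (ρ : ℂ) * X)).coeff i‖ ^ 2) ≤
        ∑ i ∈ Finset.range (p.natDegree + 1), (ρ ^ 2) ^ i := by
      refine (Finset.sum_le_sum_of_subset_of_nonneg (t := Finset.range (p.natDegree + 1)) ?_
        (fun _ _ _ => by positivity)).trans (Finset.sum_le_sum fun i _ => ?_)
      · intro i hi
        rw [Finset.mem_range]
        have h7 := le_natDegree_of_mem_supp _ hi
        rw [natDegree_comp] at h7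
        have h8 : (C 0 + C (ρ : ℂ) * X).natDegree ≤ 1 := by
          rw [C_0, zero_add]
          exact (natDegree_C_mul_le _ _).trans natDegree_X_le
        have h9 : p.natDegree * (C 0 + C (ρ : ℂ) * X).natDegree ≤ p.natDegree * 1 :=
          Nat.mul_le_mul_left _ h8
        omega
      · rw [h3, comp_C_mul_X_coeff, norm_mul, norm_pow, Complex.norm_real,
          Real.norm_of_nonneg h0.le, mul_pow, ← pow_mul, ← pow_mul, mul_comm i 2]
        have h10 : ‖p.coeff i‖ ^ 2 ≤ 1 := by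
          have := hp i
          have := norm_nonneg (p.coeff i)
          nlinarith
        exact mul_le_of_le_one_left (by positivity) h10
    have h11 : 0 ≤ (p.comp (C 0 + C (ρ : ℂ) * X)).mahlerMeasure := mahlerMeasure_nonneg _
    calc (p.comp (C 0 + C (ρ : ℂ) * X)).mahlerMeasure ^ 2 ≤
        (√(∑ i ∈ (p.comp (C 0 + C (ρ : ℂ) * X)).support,
          ‖(p.comp (C 0 + C (ρ : ℂ) * X)).coeff i‖ ^ 2)) ^ 2 := by gcongr
      _ = _ := Real.sq_sqrt (Finset.sum_nonneg fun _ _ => by positivity)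
      _ ≤ _ := h6
  rw [le_div_iff₀ (by linarith), mul_comm]
  calc (1 - ρ ^ 2) * (p.comp (C 0 + C (ρ : ℂ) * X)).mahlerMeasure ^ 2 ≤
      (1 - ρ ^ 2) * ∑ i ∈ Finset.range (p.natDegree + 1), (ρ ^ 2) ^ i :=
        mul_le_mul_of_nonneg_left h4 (by linarith)
    _ = 1 - (ρ ^ 2) ^ (p.natDegree + 1) := mul_neg_geom_sum _ _
    _ ≤ 1 := by
        have : 0 ≤ (ρ ^ 2) ^ (p.natDegree + 1) := by positivity
        linarith

end Pool.Agent.Lib.MP_769d0b_pr
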