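import Pool.Agent.Lib.MP_769d0b_pr.MMcomp

/-!
LW-Stolz: M(p(1/2 + x/2)) <= 8 for coefficients bounded by 1.

PROOF.
`g = (1 - X)^2 * p`. On `‖ζ‖ = 1`, `x = 1/2 + ζ/2`: `‖x‖² = (1 + Re ζ)/2 = Re x`, `‖1-x‖² = 1 - 2 Re x + ‖x‖² = 1 - ‖x‖²`. If `x ≠ 1` then `‖x‖ < 1`,
`‖p(x)‖ ≤ ∑ ‖x‖^k ≤ 1/(1-‖x‖)`, so `‖g(x)‖ ≤ (1-‖x‖²)/(1-‖x‖) = 1 + ‖x‖ ≤ 2`; if `x = 1`, `g(x) = 0`. So the polynomial
`g.comp (C (1/2) + C (1/2) X)` has norm `≤ 2` on the unit circle, hence Mahler measure `≤ 2`: `mahlerMeasure = exp (circleAverage (log ‖·‖) 0 1)` (definition),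
`circleAverage_mono_on_of_le_circle` (the integrability: `Polynomial`/meromorphic lemma used in Mathlib's MahlerMeasure file; or use Mathlib's
`mahlerMeasure_le_...supNorm`-type lemma if one without a factor exists; alternative without integrals: apply `mahlerMeasure_le_sqrt_natDegree_add_one_mul_supNorm` to the powers `g^k`
and let `k → ∞`). Multiplicativity: measure of `((1 - X)^2).comp = (1/2 - X/2)^2` is `1/4` (`mahlerMeasure_C_mul_X_add_C`), so `mcr p (1/2) (1/2) ≤ 8`. If `p = 0`: `0 ≤ 8`.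
`mcr_neg_half`: apply it to `p.comp (-X)`; by `mcr_eq` (roots negated) or directly `M(q(-x)) = M(q(x))`.
-/

set_option autoImplicit false

open Finset Polynomial

namespace Pool.Agent.Lib.MP_769d0b_pr

open Pool.Agent.Lib.MP_7ab245_nt.Cnt Pool.Agent.Lib.MP_7ab245_nt.LogVar

open Filter MeasureTheory Set in
/-- The Mahler measure is at most the sup on the unit circle. -/
private theorem mm_le_sup (p : ℂ[X]) (B : ℝ) (hB : 0 < B)
    (h : ∀ z : ℂ, ‖z‖ = 1 → ‖p.eval z‖ ≤ B) : p.mahlerMeasure ≤ B := by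
  by_cases hp : p = 0
  · simp [hp, hB.le]
  rw [show B = Real.exp (Real.circleAverage (fun _ ↦ Real.log B) 0 1)
    by simp [Real.circleAverage_def, mul_assoc, Real.exp_log hB], mahlerMeasure_def_of_ne_zero hp,
    Real.circleAverage_def, smul_eq_mul]
  have hpi := Real.pi_pos
  gcongr
  apply intervalIntegral.integral_mono_ae_restrict (by positivity)
    p.intervalIntegrable_mahlerMeasure (by simp)
  rw [EventuallyLE, eventually_iff_exists_mem]
  use {x : ℝ | eval (circleMap 0 1 x) p ≠ 0}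
  constructor
  · rw [mem_ae_iff, compl_def, Measure.restrict_apply' (by simp)]
    apply (Finite.of_sdiff _ <| finite_singleton (2 * Real.pi)).measure_zero
    simp only [ne_eq, mem_ofPred_eq, Decidable.not_not, inter_sdiff_assoc, Icc_sdiff_right]
    rw [ofPred_inter_eq_sep]
    apply Finite.of_finite_image (f := circleMap 0 1) ((Multiset.finite_toSet p.roots).subset _)
      <| fun _ h _ k l ↦ injOn_circleMap_of_abs_sub_le' one_ne_zero (by linarith) h.1 k.1 l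
    simp [hp]
  · intro y hy
    exact Real.log_le_log (norm_pos_iff.mpr hy) (h _ (by simp))

private theorem norm_eval_mul_le (P : ℂ[X]) (h1 : ∀ k, ‖P.coeff k‖ ≤ 1) (x : ℂ) (hx : ‖x‖ ≤ 1) :
    (1 - ‖x‖) * ‖P.eval x‖ ≤ 1 := by
  have h2 : ‖P.eval x‖ ≤ ∑ i ∈ Finset.range (P.natDegree + 1), ‖x‖ ^ i := by
    rw [eval_eq_sum_range]
    refine (norm_sum_le _ _).trans (Finset.sum_le_sum fun i _ => ?_)
    rw [norm_mul, norm_pow]
    exact mul_le_of_le_one_left (by positivity) (h1 i)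
  calc (1 - ‖x‖) * ‖P.eval x‖
      ≤ (1 - ‖x‖) * ∑ i ∈ Finset.range (P.natDegree + 1), ‖x‖ ^ i :=
        mul_le_mul_of_nonneg_left h2 (by linarith)
    _ = 1 - ‖x‖ ^ (P.natDegree + 1) := mul_neg_geom_sum _ _
    _ ≤ 1 := by
        have : 0 ≤ ‖x‖ ^ (P.natDegree + 1) := by positivity
        linarith

/-- `M(P(ε/2 + x/2)) ≤ 8` for `ε = 1` and `ε = -1`. -/
private theorem mm_half (P : ℂ[X]) (h1 : ∀ k, ‖P.coeff k‖ ≤ 1) (e : ℂ) (he : e = 1 ∨ e = -1) :
    (P.comp (C (e / 2) + C (((1 / 2 : ℝ)) : ℂ) * X)).mahlerMeasure ≤ 8 := by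
  have hee : e * e = 1 := by rcases he with h | h <;> rw [h] <;> norm_num
  have hA : ((((1 : ℂ[X]) - C e * X) ^ 2 * P).comp
      (C (e / 2) + C (((1 / 2 : ℝ)) : ℂ) * X)).mahlerMeasure ≤ 2 := by
    refine mm_le_sup _ 2 (by norm_num) fun y hy => ?_
    rw [eval_comp]
    set x : ℂ := (C (e / 2) + C (((1 / 2 : ℝ)) : ℂ) * X).eval y with hxdef
    have hx : x = e / 2 + y / 2 := by
      rw [hxdef]
      simp
      ring
    have hpar : ‖1 - e * x‖ ^ 2 + ‖x‖ ^ 2 = 1 := by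
      have hy2 : y.re ^ 2 + y.im ^ 2 = 1 := by
        have := Complex.sq_norm y
        rw [hy, Complex.normSq_apply] at this
        nlinarith [this]
      rw [hx, Complex.sq_norm, Complex.sq_norm, Complex.normSq_apply, Complex.normSq_apply]
      rcases he with h | h
      · rw [h]
        simp
        nlinarith [hy2]
      · rw [h]
        simp
        nlinarith [hy2]
    have hx1 : ‖x‖ ≤ 1 := by
      have : ‖x‖ ^ 2 ≤ 1 := by nlinarith [sq_nonneg ‖1 - e * x‖]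
      nlinarith [norm_nonneg x]
    have hev : ((((1 : ℂ[X]) - C e * X) ^ 2 * P).eval x) = (1 - e * x) ^ 2 * P.eval x := by
      simp
    rw [hev, norm_mul, norm_pow]
    have h3 : ‖1 - e * x‖ ^ 2 = (1 + ‖x‖) * (1 - ‖x‖) := by nlinarith
    rw [h3, mul_assoc]
    have h4 := norm_eval_mul_le P h1 x hx1
    have h5 : 0 ≤ (1 - ‖x‖) * ‖P.eval x‖ := mul_nonneg (by linarith) (norm_nonneg _)
    nlinarith [norm_nonneg x]
  have hB : (((1 : ℂ[X]) - C e * X).comp
      (C (e / 2) + C (((1 / 2 : ℝ)) : ℂ) * X)).mahlerMeasure = 1 / 2 := by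
    have h6 : ((1 : ℂ[X]) - C e * X).comp (C (e / 2) + C (((1 / 2 : ℝ)) : ℂ) * X)
        = C (-e / 2) * X + C (1 / 2 : ℂ) := by
      simp only [sub_comp, one_comp, mul_comp, C_comp, X_comp, mul_add]
      rw [← mul_assoc, ← C_mul, ← C_mul]
      have h7 : e * (e / 2) = 1 / 2 := by rw [← mul_div_assoc, hee]
      rw [h7, show (1 : ℂ[X]) = C (1 / 2 : ℂ) + C (1 / 2 : ℂ) by
        rw [← C_add]; norm_num,
        show -e / 2 = -(e * (((1 / 2 : ℝ)) : ℂ)) by push_cast; ring, C_neg]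
      ring
    have he0 : -e / 2 ≠ 0 := by rcases he with h | h <;> rw [h] <;> norm_num
    rw [h6, mahlerMeasure_C_mul_X_add_C he0]
    have h8 : ‖-e / 2‖ = 1 / 2 := by rcases he with h | h <;> rw [h] <;> simp
    have h9 : ‖(1 / 2 : ℂ)‖ = 1 / 2 := by simp
    rw [h8, h9, max_self]
  rw [mul_comp, pow_comp, mahlerMeasure_mul, pow_two, mahlerMeasure_mul, hB] at hA
  linarith

theorem mcr_half (p : ℂ[X]) (hp : ∀ k, ‖p.coeff k‖ ≤ 1) : mcr p (1 / 2) (1 / 2) ≤ 8 :=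
  mm_half p hp 1 (Or.inl rfl)

theorem mcr_neg_half (p : ℂ[X]) (hp : ∀ k, ‖p.coeff k‖ ≤ 1) : mcr p (-(1 / 2)) (1 / 2) ≤ 8 := by
  have h := mm_half p hp (-1) (Or.inr rfl)
  rw [show (-1 : ℂ) / 2 = -(1 / 2) by ring] at h
  exact h

end Pool.Agent.Lib.MP_769d0b_pr
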