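import Pool.Agent.Lib.MP_769d0b_pr.Basic
import Pool.Agent.Lib.MP_769d0b_pr.Rad
import Pool.Agent.Lib.MP_769d0b_pr.Stolz
import Pool.Agent.Lib.MP_769d0b_pr.Geo

/-!
LW-BadProd: the product over the bad zeros is at most n^(15/100).

PROOF.
`P = cx (PE b d E)`, roots `z ≠ 0` (`P(0) ≠ 0`), `≠ ±1/2` (not Ev3: `P(±1/2) ≠ 0`). By `geo` and monotonicity of products
(`Multiset.prod_map_le_prod_map₀` ; `bw n z ≤ A1 A2 A3 A4`), `∏ bw ≤ (∏ A1)(∏ A2)(∏ A3)(∏ A4)` (`Multiset.prod_map_mul`). With `mcr_eq`, `eval_eq_prod`, `‖lc‖ = 1`, `‖P(0)‖ = 1`: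
`∏ A1 = mcr P 0 1 / mcr P 0 (rr n) ≤ √(n+1)/n^(38/100)` (MM_le, mcr_one, not Ev1); `∏ A2 = (mcr P 0 r₂/‖P(0)‖)² ≤ 1/(1 - r₂²) ≤ 4·10^4`, `r₂ = 1 - 1/(4·10^4)` (mcr_rad);
`∏ A3 = (mcr P (1/2) (1/2)/‖P(1/2)‖)² ≤ (8 n^(1/400))²`, the same for `A4`. Total `≤ √(n+1) n^(-38/100) · 4·10^4 · 64² n^(1/100) ≤ 2·4·10^4·4096·n^(13/100) ≤ n^(15/100)` for large `n`.
-/

set_option autoImplicit false

open Finset Polynomial

namespace Pool.Agent.Lib.MP_769d0b_pr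

open Pool.Agent.Lib.MP_7ab245_nt.Cnt Pool.Agent.Lib.MP_7ab245_nt.LogVar

private theorem bad_prod_aux {n : ℕ} {b : ℤ[X]} {d : ℤ} (h : MD n b d) {E : Finset ℕ}
    (hE : E ⊆ Ioo 0 n) (h1 : ¬ Ev1 n b d E) (h3 : ¬ Ev3 n b d E) :
    ((cx (PE b d E)).roots.map (bw n)).prod ≤
      √(n + 1) / (n : ℝ) ^ (38 / 100 : ℝ) * (4 * 10 ^ 4) * (64 / ((n : ℝ) ^ (-(1 / 400) : ℝ)) ^ 2) *
        (64 / ((n : ℝ) ^ (-(1 / 400) : ℝ)) ^ 2) := by
  obtain ⟨c1, c2, c3, c4, c5⟩ := h.cx_facts hE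
  set P := cx (PE b d E) with hP
  have hn0 : (0 : ℝ) < n := by
    have := h.pos
    exact_mod_cast (by omega : 0 < n)
  have hev : ∀ y, ev b d E y = P.eval y := fun y => rfl
  unfold Ev3 at h3
  rw [not_or, not_lt, not_lt, hev, hev] at h3
  unfold Ev1 at h1
  rw [not_lt, ← hP] at h1
  set α : ℝ := (n : ℝ) ^ (-(1 / 400) : ℝ) with hα
  have hα0 : 0 < α := by positivity
  set β : ℝ := (n : ℝ) ^ (38 / 100 : ℝ) with hβ
  have hβ0 : 0 < β := by positivity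
  have hr0 : 0 < rr n ∧ rr n ≤ 1 := by
    have h0 : (0 : ℝ) < (n : ℝ) ^ (-(4 / 5) : ℝ) := by positivity
    have h1 : (n : ℝ) ^ (-(4 / 5) : ℝ) < 1 :=
      Real.rpow_lt_one_of_one_lt_of_neg (by exact_mod_cast h.pos) (by norm_num)
    unfold rr dl
    constructor <;> linarith
  have hroot : ∀ z ∈ P.roots, z ≠ 0 ∧ z ≠ 1 / 2 ∧ z ≠ -(1 / 2) := by
    intro z hz
    have hz0 : P.eval z = 0 := (mem_roots c5).mp hz
    refine ⟨?_, ?_, ?_⟩
    · rintro rfl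
      rw [← coeff_zero_eq_eval_zero] at hz0
      rw [hz0] at c2
      simp at c2
    · rintro rfl
      rw [hz0, norm_zero] at h3
      linarith [h3.1]
    · rintro rfl
      rw [hz0, norm_zero] at h3
      linarith [h3.2]
  -- the pointwise bound
  have hpt : (P.roots.map (bw n)).prod ≤
      (P.roots.map (fun z => A1 n z * A2 z * A3 z * A4 z)).prod := by
    refine Multiset.prod_map_le_prod_map₀ _ _ (fun z _ => ?_) (fun z hz => ?_)
    · unfold bw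
      split_ifs
      · positivity
      · norm_num
    · obtain ⟨g1, g2⟩ := geo n h.pos z (hroot z hz).1 (hroot z hz).2.1 (hroot z hz).2.2
      unfold bw
      split_ifs with hb
      · exact g2 hb.1 hb.2
      · exact g1
  refine hpt.trans ?_
  rw [Multiset.prod_map_mul, Multiset.prod_map_mul, Multiset.prod_map_mul]
  have hpos1 : 0 < (P.roots.map (fun z => max (rr n) ‖z - 0‖)).prod :=
    Multiset.prod_pos fun a ha => by
      obtain ⟨w, _, rfl⟩ := Multiset.mem_map.mp ha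
      exact lt_of_lt_of_le hr0.1 (le_max_left _ _)
  -- A1
  have hA1 : (P.roots.map (A1 n)).prod ≤ √(n + 1) / β := by
    have e1 : (P.roots.map (A1 n)).prod = (P.roots.map (fun z => max 1 ‖z - 0‖)).prod /
        (P.roots.map (fun z => max (rr n) ‖z - 0‖)).prod := by
      rw [← Multiset.prod_map_div]
      refine congrArg Multiset.prod (Multiset.map_congr rfl fun z _ => ?_)
      simp only [A1, sub_zero]
    have e2 := mcr_eq P 0 1 one_pos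
    have e3 := mcr_eq P 0 (rr n) hr0.1
    rw [c3, one_mul] at e2 e3
    rw [e1, ← e2, ← e3, mcr_one]
    have e4 : P.mahlerMeasure ≤ √(n + 1) := h.MM_le hE
    have e5 : 0 ≤ P.mahlerMeasure := mahlerMeasure_nonneg _
    gcongr
  -- A2
  have hA2 : (P.roots.map A2).prod ≤ 4 * 10 ^ 4 := by
    have hr2 : (0 : ℝ) < 1 - 1 / (4 * 10 ^ 4) := by norm_num
    have hr2' : (1 - 1 / (4 * 10 ^ 4) : ℝ) < 1 := by norm_num
    have e1 : (P.roots.map A2).prod = ((P.roots.map (fun z =>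
        max (1 - 1 / (4 * 10 ^ 4)) ‖z - 0‖)).prod / (P.roots.map (fun z => ‖z - 0‖)).prod) ^ 2 := by
      rw [← Multiset.prod_map_div, ← Multiset.prod_map_pow]
      refine congrArg Multiset.prod (Multiset.map_congr rfl fun z _ => ?_)
      simp only [A2, sub_zero]
    have e2 := mcr_eq P 0 _ hr2
    have e3 := eval_eq_prod P 0
    rw [← coeff_zero_eq_eval_zero, c2] at e3
    rw [c3, one_mul] at e2 e3
    rw [e1, ← e2, ← e3, div_one]
    refine (mcr_rad P c1 _ hr2 hr2').trans ?_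
    norm_num
  have hX : ∀ (c : ℂ), α ≤ ‖P.eval c‖ → mcr P c (1 / 2) ≤ 8 →
      (P.roots.map (fun z => (max (1 / 2) ‖z - c‖ / ‖z - c‖) ^ 2)).prod ≤ 64 / α ^ 2 := by
    intro c hc hm
    have e1 : (P.roots.map (fun z => (max (1 / 2) ‖z - c‖ / ‖z - c‖) ^ 2)).prod =
        ((P.roots.map (fun z => max (1 / 2) ‖z - c‖)).prod /
          (P.roots.map (fun z => ‖z - c‖)).prod) ^ 2 := by
      rw [← Multiset.prod_map_div, ← Multiset.prod_map_pow]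
    have e2 := mcr_eq P c (1 / 2) (by norm_num)
    have e3 := eval_eq_prod P c
    rw [c3, one_mul] at e2 e3
    rw [e1, ← e2, ← e3, div_pow]
    have e4 : 0 < mcr P c (1 / 2) := mcr_pos P c5 c (1 / 2) (by norm_num)
    have e5 : mcr P c (1 / 2) ^ 2 ≤ 64 := by nlinarith
    gcongr
  have hA3 : (P.roots.map A3).prod ≤ 64 / α ^ 2 := hX (1 / 2) h3.1 (mcr_half P c1)
  have hA4 : (P.roots.map A4).prod ≤ 64 / α ^ 2 := hX (-(1 / 2)) h3.2 (mcr_neg_half P c1)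
  have nn : ∀ f : ℂ → ℝ, (∀ z, 0 ≤ f z) → 0 ≤ (P.roots.map f).prod := fun f hf =>
    Multiset.prod_nonneg fun a ha => by
      obtain ⟨w, _, rfl⟩ := Multiset.mem_map.mp ha
      exact hf w
  have n2 : 0 ≤ (P.roots.map A2).prod := nn _ fun z => by unfold A2; positivity
  have n3 : 0 ≤ (P.roots.map A3).prod := nn _ fun z => by unfold A3; positivity
  have n4 : 0 ≤ (P.roots.map A4).prod := nn _ fun z => by unfold A4; positivity
  gcongr

private theorem numeric : ∃ N : ℕ, ∀ n : ℕ, N ≤ n →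
      √(n + 1) / (n : ℝ) ^ (38 / 100 : ℝ) * (4 * 10 ^ 4) * (64 / ((n : ℝ) ^ (-(1 / 400) : ℝ)) ^ 2) *
        (64 / ((n : ℝ) ^ (-(1 / 400) : ℝ)) ^ 2) ≤ TN n := by
  have h1 : Filter.Tendsto (fun n : ℕ => (n : ℝ) ^ (2 / 100 : ℝ)) Filter.atTop Filter.atTop :=
    (tendsto_rpow_atTop (by norm_num)).comp tendsto_natCast_atTop_atTop
  obtain ⟨N, hN⟩ := (h1.eventually_ge_atTop (2 * (4 * 10 ^ 4) * 64 * 64)).exists_forall_of_atTop
  refine ⟨max N 1, fun n hn => ?_⟩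
  have hn1 : 1 ≤ n := le_trans (le_max_right _ _) hn
  have hn0 : (0 : ℝ) < n := by exact_mod_cast hn1
  have h2 := hN n (le_trans (le_max_left _ _) hn)
  have h3 : √((n : ℝ) + 1) ≤ 2 * (n : ℝ) ^ (1 / 2 : ℝ) := by
    rw [← Real.sqrt_eq_rpow]
    calc √((n : ℝ) + 1) ≤ √(4 * n) := by
          apply Real.sqrt_le_sqrt
          have : (1 : ℝ) ≤ n := by exact_mod_cast hn1
          linarith
      _ = 2 * √n := by
          rw [Real.sqrt_mul (by norm_num), show (4 : ℝ) = 2 ^ 2 by norm_num,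
            Real.sqrt_sq (by norm_num)]
  have h4 : (64 : ℝ) / ((n : ℝ) ^ (-(1 / 400) : ℝ)) ^ 2 = 64 * (n : ℝ) ^ (1 / 200 : ℝ) := by
    rw [← Real.rpow_natCast, ← Real.rpow_mul hn0.le, div_eq_mul_inv, ← Real.rpow_neg hn0.le]
    norm_num
  rw [h4]
  have h5 : (n : ℝ) ^ (1 / 2 : ℝ) / (n : ℝ) ^ (38 / 100 : ℝ) = (n : ℝ) ^ (12 / 100 : ℝ) := by
    rw [← Real.rpow_sub hn0]
    norm_num
  calc √((n : ℝ) + 1) / (n : ℝ) ^ (38 / 100 : ℝ) * (4 * 10 ^ 4) * (64 * (n : ℝ) ^ (1 / 200 : ℝ)) *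
        (64 * (n : ℝ) ^ (1 / 200 : ℝ))
      ≤ (2 * (n : ℝ) ^ (1 / 2 : ℝ)) / (n : ℝ) ^ (38 / 100 : ℝ) * (4 * 10 ^ 4) *
        (64 * (n : ℝ) ^ (1 / 200 : ℝ)) * (64 * (n : ℝ) ^ (1 / 200 : ℝ)) := by gcongr
    _ = (2 * (4 * 10 ^ 4) * 64 * 64) *
        (((n : ℝ) ^ (1 / 2 : ℝ) / (n : ℝ) ^ (38 / 100 : ℝ)) *
          ((n : ℝ) ^ (1 / 200 : ℝ) * (n : ℝ) ^ (1 / 200 : ℝ))) := by ring
    _ = (2 * (4 * 10 ^ 4) * 64 * 64) * (n : ℝ) ^ (13 / 100 : ℝ) := by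
        rw [h5, ← Real.rpow_add hn0, ← Real.rpow_add hn0]
        norm_num
    _ ≤ (n : ℝ) ^ (2 / 100 : ℝ) * (n : ℝ) ^ (13 / 100 : ℝ) := by gcongr
    _ = TN n := by
        unfold TN
        rw [← Real.rpow_add hn0]
        norm_num

theorem bad_prod : ∃ N : ℕ, ∀ n : ℕ, N ≤ n → ∀ b d, MD n b d → ∀ E, E ⊆ Ioo 0 n →
    ¬ Ev1 n b d E → ¬ Ev3 n b d E → ((cx (PE b d E)).roots.map (bw n)).prod ≤ TN n := by
  obtain ⟨N, hN⟩ := numeric
  exact ⟨N, fun n hn b d h E hE h1 h3 => (bad_prod_aux h hE h1 h3).trans (hN n hn)⟩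

end Pool.Agent.Lib.MP_769d0b_pr
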