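import Pool.Agent.Lib.MP_769d0b_pr.Defs

/-!
LW-Basic: elementary facts on the model PE b d E.

PROOF.
`PE_coeff`: `Polynomial.finset_sum_coeff`, `coeff_X_pow`. For `E ⊆ Ioo 0 n`: `0, n ∉ E`, so the coefficients at `0` and `n` are those
of `b`; for `k ∈ Ioo 0 n` they are `b.coeff k` or `b.coeff k + d`; for `k > n` they are `0` (`natDegree b = n`). Primitive: a constant
dividing the polynomial divides the coefficient `±1`. `MM_le`: `Polynomial.mahlerMeasure_le_sqrt_sum_sq_norm_coeff`, `n + 1`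
coefficients of modulus `≤ 1`. `ev_lt`: `‖∑ a_k y^k‖ ≤ ∑_{k ≤ n} ‖y‖^k ≤ 1/(1-‖y‖)`.
-/

set_option autoImplicit false

open Finset Polynomial

namespace Pool.Agent.Lib.MP_769d0b_pr

open Pool.Agent.Lib.MP_7ab245_nt.Cnt Pool.Agent.Lib.MP_7ab245_nt.LogVar

theorem PE_coeff (b : ℤ[X]) (d : ℤ) (E : Finset ℕ) (k : ℕ) :
    (PE b d E).coeff k = b.coeff k + if k ∈ E then d else 0 := by
  unfold PE
  rw [coeff_add, coeff_C_mul, finsetSum_coeff]
  simp only [coeff_X_pow]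
  rw [Finset.sum_ite_eq]
  split_ifs <;> simp

theorem ev_eq (b : ℤ[X]) (d : ℤ) (E : Finset ℕ) (y : ℂ) :
    ev b d E y = (cx b).eval y + d * ∑ k ∈ E, y ^ k := by
  unfold ev PE cx
  simp [Polynomial.map_sum, eval_finsetSum]

theorem ev_sub (b : ℤ[X]) (d : ℤ) (E₁ E₂ : Finset ℕ) (y : ℂ) :
    ev b d E₁ y - ev b d E₂ y = d * (∑ k ∈ E₁, y ^ k - ∑ k ∈ E₂, y ^ k) := by
  rw [ev_eq, ev_eq]
  ring

private theorem coeff_gt {n : ℕ} {b : ℤ[X]} {d : ℤ} (h : MD n b d) {E : Finset ℕ}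
    (hE : E ⊆ Ioo 0 n) (k : ℕ) (hk : n < k) : (PE b d E).coeff k = 0 := by
  rw [PE_coeff, if_neg, add_zero]
  · exact coeff_eq_zero_of_natDegree_lt (by rw [h.deg]; exact hk)
  · intro hk2
    have := mem_Ioo.mp (hE hk2)
    omega

private theorem coeff_n {n : ℕ} {b : ℤ[X]} {d : ℤ} (_h : MD n b d) {E : Finset ℕ}
    (hE : E ⊆ Ioo 0 n) : (PE b d E).coeff n = b.coeff n := by
  rw [PE_coeff, if_neg, add_zero]
  intro hk2
  have := mem_Ioo.mp (hE hk2)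
  omega

private theorem coeff_n_ne {n : ℕ} {b : ℤ[X]} {d : ℤ} (h : MD n b d) {E : Finset ℕ}
    (hE : E ⊆ Ioo 0 n) : (PE b d E).coeff n ≠ 0 := by
  rw [coeff_n h hE]
  intro h0
  have := h.top
  rw [h0] at this
  simp at this

theorem MD.natDegree {n : ℕ} {b : ℤ[X]} {d : ℤ} (h : MD n b d) {E : Finset ℕ} (hE : E ⊆ Ioo 0 n) :
    (PE b d E).natDegree = n := by
  refine le_antisymm (natDegree_le_iff_coeff_eq_zero.mpr fun k hk => coeff_gt h hE k hk)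
    (le_natDegree_of_ne_zero (coeff_n_ne h hE))

theorem MD.coeff_le {n : ℕ} {b : ℤ[X]} {d : ℤ} (h : MD n b d) {E : Finset ℕ} (hE : E ⊆ Ioo 0 n)
    (k : ℕ) : |(PE b d E).coeff k| ≤ 1 := by
  rw [PE_coeff]
  split_ifs with hk
  · exact h.co' k (hE hk)
  · rw [add_zero]
    exact h.co k

theorem MD.coeff_zero {n : ℕ} {b : ℤ[X]} {d : ℤ} (h : MD n b d) {E : Finset ℕ}
    (hE : E ⊆ Ioo 0 n) : |(PE b d E).coeff 0| = 1 := by
  rw [PE_coeff, if_neg, add_zero]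
  · exact h.zero
  · intro hk2
    have := mem_Ioo.mp (hE hk2)
    omega

theorem MD.lead {n : ℕ} {b : ℤ[X]} {d : ℤ} (h : MD n b d) {E : Finset ℕ}
    (hE : E ⊆ Ioo 0 n) : |(PE b d E).leadingCoeff| = 1 := by
  rw [leadingCoeff, h.natDegree hE, coeff_n h hE]
  exact h.top

theorem MD.ne_zero {n : ℕ} {b : ℤ[X]} {d : ℤ} (h : MD n b d) {E : Finset ℕ}
    (hE : E ⊆ Ioo 0 n) : PE b d E ≠ 0 := by
  intro h0
  apply coeff_n_ne h hE
  rw [h0, Polynomial.coeff_zero]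

theorem MD.primitive {n : ℕ} {b : ℤ[X]} {d : ℤ} (h : MD n b d) {E : Finset ℕ}
    (hE : E ⊆ Ioo 0 n) : (PE b d E).IsPrimitive := by
  intro r hr
  have h1 : r ∣ (PE b d E).coeff 0 := C_dvd_iff_dvd_coeff r _ |>.mp hr 0
  have h2 : IsUnit ((PE b d E).coeff 0) := by
    rw [Int.isUnit_iff]
    exact (abs_eq zero_le_one).mp (h.coeff_zero hE)
  exact isUnit_of_dvd_unit h1 h2

/-- the complex version -/
theorem MD.cx_facts {n : ℕ} {b : ℤ[X]} {d : ℤ} (h : MD n b d) {E : Finset ℕ} (hE : E ⊆ Ioo 0 n) :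
    (∀ k, ‖(cx (PE b d E)).coeff k‖ ≤ 1) ∧ ‖(cx (PE b d E)).coeff 0‖ = 1 ∧
      ‖(cx (PE b d E)).leadingCoeff‖ = 1 ∧ (cx (PE b d E)).natDegree = n ∧ cx (PE b d E) ≠ 0 := by
  have hc : ∀ k, ‖(cx (PE b d E)).coeff k‖ = ((|(PE b d E).coeff k| : ℤ) : ℝ) := by
    intro k
    unfold cx
    rw [coeff_map]
    simp
  have hinj : Function.Injective (Int.castRingHom ℂ) := Int.cast_injective
  have hdeg : (cx (PE b d E)).natDegree = n := by
    unfold cx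
    rw [natDegree_map_eq_of_injective hinj, h.natDegree hE]
  refine ⟨fun k => ?_, ?_, ?_, hdeg, ?_⟩
  · rw [hc]
    exact_mod_cast h.coeff_le hE k
  · rw [hc, h.coeff_zero hE]
    simp
  · rw [leadingCoeff, hdeg, hc, coeff_n h hE, h.top]
    simp
  · unfold cx
    exact (Polynomial.map_ne_zero_iff hinj).mpr (h.ne_zero hE)

theorem MD.MM_le {n : ℕ} {b : ℤ[X]} {d : ℤ} (h : MD n b d) {E : Finset ℕ}
    (hE : E ⊆ Ioo 0 n) : MM (PE b d E) ≤ √(n + 1) := by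
  obtain ⟨h1, h2, h3, h4, h5⟩ := h.cx_facts hE
  unfold MM
  refine (mahlerMeasure_le_sqrt_sum_sq_norm_coeff _).trans (Real.sqrt_le_sqrt ?_)
  calc ∑ i ∈ (cx (PE b d E)).support, ‖(cx (PE b d E)).coeff i‖ ^ 2
      ≤ ∑ i ∈ (cx (PE b d E)).support, (1 : ℝ) := by
        refine Finset.sum_le_sum fun i _ => ?_
        have := h1 i
        have := norm_nonneg ((cx (PE b d E)).coeff i)
        nlinarith
    _ = ((cx (PE b d E)).support.card : ℝ) := by simp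
    _ ≤ (n : ℝ) + 1 := by
        have := (cx (PE b d E)).card_supp_le_succ_natDegree
        rw [h4] at this
        exact_mod_cast this

theorem MD.ev_lt {n : ℕ} {b : ℤ[X]} {d : ℤ} (h : MD n b d) {E : Finset ℕ}
    (hE : E ⊆ Ioo 0 n) (y : ℂ) (hy : ‖y‖ < 1) : ‖ev b d E y‖ ≤ 1 / (1 - ‖y‖) := by
  obtain ⟨h1, h2, h3, h4, h5⟩ := h.cx_facts hE
  have h6 : ‖ev b d E y‖ ≤ ∑ i ∈ Finset.range ((cx (PE b d E)).natDegree + 1), ‖y‖ ^ i := by
    unfold ev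
    rw [eval_eq_sum_range]
    refine (norm_sum_le _ _).trans (Finset.sum_le_sum fun i _ => ?_)
    rw [norm_mul, norm_pow]
    exact mul_le_of_le_one_left (by positivity) (h1 i)
  rw [le_div_iff₀ (by linarith), mul_comm]
  calc (1 - ‖y‖) * ‖ev b d E y‖
      ≤ (1 - ‖y‖) * ∑ i ∈ Finset.range ((cx (PE b d E)).natDegree + 1), ‖y‖ ^ i :=
        mul_le_mul_of_nonneg_left h6 (by linarith)
    _ = 1 - ‖y‖ ^ ((cx (PE b d E)).natDegree + 1) := mul_neg_geom_sum _ _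
    _ ≤ 1 := by
        have : 0 ≤ ‖y‖ ^ ((cx (PE b d E)).natDegree + 1) := by positivity
        linarith

/-- a polynomial is determined by its set -/
theorem MD.inj {n : ℕ} {b : ℤ[X]} {d : ℤ} (h : MD n b d) {E₁ E₂ : Finset ℕ}
    (h12 : PE b d E₁ = PE b d E₂) : E₁ = E₂ := by
  have hd : d ≠ 0 := by rcases h.hd with h | h <;> rw [h] <;> norm_num
  ext k
  have h1 := congrArg (fun p => p.coeff k) h12
  simp only [PE_coeff] at h1
  by_cases ha : k ∈ E₁ <;> by_cases hb : k ∈ E₂ <;> simp [ha, hb] at h1 ⊢ <;> exact hd (by omega)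

end Pool.Agent.Lib.MP_769d0b_pr
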