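import Pool.Agent.Lib.MP_769d0b_pr.Defs

/-!
LW-CSa: the normalised Blaschke series: constant term, contraction.

PROOF.
`bl z` is `LogVar.bl` (`bl_coeff_zero : coeff 0 (bl z) = -z`, `PC_bl`: prefix contraction `pn (bl z * a) R ≤ pn a R` for `‖z‖ ≤ 1`; file LogVar/Prefix.lean). `cS_const`: the constant coefficient is multiplicative.
`cS_contr`: induction on `S`: `pn (C (-z)⁻¹ * bl z * h) R = ‖z‖⁻² pn (bl z * h) R ≤ ‖z‖⁻² pn h R`.
`cS_sum`: `h = 1`, `pn 1 (N+1) = 1`. `one_le_prod`: `‖z‖⁻¹ ≥ 1`.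
-/

set_option autoImplicit false

open Finset Polynomial

namespace Pool.Agent.Lib.MP_769d0b_pr

open Pool.Agent.Lib.MP_7ab245_nt.Cnt Pool.Agent.Lib.MP_7ab245_nt.LogVar

theorem cS_const (S : Finset ℂ) (hS : ∀ z ∈ S, z ≠ 0) : PowerSeries.coeff 0 (cS S) = 1 := by
  unfold cS
  rw [PowerSeries.coeff_zero_eq_constantCoeff_apply, map_prod]
  refine Finset.prod_eq_one fun z hz => ?_
  rw [map_mul, PowerSeries.constantCoeff_C, ← PowerSeries.coeff_zero_eq_constantCoeff_apply,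
    bl_coeff_zero]
  exact inv_mul_cancel₀ (neg_ne_zero.mpr (hS z hz))

private theorem CSa_one (z : ℂ) (hz1 : ‖z‖ < 1) (h : PowerSeries ℂ) (R : ℕ) :
    pn (PowerSeries.C (-z)⁻¹ * bl z * h) R ≤ ‖z‖⁻¹ ^ 2 * pn h R := by
  have h2 : pn (PowerSeries.C (-z)⁻¹ * bl z * h) R = ‖z‖⁻¹ ^ 2 * pn (bl z * h) R := by
    unfold pn
    rw [mul_sum]
    refine sum_congr rfl fun m _ => ?_
    rw [mul_assoc, PowerSeries.coeff_C_mul, norm_mul, mul_pow, norm_inv, norm_neg]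
  rw [h2]
  exact mul_le_mul_of_nonneg_left (PC_bl z hz1.le h R) (sq_nonneg _)

theorem cS_contr (S : Finset ℂ) (hS : ∀ z ∈ S, z ≠ 0 ∧ ‖z‖ < 1) (h : PowerSeries ℂ) (R : ℕ) :
    pn (cS S * h) R ≤ (∏ z ∈ S, ‖z‖⁻¹) ^ 2 * pn h R := by
  classical
  unfold cS
  induction S using Finset.induction_on with
  | empty => simp
  | insert a S ha ih =>
    rw [Finset.prod_insert ha, Finset.prod_insert ha, mul_assoc]
    have h1 := CSa_one a (hS a (Finset.mem_insert_self a S)).2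
      ((∏ z ∈ S, (PowerSeries.C (-z)⁻¹ * bl z)) * h) R
    have h2 := ih fun z hz => hS z (Finset.mem_insert_of_mem hz)
    refine h1.trans ?_
    rw [mul_pow, mul_assoc]
    exact mul_le_mul_of_nonneg_left h2 (sq_nonneg _)

private theorem CSa_pn_one (R : ℕ) : pn (1 : PowerSeries ℂ) (R + 1) = 1 := by
  induction R with
  | zero => simp [pn]
  | succ R ih =>
    rw [pn_succ, ih]
    simp [PowerSeries.coeff_one]

theorem cS_sum (S : Finset ℂ) (hS : ∀ z ∈ S, z ≠ 0 ∧ ‖z‖ < 1) (N : ℕ) :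
    ∑ j ∈ range (N + 1), ‖PowerSeries.coeff j (cS S)‖ ^ 2 ≤ (∏ z ∈ S, ‖z‖⁻¹) ^ 2 := by
  have h := cS_contr S hS 1 (N + 1)
  rw [CSa_pn_one, mul_one, mul_one] at h
  exact h

theorem one_le_prod (S : Finset ℂ) (hS : ∀ z ∈ S, z ≠ 0 ∧ ‖z‖ < 1) : 1 ≤ ∏ z ∈ S, ‖z‖⁻¹ := by
  classical
  induction S using Finset.induction_on with
  | empty => simp
  | insert a S ha ih =>
    rw [Finset.prod_insert ha]
    have h1 := ih fun z hz => hS z (Finset.mem_insert_of_mem hz)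
    have h2 := hS a (Finset.mem_insert_self a S)
    have h3 : 1 ≤ ‖a‖⁻¹ := (one_le_inv₀ (norm_pos_iff.mpr h2.1)).mpr h2.2.le
    exact one_le_mul_of_one_le_of_one_le h3 h1

end Pool.Agent.Lib.MP_769d0b_pr
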