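import Pool.Agent.Lib.MP_769d0b_pr.CSa
import Pool.Agent.Lib.MP_7ab245_nt.Cnt.Disc
import Pool.Agent.Lib.MP_7ab245_nt.Cnt.Cser

/-!
LW-CSb: splitting the Blaschke factor of G into good and bad zeros.

PROOF.
`mem_zg`, `mem_zb`: unfold (`Polynomial.mem_roots`, `cx G ≠ 0`). Squarefree `G ∈ ℤ[X]` has simple complex roots: see `sqf_roots` / `Nodup` in Cnt (`Cnt/Disc.lean`), so
`(cx G).roots = (cx G).roots.toFinset.val`. `bb (cx G) = (roots.map BB).prod` with `BB z = bl z` if `‖z‖ < 1`, `1` otherwise; the constant coefficient of `bb` is `∏_{‖z‖<1} (-z)`; hence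
`C β⁻¹ * bb (cx G) = ∏_{‖z‖<1} C (-z)⁻¹ * bl z`, and `{z ∈ roots : ‖z‖ < 1}` is the disjoint union of `zg n G` and `zb n G` (`Finset.prod_union`/`prod_filter_mul_prod_filter_not`).
`card_zg`: at most `natDegree` roots.
-/

set_option autoImplicit false

open Finset Polynomial

namespace Pool.Agent.Lib.MP_769d0b_pr

open Pool.Agent.Lib.MP_7ab245_nt.Cnt Pool.Agent.Lib.MP_7ab245_nt.LogVar

private theorem CSb_cx {G : ℤ[X]} (hG : G ≠ 0) : cx G ≠ 0 := by
  unfold cx
  rw [Ne, Polynomial.map_eq_zero_iff (RingHom.injective_int _)]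
  exact hG

theorem mem_zg {n : ℕ} {G : ℤ[X]} (hG : G ≠ 0) {z : ℂ} :
    z ∈ zg n G ↔ (cx G).eval z = 0 ∧ ‖z‖ < 1 ∧ good n z := by
  classical
  unfold zg
  rw [Finset.mem_filter, Multiset.mem_toFinset, Polynomial.mem_roots (CSb_cx hG),
    Polynomial.IsRoot.def]

theorem mem_zb {n : ℕ} {G : ℤ[X]} (hG : G ≠ 0) {z : ℂ} :
    z ∈ zb n G ↔ (cx G).eval z = 0 ∧ ‖z‖ < 1 ∧ ¬ good n z := by
  classical
  unfold zb
  rw [Finset.mem_filter, Multiset.mem_toFinset, Polynomial.mem_roots (CSb_cx hG),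
    Polynomial.IsRoot.def]

theorem card_zg (n : ℕ) (G : ℤ[X]) : (zg n G).card ≤ G.natDegree := by
  classical
  unfold zg
  refine (Finset.card_filter_le _ _).trans ((Multiset.toFinset_card_le _).trans ?_)
  refine (Polynomial.card_roots' _).trans ?_
  unfold cx
  exact Polynomial.natDegree_map_le

private theorem CSb_prod (M : Multiset ℂ) (hM : ∀ z ∈ M, z ≠ 0) :
    PowerSeries.C (PowerSeries.constantCoeff (M.map BB).prod)⁻¹ * (M.map BB).prod =
      (M.map fun z => PowerSeries.C (PowerSeries.constantCoeff (BB z))⁻¹ * BB z).prod := by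
  induction M using Multiset.induction_on with
  | empty => simp
  | cons a M ih =>
    rw [Multiset.map_cons, Multiset.prod_cons, Multiset.map_cons, Multiset.prod_cons,
      ← ih fun z hz => hM z (Multiset.mem_cons_of_mem hz), map_mul, mul_inv, map_mul]
    ring

theorem cS_split (n : ℕ) (G : ℤ[X]) (hG : Squarefree G) (h0 : G.coeff 0 ≠ 0) :
    PowerSeries.C (PowerSeries.constantCoeff (bb (cx G)))⁻¹ * bb (cx G) =
      cS (zg n G) * cS (zb n G) := by
  classical
  have h0' : (cx G).coeff 0 ≠ 0 := by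
    unfold cx
    rw [Polynomial.coeff_map]
    simpa using h0
  have hnd := sqf_roots G hG
  unfold bb
  rw [CSb_prod _ (roots_ne h0')]
  have h1 : ((cx G).roots.map fun z =>
      PowerSeries.C (PowerSeries.constantCoeff (BB z))⁻¹ * BB z).prod =
      ∏ z ∈ (cx G).roots.toFinset, (PowerSeries.C (PowerSeries.constantCoeff (BB z))⁻¹ * BB z) := by
    unfold Finset.prod
    rw [Multiset.toFinset_val, Multiset.dedup_eq_self.mpr hnd]
  rw [h1]
  unfold cS zg zb
  rw [← Finset.prod_filter_mul_prod_filter_not (cx G).roots.toFinset (fun z => ‖z‖ < 1)]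
  have h2 : ∏ z ∈ (cx G).roots.toFinset with ¬ ‖z‖ < 1,
      (PowerSeries.C (PowerSeries.constantCoeff (BB z))⁻¹ * BB z) = 1 := by
    refine Finset.prod_eq_one fun z hz => ?_
    rw [Finset.mem_filter] at hz
    unfold BB
    rw [if_neg hz.2]
    simp
  have h3 : ∏ z ∈ (cx G).roots.toFinset with ‖z‖ < 1,
      (PowerSeries.C (PowerSeries.constantCoeff (BB z))⁻¹ * BB z) =
      ∏ z ∈ (cx G).roots.toFinset with ‖z‖ < 1, (PowerSeries.C (-z)⁻¹ * bl z) := by
    refine Finset.prod_congr rfl fun z hz => ?_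
    rw [Finset.mem_filter] at hz
    unfold BB
    rw [if_pos hz.2, ← PowerSeries.coeff_zero_eq_constantCoeff_apply, bl_coeff_zero]
  rw [h2, h3, mul_one, ← Finset.prod_filter_mul_prod_filter_not
    ((cx G).roots.toFinset.filter fun z => ‖z‖ < 1) (fun z => good n z), Finset.filter_filter,
    Finset.filter_filter]

/-- the bad zeros of a factor are bad zeros of the multiple -/
theorem prod_zb_le (n : ℕ) (G P : ℤ[X]) (hP : P ≠ 0) (hP0 : P.coeff 0 ≠ 0) (hGP : G ∣ P) :
    ∏ z ∈ zb n G, ‖z‖⁻¹ ≤ ((cx P).roots.map (bw n)).prod := by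
  classical
  have hP0' : (cx P).coeff 0 ≠ 0 := by
    unfold cx
    rw [Polynomial.coeff_map]
    simpa using hP0
  have hbw : ∀ z ∈ (cx P).roots, 1 ≤ bw n z := by
    intro z hz
    have hz0 : z ≠ 0 := roots_ne hP0' z hz
    unfold bw
    split_ifs with h
    · exact (one_le_inv₀ (norm_pos_iff.mpr hz0)).mpr h.1.le
    · exact le_rfl
  have hle : (zb n G).val ≤ (cx P).roots := by
    refine (Multiset.le_iff_subset (zb n G).nodup).mpr ?_
    intro z hz
    have hz' : z ∈ zb n G := hz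
    unfold zb at hz'
    rw [Finset.mem_filter, Multiset.mem_toFinset] at hz'
    have hdvd : cx G ∣ cx P := by
      unfold cx
      exact Polynomial.map_dvd _ hGP
    have := Polynomial.roots.le_of_dvd (CSb_cx hP) hdvd
    exact Multiset.mem_of_le this hz'.1
  obtain ⟨M, hM⟩ := Multiset.le_iff_exists_add.mp hle
  have h1 : ∏ z ∈ zb n G, ‖z‖⁻¹ = ((zb n G).val.map (bw n)).prod := by
    change _ = ∏ z ∈ zb n G, bw n z
    refine Finset.prod_congr rfl fun z hz => ?_
    unfold zb at hz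
    rw [Finset.mem_filter] at hz
    unfold bw
    rw [if_pos hz.2]
  have hprod : ∀ M' : Multiset ℂ, (∀ z ∈ M', 1 ≤ bw n z) → 1 ≤ (M'.map (bw n)).prod := by
    intro M' h
    induction M' using Multiset.induction_on with
    | empty => simp
    | cons a M' ih =>
      rw [Multiset.map_cons, Multiset.prod_cons]
      exact one_le_mul_of_one_le_of_one_le (h a (Multiset.mem_cons_self a M'))
        (ih fun z hz => h z (Multiset.mem_cons_of_mem hz))
  rw [h1, hM, Multiset.map_add, Multiset.prod_add]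
  have h2 := hprod M fun z hz => hbw z (by rw [hM]; exact Multiset.mem_add.mpr (Or.inr hz))
  have h3 := hprod (zb n G).val fun z hz => hbw z (by rw [hM]; exact Multiset.mem_add.mpr (Or.inl hz))
  exact le_mul_of_one_le_right (by linarith) h2

end Pool.Agent.Lib.MP_769d0b_pr
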