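import Pool.Agent.Lib.MP_769d0b_pr.Basic

/-!
LW-Det: a factor and the first coefficients determine P.

PROOF.
`E₁, E₂` have the same elements `≤ R`, `R ≥ n - m`, `G = G'` divides both. `P₁ - P₂ = G (H₁ - H₂)`, `deg H_i = n - m` (`MD.natDegree`, `natDegree_mul`), and `X^(R+1) ∣ P₁ - P₂` (coefficients `≤ R` agree, `PE_coeff`).
`G.coeff 0 ≠ 0` (divides `P.coeff 0 = ±1`), so `X` is coprime to `G`, `X^(R+1) ∣ H₁ - H₂` of degree `≤ n - m ≤ R`: `H₁ = H₂`, `P₁ = P₂`, `MD.inj`. `cnt_dvd`: `cnt_inj` with `I = Ioo (n-m) n` (card `m - 1`; `E \ I = E ∩ Icc 1 (n-m)`),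
and `2^(n-1-(m-1)) = 2^(n-m)`.
-/

set_option autoImplicit false

open Finset Polynomial

namespace Pool.Agent.Lib.MP_769d0b_pr

open Pool.Agent.Lib.MP_7ab245_nt.Cnt Pool.Agent.Lib.MP_7ab245_nt.LogVar

theorem det_of_factor {n : ℕ} {b : ℤ[X]} {d : ℤ} (h : MD n b d) {E₁ E₂ : Finset ℕ}
    (hE₁ : E₁ ⊆ Ioo 0 n) (hE₂ : E₂ ⊆ Ioo 0 n) (G : ℤ[X]) (m R : ℕ) (hm : G.natDegree = m)
    (hmn : m ≤ n) (hR : n - m ≤ R) (h₁ : G ∣ PE b d E₁) (h₂ : G ∣ PE b d E₂)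
    (hpre : ∀ k ≤ R, k ∈ E₁ ↔ k ∈ E₂) : E₁ = E₂ := by
  obtain ⟨H₁, hH₁⟩ := h₁
  obtain ⟨H₂, hH₂⟩ := h₂
  have hP₁ := h.ne_zero hE₁
  have hP₂ := h.ne_zero hE₂
  have hG : G ≠ 0 := by
    rintro rfl
    simp at hH₁
    exact hP₁ hH₁
  have hH₁0 : H₁ ≠ 0 := by
    rintro rfl
    simp at hH₁
    exact hP₁ hH₁
  have hH₂0 : H₂ ≠ 0 := by
    rintro rfl
    simp at hH₂
    exact hP₂ hH₂
  have hd₁ : H₁.natDegree = n - m := by
    have := h.natDegree hE₁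
    rw [hH₁, natDegree_mul hG hH₁0] at this
    omega
  have hd₂ : H₂.natDegree = n - m := by
    have := h.natDegree hE₂
    rw [hH₂, natDegree_mul hG hH₂0] at this
    omega
  have hG0 : G.coeff 0 ≠ 0 := by
    intro hg
    have h1 := h.coeff_zero hE₁
    rw [hH₁, mul_coeff_zero, hg] at h1
    simp at h1
  have hdvd : (X : ℤ[X]) ^ (R + 1) ∣ PE b d E₁ - PE b d E₂ := by
    rw [X_pow_dvd_iff]
    intro k hk
    rw [coeff_sub, PE_coeff, PE_coeff]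
    have := hpre k (by omega)
    by_cases hk1 : k ∈ E₁
    · rw [if_pos hk1, if_pos (this.mp hk1)]; ring
    · rw [if_neg hk1, if_neg (fun h => hk1 (this.mpr h))]; ring
  have heq : PE b d E₁ - PE b d E₂ = G * (H₁ - H₂) := by
    rw [hH₁, hH₂]; ring
  rw [heq] at hdvd
  have hXG : ¬ (X : ℤ[X]) ∣ G := by
    rw [X_dvd_iff]; exact hG0
  have hdvd2 : (X : ℤ[X]) ^ (R + 1) ∣ H₁ - H₂ :=
    (prime_X.pow_dvd_of_dvd_mul_left (R + 1) hXG hdvd)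
  have hz : H₁ - H₂ = 0 := by
    by_contra hne
    obtain ⟨Q, hQ⟩ := hdvd2
    have hQ0 : Q ≠ 0 := by
      rintro rfl
      rw [mul_zero] at hQ
      exact hne hQ
    have h1 : (H₁ - H₂).natDegree = R + 1 + Q.natDegree := by
      rw [hQ, natDegree_mul (pow_ne_zero _ X_ne_zero) hQ0, natDegree_X_pow]
    have h2 := natDegree_sub_le H₁ H₂
    rw [hd₁, hd₂, max_self] at h2
    omega
  apply h.inj
  rw [hH₁, hH₂, sub_eq_zero.mp hz]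

end Pool.Agent.Lib.MP_769d0b_pr
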