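import Pool.Agent.Lib.MP_769d0b_pr.Defs

/-!
LW-NearRoot: a small value and a large derivative give a near zero.

PROOF.
If `F(z) = 0` take `w = z`. Otherwise `F'(z)/F(z) = ∑ 1/(z - z_i)` over the roots (Mathlib: `Polynomial.eval_derivative_div_eval_of_ne_zero_of_splits` or `derivative_eval..`/logarithmic derivative of a product);
there are `≤ n` roots, at least one as `F'(z) ≠ 0`; if all `‖z - z_i‖ > n ‖F(z)‖/‖F'(z)‖ =: ρ` then `‖F'(z)/F(z)‖ < n/ρ`... contradiction (`ρ > 0`, `n ≥ 1`).
-/

set_option autoImplicit false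

open Finset Polynomial

namespace Pool.Agent.Lib.MP_769d0b_pr

open Pool.Agent.Lib.MP_7ab245_nt.Cnt Pool.Agent.Lib.MP_7ab245_nt.LogVar

theorem near_root (F : ℂ[X]) (n : ℕ) (hn : F.natDegree ≤ n) (z : ℂ)
    (hd : (derivative F).eval z ≠ 0) :
    ∃ w : ℂ, F.eval w = 0 ∧ ‖z - w‖ ≤ n * ‖F.eval z‖ / ‖(derivative F).eval z‖ := by
  by_cases h0 : F.eval z = 0
  · exact ⟨z, h0, by simp [h0]⟩
  have hF : F ≠ 0 := by
    rintro rfl
    simp at h0
  by_contra hcon
  push Not at hcon
  have hsum := (IsAlgClosed.splits F).eval_derivative_div_eval_of_ne_zero h0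
  have hFp : 0 < ‖F.eval z‖ := norm_pos_iff.mpr h0
  have hdp : 0 < ‖(derivative F).eval z‖ := norm_pos_iff.mpr hd
  set ρ : ℝ := n * ‖F.eval z‖ / ‖(derivative F).eval z‖ with hρ
  -- n ≥ 1
  have hn1 : 1 ≤ F.natDegree := by
    by_contra h
    have : F.natDegree = 0 := by omega
    rw [Polynomial.eq_C_of_natDegree_eq_zero this] at hd
    simp at hd
  have hnpos : (0 : ℝ) < n := by exact_mod_cast (lt_of_lt_of_le hn1 hn)
  have hρpos : 0 < ρ := by positivity
  have hroots : F.roots ≠ 0 := by
    intro h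
    rw [h] at hsum
    simp at hsum
    rcases hsum with h | h
    · exact hd h
    · exact h0 h
  have hcard : F.roots.card ≤ n := (Polynomial.card_roots' F).trans hn
  have hbound : ‖(F.roots.map (fun w => 1 / (z - w))).sum‖ < n / ρ := by
    have h1 : ‖(F.roots.map (fun w => 1 / (z - w))).sum‖ ≤ (F.roots.map (fun w => ‖1 / (z - w)‖)).sum := by
      have := Multiset.le_sum_of_subadditive (fun x : ℂ => ‖x‖) norm_zero.le norm_add_le
        (F.roots.map (fun w => 1 / (z - w)))
      simpa [Multiset.map_map, Function.comp] using this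
    have h2 : (F.roots.map (fun w => ‖1 / (z - w)‖)).sum < (F.roots.map (fun _ => 1 / ρ)).sum := by
      apply Multiset.sum_lt_sum_of_nonempty hroots
      intro w hw
      have hw0 : F.eval w = 0 := (Polynomial.mem_roots hF).mp hw
      have := hcon w hw0
      rw [norm_div, norm_one]
      exact one_div_lt_one_div_of_lt hρpos this
    have h3 : (F.roots.map (fun _ => 1 / ρ)).sum ≤ n / ρ := by
      rw [Multiset.map_const', Multiset.sum_replicate, nsmul_eq_mul]
      have : ((F.roots.card : ℕ) : ℝ) ≤ n := by exact_mod_cast hcard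
      rw [mul_one_div]
      gcongr
    linarith
  rw [← hsum, norm_div] at hbound
  have : (n : ℝ) / ρ = ‖(derivative F).eval z‖ / ‖F.eval z‖ := by
    rw [hρ]; field_simp
  rw [this] at hbound
  exact lt_irrefl _ hbound

end Pool.Agent.Lib.MP_769d0b_pr
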