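import Pool.Agent.Lib.MP_769d0b_pr.Basic

/-!
LW-Taylor: second order Taylor bound.

PROOF.
For `‖y‖, ‖z‖ ≤ 1`: `‖y^k - z^k - k z^(k-1)(y - z)‖ ≤ k² ‖y-z‖²` : by induction on `k`, or
`y^k - z^k = (y-z) ∑_{i<k} y^i z^(k-1-i)` and `‖y^i z^(k-1-i) - z^(k-1)‖ ≤ ‖y^i - z^i‖ ≤ i ‖y - z‖`; sum over `i < k`: `≤ (k(k-1)/2)‖y-z‖²`. Multiply by `|a_k| ≤ 1` and sum over `k ≤ n`:
`∑_{k≤n} k(k-1)/2 ≤ n³` . (`ev'` is the value of the derivative: `Polynomial.derivative_eval`/`eval_derivative` sums, `p.sum`/`∑ k ∈ range (n+1)`.)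
-/

set_option autoImplicit false

open Finset Polynomial

namespace Pool.Agent.Lib.MP_769d0b_pr

open Pool.Agent.Lib.MP_7ab245_nt.Cnt Pool.Agent.Lib.MP_7ab245_nt.LogVar

private lemma pow_sub_norm (y z : ℂ) (hy : ‖y‖ ≤ 1) (hz : ‖z‖ ≤ 1) (k : ℕ) :
    ‖y ^ k - z ^ k - k * z ^ (k - 1) * (y - z)‖ ≤ (k : ℝ) ^ 2 * ‖y - z‖ ^ 2 := by
  induction k with
  | zero => simp
  | succ k ih =>
    have h1 : y ^ (k + 1) - z ^ (k + 1) - ((k + 1 : ℕ) : ℂ) * z ^ (k + 1 - 1) * (y - z) =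
        y * (y ^ k - z ^ k - k * z ^ (k - 1) * (y - z)) + k * z ^ (k - 1) * (y - z) ^ 2 := by
      rcases Nat.eq_zero_or_pos k with rfl | hk
      · simp
      · obtain ⟨j, rfl⟩ : ∃ j, k = j + 1 := ⟨k - 1, by omega⟩
        simp only [Nat.add_sub_cancel]
        push_cast
        ring
    rw [h1]
    have h2 : ‖y * (y ^ k - z ^ k - k * z ^ (k - 1) * (y - z))‖ ≤ (k : ℝ) ^ 2 * ‖y - z‖ ^ 2 := by
      rw [norm_mul]
      calc ‖y‖ * ‖y ^ k - z ^ k - k * z ^ (k - 1) * (y - z)‖ ≤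
            1 * ‖y ^ k - z ^ k - k * z ^ (k - 1) * (y - z)‖ := by gcongr
        _ ≤ _ := by rw [one_mul]; exact ih
    have h3 : ‖(k : ℂ) * z ^ (k - 1) * (y - z) ^ 2‖ ≤ (k : ℝ) * ‖y - z‖ ^ 2 := by
      rw [norm_mul, norm_mul, norm_pow, norm_pow, Complex.norm_natCast]
      have h4 : ‖z‖ ^ (k - 1) ≤ 1 := pow_le_one₀ (norm_nonneg _) hz
      calc (k : ℝ) * ‖z‖ ^ (k - 1) * ‖y - z‖ ^ 2 ≤ (k : ℝ) * 1 * ‖y - z‖ ^ 2 := by gcongr
        _ = _ := by ring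
    refine (norm_add_le _ _).trans ((add_le_add h2 h3).trans ?_)
    push_cast
    have h5 : 0 ≤ ‖y - z‖ ^ 2 := by positivity
    have h6 : (0 : ℝ) ≤ k := by positivity
    nlinarith

private lemma sum_sq_le (n : ℕ) : ∑ k ∈ range (n + 1), (k : ℝ) ^ 2 ≤ (n : ℝ) ^ 3 := by
  rw [sum_range_succ']
  have h1 : ∑ k ∈ range n, (((k + 1 : ℕ) : ℝ)) ^ 2 ≤ (range n).card • ((n : ℝ) ^ 2) := by
    apply sum_le_card_nsmul
    intro k hk
    have : k + 1 ≤ n := mem_range.1 hk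
    have h2 : ((k + 1 : ℕ) : ℝ) ≤ n := by exact_mod_cast this
    gcongr
  rw [card_range, nsmul_eq_mul] at h1
  have h3 : (n : ℝ) ^ 3 = n * (n : ℝ) ^ 2 := by ring
  rw [h3]
  simpa using h1

theorem taylor2 {n : ℕ} {b : ℤ[X]} {d : ℤ} (h : MD n b d) {E : Finset ℕ} (hE : E ⊆ Ioo 0 n)
    (y z : ℂ) (hy : ‖y‖ ≤ 1) (hz : ‖z‖ ≤ 1) :
    ‖ev b d E y - ev b d E z - ev' b d E z * (y - z)‖ ≤ (n : ℝ) ^ 3 * ‖y - z‖ ^ 2 := by
  obtain ⟨hc, -, -, hdeg, -⟩ := h.cx_facts hE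
  set q := cx (PE b d E) with hq
  have hlt : q.natDegree < n + 1 := Nat.lt_succ_of_le hdeg.le
  have h1 : ∀ x : ℂ, ev b d E x = ∑ k ∈ range (n + 1), q.coeff k * x ^ k := by
    intro x
    unfold ev
    exact eval_eq_sum_range' hlt x
  have h2 : ev' b d E z = ∑ k ∈ range (n + 1), q.coeff k * k * z ^ (k - 1) := by
    unfold ev'
    rw [derivative_eval, sum_over_range' _ _ (n + 1) hlt]
    intro k
    simp
  rw [h1, h1, h2, ← sum_sub_distrib, sum_mul, ← sum_sub_distrib]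
  calc ‖∑ k ∈ range (n + 1), (q.coeff k * y ^ k - q.coeff k * z ^ k -
          q.coeff k * k * z ^ (k - 1) * (y - z))‖
      ≤ ∑ k ∈ range (n + 1), ‖q.coeff k * y ^ k - q.coeff k * z ^ k -
          q.coeff k * k * z ^ (k - 1) * (y - z)‖ := norm_sum_le _ _
    _ ≤ ∑ k ∈ range (n + 1), (k : ℝ) ^ 2 * ‖y - z‖ ^ 2 := by
        apply sum_le_sum
        intro k _
        have h3 : q.coeff k * y ^ k - q.coeff k * z ^ k - q.coeff k * k * z ^ (k - 1) * (y - z) =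
            q.coeff k * (y ^ k - z ^ k - k * z ^ (k - 1) * (y - z)) := by ring
        rw [h3, norm_mul]
        calc ‖q.coeff k‖ * ‖y ^ k - z ^ k - k * z ^ (k - 1) * (y - z)‖ ≤
              1 * ((k : ℝ) ^ 2 * ‖y - z‖ ^ 2) := by
              apply mul_le_mul (hc k) (pow_sub_norm y z hy hz k) (norm_nonneg _) zero_le_one
          _ = _ := one_mul _
    _ = (∑ k ∈ range (n + 1), (k : ℝ) ^ 2) * ‖y - z‖ ^ 2 := by rw [sum_mul]
    _ ≤ _ := by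
        have := sum_sq_le n
        gcongr

end Pool.Agent.Lib.MP_769d0b_pr
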