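import Pool.Agent.Lib.MP_769d0b_pr.Trunc
import Pool.Agent.Lib.MP_769d0b_pr.NearRoot
import Pool.Agent.Lib.MP_769d0b_pr.Taylor

/-!
LW-Star: the good zeros are determined by the prefix.

PROOF.
`F = cx (tr R (PE b d E))`. Let `z` be good, `ev z = 0`, `s = 1 - ‖z‖ ≥ δ = dl n`, so `1/s ≤ n^(4/5) ≤ n`; not Ev2: `‖ev' z‖ ≥ 1/n^25`. `tr_close`: `‖F(z)‖ ≤ ‖z‖^(R+1) n`, `‖F'(z)‖ ≥ 1/n^25 - n² ‖z‖^R ≥ 1/(2n^25)`, since `‖z‖^R ≤ (1-δ)^R ≤ exp(-δR) ≤ exp(-n^(1/5)/2)`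
(`R ≥ n - m ≥ n/2`) is `≤ 1/(2n^27)` for large `n`. `near_root`: a zero `w` of `F` with `‖z-w‖ ≤ n·n‖z‖^(R+1)·2n^25 = 2n^27 ‖z‖^(R+1)`; `R + 1 ≥ m + L` (`R = n - m + L`, `2m ≤ n`), so `‖z‖^(R+1) ≤ ‖z‖^m ‖z‖^L` and
`‖z‖^L ≤ (1-δ)^L ≤ exp(-δL) ≤ exp(-n^(1/20))` (`L ≥ n^(85/100)`): `‖z - w‖ ≤ kp n ‖z‖^m`. Define `σ z := w` (`Classical.choose`; anything for other `z`). `kp n ≤ δ/4` for large `n`, so `‖σ z‖ ≤ 1 - δ + δ/4 ≤ 1 - δ/2`, `‖σ z‖ > 1/2`.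
Injective: if `σ z = σ w`, `z ≠ w` good zeros, then `‖z-w‖ ≤ 2 kp n`; `taylor2` (y := w): `‖ev' z‖‖w-z‖ ≤ n³‖w-z‖²`, so `1/n^25 ≤ n³·2 kp n`, false for large `n`.
-/

set_option autoImplicit false

open Finset Polynomial

namespace Pool.Agent.Lib.MP_769d0b_pr

open Pool.Agent.Lib.MP_7ab245_nt.Cnt Pool.Agent.Lib.MP_7ab245_nt.LogVar

open Filter Topology in
private lemma asym (a c : ℝ) (ha : 0 < a) (hc : 0 < c) (k : ℕ) (ε : ℝ) (hε : 0 < ε) :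
    ∃ N : ℕ, ∀ n : ℕ, N ≤ n → (n : ℝ) ^ k * Real.exp (-(c * (n : ℝ) ^ a)) < ε := by
  have h1 : Tendsto (fun x : ℝ => x ^ ((k : ℝ) / a) * Real.exp (-c * x)) atTop (𝓝 0) :=
    tendsto_rpow_mul_exp_neg_mul_atTop_nhds_zero _ _ hc
  have h2 : Tendsto (fun n : ℕ => (n : ℝ) ^ a) atTop atTop :=
    (tendsto_rpow_atTop ha).comp tendsto_natCast_atTop_atTop
  have h3 := h1.comp h2
  have h4 := (h3.eventually (gt_mem_nhds hε)).and (eventually_ge_atTop 1)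
  obtain ⟨N, hN⟩ := eventually_atTop.1 h4
  refine ⟨N, fun n hn => ?_⟩
  obtain ⟨h5, h6⟩ := hN n hn
  simp only [Function.comp_apply] at h5
  have hn0 : (0 : ℝ) ≤ n := Nat.cast_nonneg n
  rw [← Real.rpow_mul hn0, mul_div_cancel₀ _ ha.ne', Real.rpow_natCast, neg_mul] at h5
  exact h5

private lemma pow_le_exp {t δ : ℝ} (ht0 : 0 ≤ t) (ht : t ≤ 1 - δ) (k : ℕ) {u : ℝ}
    (hu : u ≤ δ * k) : t ^ k ≤ Real.exp (-u) := by
  have h1 : t ≤ Real.exp (-δ) := by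
    have := Real.add_one_le_exp (-δ)
    linarith
  calc t ^ k ≤ (Real.exp (-δ)) ^ k := pow_le_pow_left₀ ht0 h1 k
    _ = Real.exp (k * (-δ)) := (Real.exp_nat_mul _ _).symm
    _ ≤ Real.exp (-u) := by
        apply Real.exp_le_exp.2
        nlinarith

theorem star : ∃ N : ℕ, ∀ n : ℕ, N ≤ n → ∀ b d, MD n b d → ∀ E, E ⊆ Ioo 0 n → ¬ Ev2 n b d E →
    ∀ m L : ℕ, 2 * m ≤ n → (n : ℝ) ^ (85 / 100 : ℝ) ≤ L →
    ∃ σ : ℂ → ℂ, Set.InjOn σ {z | good n z ∧ ev b d E z = 0} ∧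
      ∀ z, good n z → ev b d E z = 0 →
        (cx (tr (n - m + L) (PE b d E))).eval (σ z) = 0 ∧ 1 / 2 < ‖σ z‖ ∧
          ‖σ z‖ ≤ 1 - dl n / 2 ∧ ‖z - σ z‖ ≤ kp n * ‖z‖ ^ m := by
  obtain ⟨N1, hN1⟩ := asym (1 / 5) (1 / 2) (by norm_num) (by norm_num) 27 (1 / 2) (by norm_num)
  obtain ⟨N2, hN2⟩ := asym (1 / 20) 1 (by norm_num) (by norm_num) 55 (1 / 8) (by norm_num)
  refine ⟨max (max N1 N2) 2, fun n hn b d hM E hE hEv2 m L hm hL => ?_⟩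
  have hn1 : N1 ≤ n := le_trans (le_trans (le_max_left _ _) (le_max_left _ _)) hn
  have hn2 : N2 ≤ n := le_trans (le_trans (le_max_right _ _) (le_max_left _ _)) hn
  have hn3 : 2 ≤ n := le_trans (le_max_right _ _) hn
  have e1 := hN1 n hn1
  have e2 := hN2 n hn2
  rw [one_mul] at e2
  have hnR : (2 : ℝ) ≤ n := by exact_mod_cast hn3
  have hnpos : (0 : ℝ) < n := by linarith
  have hδpos : 0 < dl n := by unfold dl; positivity
  -- dl n ≥ 1/n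
  have hδn : 1 / (n : ℝ) ≤ dl n := by
    unfold dl
    rw [one_div, ← Real.rpow_neg_one]
    exact Real.rpow_le_rpow_of_exponent_le (by linarith) (by norm_num)
  have hδ1 : dl n ≤ 1 := by
    unfold dl
    exact Real.rpow_le_one_of_one_le_of_nonpos (by linarith) (by norm_num)
  -- kp
  have hkp0 : 0 < kp n := by unfold kp; positivity
  have hX : kp n = 2 * (n : ℝ) ^ 27 * Real.exp (-(n : ℝ) ^ (1 / 20 : ℝ)) := rfl
  have hkp2 : kp n * (n : ℝ) ^ 28 < 1 / 4 := by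
    rw [hX]
    have : 2 * (n : ℝ) ^ 27 * Real.exp (-(n : ℝ) ^ (1 / 20 : ℝ)) * (n : ℝ) ^ 28 =
      2 * ((n : ℝ) ^ 55 * Real.exp (-(n : ℝ) ^ (1 / 20 : ℝ))) := by ring
    rw [this]; linarith
  have hkp1 : kp n ≤ dl n / 4 := by
    have h1 : kp n * (n : ℝ) ≤ kp n * (n : ℝ) ^ 28 := by
      apply mul_le_mul_of_nonneg_left _ hkp0.le
      calc (n : ℝ) = (n : ℝ) ^ 1 := (pow_one _).symm
        _ ≤ (n : ℝ) ^ 28 := pow_le_pow_right₀ (by linarith) (by norm_num)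
    have h2 : kp n ≤ 1 / 4 * (1 / n) := by
      rw [← div_eq_mul_one_div, le_div_iff₀ hnpos]
      linarith
    linarith
  -- main construction
  have key : ∀ z, good n z → ev b d E z = 0 → ∃ w : ℂ,
      (cx (tr (n - m + L) (PE b d E))).eval w = 0 ∧ ‖z - w‖ ≤ kp n * ‖z‖ ^ m := by
    intro z hz hz0
    have hzn : ‖z‖ ≤ 1 - dl n := hz.2.1
    have hz1 : ‖z‖ < 1 := by linarith
    have hs : dl n ≤ 1 - ‖z‖ := by linarith
    have hspos : 0 < 1 - ‖z‖ := by linarith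
    have hsn : 1 / (1 - ‖z‖) ≤ n := by
      rw [div_le_iff₀ hspos]
      have : 1 / (n : ℝ) ≤ 1 - ‖z‖ := hδn.trans hs
      rw [div_le_iff₀ hnpos] at this
      linarith
    have hev' : 1 / (n : ℝ) ^ 25 ≤ ‖ev' b d E z‖ := by
      by_contra hcon
      exact hEv2 ⟨z, hz, hz0, not_le.1 hcon⟩
    set F := cx (tr (n - m + L) (PE b d E)) with hF
    obtain ⟨c1, c2⟩ := tr_close hM hE (n - m + L) z hz1
    rw [← hF, hz0, sub_zero] at c1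
    rw [← hF] at c2
    have hz0' : 0 ≤ ‖z‖ := norm_nonneg z
    -- bound for ‖z‖^R
    have hR1 : ‖z‖ ^ (n - m + L) ≤ Real.exp (-(1 / 2 * (n : ℝ) ^ (1 / 5 : ℝ))) := by
      apply pow_le_exp hz0' hzn
      have h1 : (n : ℝ) / 2 ≤ ((n - m + L : ℕ) : ℝ) := by
        have : n ≤ 2 * (n - m + L) := by omega
        have h2 : (n : ℝ) ≤ 2 * ((n - m + L : ℕ) : ℝ) := by exact_mod_cast this
        linarith
      have h2 : (n : ℝ) ^ (1 / 5 : ℝ) = dl n * n := by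
        unfold dl
        nth_rewrite 3 [← Real.rpow_one (n : ℝ)]
        rw [← Real.rpow_add hnpos]
        norm_num
      rw [h2]
      nlinarith
    have hL1 : ‖z‖ ^ L ≤ Real.exp (-(n : ℝ) ^ (1 / 20 : ℝ)) := by
      apply pow_le_exp hz0' hzn
      have h2 : (n : ℝ) ^ (1 / 20 : ℝ) = dl n * (n : ℝ) ^ (85 / 100 : ℝ) := by
        unfold dl
        rw [← Real.rpow_add hnpos]
        norm_num
      rw [h2]
      exact mul_le_mul_of_nonneg_left hL hδpos.le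
    have hder : 1 / (2 * (n : ℝ) ^ 25) ≤ ‖(derivative F).eval z‖ := by
      have h1 : (n : ℝ) * ‖z‖ ^ (n - m + L) / (1 - ‖z‖) ≤ 1 / (2 * (n : ℝ) ^ 25) := by
        calc (n : ℝ) * ‖z‖ ^ (n - m + L) / (1 - ‖z‖)
            = (n : ℝ) * ‖z‖ ^ (n - m + L) * (1 / (1 - ‖z‖)) := by ring
          _ ≤ (n : ℝ) * Real.exp (-(1 / 2 * (n : ℝ) ^ (1 / 5 : ℝ))) * n := by
              gcongr
          _ = ((n : ℝ) ^ 27 * Real.exp (-(1 / 2 * (n : ℝ) ^ (1 / 5 : ℝ)))) / (n : ℝ) ^ 25 := by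
              field_simp
          _ ≤ (1 / 2) / (n : ℝ) ^ 25 := by gcongr
          _ = 1 / (2 * (n : ℝ) ^ 25) := by field_simp
      have h2 : ‖ev' b d E z‖ - ‖(derivative F).eval z‖ ≤
          ‖(derivative F).eval z - ev' b d E z‖ := by
        rw [norm_sub_rev]
        exact norm_sub_norm_le _ _
      have h3 : 1 / (n : ℝ) ^ 25 = 1 / (2 * (n : ℝ) ^ 25) + 1 / (2 * (n : ℝ) ^ 25) := by
        field_simp; norm_num
      linarith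
    have hderpos : 0 < ‖(derivative F).eval z‖ := lt_of_lt_of_le (by positivity) hder
    obtain ⟨w, hw1, hw2⟩ := near_root F n (tr_facts hM hE (n - m + L)).1 z
      (norm_pos_iff.1 hderpos)
    refine ⟨w, hw1, hw2.trans ?_⟩
    have h5 : ‖F.eval z‖ ≤ ‖z‖ ^ m * Real.exp (-(n : ℝ) ^ (1 / 20 : ℝ)) * n := by
      calc ‖F.eval z‖ ≤ ‖z‖ ^ (n - m + L + 1) / (1 - ‖z‖) := c1
        _ = ‖z‖ ^ (n - m + L + 1) * (1 / (1 - ‖z‖)) := by ring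
        _ ≤ ‖z‖ ^ (m + L) * n := by
            gcongr ?_ * ?_
            exact pow_le_pow_of_le_one hz0' hz1.le (by omega)
        _ = ‖z‖ ^ m * ‖z‖ ^ L * n := by rw [pow_add]
        _ ≤ ‖z‖ ^ m * Real.exp (-(n : ℝ) ^ (1 / 20 : ℝ)) * n := by gcongr
    calc (n : ℝ) * ‖F.eval z‖ / ‖(derivative F).eval z‖
        ≤ (n : ℝ) * (‖z‖ ^ m * Real.exp (-(n : ℝ) ^ (1 / 20 : ℝ)) * n) / (1 / (2 * (n : ℝ) ^ 25)) := by
          gcongr
      _ = kp n * ‖z‖ ^ m := by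
          rw [hX]; field_simp
  classical
  let σ : ℂ → ℂ := fun z => if h : good n z ∧ ev b d E z = 0 then
    Classical.choose (key z h.1 h.2) else 0
  have hσ : ∀ z, good n z → ev b d E z = 0 →
      (cx (tr (n - m + L) (PE b d E))).eval (σ z) = 0 ∧ ‖z - σ z‖ ≤ kp n * ‖z‖ ^ m := by
    intro z h1 h2
    have : σ z = Classical.choose (key z h1 h2) := dif_pos ⟨h1, h2⟩
    rw [this]
    exact Classical.choose_spec (key z h1 h2)
  have hkz : ∀ z, good n z → kp n * ‖z‖ ^ m ≤ kp n := by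
    intro z hz
    have : ‖z‖ ^ m ≤ 1 := pow_le_one₀ (norm_nonneg z) (by have := hz.2.1; unfold rr at this; linarith)
    nlinarith
  refine ⟨σ, ?_, ?_⟩
  · rintro z ⟨hz, hz0⟩ w ⟨hw, hw0⟩ hzw
    by_contra hne
    have h1 := (hσ z hz hz0).2.trans (hkz z hz)
    have h2 := (hσ w hw hw0).2.trans (hkz w hw)
    have h3 : ‖w - z‖ ≤ 2 * kp n := by
      calc ‖w - z‖ = ‖(w - σ w) - (z - σ z)‖ := by rw [hzw]; ring_nf
        _ ≤ ‖w - σ w‖ + ‖z - σ z‖ := norm_sub_le _ _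
        _ ≤ 2 * kp n := by linarith
    have hz1 : ‖z‖ ≤ 1 := by have := hz.2.1; unfold rr at this; linarith
    have hw1 : ‖w‖ ≤ 1 := by have := hw.2.1; unfold rr at this; linarith
    have h4 := taylor2 hM hE w z hw1 hz1
    rw [hw0, hz0, sub_zero, zero_sub, norm_neg, norm_mul] at h4
    have h5 : 0 < ‖w - z‖ := norm_pos_iff.2 (sub_ne_zero.2 (Ne.symm hne))
    have h6 : ‖ev' b d E z‖ ≤ (n : ℝ) ^ 3 * ‖w - z‖ := by
      have : ‖ev' b d E z‖ * ‖w - z‖ ≤ ((n : ℝ) ^ 3 * ‖w - z‖) * ‖w - z‖ := by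
        calc _ ≤ _ := h4
          _ = _ := by ring
      exact le_of_mul_le_mul_right this h5
    have h7 : 1 / (n : ℝ) ^ 25 ≤ ‖ev' b d E z‖ := by
      by_contra hcon
      exact hEv2 ⟨z, hz, hz0, not_le.1 hcon⟩
    have h8 : 1 / (n : ℝ) ^ 25 ≤ (n : ℝ) ^ 3 * (2 * kp n) := by
      calc _ ≤ _ := h7
        _ ≤ _ := h6
        _ ≤ _ := by gcongr
    rw [div_le_iff₀ (by positivity)] at h8
    have h9 : (n : ℝ) ^ 3 * (2 * kp n) * (n : ℝ) ^ 25 = 2 * (kp n * (n : ℝ) ^ 28) := by ring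
    rw [h9] at h8
    linarith
  · intro z hz hz0
    obtain ⟨h1, h2⟩ := hσ z hz hz0
    have h3 := h2.trans (hkz z hz)
    have h4 : ‖z‖ ≤ 1 - dl n := hz.2.1
    have h5 : 1 - 1 / 10 ^ 4 ≤ ‖z‖ := hz.1
    refine ⟨h1, ?_, ?_, h2⟩
    · have : ‖z‖ - ‖σ z‖ ≤ ‖z - σ z‖ := norm_sub_norm_le _ _
      norm_num at h5
      linarith
    · have : ‖σ z‖ - ‖z‖ ≤ ‖z - σ z‖ := by rw [norm_sub_rev]; exact norm_sub_norm_le _ _
      linarith

end Pool.Agent.Lib.MP_769d0b_pr
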