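import Pool.Agent.Lib.MP_769d0b_pr.Wf

/-!
LW-Wstar: the class Blaschke series is a small perturbation of the good one.

PROOF.
`W = ∏_{z∈S} wf z (σ z)`. `cS S' = ∏_{z∈S} (C (-σz)⁻¹ bl (σ z))` (`Finset.prod_bij`/`prod_nbij` with the bijection), `wf_mul` for each factor: `= W * cS S`. `l1p_prod`, `wf_l1p`:
`l1p W ≤ (1+2mκ)^(2|S|) ≤ exp(4 m κ |S|) ≤ exp(4m²κ) ≤ exp(1/2) ≤ 2`.
-/

set_option autoImplicit false

open Finset Polynomial

namespace Pool.Agent.Lib.MP_769d0b_pr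

open Pool.Agent.Lib.MP_7ab245_nt.Cnt Pool.Agent.Lib.MP_7ab245_nt.LogVar

theorem cS_star (S S' : Finset ℂ) (σ : ℂ → ℂ) (hσ : Set.BijOn σ S S') (m : ℕ) (κ : ℝ)
    (hκ : 0 ≤ κ) (hS : S.card ≤ m) (hκm : 8 * (m : ℝ) ^ 2 * κ ≤ 1)
    (h1 : ∀ z ∈ S, 1 / 2 < ‖z‖ ∧ ‖z‖ < 1 ∧ 1 / 2 < ‖σ z‖ ∧ ‖σ z‖ ≤ 1 ∧
      ‖z - σ z‖ ≤ κ * ‖z‖ ^ m) :
    ∃ W : PowerSeries ℂ, cS S' = W * cS S ∧ l1p W (m + 1) ≤ 2 := by
  refine ⟨∏ z ∈ S, wf z (σ z), ?_, ?_⟩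
  · unfold cS
    rw [← Finset.prod_mul_distrib]
    symm
    refine Finset.prod_bij (fun z _ => σ z) (fun z hz => ?_) (fun z hz w hw h => ?_)
      (fun w hw => ?_) (fun z hz => ?_)
    · exact_mod_cast hσ.mapsTo (by exact_mod_cast hz)
    · exact hσ.injOn (by exact_mod_cast hz) (by exact_mod_cast hw) h
    · obtain ⟨z, hz, hzw⟩ := hσ.surjOn (by exact_mod_cast hw : w ∈ (S' : Set ℂ))
      exact ⟨z, by exact_mod_cast hz, hzw⟩
    · obtain ⟨h2, _, h3, _⟩ := h1 z hz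
      exact (wf_mul z (σ z) (norm_pos_iff.mp (by linarith)) (norm_pos_iff.mp (by linarith))).symm
  · have h2 := l1p_prod S (fun z => wf z (σ z)) (m + 1) ((1 + 2 * m * κ) ^ 2) fun z hz => by
      obtain ⟨a, b, c, d, e⟩ := h1 z hz
      exact wf_l1p z (σ z) m κ hκ a b c d e
    refine h2.trans ?_
    have h3 : (0 : ℝ) ≤ 2 * m * κ := by positivity
    have h4 : (1 : ℝ) + 2 * m * κ ≤ Real.exp (2 * m * κ) := by
      linarith [Real.add_one_le_exp (2 * m * κ)]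
    have h5 : ((1 + 2 * m * κ) ^ 2) ^ S.card ≤ ((1 + 2 * m * κ) ^ 2) ^ m :=
      pow_le_pow_right₀ (one_le_pow₀ (by linarith)) hS
    have h6 : ((1 + 2 * m * κ) ^ 2) ^ m ≤ (Real.exp (2 * m * κ) ^ 2) ^ m := by gcongr
    have h7 : (Real.exp (2 * m * κ) ^ 2) ^ m = Real.exp (4 * (m : ℝ) ^ 2 * κ) := by
      rw [← pow_mul, ← Real.exp_nat_mul]
      congr 1
      push_cast
      ring
    have h8 : Real.exp (4 * (m : ℝ) ^ 2 * κ) ≤ Real.exp (1 / 2) :=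
      Real.exp_le_exp.mpr (by linarith)
    have h9 : Real.exp (1 / 2) ≤ 2 := by
      have h10 : Real.exp (1 / 2) ^ 2 = Real.exp 1 := by
        rw [← Real.exp_nat_mul]
        norm_num
      have h11 := Real.exp_one_lt_d9
      have h12 : 0 < Real.exp (1 / 2) := Real.exp_pos _
      nlinarith
    rw [h7] at h6
    linarith

end Pool.Agent.Lib.MP_769d0b_pr
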