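import Pool.Agent.Lib.MP_769d0b_pr.FamC
import Pool.Agent.Lib.MP_769d0b_pr.Wstar
import Pool.Agent.Lib.MP_769d0b_pr.Star
import Pool.Agent.Lib.MP_769d0b_pr.BadProd
import Pool.Agent.Lib.MP_769d0b_pr.CSb
import Pool.Agent.Lib.MP_769d0b_pr.Det

/-!
LW-ClassA: the size of a class (prefix, S).

PROOF.
`N` = max of the `N` of `star` and `bad_prod` and such that `TN n ≥ 1`, `TT n ≥ 1`, `8 n² kp n ≤ 1`. Let `ι` be the (finite) set of the `E` in the statement (subtype; if empty, `0 ≤ exp`). For `E ∈ ι` let `G E` be the factor from `EvM`, with the sign chosen such that `coeff 0 = 1`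
(`coeff 0` divides `±1`; `-G` is irreducible, divides, same degree and measure). `hG` injective: `det_of_factor` (all `E ∈ ι` have the same elements `≤ R`, `R = n - m + L ≥ n - m`). Squarefree: irreducible. `hbad`: `prod_zb_le` and `bad_prod`: `≤ TN n`.
`hW`: `E ∈ ι` comes with `σ` such that `S = σ '' zg n (G E)` — that is the meaning of the hypothesis `hS`: here the class is given by a set `S` and the property `CL E`: there are `G, σ` as listed. Apply `cS_star` with `κ = kp n`, `S.card ≤ m` (card_zg), `8 m² kp n ≤ 1`; good `z`: `1/2 < 1 - 1/10^4 ≤ ‖z‖ < 1`.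
`fam_c n m (TT n) (TN n)`. `card ι = ncard`, exponentiate.
-/

set_option autoImplicit false

open Finset Polynomial

namespace Pool.Agent.Lib.MP_769d0b_pr

open Pool.Agent.Lib.MP_7ab245_nt.Cnt Pool.Agent.Lib.MP_7ab245_nt.LogVar

/-- `E` is in the class of `S`: it is typical and has a factor `G` of degree `m` whose good zeros
are matched with `S` -/
def CL (n m : ℕ) (b : ℤ[X]) (d : ℤ) (S : Finset ℂ) (E : Finset ℕ) : Prop :=
  ¬ Ev1 n b d E ∧ ¬ Ev3 n b d E ∧ ∃ (G : ℤ[X]) (σ : ℂ → ℂ), Irreducible G ∧ G ∣ PE b d E ∧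
    G.natDegree = m ∧ MM G ≤ TT n ∧ G.coeff 0 = 1 ∧ Set.BijOn σ (zg n G) S ∧
    ∀ z ∈ zg n G, 1 / 2 < ‖σ z‖ ∧ ‖σ z‖ ≤ 1 ∧ ‖z - σ z‖ ≤ kp n * ‖z‖ ^ m

private theorem classA_kp : ∃ N : ℕ, ∀ n : ℕ, N ≤ n → 8 * (n : ℝ) ^ 2 * kp n ≤ 1 := by
  have h1 := Real.tendsto_pow_mul_exp_neg_atTop_nhds_zero 580
  have h2 : Filter.Tendsto (fun n : ℕ => (n : ℝ) ^ (1 / 20 : ℝ)) Filter.atTop Filter.atTop :=
    (tendsto_rpow_atTop (by norm_num)).comp tendsto_natCast_atTop_atTop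
  have h3 := h1.comp h2
  have h4 : ∀ᶠ n : ℕ in Filter.atTop,
      ((n : ℝ) ^ (1 / 20 : ℝ)) ^ 580 * Real.exp (-((n : ℝ) ^ (1 / 20 : ℝ))) < 1 / 16 :=
    h3.eventually_lt_const (by norm_num)
  obtain ⟨N, hN⟩ := Filter.eventually_atTop.1 h4
  refine ⟨N, fun n hn => ?_⟩
  have h5 := hN n hn
  have h6 : ((n : ℝ) ^ (1 / 20 : ℝ)) ^ 580 = (n : ℝ) ^ 29 := by
    rw [← Real.rpow_natCast, ← Real.rpow_mul (Nat.cast_nonneg n), ← Real.rpow_natCast]
    norm_num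
  rw [h6] at h5
  unfold kp
  have e : 8 * (n : ℝ) ^ 2 * (2 * (n : ℝ) ^ 27 * Real.exp (-(n : ℝ) ^ (1 / 20 : ℝ))) =
      16 * ((n : ℝ) ^ 29 * Real.exp (-((n : ℝ) ^ (1 / 20 : ℝ)))) := by ring
  rw [e]
  linarith

private theorem classA_kp0 (n : ℕ) : 0 ≤ kp n := by
  unfold kp
  positivity

theorem class_size : ∃ N : ℕ, ∀ n : ℕ, N ≤ n → ∀ b d, MD n b d → ∀ (m R : ℕ), 1 ≤ m → m ≤ n →
    n - m ≤ R → ∀ (S : Finset ℂ), (∀ z ∈ S, z ≠ 0) → ∀ D : Finset ℕ,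
    ({E : Finset ℕ | E ⊆ Ioo 0 n ∧ CL n m b d S E ∧ ∀ k ≤ R, k ∈ E ↔ k ∈ D}.ncard : ℝ) ≤
      Real.exp (400 * max 1 (37 * TN n * TT n * √(m * Real.log (2 * m * TT n)))) := by
  obtain ⟨N₁, hN₁⟩ := bad_prod
  obtain ⟨N₂, hN₂⟩ := classA_kp
  refine ⟨max (max N₁ N₂) 1, ?_⟩
  intro n hn b d hMD m R hm hmn hR S hS D
  have hn1 : N₁ ≤ n := le_trans (le_trans (le_max_left _ _) (le_max_left _ _)) hn
  have hn2 : N₂ ≤ n := le_trans (le_trans (le_max_right _ _) (le_max_left _ _)) hn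
  have hn3 : 1 ≤ n := le_trans (le_max_right _ _) hn
  have hn3' : (1 : ℝ) ≤ n := by exact_mod_cast hn3
  have hTT : 1 ≤ TT n := Real.one_le_rpow hn3' (by norm_num)
  have hTN : 1 ≤ TN n := Real.one_le_rpow hn3' (by norm_num)
  have hκm : 8 * (m : ℝ) ^ 2 * kp n ≤ 1 := by
    refine le_trans ?_ (hN₂ n hn2)
    have h1 : (m : ℝ) ≤ n := by exact_mod_cast hmn
    have h2 : (m : ℝ) ^ 2 ≤ (n : ℝ) ^ 2 := by gcongr
    have h3 := classA_kp0 n
    nlinarith [mul_le_mul_of_nonneg_right h2 h3]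
  obtain ⟨Y, hY⟩ : ∃ Y : Set (Finset ℕ),
      Y = {E : Finset ℕ | E ⊆ Ioo 0 n ∧ CL n m b d S E ∧ ∀ k ≤ R, k ∈ E ↔ k ∈ D} := ⟨_, rfl⟩
  rw [← hY]
  have hmem : ∀ E ∈ Y, E ⊆ Ioo 0 n ∧ CL n m b d S E ∧ ∀ k ≤ R, k ∈ E ↔ k ∈ D := by
    intro E hE
    rw [hY] at hE
    exact hE
  have hfin : Y.Finite := by
    refine Set.Finite.subset ((Ioo 0 n).powerset : Finset (Finset ℕ)).finite_toSet ?_
    intro E hE
    rw [Finset.mem_coe, Finset.mem_powerset]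
    exact (hmem E hE).1
  rcases Set.eq_empty_or_nonempty Y with hemp | hne
  · rw [hemp, Set.ncard_empty, Nat.cast_zero]
    exact (Real.exp_pos _).le
  · have := hfin.fintype
    have : Nonempty Y := hne.to_subtype
    choose G σ hirr hdvd hdeg hMM hc0 hbij hσ using fun E : Y => (hmem E.1 E.2).2.1.2.2
    have hE1 : ∀ E : Y, E.1 ⊆ Ioo 0 n := fun E => (hmem E.1 E.2).1
    have key := fam_c n m (TT n) (TN n) hm hTT hTN (ι := Y) G ?_ hdeg hc0
      (fun E => (hirr E).squarefree) hMM ?_ S hS ?_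
    · have hcard : ((Y.ncard : ℕ) : ℝ) = (Fintype.card Y : ℝ) := by
        rw [Set.ncard_eq_toFinset_card', Set.toFinset_card]
      rw [hcard]
      have hpos : (0 : ℝ) < Fintype.card Y := by
        exact_mod_cast Fintype.card_pos
      exact (Real.log_le_iff_le_exp hpos).1 key
    · intro E₁ E₂ h12
      have h3 := det_of_factor hMD (hE1 E₁) (hE1 E₂) (G E₁) m R (hdeg E₁) hmn hR (hdvd E₁)
        (h12 ▸ hdvd E₂)
        (fun k hk => ((hmem E₁.1 E₁.2).2.2 k hk).trans ((hmem E₂.1 E₂.2).2.2 k hk).symm)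
      exact Subtype.ext h3
    · intro E
      have h1 : PE b d E.1 ≠ 0 := hMD.ne_zero (hE1 E)
      have h2 : (PE b d E.1).coeff 0 ≠ 0 := by
        intro h
        have h3 := hMD.coeff_zero (hE1 E)
        rw [h, abs_zero] at h3
        exact absurd h3 (by norm_num)
      refine le_trans (prod_zb_le n (G E) (PE b d E.1) h1 h2 (hdvd E)) ?_
      exact hN₁ n hn1 b d hMD E.1 (hE1 E) (hmem E.1 E.2).2.1.1 (hmem E.1 E.2).2.1.2.1
    · intro E
      have hG0 : G E ≠ 0 := (hirr E).ne_zero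
      refine cS_star (zg n (G E)) S (σ E) (hbij E) m (kp n) (classA_kp0 n)
        ((card_zg n (G E)).trans (hdeg E).le) hκm ?_
      intro z hz
      have h3 := (mem_zg hG0).1 hz
      have h4 := h3.2.2.1
      have h5 := hσ E z hz
      refine ⟨?_, h3.2.1, h5.1, h5.2.1, h5.2.2⟩
      have : (1 : ℝ) / 2 < 1 - 1 / 10 ^ 4 := by norm_num
      linarith

end Pool.Agent.Lib.MP_769d0b_pr
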