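import Pool.Agent.Lib.MP_769d0b_pr.Defs

/-!
LW-Cnt: counting subsets: monotonicity, union bound, injections, Markov.

PROOF.
`cnt n Q` is the `ncard` of a subset of the finite set of the subsets of `Ioo 0 n` (`Finset.powerset`, `card_powerset`, `Nat.card_Ioo`:
`(Ioo 0 n).card = n - 1`). `cnt_inj`: `E ↦ E \ I` is an injection into the subsets of `Ioo 0 n \ I`. `cnt_cond`: fibre over `D = E \ I`:
at most `B` sets `A = E ∩ I` for every `D`, `E = A ∪ D`, and `2^(n-1-|I|)` sets `D`. `cnt_markov`: double counting of the pairs `(i, E)`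
with `i ∈ S`, `Q i E`: `t * #{E : t ≤ #{i}} ≤ ∑_E #{i ∈ S : Q i E} = ∑_i cnt n (Q i)`. Everything: finite sets (`classical`).
-/

set_option autoImplicit false

open Finset Polynomial

namespace Pool.Agent.Lib.MP_769d0b_pr

open Pool.Agent.Lib.MP_7ab245_nt.Cnt Pool.Agent.Lib.MP_7ab245_nt.LogVar

theorem cnt_fin (n : ℕ) (Q : Finset ℕ → Prop) : {E : Finset ℕ | E ⊆ Ioo 0 n ∧ Q E}.Finite := by
  apply Set.Finite.subset (Finset.finite_toSet (Ioo 0 n).powerset)
  intro E hE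
  rw [Finset.mem_coe, Finset.mem_powerset]
  exact hE.1

private theorem cnt_eq (n : ℕ) (Q : Finset ℕ → Prop) [DecidablePred Q] :
    cnt n Q = ((Ioo 0 n).powerset.filter Q).card := by
  unfold cnt
  rw [← Set.ncard_coe_finset]
  congr 1
  ext E
  simp

theorem cnt_mono {n : ℕ} {Q Q' : Finset ℕ → Prop} (h : ∀ E, E ⊆ Ioo 0 n → Q E → Q' E) :
    cnt n Q ≤ cnt n Q' := by
  classical
  rw [cnt_eq, cnt_eq]
  apply Finset.card_le_card
  intro E hE
  rw [Finset.mem_filter, Finset.mem_powerset] at hE ⊢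
  exact ⟨hE.1, h E hE.1 hE.2⟩

theorem cnt_or (n : ℕ) (Q Q' : Finset ℕ → Prop) :
    cnt n (fun E => Q E ∨ Q' E) ≤ cnt n Q + cnt n Q' := by
  classical
  rw [cnt_eq, cnt_eq, cnt_eq]
  refine (Finset.card_le_card ?_).trans (Finset.card_union_le _ _)
  intro E hE
  rw [Finset.mem_filter] at hE
  rw [Finset.mem_union, Finset.mem_filter, Finset.mem_filter]
  rcases hE.2 with h | h
  · exact Or.inl ⟨hE.1, h⟩
  · exact Or.inr ⟨hE.1, h⟩

theorem cnt_exists {κ : Type} (n : ℕ) (S : Finset κ) (Q : κ → Finset ℕ → Prop) :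
    cnt n (fun E => ∃ i ∈ S, Q i E) ≤ ∑ i ∈ S, cnt n (Q i) := by
  classical
  induction S using Finset.induction_on with
  | empty =>
    rw [Finset.sum_empty]
    have h1 : cnt n (fun E => ∃ i ∈ (∅ : Finset κ), Q i E) = cnt n (fun _ => False) := by
      congr 1
      funext E
      simp
    rw [h1, cnt_eq]
    simp
  | insert a S ha ih =>
    rw [Finset.sum_insert ha]
    refine le_trans ?_ (add_le_add le_rfl ih)
    refine le_trans (cnt_mono fun E _ h => ?_) (cnt_or n (Q a) (fun E => ∃ i ∈ S, Q i E))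
    obtain ⟨i, hi, h2⟩ := h
    rcases Finset.mem_insert.mp hi with rfl | hi
    · exact Or.inl h2
    · exact Or.inr ⟨i, hi, h2⟩

private theorem card_pow (n : ℕ) (I : Finset ℕ) (hI : I ⊆ Ioo 0 n) :
    ((Ioo 0 n \ I).powerset).card = 2 ^ (n - 1 - I.card) := by
  rw [Finset.card_powerset, Finset.card_sdiff_of_subset hI, Nat.card_Ioo, Nat.sub_zero]

theorem cnt_le (n : ℕ) (Q : Finset ℕ → Prop) : cnt n Q ≤ 2 ^ (n - 1) := by
  classical
  rw [cnt_eq]
  refine (Finset.card_filter_le _ _).trans (le_of_eq ?_)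
  rw [Finset.card_powerset, Nat.card_Ioo, Nat.sub_zero]

theorem cnt_inj (n : ℕ) (Q : Finset ℕ → Prop) (I : Finset ℕ) (hI : I ⊆ Ioo 0 n)
    (h : ∀ E₁ E₂, E₁ ⊆ Ioo 0 n → E₂ ⊆ Ioo 0 n → Q E₁ → Q E₂ → E₁ \ I = E₂ \ I → E₁ = E₂) :
    cnt n Q ≤ 2 ^ (n - 1 - I.card) := by
  classical
  rw [cnt_eq, ← card_pow n I hI]
  apply Finset.card_le_card_of_injOn (fun E => E \ I)
  · intro E hE
    rw [Finset.mem_coe, Finset.mem_filter, Finset.mem_powerset] at hE
    rw [Finset.mem_coe, Finset.mem_powerset]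
    exact Finset.sdiff_subset_sdiff hE.1 (le_refl _)
  · intro E₁ h₁ E₂ h₂ h12
    rw [Finset.mem_coe, Finset.mem_filter, Finset.mem_powerset] at h₁ h₂
    exact h E₁ E₂ h₁.1 h₂.1 h₁.2 h₂.2 h12

theorem cnt_cond (n : ℕ) (Q : Finset ℕ → Prop) (I : Finset ℕ) (hI : I ⊆ Ioo 0 n) (B : ℕ)
    (h : ∀ D, D ⊆ Ioo 0 n \ I → {A : Finset ℕ | A ⊆ I ∧ Q (A ∪ D)}.ncard ≤ B) :
    cnt n Q ≤ B * 2 ^ (n - 1 - I.card) := by
  classical
  rw [cnt_eq, ← card_pow n I hI]
  apply Finset.card_le_mul_card_image_of_maps_to (f := fun E => E \ I)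
  · intro E hE
    rw [Finset.mem_filter, Finset.mem_powerset] at hE
    rw [Finset.mem_powerset]
    exact Finset.sdiff_subset_sdiff hE.1 (le_refl _)
  · intro D hD
    rw [Finset.mem_powerset] at hD
    refine le_trans ?_ (h D hD)
    have hfin : {A : Finset ℕ | A ⊆ I ∧ Q (A ∪ D)}.Finite := by
      apply Set.Finite.subset (Finset.finite_toSet I.powerset)
      intro E hE
      rw [Finset.mem_coe, Finset.mem_powerset]
      exact hE.1
    rw [Set.ncard_eq_toFinset_card _ hfin]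
    apply Finset.card_le_card_of_injOn (fun E => E ∩ I)
    · intro E hE
      rw [Finset.mem_coe, Finset.mem_filter, Finset.mem_filter] at hE
      obtain ⟨⟨h1, h2⟩, h3⟩ := hE
      rw [Finset.mem_coe, Set.Finite.mem_toFinset]
      refine ⟨Finset.inter_subset_right, ?_⟩
      have h4 : E ∩ I ∪ D = E := by
        rw [← h3]
        ext x
        simp only [Finset.mem_union, Finset.mem_inter, Finset.mem_sdiff]
        tauto
      rw [h4]
      exact h2
    · intro E₁ h₁ E₂ h₂ h12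
      rw [Finset.mem_coe, Finset.mem_filter] at h₁ h₂
      have h3 : E₁ \ I = E₂ \ I := h₁.2.trans h₂.2.symm
      simp only at h12
      ext x
      have h4 : x ∈ E₁ ∩ I ↔ x ∈ E₂ ∩ I := by rw [h12]
      have h5 : x ∈ E₁ \ I ↔ x ∈ E₂ \ I := by rw [h3]
      simp only [Finset.mem_inter, Finset.mem_sdiff] at h4 h5
      tauto

theorem cnt_markov {κ : Type} (n : ℕ) (S : Finset κ) (Q : κ → Finset ℕ → Prop) (t : ℝ)
    (ht : 0 < t) :
    t * cnt n (fun E => t ≤ (({i | i ∈ S ∧ Q i E} : Set κ).ncard : ℝ)) ≤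
      ∑ i ∈ S, (cnt n (Q i) : ℝ) := by
  classical
  have hset : ∀ E, ({i | i ∈ S ∧ Q i E} : Set κ).ncard = (S.filter (fun i => Q i E)).card := by
    intro E
    rw [← Set.ncard_coe_finset]
    congr 1
    ext i
    simp
  have h1 : ∑ i ∈ S, (cnt n (Q i) : ℝ) =
      ∑ E ∈ (Ioo 0 n).powerset, ((S.filter (fun i => Q i E)).card : ℝ) := by
    have h2 : ∀ i, (cnt n (Q i) : ℝ) = ∑ E ∈ (Ioo 0 n).powerset, if Q i E then (1 : ℝ) else 0 := by
      intro i
      rw [cnt_eq, Finset.sum_boole]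
    have h3 : ∀ E : Finset ℕ, ((S.filter (fun i => Q i E)).card : ℝ) =
        ∑ i ∈ S, if Q i E then (1 : ℝ) else 0 := by
      intro E
      rw [Finset.sum_boole]
    simp only [h2, h3]
    exact Finset.sum_comm
  rw [h1, cnt_eq]
  calc t * ((((Ioo 0 n).powerset.filter
          (fun E => t ≤ (({i | i ∈ S ∧ Q i E} : Set κ).ncard : ℝ))).card : ℕ) : ℝ)
      = ∑ _E ∈ (Ioo 0 n).powerset.filter
          (fun E => t ≤ (({i | i ∈ S ∧ Q i E} : Set κ).ncard : ℝ)), t := by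
        rw [Finset.sum_const, nsmul_eq_mul, mul_comm]
    _ ≤ ∑ E ∈ (Ioo 0 n).powerset.filter
          (fun E => t ≤ (({i | i ∈ S ∧ Q i E} : Set κ).ncard : ℝ)),
          ((S.filter (fun i => Q i E)).card : ℝ) := by
        refine Finset.sum_le_sum fun E hE => ?_
        rw [Finset.mem_filter] at hE
        rw [← hset]
        exact hE.2
    _ ≤ ∑ E ∈ (Ioo 0 n).powerset, ((S.filter (fun i => Q i E)).card : ℝ) :=
        Finset.sum_le_sum_of_subset_of_nonneg (Finset.filter_subset _ _)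
          fun _ _ _ => by positivity

/-- complements -/
theorem cnt_not (n : ℕ) (Q : Finset ℕ → Prop) :
    cnt n Q + cnt n (fun E => ¬ Q E) = 2 ^ (n - 1) := by
  classical
  rw [cnt_eq, cnt_eq, Finset.card_filter_add_card_filter_not, Finset.card_powerset, Nat.card_Ioo,
    Nat.sub_zero]

end Pool.Agent.Lib.MP_769d0b_pr
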