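import Pool.Agent.Lib.MP_769d0b_pr.Det
import Pool.Agent.Lib.MP_769d0b_pr.Cnt

/-!
LW-CntDvd: number of multiples of H.

PROOF.
`cnt_inj` with `I = Ioo (n-m) n` (`⊆ Ioo 0 n`, card `m - 1`), `det_of_factor` with `R = n - m`: if `E₁ \ I = E₂ \ I` then the elements `≤ n - m` agree. `2^(n-1-(m-1)) = 2^(n-m)` for `m ≥ 1`; `m = 0`: `cnt_le` and `2^(n-1) ≤ 2^n`.
-/

set_option autoImplicit false

open Finset Polynomial

namespace Pool.Agent.Lib.MP_769d0b_pr

open Pool.Agent.Lib.MP_7ab245_nt.Cnt Pool.Agent.Lib.MP_7ab245_nt.LogVar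

theorem cnt_dvd {n : ℕ} {b : ℤ[X]} {d : ℤ} (h : MD n b d) (H : ℤ[X]) (m : ℕ)
    (hm : H.natDegree = m) (hmn : m ≤ n) : cnt n (fun E => H ∣ PE b d E) ≤ 2 ^ (n - m) := by
  rcases Nat.eq_zero_or_pos m with h0 | hpos
  · refine (cnt_le n _).trans ?_
    exact Nat.pow_le_pow_right (by norm_num) (by omega)
  have h1 : cnt n (fun E => H ∣ PE b d E) ≤ 2 ^ (n - 1 - (Ioo (n - m) n).card) := by
    apply cnt_inj n _ (Ioo (n - m) n)
    · intro k hk
      rw [mem_Ioo] at hk ⊢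
      omega
    · intro E₁ E₂ h₁ h₂ q₁ q₂ h12
      refine det_of_factor h h₁ h₂ H m (n - m) hm hmn le_rfl q₁ q₂ ?_
      intro k hk
      have hk' : k ∉ Ioo (n - m) n := by
        rw [mem_Ioo]
        omega
      constructor
      · intro hk1
        have : k ∈ E₁ \ Ioo (n - m) n := mem_sdiff.2 ⟨hk1, hk'⟩
        rw [h12] at this
        exact (mem_sdiff.1 this).1
      · intro hk1
        have : k ∈ E₂ \ Ioo (n - m) n := mem_sdiff.2 ⟨hk1, hk'⟩
        rw [← h12] at this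
        exact (mem_sdiff.1 this).1
  refine h1.trans ?_
  rw [Nat.card_Ioo]
  exact Nat.pow_le_pow_right (by norm_num) (by omega)

end Pool.Agent.Lib.MP_769d0b_pr
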