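import Pool.Agent.Lib.MP_769d0b_pr.Defs
import Pool.Agent.Lib.MP_7ab245_nt.Mono.Dobro

/-!
LW-PowM: measure of alpha^j.

PROOF.
`f(X^j) = expand ℤ j f` vanishes at `α`, so `G ∣ expand ℤ j f` in `ℤ[X]` (`G` irreducible, hence primitive and irreducible over `ℚ` — Gauss; root in ℂ), so `f(α_i^j) = 0` for all complex roots `α_i` of `G`. `G` has `m = natDegree` distinct roots (irreducible: separable, char 0); by `hinj` the `α_i^j` are
distinct roots of `cx f`. `MM f = |lc f| ∏_{roots} max 1 ‖·‖ ≥ ∏_i max 1 ‖α_i‖^j` (subset of the roots, all factors `≥ 1`, `|lc f| ≥ 1`) `= (MM G/|lc G|)^j = MM G^j`, with `|lc G| = 1`.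
-/

set_option autoImplicit false

open Finset Polynomial

namespace Pool.Agent.Lib.MP_769d0b_pr

open Pool.Agent.Lib.MP_7ab245_nt.Cnt Pool.Agent.Lib.MP_7ab245_nt.LogVar

theorem pow_measure (G : ℤ[X]) (hG : Irreducible G) (hm : 1 ≤ G.natDegree)
    (hlc : |G.leadingCoeff| = 1) (j : ℕ) (hj : 1 ≤ j)
    (hinj : ∀ α β : ℂ, (cx G).eval α = 0 → (cx G).eval β = 0 → α ^ j = β ^ j → α = β)
    (f : ℤ[X]) (hf : f ≠ 0) (α : ℂ) (hα : (cx G).eval α = 0) (hfα : (cx f).eval (α ^ j) = 0) :
    MM G ^ j ≤ MM f := by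
  classical
  have hG0 : G ≠ 0 := hG.ne_zero
  have hprim : G.IsPrimitive := hG.isPrimitive (by omega)
  have hGQ : Irreducible (G.map (Int.castRingHom ℚ)) :=
    (Polynomial.IsPrimitive.Int.irreducible_iff_irreducible_map_cast hprim).1 hG
  have hcomp : (algebraMap ℚ ℂ).comp (Int.castRingHom ℚ) = Int.castRingHom ℂ := by
    ext
    simp
  have hcxG : cx G = (G.map (Int.castRingHom ℚ)).map (algebraMap ℚ ℂ) := by
    rw [Polynomial.map_map, hcomp]
    rfl
  have hcxF : ∀ F : ℤ[X], cx F = (F.map (Int.castRingHom ℚ)).map (algebraMap ℚ ℂ) := by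
    intro F
    rw [Polynomial.map_map, hcomp]
    rfl
  have haev : ∀ (F : ℤ[X]) (z : ℂ), Polynomial.aeval z (F.map (Int.castRingHom ℚ)) =
      (cx F).eval z := by
    intro F z
    rw [hcxF F, Polynomial.aeval_def, Polynomial.eval_map]
  -- the minimal polynomial
  have hmin : minpoly ℚ α ∣ G.map (Int.castRingHom ℚ) := minpoly.dvd ℚ α (by rw [haev, hα])
  have hass : Associated (minpoly ℚ α) (G.map (Int.castRingHom ℚ)) := by
    have hint : IsIntegral ℚ α := by
      have h1 : IsAlgebraic ℚ α := ⟨G.map (Int.castRingHom ℚ), hGQ.ne_zero, by rw [haev, hα]⟩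
      exact h1.isIntegral
    exact (minpoly.irreducible hint).associated_of_dvd hGQ hmin
  have hdvd : G.map (Int.castRingHom ℚ) ∣ (Polynomial.expand ℤ j f).map (Int.castRingHom ℚ) := by
    refine hass.symm.dvd.trans (minpoly.dvd ℚ α ?_)
    rw [haev]
    unfold cx
    rw [Polynomial.map_expand, Polynomial.expand_eval]
    exact hfα
  have hroot : ∀ β : ℂ, (cx G).eval β = 0 → (cx f).eval (β ^ j) = 0 := by
    intro β hβ
    obtain ⟨q, hq⟩ := hdvd
    have h1 : (cx (Polynomial.expand ℤ j f)).eval β = 0 := by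
      rw [hcxF, hq, Polynomial.map_mul, Polynomial.eval_mul, ← hcxF, hβ, zero_mul]
    have h2 : cx (Polynomial.expand ℤ j f) = Polynomial.expand ℂ j (cx f) := by
      unfold cx
      rw [Polynomial.map_expand]
    rw [h2, Polynomial.expand_eval] at h1
    exact h1
  have hinjZ : Function.Injective (Int.castRingHom ℂ) := (Int.castRingHom ℂ).injective_int
  have hcf0 : cx f ≠ 0 := by
    unfold cx
    exact (Polynomial.map_ne_zero_iff hinjZ).mpr hf
  have hcG0 : cx G ≠ 0 := by
    unfold cx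
    exact (Polynomial.map_ne_zero_iff hinjZ).mpr hG0
  -- distinct roots
  have hnod : (cx G).roots.Nodup := by
    rw [hcxG]
    exact Polynomial.nodup_roots (hGQ.separable.map)
  have hnod' : ((cx G).roots.map (fun z => z ^ j)).Nodup := by
    apply Multiset.Nodup.map_on _ hnod
    intro x hx y hy hxy
    exact hinj x y (Polynomial.mem_roots'.mp hx).2 (Polynomial.mem_roots'.mp hy).2 hxy
  have hle : (cx G).roots.map (fun z => z ^ j) ≤ (cx f).roots := by
    rw [Multiset.le_iff_subset hnod']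
    intro w hw
    obtain ⟨z, hz, rfl⟩ := Multiset.mem_map.mp hw
    rw [Polynomial.mem_roots hcf0]
    exact hroot z (Polynomial.mem_roots'.mp hz).2
  obtain ⟨T, hT⟩ := Multiset.le_iff_exists_add.mp hle
  have hone : ∀ T : Multiset ℂ, 1 ≤ (T.map (fun a : ℂ => max 1 ‖a‖)).prod := by
    intro T
    induction T using Multiset.induction_on with
    | empty => simp
    | cons a T ih =>
      rw [Multiset.map_cons, Multiset.prod_cons]
      exact one_le_mul_of_one_le_of_one_le (le_max_left 1 ‖a‖) ih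
  have hpow : ∀ S : Multiset ℂ, (S.map (fun a : ℂ => max 1 ‖a‖)).prod ^ j =
      ((S.map (fun z => z ^ j)).map (fun a : ℂ => max 1 ‖a‖)).prod := by
    intro S
    induction S using Multiset.induction_on with
    | empty => simp
    | cons a S ih =>
      rw [Multiset.map_cons, Multiset.prod_cons, mul_pow, ih, Multiset.map_cons,
        Multiset.map_cons, Multiset.prod_cons]
      congr 1
      rw [norm_pow]
      rcases le_total ‖a‖ 1 with h | h
      · rw [max_eq_left h, one_pow, max_eq_left (pow_le_one₀ (norm_nonneg a) h)]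
      · rw [max_eq_right h, max_eq_right (one_le_pow₀ h)]
  have hlead : ∀ F : ℤ[X], ‖(cx F).leadingCoeff‖ = |(F.leadingCoeff : ℝ)| := by
    intro F
    unfold cx
    rw [Polynomial.leadingCoeff_map_of_injective hinjZ]
    simp
  have hGM : MM G = ((cx G).roots.map (fun a : ℂ => max 1 ‖a‖)).prod := by
    unfold MM
    rw [Polynomial.mahlerMeasure_eq_leadingCoeff_mul_prod_roots, hlead]
    have : |(G.leadingCoeff : ℝ)| = 1 := by
      rw [← Int.cast_abs, hlc]
      norm_num
    rw [this, one_mul]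
  have hfM : MM f = |(f.leadingCoeff : ℝ)| *
      ((cx f).roots.map (fun a : ℂ => max 1 ‖a‖)).prod := by
    unfold MM
    rw [Polynomial.mahlerMeasure_eq_leadingCoeff_mul_prod_roots, hlead]
  have hlf : 1 ≤ |(f.leadingCoeff : ℝ)| := by
    have h1 : 1 ≤ |f.leadingCoeff| := Int.one_le_abs (Polynomial.leadingCoeff_ne_zero.mpr hf)
    rw [← Int.cast_abs]
    exact_mod_cast h1
  rw [hGM, hpow, hfM, hT, Multiset.map_add, Multiset.prod_add]
  have hA := hone ((cx G).roots.map (fun z => z ^ j))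
  have hB := hone T
  set A := (((cx G).roots.map (fun z => z ^ j)).map (fun a : ℂ => max 1 ‖a‖)).prod with hAdef
  set B := (T.map (fun a : ℂ => max 1 ‖a‖)).prod with hBdef
  have hA0 : 0 ≤ A := by linarith
  calc A = 1 * (A * 1) := by ring
    _ ≤ |(f.leadingCoeff : ℝ)| * (A * B) :=
        mul_le_mul hlf (mul_le_mul_of_nonneg_left hB hA0) (by positivity) (abs_nonneg _)

end Pool.Agent.Lib.MP_769d0b_pr
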