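import Pool.Agent.Lib.MP_769d0b_pr.Basic
import Pool.Agent.Lib.MP_769d0b_pr.Cnt

/-!
LW-Sep: small ball probability from separated sums.

PROOF.
`cnt_inj`: if `‖ev b d E₁ y‖ ≤ ρ`, `‖ev b d E₂ y‖ ≤ ρ` and `E₁ \ I = E₂ \ I`, put `A = E₁ ∩ I`, `B = E₂ ∩ I`. By `ev_sub`
`2ρ ≥ ‖ev E₁ - ev E₂‖ = |d| ‖∑_A y^k - ∑_B y^k‖` (the common part cancels) and `|d| ≥ 1`, so `A = B` and `E₁ = E₂`.
`cnt_sep_zero`: the same with equality instead of small norm (`d ≠ 0`).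
-/

set_option autoImplicit false

open Finset Polynomial

namespace Pool.Agent.Lib.MP_769d0b_pr

open Pool.Agent.Lib.MP_7ab245_nt.Cnt Pool.Agent.Lib.MP_7ab245_nt.LogVar

private theorem sep_sum (E₁ E₂ I : Finset ℕ) (h : E₁ \ I = E₂ \ I) (y : ℂ) :
    ∑ k ∈ E₁, y ^ k - ∑ k ∈ E₂, y ^ k = ∑ k ∈ E₁ ∩ I, y ^ k - ∑ k ∈ E₂ ∩ I, y ^ k := by
  classical
  have h1 : ∀ E : Finset ℕ, ∑ k ∈ E, y ^ k = ∑ k ∈ E ∩ I, y ^ k + ∑ k ∈ E \ I, y ^ k := by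
    intro E
    exact (Finset.sum_inter_add_sum_sdiff E I _).symm
  rw [h1 E₁, h1 E₂, h]
  ring

private theorem sep_eq (E₁ E₂ I : Finset ℕ) (h : E₁ \ I = E₂ \ I) (h' : E₁ ∩ I = E₂ ∩ I) :
    E₁ = E₂ := by
  ext x
  have h4 : x ∈ E₁ ∩ I ↔ x ∈ E₂ ∩ I := by rw [h']
  have h5 : x ∈ E₁ \ I ↔ x ∈ E₂ \ I := by rw [h]
  simp only [Finset.mem_inter, Finset.mem_sdiff] at h4 h5
  tauto

theorem cnt_sep {n : ℕ} {b : ℤ[X]} {d : ℤ} (h : MD n b d) (y : ℂ) (ρ : ℝ) (I : Finset ℕ)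
    (hI : I ⊆ Ioo 0 n)
    (hs : ∀ A, A ⊆ I → ∀ B, B ⊆ I → A ≠ B → 2 * ρ < ‖∑ k ∈ A, y ^ k - ∑ k ∈ B, y ^ k‖) :
    cnt n (fun E => ‖ev b d E y‖ ≤ ρ) ≤ 2 ^ (n - 1 - I.card) := by
  apply cnt_inj n _ I hI
  intro E₁ E₂ _ _ h₁ h₂ h12
  by_contra hne
  have h3 : E₁ ∩ I ≠ E₂ ∩ I := fun h' => hne (sep_eq E₁ E₂ I h12 h')
  have h4 := hs _ Finset.inter_subset_right _ Finset.inter_subset_right h3
  rw [← sep_sum E₁ E₂ I h12] at h4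
  have h5 := ev_sub b d E₁ E₂ y
  have h6 : ‖ev b d E₁ y - ev b d E₂ y‖ ≤ 2 * ρ := by
    refine (norm_sub_le _ _).trans ?_
    linarith
  have hd : (1 : ℝ) ≤ ‖(d : ℂ)‖ := by
    rcases h.hd with rfl | rfl <;> simp
  rw [h5, norm_mul] at h6
  have h7 := norm_nonneg (∑ k ∈ E₁, y ^ k - ∑ k ∈ E₂, y ^ k)
  nlinarith

theorem cnt_sep_zero {n : ℕ} {b : ℤ[X]} {d : ℤ} (h : MD n b d) (y : ℂ) (I : Finset ℕ)
    (hI : I ⊆ Ioo 0 n)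
    (hs : ∀ A, A ⊆ I → ∀ B, B ⊆ I → A ≠ B → ∑ k ∈ A, y ^ k ≠ ∑ k ∈ B, y ^ k) :
    cnt n (fun E => ev b d E y = 0) ≤ 2 ^ (n - 1 - I.card) := by
  apply cnt_inj n _ I hI
  intro E₁ E₂ _ _ h₁ h₂ h12
  by_contra hne
  have h3 : E₁ ∩ I ≠ E₂ ∩ I := fun h' => hne (sep_eq E₁ E₂ I h12 h')
  have h4 := hs _ Finset.inter_subset_right _ Finset.inter_subset_right h3
  apply h4
  rw [← sub_eq_zero, ← sep_sum E₁ E₂ I h12]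
  have h5 := ev_sub b d E₁ E₂ y
  rw [h₁, h₂, sub_zero] at h5
  have hd : (d : ℂ) ≠ 0 := by
    rcases h.hd with rfl | rfl <;> simp
  exact (mul_eq_zero.mp h5.symm).resolve_left hd

end Pool.Agent.Lib.MP_769d0b_pr
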