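import Pool.Agent.Lib.MP_769d0b_pr.BadPrimes
import Pool.Agent.Lib.MP_769d0b_pr.PowM
import Pool.Agent.Lib.MP_769d0b_pr.Sep
import Pool.Agent.Lib.MP_769d0b_pr.Basic
import Pool.Agent.Lib.MP_7ab245_nt.Mono.Dobro
import Pool.Agent.Lib.MP_7ab245_nt.Solv.PrimeCount

/-!
LW-CntG: probability that a fixed noncyclotomic G divides P.

PROOF.
`Y = ⌊(log n)^5⌋₊`. If no `E` with `G ∣ PE` the count is `0`; otherwise `|lc G| = 1`, `|G.coeff 0| = 1`. By `primes_between 0` (Solv/PrimeCount.lean) there are `≥ Y` primes in `Ioc Y (Y²)`, and `Y > log₂ n ≥ log₂ m` (`n` large), so by `bad_primes` some prime `j ∈ (Y, Y²]` satisfies `hinj` of `pow_measure`.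
`dobrowolski` (Mono/Dobro.lean): `log MM G ≥ c/(log n)³` so `MM G^j ≥ exp(c j/(log n)³) > √n` for large `n`, as `j > Y ≥ (log n)^5/2`. `I = {k ∈ Ioo 0 n : j ∣ k}`, `|I| = (n-1)/j ≥ (n-1)/Y² - 1 ≥ n/(2 (log n)^10)` (large `n`; `Y² ≤ (log n)^10`). Let `α` be a root of `G`. If `A ≠ B ⊆ I` and
`∑_A α^k = ∑_B α^k` then `f = ∑_{k∈A} X^(k/j) - ∑_{k∈B} X^(k/j) ≠ 0` has coefficients in `{-1,0,1}`, degree `≤ n - 1`, `f(α^j) = 0`, so `MM G^j ≤ MM f ≤ √n` (Landau), contradiction. `cnt_sep_zero`: `cnt (G ∣ PE) ≤ cnt (ev α = 0) ≤ 2^(n-1-|I|)`, a real-power bound.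
-/

set_option autoImplicit false

open Finset Polynomial

namespace Pool.Agent.Lib.MP_769d0b_pr

open Pool.Agent.Lib.MP_7ab245_nt.Cnt Pool.Agent.Lib.MP_7ab245_nt.LogVar

/-- the growth conditions -/
private lemma growth (c : ℝ) (hc : 0 < c) (Y₀ : ℕ) : ∃ N : ℕ, 2 ≤ N ∧ ∀ n : ℕ, N ≤ n →
    Y₀ ≤ ⌊Real.log n ^ 5⌋₊ ∧ n < 2 ^ ⌊Real.log n ^ 5⌋₊ ∧
      (Real.log n < c / Real.log n ^ 3 * ⌊Real.log n ^ 5⌋₊) ∧ 4 * Real.log n ^ 10 ≤ n ∧
      1 ≤ Real.log n := by
  have h1 : ∀ᶠ x : ℝ in Filter.atTop, 4 * Real.log x ^ 10 ≤ x := by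
    have h := (Real.isLittleO_pow_log_id_atTop (n := 10)).def (show (0 : ℝ) < 1 / 4 by norm_num)
    filter_upwards [h, Filter.eventually_ge_atTop (0 : ℝ)] with x hx hx0
    rw [Real.norm_eq_abs, id, Real.norm_eq_abs, abs_of_nonneg hx0] at hx
    have := le_abs_self (Real.log x ^ 10)
    linarith
  have h2 : ∀ᶠ x : ℝ in Filter.atTop, max (max 2 (3 / c)) (Y₀ + 1) ≤ Real.log x :=
    Real.tendsto_log_atTop.eventually_ge_atTop _
  obtain ⟨x₀, hx₀⟩ := Filter.eventually_atTop.1 (h1.and h2)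
  refine ⟨max 2 ⌈x₀⌉₊, le_max_left _ _, fun n hn => ?_⟩
  have hnx : x₀ ≤ (n : ℝ) := (Nat.le_ceil _).trans (by exact_mod_cast (le_max_right _ _).trans hn)
  obtain ⟨h3, h4⟩ := hx₀ n hnx
  set L := Real.log n with hL
  have hL2 : 2 ≤ L := (le_max_left _ _).trans ((le_max_left _ _).trans h4)
  have hLc : 3 / c ≤ L := (le_max_right _ _).trans ((le_max_left _ _).trans h4)
  have hLY : (Y₀ : ℝ) + 1 ≤ L := (le_max_right _ _).trans h4
  have hn0 : (0 : ℝ) < n := by
    have : 2 ≤ n := (le_max_left _ _).trans hn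
    exact_mod_cast (show 0 < n by omega)
  have hfl : L ^ 5 < ⌊L ^ 5⌋₊ + 1 := Nat.lt_floor_add_one _
  have hL5 : L ^ 5 = L ^ 4 * L := by ring
  have hL4 : (16 : ℝ) ≤ L ^ 4 := by
    calc (16 : ℝ) = 2 ^ 4 := by norm_num
      _ ≤ L ^ 4 := by gcongr
  have hY : L ^ 5 / 2 ≤ ⌊L ^ 5⌋₊ := by nlinarith
  have hY2 : 2 * L ≤ ⌊L ^ 5⌋₊ := by nlinarith
  refine ⟨?_, ?_, ?_, h3, by linarith⟩
  · have : (Y₀ : ℝ) ≤ ⌊L ^ 5⌋₊ := by linarith
    exact_mod_cast this
  · have h5 : (n : ℝ) < 2 ^ ⌊L ^ 5⌋₊ := by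
      rw [← Real.log_lt_log_iff hn0 (by positivity), Real.log_pow]
      have := Real.log_two_gt_d9
      nlinarith
    exact_mod_cast h5
  · have hL3 : 0 < L ^ 3 := by positivity
    have h6 : c / L ^ 3 * (L ^ 5 / 2) ≤ c / L ^ 3 * ⌊L ^ 5⌋₊ := by gcongr
    have h7 : c / L ^ 3 * (L ^ 5 / 2) = c * L / 2 * L := by field_simp
    have h8 : 3 ≤ c * L := by
      rw [div_le_iff₀ hc] at hLc
      linarith
    have h9 : L < c * L / 2 * L := by nlinarith
    linarith

private lemma coeff_sum (A : Finset ℕ) (j : ℕ) (hj : 0 < j) (hA : ∀ k ∈ A, j ∣ k) (i : ℕ) :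
    (∑ k ∈ A, (X : ℤ[X]) ^ (k / j)).coeff i = if j * i ∈ A then 1 else 0 := by
  rw [finsetSum_coeff]
  simp only [coeff_X_pow]
  rw [Finset.sum_ite, Finset.sum_const_zero, add_zero, Finset.sum_const, nsmul_eq_mul, mul_one]
  have h : A.filter (fun k => i = k / j) = A.filter (fun k => k = j * i) := by
    apply Finset.filter_congr
    intro k hk
    obtain ⟨t, rfl⟩ := hA k hk
    rw [Nat.mul_div_cancel_left _ hj]
    constructor
    · rintro rfl
      rfl
    · intro h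
      exact (Nat.eq_of_mul_eq_mul_left hj h).symm
  rw [h, Finset.filter_eq']
  split_ifs <;> simp

/-- two different sets with the same sum give a polynomial of small measure -/
private lemma sums_ne (n j : ℕ) (hj : 0 < j) (y : ℂ) (M : ℝ) (hM : (n : ℝ) < M)
    (h : ∀ f : ℤ[X], f ≠ 0 → (cx f).eval (y ^ j) = 0 → M ≤ MM f) (A B : Finset ℕ)
    (hA : ∀ k ∈ A, k < n ∧ j ∣ k) (hB : ∀ k ∈ B, k < n ∧ j ∣ k) (hAB : A ≠ B) :
    ∑ k ∈ A, y ^ k ≠ ∑ k ∈ B, y ^ k := by
  intro he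
  set f : ℤ[X] := ∑ k ∈ A, X ^ (k / j) - ∑ k ∈ B, X ^ (k / j) with hf
  have hco : ∀ i, f.coeff i = (if j * i ∈ A then 1 else 0) - if j * i ∈ B then 1 else 0 := by
    intro i
    rw [hf, coeff_sub, coeff_sum A j hj (fun k hk => (hA k hk).2),
      coeff_sum B j hj (fun k hk => (hB k hk).2)]
  have hf0 : f ≠ 0 := by
    intro h0
    apply hAB
    ext k
    have key : ∀ i, (j * i ∈ A ↔ j * i ∈ B) := by
      intro i
      have h1 := hco i
      rw [h0, Polynomial.coeff_zero] at h1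
      by_cases ha : j * i ∈ A <;> by_cases hb : j * i ∈ B
      · exact ⟨fun _ => hb, fun _ => ha⟩
      · rw [if_pos ha, if_neg hb] at h1
        norm_num at h1
      · rw [if_neg ha, if_pos hb] at h1
        norm_num at h1
      · exact ⟨fun h => absurd h ha, fun h => absurd h hb⟩
    constructor
    · intro hk
      obtain ⟨i, rfl⟩ := (hA k hk).2
      exact (key i).1 hk
    · intro hk
      obtain ⟨i, rfl⟩ := (hB k hk).2
      exact (key i).2 hk
  have hev : ∀ S : Finset ℕ, (∀ k ∈ S, k < n ∧ j ∣ k) →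
      (cx (∑ k ∈ S, X ^ (k / j))).eval (y ^ j) = ∑ k ∈ S, y ^ k := by
    intro S hS
    rw [cx, Polynomial.map_sum, eval_finsetSum]
    apply Finset.sum_congr rfl
    intro k hk
    obtain ⟨t, rfl⟩ := (hS k hk).2
    rw [Nat.mul_div_cancel_left _ hj, Polynomial.map_pow, map_X, eval_pow, eval_X, ← pow_mul]
  have hfe : (cx f).eval (y ^ j) = 0 := by
    have h1 : cx f = cx (∑ k ∈ A, X ^ (k / j)) - cx (∑ k ∈ B, X ^ (k / j)) := by
      rw [hf, cx, Polynomial.map_sub]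
      rfl
    rw [h1, eval_sub, hev A hA, hev B hB, he, sub_self]
  have h2 := h f hf0 hfe
  have h3 : MM f ≤ n := by
    refine (mahlerMeasure_le_sum_norm_coeff (cx f)).trans ?_
    have hsub : (cx f).support ⊆ range n := by
      intro i hi
      rw [Finset.mem_range]
      by_contra hni
      rw [mem_support_iff, cx, coeff_map, hco] at hi
      apply hi
      have hji : n ≤ j * i := by
        push Not at hni
        nlinarith
      have h4 : j * i ∉ A := fun hmem => by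
        have := (hA _ hmem).1
        omega
      have h5 : j * i ∉ B := fun hmem => by
        have := (hB _ hmem).1
        omega
      rw [if_neg h4, if_neg h5]
      simp
    rw [Polynomial.sum_def]
    calc ∑ i ∈ (cx f).support, ‖(cx f).coeff i‖ ≤ ∑ i ∈ (cx f).support, (1 : ℝ) := by
          apply Finset.sum_le_sum
          intro i _
          rw [cx, coeff_map, hco]
          split_ifs <;> simp
      _ = (cx f).support.card := by simp
      _ ≤ n := by
          have := Finset.card_le_card hsub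
          rw [Finset.card_range] at this
          exact_mod_cast this
  linarith

theorem cnt_g : ∃ N : ℕ, ∀ n : ℕ, N ≤ n → ∀ b d, MD n b d → ∀ G : ℤ[X], Irreducible G →
    1 ≤ G.natDegree → G.natDegree ≤ n → 1 < MM G →
    (cnt n (fun E => G ∣ PE b d E) : ℝ) ≤
      (2 : ℝ) ^ (-((n : ℝ) / (2 * Real.log n ^ 10))) * 2 ^ (n - 1) := by
  obtain ⟨c, hc, hdob⟩ := Pool.Agent.Lib.MP_7ab245_nt.Mono.dobrowolski
  obtain ⟨Y₀, hY₀⟩ := Pool.Agent.Lib.MP_7ab245_nt.Solv.primes_between 0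
  obtain ⟨N, hN2, hN⟩ := growth c hc Y₀
  refine ⟨N, fun n hn b d hMD G hG hm hGn hMM => ?_⟩
  obtain ⟨g1, g2, g3, g4, g5⟩ := hN n hn
  have hn2 : 2 ≤ n := hN2.trans hn
  have hn0 : (0 : ℝ) < n := by exact_mod_cast (show 0 < n by omega)
  set L := Real.log n with hL
  set Y := ⌊L ^ 5⌋₊ with hY
  by_cases hex : ∃ E, E ⊆ Ioo 0 n ∧ G ∣ PE b d E
  swap
  · have h0 : cnt n (fun E => G ∣ PE b d E) = 0 := by
      have h1 : {E : Finset ℕ | E ⊆ Ioo 0 n ∧ G ∣ PE b d E} = ∅ := by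
        ext E
        simp only [Set.mem_ofPred_eq, Set.mem_empty_iff_false, iff_false]
        exact fun h => hex ⟨E, h⟩
      unfold cnt
      rw [h1, Set.ncard_empty]
    rw [h0]
    push_cast
    positivity
  obtain ⟨E₁, hE₁, hdvd⟩ := hex
  have hG0 : |G.coeff 0| = 1 := by
    obtain ⟨H, hH⟩ := hdvd
    have h1 := hMD.coeff_zero hE₁
    rw [hH, mul_coeff_zero, abs_mul] at h1
    exact Int.eq_one_of_mul_eq_one_right (abs_nonneg _) h1
  have hGl : |G.leadingCoeff| = 1 := by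
    obtain ⟨H, hH⟩ := hdvd
    have h1 := hMD.lead hE₁
    rw [hH, leadingCoeff_mul, abs_mul] at h1
    exact Int.eq_one_of_mul_eq_one_right (abs_nonneg _) h1
  -- a good prime
  have hprime : ∃ j, Y < j ∧ j ≤ Y ^ 2 ∧ j.Prime ∧
      (∀ α β : ℂ, (cx G).eval α = 0 → (cx G).eval β = 0 → α ^ j = β ^ j → α = β) := by
    classical
    by_contra hno
    push Not at hno
    have h1 := bad_primes G hG hm (by intro h; rw [h] at hG0; simp at hG0)
      ((Finset.Ioc Y (Y ^ 2)).filter Nat.Prime) (by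
        intro p hp
        rw [Finset.mem_filter, Finset.mem_Ioc] at hp
        obtain ⟨α, β, h2, h3, h4, h5⟩ := hno p hp.1.1 hp.1.2 hp.2
        exact ⟨hp.2, α, β, h2, h3, h5, h4⟩)
    have h2 := hY₀ Y g1
    rw [add_zero] at h2
    have h3 : 2 ^ Y ≤ 2 ^ ((Finset.Ioc Y (Y ^ 2)).filter Nat.Prime).card :=
      Nat.pow_le_pow_right (by norm_num) h2
    omega
  obtain ⟨j, hj1, hj2, hjp, hinj⟩ := hprime
  have hj0 : 0 < j := hjp.pos
  -- root
  have hcd : (cx G).degree ≠ 0 := by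
    rw [cx, degree_map_eq_of_injective (RingHom.injective_int _)]
    intro h
    have h1 : G.natDegree = 0 := natDegree_eq_of_degree_eq_some h
    rw [h1] at hm
    exact absurd hm (by norm_num)
  obtain ⟨α, hα⟩ := IsAlgClosed.exists_root (cx G) hcd
  rw [IsRoot.def] at hα
  -- measure
  have hMj : (n : ℝ) < MM G ^ j := by
    have h1 := hdob G n hn2 hGn hMM
    change c / L ^ 3 ≤ Real.log (MM G) at h1
    rw [← Real.log_lt_log_iff hn0 (by positivity), Real.log_pow]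
    have hcL : 0 ≤ c / L ^ 3 := by positivity
    calc Real.log n < c / L ^ 3 * Y := g3
      _ ≤ c / L ^ 3 * j := by gcongr
      _ ≤ Real.log (MM G) * j := by gcongr
      _ = _ := by ring
  set I : Finset ℕ := (Finset.Icc 1 ((n - 1) / j)).image (fun i => j * i) with hI
  have hIsub : ∀ k ∈ I, (0 < k ∧ k < n) ∧ j ∣ k := by
    intro k hk
    rw [hI, Finset.mem_image] at hk
    obtain ⟨i, hi, rfl⟩ := hk
    rw [Finset.mem_Icc] at hi
    refine ⟨⟨by nlinarith, ?_⟩, dvd_mul_right _ _⟩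
    have h1 : j * i ≤ j * ((n - 1) / j) := Nat.mul_le_mul_left _ hi.2
    have h2 := Nat.mul_div_le (n - 1) j
    omega
  have hIcard : I.card = (n - 1) / j := by
    rw [hI, Finset.card_image_of_injective _ (fun a b h => Nat.eq_of_mul_eq_mul_left hj0 h),
      Nat.card_Icc, Nat.add_sub_cancel]
  have hsep := cnt_sep_zero hMD α I (by
      intro k hk
      rw [Finset.mem_Ioo]
      exact (hIsub k hk).1) (by
      intro A hA B hB hAB
      exact sums_ne n j hj0 α (MM G ^ j) hMj (fun f hf hfe =>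
        pow_measure G hG hm hGl j hj0 hinj f hf α hα hfe) A B
        (fun k hk => ⟨(hIsub k (hA hk)).1.2, (hIsub k (hA hk)).2⟩)
        (fun k hk => ⟨(hIsub k (hB hk)).1.2, (hIsub k (hB hk)).2⟩) hAB)
  have hmono : cnt n (fun E => G ∣ PE b d E) ≤ cnt n (fun E => ev b d E α = 0) := by
    apply cnt_mono
    intro E _ h
    obtain ⟨H, hH⟩ := h
    rw [ev, hH, cx, Polynomial.map_mul, eval_mul]
    change (cx G).eval α * _ = 0
    rw [hα, zero_mul]
  have h1 : (cnt n (fun E => G ∣ PE b d E) : ℝ) ≤ (2 : ℝ) ^ (n - 1 - I.card) := by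
    exact_mod_cast hmono.trans hsep
  refine h1.trans ?_
  have hIle : I.card ≤ n - 1 := by
    rw [hIcard]
    exact Nat.div_le_self _ _
  have hIge : (n : ℝ) / (2 * L ^ 10) ≤ I.card := by
    rw [hIcard]
    have hjL : (j : ℝ) ≤ L ^ 10 := by
      have h2 : (j : ℝ) ≤ (Y : ℝ) ^ 2 := by exact_mod_cast hj2
      have h3 : (Y : ℝ) ≤ L ^ 5 := Nat.floor_le (by positivity)
      calc (j : ℝ) ≤ (Y : ℝ) ^ 2 := h2
        _ ≤ (L ^ 5) ^ 2 := by gcongr
        _ = L ^ 10 := by ring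
    have hjpos : (0 : ℝ) < j := by exact_mod_cast hj0
    have h4 : ((n : ℝ) - 1) / j - 1 ≤ (((n - 1) / j : ℕ) : ℝ) := by
      have h5 := Nat.div_add_mod (n - 1) j
      have h6 := Nat.mod_lt (n - 1) hj0
      have h7 : (n : ℝ) - 1 = j * (((n - 1) / j : ℕ) : ℝ) + (((n - 1) % j : ℕ) : ℝ) := by
        have h8 : ((n - 1 : ℕ) : ℝ) = (n : ℝ) - 1 := by
          rw [Nat.cast_sub (by omega)]
          simp
        rw [← h8]
        exact_mod_cast h5.symm
      have h9 : (((n - 1) % j : ℕ) : ℝ) ≤ j := by exact_mod_cast h6.le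
      rw [sub_le_iff_le_add, div_le_iff₀ hjpos]
      nlinarith
    have hLpos : (0 : ℝ) < L ^ 10 := by positivity
    have h10 : ((n : ℝ) - 1) / L ^ 10 ≤ ((n : ℝ) - 1) / j := by
      have : (1 : ℝ) ≤ n := by exact_mod_cast (show 1 ≤ n by omega)
      apply div_le_div_of_nonneg_left (by linarith) hjpos hjL
    have h11 : (1 : ℝ) ≤ L ^ 10 := one_le_pow₀ g5
    have h12 : (n : ℝ) / (2 * L ^ 10) + 1 ≤ ((n : ℝ) - 1) / L ^ 10 := by
      rw [← sub_nonneg]
      have h13 : ((n : ℝ) - 1) / L ^ 10 - ((n : ℝ) / (2 * L ^ 10) + 1) =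
          (n - 2 - 2 * L ^ 10) / (2 * L ^ 10) := by field_simp; ring
      rw [h13]
      apply div_nonneg _ (by positivity)
      nlinarith
    linarith
  have h14 : (2 : ℝ) ^ (n - 1 - I.card) = (2 : ℝ) ^ (-(I.card : ℝ)) * 2 ^ (n - 1) := by
    rw [Real.rpow_neg (by norm_num), Real.rpow_natCast, ← div_eq_inv_mul, eq_div_iff (by positivity),
      ← pow_add]
    congr 1
    omega
  rw [h14]
  gcongr
  norm_num

end Pool.Agent.Lib.MP_769d0b_pr
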