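import Pool.Agent.Lib.MP_769d0b_pr.Defs

/-!
LW-CosCount: many powers of a unit complex number have large real part.

PROOF.
`I = {k ∈ Icc 1 K : 1/2 ≤ |Re u^k|}`. For `k ∈ Icc 1 (K/2)`: `k ∈ I` or `2k ∈ I`, as `Re (u^(2k)) = 2 (Re u^k)² - 1` (`‖u^k‖ = 1`), so
`|Re u^k| < 1/2` gives `Re u^{2k} < -1/2`. The map `Icc 1 (K/2) → I`, `k ↦ k` if `k ∈ I`, else `2k`, has fibres of size `≤ 2`
(the preimages of `s` are among `s, s/2`), so `K/2 ≤ 2 |I|` and `K ≤ 4|I| + 1` (`Finset.card_le_mul_card_image` or: `Icc 1 (K/2) ⊆ I ∪ I.image (·/2)`).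
-/

set_option autoImplicit false

open Finset Polynomial

namespace Pool.Agent.Lib.MP_769d0b_pr

open Pool.Agent.Lib.MP_7ab245_nt.Cnt Pool.Agent.Lib.MP_7ab245_nt.LogVar

theorem cos_count (u : ℂ) (hu : ‖u‖ = 1) (K : ℕ) :
    ∃ I : Finset ℕ, I ⊆ Icc 1 K ∧ K ≤ 4 * I.card + 1 ∧ ∀ k ∈ I, 1 / 2 ≤ |(u ^ k).re| := by
  classical
  refine ⟨(Icc 1 K).filter (fun k => 1 / 2 ≤ |(u ^ k).re|), Finset.filter_subset _ _, ?_,
    fun k hk => (Finset.mem_filter.mp hk).2⟩
  set I := (Icc 1 K).filter (fun k => 1 / 2 ≤ |(u ^ k).re|) with hI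
  have h1 : Icc 1 (K / 2) ⊆ I ∪ I.image (fun k => k / 2) := by
    intro k hk
    rw [Finset.mem_Icc] at hk
    rw [Finset.mem_union]
    by_cases h : 1 / 2 ≤ |(u ^ k).re|
    · left
      rw [hI, Finset.mem_filter, Finset.mem_Icc]
      exact ⟨⟨hk.1, by omega⟩, h⟩
    · right
      rw [Finset.mem_image]
      refine ⟨2 * k, ?_, by omega⟩
      rw [hI, Finset.mem_filter, Finset.mem_Icc]
      refine ⟨⟨by omega, by omega⟩, ?_⟩
      push Not at h
      have h2 : (u ^ (2 * k)).re = (u ^ k).re ^ 2 - (u ^ k).im ^ 2 := by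
        rw [two_mul, pow_add, Complex.mul_re]
        ring
      have h3 : (u ^ k).re ^ 2 + (u ^ k).im ^ 2 = 1 := by
        have h4 : Complex.normSq (u ^ k) = 1 := by
          rw [Complex.normSq_eq_norm_sq, norm_pow, hu, one_pow, one_pow]
        rw [Complex.normSq_apply] at h4
        nlinarith
      have h5 : (u ^ k).re ^ 2 < 1 / 4 := by
        have := abs_lt.mp h
        nlinarith
      rw [abs_of_neg (by rw [h2]; nlinarith), h2]
      nlinarith
  have h2 := Finset.card_le_card h1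
  have h3 := Finset.card_union_le I (I.image (fun k => k / 2))
  have h4 : (I.image (fun k => k / 2)).card ≤ I.card := Finset.card_image_le
  rw [Nat.card_Icc] at h2
  omega

end Pool.Agent.Lib.MP_769d0b_pr
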