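import Mathlib
import Pool.Agent.Lib.MP_7ab245_nt.Cnt.Defs

/-!
Random polynomials with coefficients `-1, 0, 1`: definitions. Do not edit.
-/

set_option autoImplicit false

open Finset Polynomial

namespace Pool.Agent.Lib.MP_769d0b_pr

open Pool.Agent.Lib.MP_7ab245_nt.Cnt Pool.Agent.Lib.MP_7ab245_nt.LogVar

/-- the number of the subsets `E` of `(0, n)` with the property `Q` -/
noncomputable def cnt (n : ℕ) (Q : Finset ℕ → Prop) : ℕ :=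
  {E : Finset ℕ | E ⊆ Ioo 0 n ∧ Q E}.ncard

/-- the random polynomial -/
noncomputable def PE (b : ℤ[X]) (d : ℤ) (E : Finset ℕ) : ℤ[X] := b + C d * ∑ k ∈ E, X ^ k

/-- its value -/
noncomputable def ev (b : ℤ[X]) (d : ℤ) (E : Finset ℕ) (y : ℂ) : ℂ := (cx (PE b d E)).eval y

/-- the value of its derivative -/
noncomputable def ev' (b : ℤ[X]) (d : ℤ) (E : Finset ℕ) (y : ℂ) : ℂ :=
  (derivative (cx (PE b d E))).eval y

/-- the model: `PE b d E`, `E ⊆ (0, n)`, has degree `n`, coefficients `-1, 0, 1`, the first and the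
last one are not `0` -/
structure MD (n : ℕ) (b : ℤ[X]) (d : ℤ) : Prop where
  pos : 2 ≤ n
  deg : b.natDegree = n
  zero : |b.coeff 0| = 1
  top : |b.coeff n| = 1
  hd : d = 1 ∨ d = 2
  co : ∀ k, |b.coeff k| ≤ 1
  co' : ∀ k ∈ Ioo 0 n, |b.coeff k + d| ≤ 1

/-- `δ` -/
noncomputable def dl (n : ℕ) : ℝ := (n : ℝ) ^ (-(4 / 5) : ℝ)

/-- `r = 1 - δ` -/
noncomputable def rr (n : ℕ) : ℝ := 1 - dl n

noncomputable def TT (n : ℕ) : ℝ := (n : ℝ) ^ (27 / 100 : ℝ)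

noncomputable def TA (n : ℕ) : ℝ := (n : ℝ) ^ (24 / 100 : ℝ)

noncomputable def TN (n : ℕ) : ℝ := (n : ℝ) ^ (15 / 100 : ℝ)

/-- error in the position of the zeros -/
noncomputable def kp (n : ℕ) : ℝ := 2 * (n : ℝ) ^ 27 * Real.exp (-(n : ℝ) ^ (1 / 20 : ℝ))

/-- the good zone -/
def good (n : ℕ) (z : ℂ) : Prop := 1 - 1 / 10 ^ 4 ≤ ‖z‖ ∧ ‖z‖ ≤ rr n ∧ 50 * (1 - ‖z‖) ≤ |z.im|

open Classical in
/-- the weight of the bad points -/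
noncomputable def bw (n : ℕ) (z : ℂ) : ℝ := if ‖z‖ < 1 ∧ ¬ good n z then ‖z‖⁻¹ else 1

/-- Mahler measure of `p (c + ρ x)` -/
noncomputable def mcr (p : ℂ[X]) (c : ℂ) (ρ : ℝ) : ℝ :=
  (p.comp (C c + C (ρ : ℂ) * X)).mahlerMeasure

/-- truncation -/
noncomputable def tr (R : ℕ) (p : ℤ[X]) : ℤ[X] := ∑ k ∈ range (R + 1), C (p.coeff k) * X ^ k

/-- events of probability tending to `0`, uniformly in the model -/
def small (Q : ℕ → ℤ[X] → ℤ → Finset ℕ → Prop) : Prop :=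
  ∀ ε : ℝ, 0 < ε → ∃ N : ℕ, ∀ n : ℕ, N ≤ n → ∀ (b : ℤ[X]) (d : ℤ), MD n b d →
    (cnt n (Q n b d) : ℝ) ≤ ε * 2 ^ (n - 1)

/-- a large factor of small measure -/
def EvA (n : ℕ) (b : ℤ[X]) (d : ℤ) (E : Finset ℕ) : Prop :=
  ∃ H : ℤ[X], H ∣ PE b d E ∧ n ≤ 2 * H.natDegree ∧ H.natDegree < n ∧ MM H ≤ TA n

/-- an irreducible factor of degree at most `n ^ (9/10)`, not cyclotomic, of small measure -/
def EvB (n : ℕ) (b : ℤ[X]) (d : ℤ) (E : Finset ℕ) : Prop :=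
  ∃ G : ℤ[X], Irreducible G ∧ G ∣ PE b d E ∧ 1 ≤ G.natDegree ∧
    (G.natDegree : ℝ) ≤ (n : ℝ) ^ (9 / 10 : ℝ) ∧ 1 < MM G ∧ MM G ≤ TT n

/-- a root of unity is a zero -/
def EvZ (_n : ℕ) (b : ℤ[X]) (d : ℤ) (E : Finset ℕ) : Prop :=
  ∃ (k : ℕ) (ζ : ℂ), 1 ≤ k ∧ IsPrimitiveRoot ζ k ∧ ev b d E ζ = 0

def Ev1 (n : ℕ) (b : ℤ[X]) (d : ℤ) (E : Finset ℕ) : Prop :=
  mcr (cx (PE b d E)) 0 (rr n) < (n : ℝ) ^ (38 / 100 : ℝ)

def Ev2 (n : ℕ) (b : ℤ[X]) (d : ℤ) (E : Finset ℕ) : Prop :=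
  ∃ z : ℂ, good n z ∧ ev b d E z = 0 ∧ ‖ev' b d E z‖ < 1 / (n : ℝ) ^ 25

def Ev3 (n : ℕ) (b : ℤ[X]) (d : ℤ) (E : Finset ℕ) : Prop :=
  ‖ev b d E (1 / 2)‖ < (n : ℝ) ^ (-(1 / 400) : ℝ) ∨ ‖ev b d E (-(1 / 2))‖ < (n : ℝ) ^ (-(1 / 400) : ℝ)

/-- typical, with an irreducible factor of degree `m` of small measure -/
def EvM (m : ℕ) (n : ℕ) (b : ℤ[X]) (d : ℤ) (E : Finset ℕ) : Prop :=
  ¬ Ev1 n b d E ∧ ¬ Ev2 n b d E ∧ ¬ Ev3 n b d E ∧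
    ∃ G : ℤ[X], Irreducible G ∧ G ∣ PE b d E ∧ G.natDegree = m ∧ MM G ≤ TT n

/-- typical, with an irreducible factor of degree in `(n ^ (9/10), n/2]` of small measure -/
def EvC (n : ℕ) (b : ℤ[X]) (d : ℤ) (E : Finset ℕ) : Prop :=
  ∃ m : ℕ, (n : ℝ) ^ (9 / 10 : ℝ) < m ∧ 2 * m ≤ n ∧ EvM m n b d E

open Classical in
/-- the good zeros of `G` -/
noncomputable def zg (n : ℕ) (G : ℤ[X]) : Finset ℂ :=
  (cx G).roots.toFinset.filter (fun z => ‖z‖ < 1 ∧ good n z)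

open Classical in
/-- the bad zeros of `G` -/
noncomputable def zb (n : ℕ) (G : ℤ[X]) : Finset ℂ :=
  (cx G).roots.toFinset.filter (fun z => ‖z‖ < 1 ∧ ¬ good n z)

/-- the Blaschke product of the points of `S`, divided by its value at `0` -/
noncomputable def cS (S : Finset ℂ) : PowerSeries ℂ := ∏ z ∈ S, (PowerSeries.C (-z)⁻¹ * bl z)

/-- the quotient of the factors of `cS` for `z'` and `z` -/
noncomputable def wf (z z' : ℂ) : PowerSeries ℂ :=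
  ((1 - PowerSeries.C z'⁻¹ * PowerSeries.X) * (1 - PowerSeries.C z⁻¹ * PowerSeries.X)⁻¹) *
    ((1 - PowerSeries.C ((starRingEnd ℂ) z) * PowerSeries.X) *
      (1 - PowerSeries.C ((starRingEnd ℂ) z') * PowerSeries.X)⁻¹)

/-- prefix norm -/
noncomputable def l1p (W : PowerSeries ℂ) (R : ℕ) : ℝ := ∑ k ∈ range R, ‖PowerSeries.coeff k W‖

noncomputable def A1 (n : ℕ) (z : ℂ) : ℝ := max 1 ‖z‖ / max (rr n) ‖z‖

noncomputable def A2 (z : ℂ) : ℝ := (max (1 - 1 / (4 * 10 ^ 4)) ‖z‖ / ‖z‖) ^ 2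

noncomputable def A3 (z : ℂ) : ℝ := (max (1 / 2) ‖z - 1 / 2‖ / ‖z - 1 / 2‖) ^ 2

noncomputable def A4 (z : ℂ) : ℝ := (max (1 / 2) ‖z - -(1 / 2)‖ / ‖z - -(1 / 2)‖) ^ 2

end Pool.Agent.Lib.MP_769d0b_pr
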