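import Pool.Agent.Lib.MP_769d0b_pr.MMcomp

/-!
LW-Disc: product over the n-th roots of unity.

PROOF.
`ω_j = exp(2πi j/n)`, `j < n`, are the `n`-th roots of unity (`Complex.isPrimitiveRoot_exp`): `∏_{j<n} (r ω_j - z) = ± (r^n - z^n)`, i.e. `‖∏‖ = ‖r^n - z^n‖`
(`X^n - Y^n = ∏ (X - ζ Y)`: `IsPrimitiveRoot.pow_sub_pow_eq_prod_sub_zeta_runity_mul` / `X_pow_sub_C_eq_prod`, product over `nthRootsFinset` or over the powers of `ω_1`)
`≤ 2 (max r ‖z‖)^n`. So `∏_j ‖p(r ω_j)‖ = ‖lc‖^n ∏_z ‖r^n - z^n‖ ≤ ‖lc‖^n 2^{#roots} ∏_z (max r ‖z‖)^n ≤ 2^n (mcr p 0 r)^n` (mcr_eq, `#roots ≤ natDegree ≤ n`).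
-/

set_option autoImplicit false

open Finset Polynomial

namespace Pool.Agent.Lib.MP_769d0b_pr

open Pool.Agent.Lib.MP_7ab245_nt.Cnt Pool.Agent.Lib.MP_7ab245_nt.LogVar

private theorem prod_one (n : ℕ) (hn : 1 ≤ n) (r : ℝ) (z : ℂ) :
    ∏ j ∈ range n, ‖z - (r : ℂ) * Complex.exp (2 * Real.pi * Complex.I * (j / n))‖ =
      ‖z ^ n - (r : ℂ) ^ n‖ := by
  have hζ := Complex.isPrimitiveRoot_exp n (by omega)
  have h1 := congrArg (Polynomial.eval z) (X_pow_sub_C_eq_prod hζ (α := (r : ℂ)) (a := (r : ℂ) ^ n)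
    (by omega) rfl)
  rw [eval_sub, eval_pow, eval_X, eval_C, eval_prod] at h1
  rw [h1, norm_prod]
  refine Finset.prod_congr rfl fun j _ => ?_
  rw [eval_sub, eval_X, eval_C, ← Complex.exp_nat_mul, mul_comm (r : ℂ)]
  congr 4
  ring

private theorem prod_le (n : ℕ) (hn : 1 ≤ n) (r : ℝ) (hr : 0 < r) (z : ℂ) :
    ∏ j ∈ range n, ‖z - (r : ℂ) * Complex.exp (2 * Real.pi * Complex.I * (j / n))‖ ≤
      2 * (max r ‖z - 0‖) ^ n := by
  rw [prod_one n hn]
  refine (norm_sub_le _ _).trans ?_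
  rw [norm_pow, norm_pow, Complex.norm_real, Real.norm_of_nonneg hr.le, sub_zero, two_mul]
  exact add_le_add (pow_le_pow_left₀ (norm_nonneg _) (le_max_right _ _) _)
    (pow_le_pow_left₀ hr.le (le_max_left _ _) _)

private theorem ms_le (n : ℕ) (hn : 1 ≤ n) (r : ℝ) (hr : 0 < r) (s : Multiset ℂ) :
    ∏ j ∈ range n, (s.map (fun z =>
      ‖z - (r : ℂ) * Complex.exp (2 * Real.pi * Complex.I * (j / n))‖)).prod ≤
      2 ^ s.card * ((s.map (fun z => max r ‖z - 0‖)).prod) ^ n := by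
  induction s using Multiset.induction_on with
  | empty => simp
  | cons z s ih =>
    simp only [Multiset.map_cons, Multiset.prod_cons, Finset.prod_mul_distrib, Multiset.card_cons]
    calc (∏ j ∈ range n, ‖z - (r : ℂ) * Complex.exp (2 * Real.pi * Complex.I * (j / n))‖) *
        ∏ j ∈ range n, (s.map (fun z =>
          ‖z - (r : ℂ) * Complex.exp (2 * Real.pi * Complex.I * (j / n))‖)).prod
        ≤ (2 * (max r ‖z - 0‖) ^ n) *
          (2 ^ s.card * ((s.map (fun z => max r ‖z - 0‖)).prod) ^ n) := by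
          refine mul_le_mul (prod_le n hn r hr z) ih ?_ (by positivity)
          exact Finset.prod_nonneg fun j _ => Multiset.prod_nonneg fun a ha => by
            obtain ⟨w, _, rfl⟩ := Multiset.mem_map.mp ha
            exact norm_nonneg _
      _ = _ := by ring

theorem disc_prod (p : ℂ[X]) (n : ℕ) (hn : 1 ≤ n) (hp : p.natDegree ≤ n) (r : ℝ) (hr : 0 < r) :
    ∏ j ∈ range n, ‖p.eval ((r : ℂ) * Complex.exp (2 * Real.pi * Complex.I * (j / n)))‖ ≤
      2 ^ n * (mcr p 0 r) ^ n := by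
  rw [mcr_eq p 0 r hr]
  simp only [eval_eq_prod]
  rw [Finset.prod_mul_distrib, Finset.prod_const, card_range, mul_pow]
  have h1 := ms_le n hn r hr p.roots
  have h2 : (2 : ℝ) ^ p.roots.card ≤ 2 ^ n :=
    pow_le_pow_right₀ (by norm_num) ((card_roots' p).trans hp)
  have h3 : 0 ≤ (p.roots.map (fun z => max r ‖z - 0‖)).prod :=
    Multiset.prod_nonneg fun a ha => by
      obtain ⟨w, _, rfl⟩ := Multiset.mem_map.mp ha
      exact hr.le.trans (le_max_left _ _)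
  calc ‖p.leadingCoeff‖ ^ n * _ ≤ ‖p.leadingCoeff‖ ^ n *
      (2 ^ p.roots.card * ((p.roots.map (fun z => max r ‖z - 0‖)).prod) ^ n) :=
        mul_le_mul_of_nonneg_left h1 (by positivity)
    _ ≤ ‖p.leadingCoeff‖ ^ n *
      (2 ^ n * ((p.roots.map (fun z => max r ‖z - 0‖)).prod) ^ n) := by gcongr
    _ = _ := by ring

end Pool.Agent.Lib.MP_769d0b_pr
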