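import Pool.Agent.Lib.MP_769d0b_pr.FamV
import Pool.Agent.Lib.MP_769d0b_pr.CSa
import Pool.Agent.Lib.MP_7ab245_nt.Cnt.Fam

/-!
LW-FamC: coding a class (the heart).

PROOF.
Copy of `Cnt.fam` (Cnt/Fam.lean), with `p` replaced by `q k f := coeff k (cS S * (-ld (cx (G f))))` and `c` by `c i f := coeff i (cS (zb n (G f)))`, `a j f := (G f).coeff j`, modulus `1`.
`hc0`: cS_const (the zeros in `zb` are `≠ 0` as `G.coeff 0 = 1`, and `‖z‖ < 1`). `hp0`: `-ld` has constant coefficient `0` (PP_zero). `hp`: `q m f = ∑_{i≤m} (coeff i (cS S)) PP (m-i) f` depends on `PP j`, `j ≤ m`, so (PP_congr) on `a_j`, `j ≤ m < k`.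
`hc` of pred_main: cS_sum and hbad: `≤ μ²`. `hv`: `vv c q i f = coeff i (cS zb * (cS S * (-ld)))`; fam_v gives `∑_{i ≤ N} ‖·‖² ≤ V² := 136 T² N m L`, `L = log(2mT)`.
pred_main: `∑_{k≤N}∑_f ‖q k f - ph k f‖² ≤ 10 μ² V² |ι| = 1360 μ² T² N m L |ι|`. Let `D k f := ∑_{i=1}^{k} coeff i (cS S) PP (k-i) f` (depends on `a_j`, `j < k`): `PP k f = q k f - D k f` (`coeff 0 (cS S) = 1`; S has nonzero elements), so with `pp k f := ph k f - D k f`
(function of `a_j`, `j < k`) `PP k - pp k = q k - ph k`. As in `fam` (a₀ = 1, `newton`): `ah k f := Re (-(∑_{j∈Ico 1 k} a_j PP (k-j) f + pp k f)/k)`, `k² (a_k - ah k)² ≤ ‖q k - ph k‖²`. `coding m 1` with `K = 37 μ T √(mL)`, `K² = 1369 μ²T² mL`.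
`hinj`: `G f = G g` by coefficients up to `m`, then `hG`. (Cnt.newton, Cnt.PP_congr, Cnt.ph_congr are in Cnt/Newton.lean, Cnt/Pred.lean.)
-/

set_option autoImplicit false

open Finset Polynomial

namespace Pool.Agent.Lib.MP_769d0b_pr

open Pool.Agent.Lib.MP_7ab245_nt.Cnt Pool.Agent.Lib.MP_7ab245_nt.LogVar

theorem fam_c (n m : ℕ) (T μ : ℝ) (hm : 1 ≤ m) (hT : 1 ≤ T) (hμ : 1 ≤ μ) {ι : Type} [Fintype ι]
    [Nonempty ι] (G : ι → ℤ[X]) (hG : Function.Injective G) (hdeg : ∀ f, (G f).natDegree = m)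
    (h0 : ∀ f, (G f).coeff 0 = 1) (hsq : ∀ f, Squarefree (G f)) (hM : ∀ f, MM (G f) ≤ T)
    (hbad : ∀ f, ∏ z ∈ zb n (G f), ‖z‖⁻¹ ≤ μ) (S : Finset ℂ) (hS : ∀ z ∈ S, z ≠ 0)
    (hW : ∀ f, ∃ W : PowerSeries ℂ, cS S = W * cS (zg n (G f)) ∧ l1p W (m + 1) ≤ 2) :
    Real.log (Fintype.card ι) ≤ 400 * max 1 (37 * μ * T * √(m * Real.log (2 * m * T))) := by
  classical
  obtain ⟨f₁⟩ := ‹Nonempty ι›
  have : Nonempty ι := ⟨f₁⟩
  have hmR : (1 : ℝ) ≤ m := by exact_mod_cast hm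
  obtain ⟨L, hL⟩ : ∃ L : ℝ, L = Real.log (2 * m * T) := ⟨_, rfl⟩
  rw [← hL]
  have hL0 : 0 < L := by
    rw [hL]
    apply Real.log_pos
    nlinarith
  have hc0 : ∀ f : ι, (G f).coeff 0 ≠ 0 := fun f => by rw [h0 f]; exact one_ne_zero
  have hzb : ∀ f : ι, ∀ z ∈ zb n (G f), z ≠ 0 ∧ ‖z‖ < 1 := by
    intro f z hz
    unfold zb at hz
    rw [Finset.mem_filter, Multiset.mem_toFinset] at hz
    refine ⟨?_, hz.2.1⟩
    rintro rfl
    have h1 := (Polynomial.mem_roots'.1 hz.1).2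
    rw [Polynomial.IsRoot.def, ← Polynomial.coeff_zero_eq_eval_zero, cx, Polynomial.coeff_map,
      h0 f] at h1
    simp at h1
  have hι0 : (0 : ℝ) ≤ Fintype.card ι := by positivity
  -- the data
  obtain ⟨s, hs⟩ : ∃ s : ℕ → ℂ, s = fun i => PowerSeries.coeff i (cS S) := ⟨_, rfl⟩
  have hs0 : s 0 = 1 := by rw [hs]; exact cS_const S hS
  obtain ⟨a, ha⟩ : ∃ a : ℕ → ι → ℤ, a = fun (j : ℕ) (f : ι) => (G f).coeff j := ⟨_, rfl⟩
  obtain ⟨c, hc⟩ : ∃ c : ℕ → ι → ℂ, c = fun (i : ℕ) (f : ι) =>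
    PowerSeries.coeff i (cS (zb n (G f))) := ⟨_, rfl⟩
  obtain ⟨q, hq⟩ : ∃ q : ℕ → ι → ℂ, q = fun (i : ℕ) (f : ι) =>
    PowerSeries.coeff i (cS S * (-ld ((cx (G f) : ℂ[X]) : PowerSeries ℂ))) := ⟨_, rfl⟩
  have hqs : ∀ k f, q k f = ∑ i ∈ range (k + 1), s i * PP (k - i) (G f) := by
    intro k f
    rw [hq, hs]
    simp only
    rw [PowerSeries.coeff_mul, Finset.Nat.sum_antidiagonal_eq_sum_range_succ
      (fun i j => PowerSeries.coeff i (cS S) *
        PowerSeries.coeff j (-ld ((cx (G f) : ℂ[X]) : PowerSeries ℂ)))]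
    refine Finset.sum_congr rfl fun i _ => ?_
    unfold PP
    rw [map_neg]
  have hPcongr : ∀ m k f g, m < k → (∀ j < k, a j f = a j g) → PP m (G f) = PP m (G g) := by
    intro m k f g hmk h
    refine PP_congr (G f) (G g) (hc0 f) m k hmk fun j hj => ?_
    have := h j hj
    rw [ha] at this
    exact this
  have hpcongr : ∀ m k f g, m < k → (∀ j < k, a j f = a j g) → q m f = q m g := by
    intro m k f g hmk h
    rw [hqs, hqs]
    refine Finset.sum_congr rfl fun i hi => ?_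
    rw [Finset.mem_range] at hi
    rw [hPcongr (m - i) k f g (by omega) h]
  have hp0 : ∀ f, q 0 f = 0 := fun f => by
    rw [hqs, zero_add, Finset.sum_range_one, PP_zero, mul_zero]
  have hcc0 : ∀ f, c 0 f = 1 := fun f => by
    rw [hc]
    exact cS_const _ fun z hz => (hzb f z hz).1
  -- the predictor
  have hpred : ∀ N ≤ m, ∑ k ∈ range (N + 1), ∑ f, ‖q k f - ph a c q k f‖ ^ 2 ≤
      1360 * (μ ^ 2 * T ^ 2) * (N * (m * L)) * Fintype.card ι := by
    intro N hN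
    have hN0 : (0 : ℝ) ≤ N := by positivity
    obtain ⟨V, hV⟩ : ∃ V : ℝ, V = √(136 * T ^ 2 * (N * (m * L))) := ⟨_, rfl⟩
    have hV2 : V ^ 2 = 136 * T ^ 2 * (N * (m * L)) := by
      rw [hV, Real.sq_sqrt (by positivity)]
    have h1 := pred_main a c q N μ V hμ hcc0 hp0 hpcongr (by
      intro f
      rw [hc]
      refine (cS_sum _ (hzb f) N).trans ?_
      have h2 := one_le_prod _ (hzb f)
      exact pow_le_pow_left₀ (by linarith) (hbad f) 2) (by
      intro f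
      rw [hV2]
      obtain ⟨W, hW1, hW2⟩ := hW f
      have h3 := fam_v n m N T hm hN hT (G f) (hdeg f) (h0 f) (hsq f) (hM f) S W hW1 hW2
      rw [← hL] at h3
      refine le_trans (le_of_eq ?_) h3
      unfold pn
      refine Finset.sum_congr rfl fun k _ => ?_
      congr 2
      rw [hc, hq]
      unfold vv
      rw [PowerSeries.coeff_mul, Finset.Nat.sum_antidiagonal_eq_sum_range_succ
        (fun i j => PowerSeries.coeff i (cS (zb n (G f))) *
          PowerSeries.coeff j (cS S * (-ld ((cx (G f) : ℂ[X]) : PowerSeries ℂ))))])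
    refine h1.trans (le_of_eq ?_)
    rw [hV2]
    ring
  -- the predicted coefficient
  obtain ⟨D, hD⟩ : ∃ D : ℕ → ι → ℂ, D = fun (k : ℕ) (f : ι) =>
    ∑ i ∈ Ico 1 (k + 1), s i * PP (k - i) (G f) := ⟨_, rfl⟩
  have hDq : ∀ k f, q k f = PP k (G f) + D k f := by
    intro k f
    rw [hqs, hD, Finset.range_eq_Ico, Finset.sum_eq_sum_Ico_succ_bot (by omega), hs0, one_mul,
      Nat.sub_zero]
  have hDcongr : ∀ k f g, (∀ j < k, a j f = a j g) → D k f = D k g := by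
    intro k f g h
    rw [hD]
    refine Finset.sum_congr rfl fun i hi => ?_
    rw [Finset.mem_Ico] at hi
    rw [hPcongr (k - i) k f g (by omega) h]
  obtain ⟨pp, hpp⟩ : ∃ pp : ℕ → ι → ℂ, pp = fun k f => ph a c q k f - D k f := ⟨_, rfl⟩
  have hdiff : ∀ k f, PP k (G f) - pp k f = q k f - ph a c q k f := by
    intro k f
    rw [hpp, hDq]
    ring
  obtain ⟨ah, hah⟩ : ∃ ah : ℕ → ι → ℝ, ah = fun k f =>
      if k = 0 then 0 else
        (-(∑ j ∈ Ico 1 k, (a j f : ℂ) * PP (k - j) (G f) + pp k f) / (k : ℂ)).re := ⟨_, rfl⟩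
  have hahc : ∀ k f g, (∀ j < k, a j f = a j g) → ah k f = ah k g := by
    intro k f g h
    rw [hah]
    by_cases hk : k = 0
    · simp [hk]
    · simp only [if_neg hk]
      have h1 : ∑ j ∈ Ico 1 k, (a j f : ℂ) * PP (k - j) (G f) =
          ∑ j ∈ Ico 1 k, (a j g : ℂ) * PP (k - j) (G g) := by
        refine Finset.sum_congr rfl fun j hj => ?_
        rw [Finset.mem_Ico] at hj
        rw [h j hj.2, hPcongr (k - j) k f g (by omega) h]
      rw [h1, hpp]
      simp only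
      rw [ph_congr a c q hp0 hpcongr h, hDcongr k f g h]
  have herr : ∀ k : ℕ, 1 ≤ k → ∀ f, (k : ℝ) ^ 2 * ((a k f : ℝ) - ah k f) ^ 2 ≤
      ‖q k f - ph a c q k f‖ ^ 2 := by
    intro k hk f
    have hk0 : (k : ℂ) ≠ 0 := by exact_mod_cast (by omega : k ≠ 0)
    have h1 := newton (G f) (hc0 f) k
    have h2 : ∑ j ∈ range k, (((G f).coeff j : ℤ) : ℂ) * PP (k - j) (G f) =
        PP k (G f) + ∑ j ∈ Ico 1 k, (a j f : ℂ) * PP (k - j) (G f) := by
      rw [Finset.range_eq_Ico, Finset.sum_eq_sum_Ico_succ_bot (by omega), h0 f, Nat.sub_zero, ha]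
      simp
    rw [h2] at h1
    have h3 : (a k f : ℂ) = -(PP k (G f) + ∑ j ∈ Ico 1 k, (a j f : ℂ) * PP (k - j) (G f)) / k := by
      rw [← h1, ha]
      field_simp
    have h4 : (((a k f : ℝ) - ah k f : ℝ)) = (-(1 / (k : ℂ) * (q k f - ph a c q k f))).re := by
      have h5 : ah k f =
          (-(∑ j ∈ Ico 1 k, (a j f : ℂ) * PP (k - j) (G f) + pp k f) / (k : ℂ)).re := by
        rw [hah]
        simp only [if_neg (by omega : ¬ k = 0)]
      have h6 : ((a k f : ℤ) : ℝ) = ((a k f : ℤ) : ℂ).re := by simp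
      rw [h6, h5, ← Complex.sub_re, h3, ← hdiff]
      congr 1
      field_simp
      ring
    have h7 : |(a k f : ℝ) - ah k f| ≤ 1 / k * ‖q k f - ph a c q k f‖ := by
      rw [h4]
      refine (Complex.abs_re_le_norm _).trans (le_of_eq ?_)
      rw [norm_neg, norm_mul, norm_div, Complex.norm_natCast, norm_one]
    have hkR : (0 : ℝ) < k := by exact_mod_cast hk
    have h8 : ((a k f : ℝ) - ah k f) ^ 2 ≤ (1 / k * ‖q k f - ph a c q k f‖) ^ 2 := by
      rw [← sq_abs]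
      exact pow_le_pow_left₀ (abs_nonneg _) h7 2
    calc (k : ℝ) ^ 2 * ((a k f : ℝ) - ah k f) ^ 2
        ≤ (k : ℝ) ^ 2 * (1 / k * ‖q k f - ph a c q k f‖) ^ 2 := by gcongr
      _ = ‖q k f - ph a c q k f‖ ^ 2 := by
          field_simp
  obtain ⟨K, hK⟩ : ∃ K : ℝ, K = 37 * μ * T * √(m * L) := ⟨_, rfl⟩
  have hK0 : 0 ≤ K := by rw [hK]; positivity
  have hK2 : K ^ 2 = 1369 * (μ ^ 2 * T ^ 2) * (m * L) := by
    rw [hK, mul_pow, mul_pow, mul_pow, Real.sq_sqrt (by positivity)]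
    ring
  have hcod := coding m 1 le_rfl a ah K hK0 (by
      intro f g h
      apply hG
      apply Polynomial.ext
      intro j
      rcases Nat.lt_or_ge m j with hj | hj
      · rw [Polynomial.coeff_eq_zero_of_natDegree_lt (by rw [hdeg f]; exact hj),
          Polynomial.coeff_eq_zero_of_natDegree_lt (by rw [hdeg g]; exact hj)]
      · have := h j hj
        rw [ha] at this
        exact this) (by
      intro f g
      rw [ha]
      simp only
      rw [h0 f, h0 g]) (by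
      intro k _ f g
      exact_mod_cast one_dvd _) hahc (by
      intro N hN
      have hN0 : (0 : ℝ) ≤ N := by positivity
      calc ∑ k ∈ Icc 1 N, (k : ℝ) ^ 2 * ∑ f, ((a k f : ℝ) - ah k f) ^ 2
          = ∑ k ∈ Icc 1 N, ∑ f, (k : ℝ) ^ 2 * ((a k f : ℝ) - ah k f) ^ 2 :=
            Finset.sum_congr rfl fun k _ => Finset.mul_sum _ _ _
        _ ≤ ∑ k ∈ Icc 1 N, ∑ f, ‖q k f - ph a c q k f‖ ^ 2 :=
            Finset.sum_le_sum fun k hk => Finset.sum_le_sum fun f _ =>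
              herr k (Finset.mem_Icc.mp hk).1 f
        _ ≤ ∑ k ∈ range (N + 1), ∑ f, ‖q k f - ph a c q k f‖ ^ 2 := by
            apply Finset.sum_le_sum_of_subset_of_nonneg
            · intro k hk
              rw [Finset.mem_Icc] at hk
              rw [Finset.mem_range]
              omega
            · intro k _ _
              exact Finset.sum_nonneg fun _ _ => by positivity
        _ ≤ 1360 * (μ ^ 2 * T ^ 2) * (N * (m * L)) * Fintype.card ι := hpred N hN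
        _ ≤ 1369 * (μ ^ 2 * T ^ 2) * (N * (m * L)) * Fintype.card ι := by gcongr; norm_num
        _ = K ^ 2 * N * Fintype.card ι := by rw [hK2]; ring)
  rw [Nat.cast_one, div_one] at hcod
  rw [← hK]
  exact hcod

end Pool.Agent.Lib.MP_769d0b_pr
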