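import Pool.Agent.Lib.MP_769d0b_pr.Defs

/-!
LW-L1p: prefix l1 norm: submultiplicative, Young inequality.

PROOF.
`coeff_mul` over the antidiagonal. `l1p_mul`: `∑_{k<R} ‖∑_{i+j=k} A_i B_j‖ ≤ ∑_{i+j<R} ‖A_i‖‖B_j‖ ≤ (∑_{i<R}‖A_i‖)(∑_{j<R}‖B_j‖)`.
`pn_l1p` (Young): Cauchy-Schwarz `‖∑_{i≤k} W_i h_{k-i}‖² ≤ (∑_{i≤k}‖W_i‖)(∑_{i≤k}‖W_i‖‖h_{k-i}‖²) ≤ w ∑_{i≤k}‖W_i‖‖h_{k-i}‖²`, `w = l1p W R`; sum over `k < R`: `≤ w · w · pn h R`.
`l1p_prod`: induction from `l1p_mul` and `l1p 1 R ≤ 1`.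
-/

set_option autoImplicit false

open Finset Polynomial

namespace Pool.Agent.Lib.MP_769d0b_pr

open Pool.Agent.Lib.MP_7ab245_nt.Cnt Pool.Agent.Lib.MP_7ab245_nt.LogVar

private theorem L1p_nonneg (A : PowerSeries ℂ) (R : ℕ) : 0 ≤ l1p A R :=
  Finset.sum_nonneg fun _ _ => norm_nonneg _

/-- triangular sums -/
private theorem L1p_tri (f g : ℕ → ℝ) (hf : ∀ i, 0 ≤ f i) (hg : ∀ i, 0 ≤ g i) (R : ℕ) :
    ∑ k ∈ range R, ∑ x ∈ antidiagonal k, f x.1 * g x.2 ≤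
      (∑ i ∈ range R, f i) * ∑ j ∈ range R, g j := by
  rw [Finset.sum_sigma', Finset.sum_mul_sum, ← Finset.sum_product']
  have h1 : ∑ x ∈ (range R).sigma fun k => antidiagonal k, f x.2.1 * g x.2.2 =
      ∑ y ∈ ((range R).sigma fun k => antidiagonal k).image (fun x => x.2), f y.1 * g y.2 := by
    rw [Finset.sum_image]
    rintro ⟨k, x⟩ hx ⟨l, y⟩ hy hxy
    simp only [Finset.coe_sigma, Set.mem_sigma_iff, Finset.mem_coe, HasAntidiagonal.mem_antidiagonal] at hx hy hxy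
    subst hxy
    obtain ⟨_, hx⟩ := hx
    obtain ⟨_, hy⟩ := hy
    subst hx
    subst hy
    rfl
  rw [h1]
  refine Finset.sum_le_sum_of_subset_of_nonneg ?_ fun y _ _ => mul_nonneg (hf _) (hg _)
  intro y hy
  rw [Finset.mem_image] at hy
  obtain ⟨⟨k, x⟩, hx, rfl⟩ := hy
  rw [Finset.mem_sigma, HasAntidiagonal.mem_antidiagonal, Finset.mem_range] at hx
  rw [Finset.mem_product, Finset.mem_range, Finset.mem_range]
  simp only at hx ⊢
  omega

theorem l1p_mul (A B : PowerSeries ℂ) (R : ℕ) : l1p (A * B) R ≤ l1p A R * l1p B R := by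
  refine le_trans ?_ (L1p_tri (fun i => ‖PowerSeries.coeff i A‖) (fun i => ‖PowerSeries.coeff i B‖)
    (fun _ => norm_nonneg _) (fun _ => norm_nonneg _) R)
  unfold l1p
  refine Finset.sum_le_sum fun k _ => ?_
  rw [PowerSeries.coeff_mul]
  refine (norm_sum_le _ _).trans (le_of_eq ?_)
  refine Finset.sum_congr rfl fun x _ => norm_mul _ _

theorem l1p_prod {κ : Type} (S : Finset κ) (W : κ → PowerSeries ℂ) (R : ℕ) (B : ℝ)
    (h : ∀ i ∈ S, l1p (W i) R ≤ B) : l1p (∏ i ∈ S, W i) R ≤ B ^ S.card := by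
  classical
  induction S using Finset.induction_on with
  | empty =>
    rw [Finset.prod_empty, Finset.card_empty, pow_zero]
    unfold l1p
    rcases R with _ | R
    · simp
    · rw [Finset.sum_range_succ']
      simp [PowerSeries.coeff_one]
  | insert a S ha ih =>
    rw [Finset.prod_insert ha, Finset.card_insert_of_notMem ha, pow_succ']
    have h1 := ih fun i hi => h i (Finset.mem_insert_of_mem hi)
    have h2 := h a (Finset.mem_insert_self a S)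
    exact (l1p_mul _ _ R).trans (mul_le_mul h2 h1 (L1p_nonneg _ _) ((L1p_nonneg _ _).trans h2))

theorem pn_l1p (W h : PowerSeries ℂ) (R : ℕ) : pn (W * h) R ≤ (l1p W R) ^ 2 * pn h R := by
  have hw := L1p_nonneg W R
  have h1 : ∀ k ∈ range R, ‖PowerSeries.coeff k (W * h)‖ ^ 2 ≤
      l1p W R * ∑ x ∈ antidiagonal k, ‖PowerSeries.coeff x.1 W‖ * ‖PowerSeries.coeff x.2 h‖ ^ 2 := by
    intro k hk
    rw [Finset.mem_range] at hk
    rw [PowerSeries.coeff_mul]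
    have h2 : ‖∑ x ∈ antidiagonal k, PowerSeries.coeff x.1 W * PowerSeries.coeff x.2 h‖ ≤
        ∑ x ∈ antidiagonal k, ‖PowerSeries.coeff x.1 W‖ * ‖PowerSeries.coeff x.2 h‖ := by
      refine (norm_sum_le _ _).trans (le_of_eq ?_)
      refine Finset.sum_congr rfl fun x _ => norm_mul _ _
    have h3 : (∑ x ∈ antidiagonal k, ‖PowerSeries.coeff x.1 W‖ * ‖PowerSeries.coeff x.2 h‖) ^ 2 ≤
        (∑ x ∈ antidiagonal k, ‖PowerSeries.coeff x.1 W‖) *
          ∑ x ∈ antidiagonal k, ‖PowerSeries.coeff x.1 W‖ * ‖PowerSeries.coeff x.2 h‖ ^ 2 := by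
      refine Finset.sum_sq_le_sum_mul_sum_of_sq_le_mul _ (fun _ _ => norm_nonneg _)
        (fun _ _ => by positivity) (fun _ _ => le_of_eq (by ring))
    have h4 : ∑ x ∈ antidiagonal k, ‖PowerSeries.coeff x.1 W‖ ≤ l1p W R := by
      rw [Finset.Nat.sum_antidiagonal_eq_sum_range_succ_mk]
      unfold l1p
      refine Finset.sum_le_sum_of_subset_of_nonneg ?_ fun _ _ _ => norm_nonneg _
      exact Finset.range_subset_range.mpr (by omega)
    calc ‖∑ x ∈ antidiagonal k, PowerSeries.coeff x.1 W * PowerSeries.coeff x.2 h‖ ^ 2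
        ≤ (∑ x ∈ antidiagonal k, ‖PowerSeries.coeff x.1 W‖ * ‖PowerSeries.coeff x.2 h‖) ^ 2 :=
          pow_le_pow_left₀ (norm_nonneg _) h2 2
      _ ≤ _ := h3
      _ ≤ _ := mul_le_mul_of_nonneg_right h4 (Finset.sum_nonneg fun _ _ => by positivity)
  calc pn (W * h) R ≤ ∑ k ∈ range R, l1p W R *
        ∑ x ∈ antidiagonal k, ‖PowerSeries.coeff x.1 W‖ * ‖PowerSeries.coeff x.2 h‖ ^ 2 :=
        Finset.sum_le_sum h1
    _ = l1p W R * ∑ k ∈ range R, ∑ x ∈ antidiagonal k,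
        ‖PowerSeries.coeff x.1 W‖ * ‖PowerSeries.coeff x.2 h‖ ^ 2 := by rw [Finset.mul_sum]
    _ ≤ l1p W R * ((∑ i ∈ range R, ‖PowerSeries.coeff i W‖) *
        ∑ j ∈ range R, ‖PowerSeries.coeff j h‖ ^ 2) :=
        mul_le_mul_of_nonneg_left (L1p_tri (fun i => ‖PowerSeries.coeff i W‖)
          (fun i => ‖PowerSeries.coeff i h‖ ^ 2) (fun _ => norm_nonneg _)
          (fun _ => by positivity) R) hw
    _ = (l1p W R) ^ 2 * pn h R := by unfold l1p pn; ring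

end Pool.Agent.Lib.MP_769d0b_pr
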