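import Pool.Agent.Lib.MP_769d0b_pr.CSb
import Pool.Agent.Lib.MP_769d0b_pr.L1p
import Pool.Agent.Lib.MP_7ab245_nt.Cnt.Energy
import Pool.Agent.Lib.MP_7ab245_nt.Cnt.Cser

/-!
LW-FamV: the bound for the second moments of c_bad * q.

PROOF.
With `c := C β⁻¹ * bb (cx G)` (`cs i G = coeff i c`, `PP i G = - coeff i (ld (cx G))`): `c * (-ld (cx G))` has `i`-th coefficient `∑ cs j * PP (i-j)`, so by `vbound` (Cnt/Cser) and `QQ_sum` (Cnt/Energy), `coeff 0 G = 1`: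
`pn (c * (-ld (cx G))) (N+1) ≤ 2 MM² (∑_{i≤N} ‖QQ i G‖² + N²) ≤ 2T² (15 N (m L) + N²)`, `L = log (2mT)`, `≤ 34 T² N m L` (`N ≤ m`, `2L ≥ 1`). `cS (zb) * (cS S * (-ld)) = W * (cS zg * cS zb) * (-ld) = W * (c * (-ld))` (`cS_split`), so `pn_l1p`
(prefix `N + 1 ≤ m + 1`, `l1p` is monotone in the length, so `≤ 2`) gives `pn ≤ 4 · 34 T² N m L`.
-/

set_option autoImplicit false

open Finset Polynomial

namespace Pool.Agent.Lib.MP_769d0b_pr

open Pool.Agent.Lib.MP_7ab245_nt.Cnt Pool.Agent.Lib.MP_7ab245_nt.LogVar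

theorem fam_v (n m N : ℕ) (T : ℝ) (hm : 1 ≤ m) (hN : N ≤ m) (hT : 1 ≤ T) (G : ℤ[X])
    (hdeg : G.natDegree = m) (h0 : G.coeff 0 = 1) (hsq : Squarefree G) (hM : MM G ≤ T)
    (S : Finset ℂ) (W : PowerSeries ℂ) (hW : cS S = W * cS (zg n G)) (hW2 : l1p W (m + 1) ≤ 2) :
    pn (cS (zb n G) * (cS S * (-ld ((cx G : ℂ[X]) : PowerSeries ℂ)))) (N + 1) ≤
      136 * T ^ 2 * (N * (m * Real.log (2 * m * T))) := by
  have hG0 : G.coeff 0 ≠ 0 := by rw [h0]; exact one_ne_zero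
  have hmR : (1 : ℝ) ≤ m := by exact_mod_cast hm
  have hNR : (N : ℝ) ≤ m := by exact_mod_cast hN
  have hN0 : (0 : ℝ) ≤ N := by positivity
  obtain ⟨L, hL⟩ : ∃ L : ℝ, L = Real.log (2 * m * T) := ⟨_, rfl⟩
  rw [← hL]
  have hL2 : 1 ≤ 2 * L := by
    have h1 : (2 : ℝ) ≤ 2 * m * T := by nlinarith
    have h2 : Real.log 2 ≤ L := by rw [hL]; exact Real.log_le_log (by norm_num) h1
    have h3 := Real.log_two_gt_d9
    linarith
  obtain ⟨c, hc⟩ : ∃ c : PowerSeries ℂ, c =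
      PowerSeries.C (PowerSeries.constantCoeff (bb (cx G)))⁻¹ * bb (cx G) := ⟨_, rfl⟩
  have hsplit : c = cS (zg n G) * cS (zb n G) := by
    rw [hc]
    exact cS_split n G hsq hG0
  -- the series `c * (- ld)`
  have h1 : pn (c * (-ld ((cx G : ℂ[X]) : PowerSeries ℂ))) (N + 1) ≤ 34 * T ^ 2 * (N * (m * L)) := by
    have h2 := vbound G hG0 N
    have h3 := QQ_sum G m T hdeg (by omega) hsq hG0 hM hT N hN
    rw [← hL] at h3
    have h4 : pn (c * (-ld ((cx G : ℂ[X]) : PowerSeries ℂ))) (N + 1) =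
        ∑ i ∈ range (N + 1), ‖∑ j ∈ range (i + 1), cs j G * PP (i - j) G‖ ^ 2 := by
      unfold pn
      refine Finset.sum_congr rfl fun i _ => ?_
      rw [PowerSeries.coeff_mul, Finset.Nat.sum_antidiagonal_eq_sum_range_succ_mk]
      congr 2
      refine Finset.sum_congr rfl fun j _ => ?_
      unfold cs PP
      rw [hc, map_neg]
    rw [h4]
    refine h2.trans ?_
    rw [h0, Int.cast_one, abs_one, div_one]
    have hM0 : 0 ≤ MM G := by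
      have := mu_ge G hG0
      rw [h0, Int.cast_one, abs_one, div_one] at this
      linarith
    have h5 : MM G ^ 2 ≤ T ^ 2 := pow_le_pow_left₀ hM0 hM 2
    have h6 : (N : ℝ) ^ 2 ≤ 2 * (N * (m * L)) := by
      nlinarith [mul_nonneg hN0 (by linarith : (0:ℝ) ≤ m)]
    have h7 : ∑ m ∈ range (N + 1), ‖QQ m G‖ ^ 2 + (N : ℝ) ^ 2 ≤ 17 * (N * (m * L)) := by
      nlinarith
    have h8 : 0 ≤ ∑ m ∈ range (N + 1), ‖QQ m G‖ ^ 2 + (N : ℝ) ^ 2 := by positivity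
    calc 2 * MM G ^ 2 * (∑ m ∈ range (N + 1), ‖QQ m G‖ ^ 2 + (N : ℝ) ^ 2)
        ≤ 2 * T ^ 2 * (17 * (N * (m * L))) := by gcongr
      _ = 34 * T ^ 2 * (N * (m * L)) := by ring
  have h2 : cS (zb n G) * (cS S * (-ld ((cx G : ℂ[X]) : PowerSeries ℂ))) =
      W * (c * (-ld ((cx G : ℂ[X]) : PowerSeries ℂ))) := by
    rw [hW, hsplit]
    ring
  rw [h2]
  have h3 := pn_l1p W (c * (-ld ((cx G : ℂ[X]) : PowerSeries ℂ))) (N + 1)
  have h4 : l1p W (N + 1) ≤ 2 := by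
    refine le_trans ?_ hW2
    unfold l1p
    exact Finset.sum_le_sum_of_subset_of_nonneg (Finset.range_subset_range.mpr (by omega))
      fun _ _ _ => norm_nonneg _
  have h5 : 0 ≤ l1p W (N + 1) := by
    unfold l1p
    exact Finset.sum_nonneg fun _ _ => norm_nonneg _
  have h6 : (l1p W (N + 1)) ^ 2 ≤ 4 := by nlinarith
  have h7 := pn_nonneg (c * (-ld ((cx G : ℂ[X]) : PowerSeries ℂ))) (N + 1)
  calc pn (W * (c * (-ld ((cx G : ℂ[X]) : PowerSeries ℂ)))) (N + 1)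
      ≤ (l1p W (N + 1)) ^ 2 * pn (c * (-ld ((cx G : ℂ[X]) : PowerSeries ℂ))) (N + 1) := h3
    _ ≤ 4 * (34 * T ^ 2 * (N * (m * L))) := mul_le_mul h6 h1 h7 (by norm_num)
    _ = 136 * T ^ 2 * (N * (m * L)) := by ring

end Pool.Agent.Lib.MP_769d0b_pr
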