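import Pool.Agent.Lib.MP_769d0b_pr.Main

/-!
Littlewood polynomials.
-/

set_option autoImplicit false

open Finset Polynomial

namespace Pool.Agent.Lib.MP_769d0b_pr

/-- the base polynomial of the Littlewood model -/
noncomputable def lb (n : ℕ) (s t : Bool) : ℤ[X] :=
  C (if s then 1 else -1) + C (if t then 1 else -1) * X ^ n - ∑ k ∈ Ioo 0 n, X ^ k

theorem lb_coeff (n : ℕ) (hn : 2 ≤ n) (s t : Bool) (k : ℕ) : (lb n s t).coeff k =
    if k = 0 then (if s then 1 else -1) else if k = n then (if t then 1 else -1) else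
      if k < n then -1 else 0 := by
  unfold lb
  rw [coeff_sub, coeff_add, coeff_C, coeff_C_mul, coeff_X_pow, finsetSum_coeff]
  simp only [coeff_X_pow, Finset.sum_ite_eq, Finset.mem_Ioo]
  by_cases h0 : k = 0
  · subst h0
    have : (0 : ℕ) ≠ n := by omega
    simp [this]
  · by_cases h1 : k = n
    · subst h1
      simp [h0]
    · by_cases h2 : k < n
      · have : 0 < k := by omega
        simp [h0, h1, h2, this]
      · simp [h0, h1, h2]

theorem lb_MD (n : ℕ) (hn : 2 ≤ n) (s t : Bool) : MD n (lb n s t) 2 := by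
  have hc := lb_coeff n hn s t
  have hs : ∀ u : Bool, |(if u then (1 : ℤ) else -1)| = 1 := by
    intro u
    cases u <;> simp
  have hne : (lb n s t).coeff n ≠ 0 := by
    rw [hc]
    have : n ≠ 0 := by omega
    simp only [this, if_false, if_true]
    cases t <;> simp
  refine ⟨hn, ?_, ?_, ?_, Or.inr rfl, ?_, ?_⟩
  · refine le_antisymm ?_ (le_natDegree_of_ne_zero hne)
    rw [natDegree_le_iff_coeff_eq_zero]
    intro k hk
    rw [hc]
    have h0 : k ≠ 0 := by omega
    have h1 : k ≠ n := by omega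
    have h2 : ¬ k < n := by omega
    simp [h0, h1, h2]
  · rw [hc]
    simp only [if_true]
    exact hs s
  · rw [hc]
    have : n ≠ 0 := by omega
    simp only [this, if_false, if_true]
    exact hs t
  · intro k
    rw [hc]
    split_ifs <;> simp
  · intro k hk
    rw [Finset.mem_Ioo] at hk
    rw [hc]
    have h0 : k ≠ 0 := by omega
    have h1 : k ≠ n := by omega
    simp [h0, h1, hk.2]

/-- the set of the interior plus signs -/
def lE (n : ℕ) (f : Fin (n + 1) → Bool) : Finset ℕ :=
  (Ioo 0 n).filter (fun k => if h : k < n + 1 then f ⟨k, h⟩ = true else False)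

theorem lE_sub (n : ℕ) (f : Fin (n + 1) → Bool) : lE n f ⊆ Ioo 0 n := Finset.filter_subset _ _

theorem lE_mem (n : ℕ) (f : Fin (n + 1) → Bool) (i : Fin (n + 1)) (h0 : 0 < (i : ℕ))
    (h1 : (i : ℕ) < n) : (i : ℕ) ∈ lE n f ↔ f i = true := by
  unfold lE
  rw [Finset.mem_filter, Finset.mem_Ioo]
  have h2 : (i : ℕ) < n + 1 := by omega
  simp [h0, h1, h2]

theorem coeff_fin_sum {R : Type} [CommRing R] (n : ℕ) (g : Fin (n + 1) → R) (k : ℕ) :
    (∑ i : Fin (n + 1), C (g i) * X ^ (i : ℕ)).coeff k =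
      if h : k < n + 1 then g ⟨k, h⟩ else 0 := by
  rw [finsetSum_coeff]
  simp only [coeff_C_mul, coeff_X_pow, mul_ite, mul_one, mul_zero]
  by_cases h : k < n + 1
  · rw [dif_pos h, Finset.sum_eq_single (⟨k, h⟩ : Fin (n + 1))]
    · simp
    · intro j _ hj
      have : k ≠ (j : ℕ) := by
        intro hk
        apply hj
        apply Fin.ext
        exact hk.symm
      simp [this]
    · intro hk
      exact absurd (Finset.mem_univ _) hk
  · rw [dif_neg h]
    refine Finset.sum_eq_zero fun j _ => ?_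
    have : k ≠ (j : ℕ) := by
      have := j.isLt
      omega
    simp [this]

theorem lit_eq (n : ℕ) (hn : 2 ≤ n) (f : Fin (n + 1) → Bool) :
    (∑ i : Fin (n + 1), Polynomial.C (if f i then (1 : ℚ) else -1) * Polynomial.X ^ (i : ℕ)) =
      (PE (lb n (f 0) (f (Fin.last n))) 2 (lE n f)).map (Int.castRingHom ℚ) := by
  ext k
  rw [coeff_fin_sum, coeff_map, PE_coeff, lb_coeff n hn]
  by_cases h : k < n + 1
  · rw [dif_pos h]
    by_cases h0 : k = 0
    · subst h0
      have h1 : (0 : ℕ) ∉ lE n f := fun hk => by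
        have := Finset.mem_Ioo.mp (lE_sub n f hk)
        omega
      have h2 : (⟨0, h⟩ : Fin (n + 1)) = 0 := rfl
      rw [h2]
      cases f 0 <;> simp [h1]
    · by_cases h1 : k = n
      · subst h1
        have h2 : k ∉ lE k f := fun hk => by
          have := Finset.mem_Ioo.mp (lE_sub k f hk)
          omega
        have h3 : (⟨k, h⟩ : Fin (k + 1)) = Fin.last k := rfl
        rw [h3]
        cases f (Fin.last k) <;> simp [h2, h0]
      · have h2 : k < n := by omega
        have h3 := lE_mem n f ⟨k, h⟩ (by simpa using Nat.pos_of_ne_zero h0) h2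
        simp only at h3
        by_cases h4 : f ⟨k, h⟩ = true
        · rw [if_pos (h3.mpr h4)]
          simp [h0, h1, h2, h4]
        · have h5 : k ∉ lE n f := fun hk => h4 (h3.mp hk)
          rw [if_neg h5]
          simp [h0, h1, h2, h4]
  · rw [dif_neg h]
    have h0 : k ≠ 0 := by omega
    have h1 : k ≠ n := by omega
    have h2 : ¬ k < n := by omega
    have h3 : k ∉ lE n f := fun hk => by
      have := Finset.mem_Ioo.mp (lE_sub n f hk)
      omega
    simp [h0, h1, h2, h3]

theorem lit_irr (n : ℕ) (hn : 2 ≤ n) (f : Fin (n + 1) → Bool) :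
    Irreducible (∑ i : Fin (n + 1), Polynomial.C (if f i then (1 : ℚ) else -1) *
      Polynomial.X ^ (i : ℕ)) ↔ Irreducible (PE (lb n (f 0) (f (Fin.last n))) 2 (lE n f)) := by
  rw [lit_eq n hn f]
  exact (IsPrimitive.Int.irreducible_iff_irreducible_map_cast
    ((lb_MD n hn _ _).primitive (lE_sub n f))).symm

theorem lit_card (n : ℕ) (hn : 2 ≤ n) :
    Nat.card {f : Fin (n + 1) → Bool // ¬ Irreducible (∑ i : Fin (n + 1),
        Polynomial.C (if f i then (1 : ℚ) else -1) * Polynomial.X ^ (i : ℕ))} ≤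
      ∑ st : Bool × Bool, cnt n (fun E => ¬ Irreducible (PE (lb n st.1 st.2) 2 E)) := by
  classical
  have hfin : ∀ st : Bool × Bool,
      {E : Finset ℕ | E ⊆ Ioo 0 n ∧ ¬ Irreducible (PE (lb n st.1 st.2) 2 E)}.Finite :=
    fun st => cnt_fin n _
  have hf : ∀ st : Bool × Bool, Finite
      {E : Finset ℕ | E ⊆ Ioo 0 n ∧ ¬ Irreducible (PE (lb n st.1 st.2) 2 E)} :=
    fun st => (hfin st).to_subtype
  have h1 : Nat.card {f : Fin (n + 1) → Bool // ¬ Irreducible (∑ i : Fin (n + 1),
        Polynomial.C (if f i then (1 : ℚ) else -1) * Polynomial.X ^ (i : ℕ))} ≤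
      Nat.card (Σ st : Bool × Bool,
        {E : Finset ℕ | E ⊆ Ioo 0 n ∧ ¬ Irreducible (PE (lb n st.1 st.2) 2 E)}) := by
    refine Nat.card_le_card_of_injective (fun f => ⟨(f.1 0, f.1 (Fin.last n)), ⟨lE n f.1,
      lE_sub n f.1, fun h => f.2 ((lit_irr n hn f.1).mpr h)⟩⟩) ?_
    intro f g hfg
    have h2 : (f.1 0, f.1 (Fin.last n)) = (g.1 0, g.1 (Fin.last n)) :=
      congrArg Sigma.fst hfg
    have h3 : lE n f.1 = lE n g.1 := by
      have h4 := congrArg (fun x : (Σ st : Bool × Bool,
        {E : Finset ℕ | E ⊆ Ioo 0 n ∧ ¬ Irreducible (PE (lb n st.1 st.2) 2 E)}) =>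
        (x.2 : Finset ℕ)) hfg
      exact h4
    rw [Prod.mk.injEq] at h2
    apply Subtype.ext
    funext i
    by_cases h0 : (i : ℕ) = 0
    · have h5 : i = 0 := Fin.ext h0
      rw [h5]
      exact h2.1
    · by_cases h6 : (i : ℕ) = n
      · have h5 : i = Fin.last n := Fin.ext h6
        rw [h5]
        exact h2.2
      · have h7 : (i : ℕ) < n := by
          have := i.isLt
          omega
        have h8 := lE_mem n f.1 i (by omega) h7
        have h9 := lE_mem n g.1 i (by omega) h7
        rw [h3] at h8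
        rw [Bool.eq_iff_iff]
        exact h8.symm.trans h9
  refine h1.trans (le_of_eq ?_)
  rw [Nat.card_sigma]
  rfl

theorem final :
    Filter.Tendsto
      (fun n : ℕ =>
        (Nat.card {f : Fin (n + 1) → Bool //
            ¬ Irreducible (∑ i : Fin (n + 1),
              Polynomial.C (if f i then (1 : ℚ) else -1) * Polynomial.X ^ (i : ℕ))} : ℝ)
          / (2 : ℝ) ^ (n + 1))
      Filter.atTop (nhds 0) := by
  rw [Metric.tendsto_atTop]
  intro ε hε
  obtain ⟨N, hN⟩ := main (ε / 2) (by linarith)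
  refine ⟨max N 2, fun n hn => ?_⟩
  have hnN : N ≤ n := le_trans (le_max_left _ _) hn
  have hn2 : 2 ≤ n := le_trans (le_max_right _ _) hn
  have h1 := lit_card n hn2
  have h2 : (Nat.card {f : Fin (n + 1) → Bool // ¬ Irreducible (∑ i : Fin (n + 1),
        Polynomial.C (if f i then (1 : ℚ) else -1) * Polynomial.X ^ (i : ℕ))} : ℝ) ≤
      4 * (ε / 2 * 2 ^ (n - 1)) := by
    have h3 : (Nat.card {f : Fin (n + 1) → Bool // ¬ Irreducible (∑ i : Fin (n + 1),
        Polynomial.C (if f i then (1 : ℚ) else -1) * Polynomial.X ^ (i : ℕ))} : ℝ) ≤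
        ∑ st : Bool × Bool, (cnt n (fun E => ¬ Irreducible (PE (lb n st.1 st.2) 2 E)) : ℝ) := by
      exact_mod_cast h1
    refine h3.trans ((Finset.sum_le_sum fun st _ => hN n hnN _ _ (lb_MD n hn2 st.1 st.2)).trans
      (le_of_eq ?_))
    rw [Finset.sum_const, nsmul_eq_mul]
    simp
  have h4 : (2 : ℝ) ^ (n + 1) = 4 * 2 ^ (n - 1) := by
    have : n + 1 = (n - 1) + 2 := by omega
    rw [this, pow_add]
    ring
  have h5 : (0 : ℝ) < 2 ^ (n - 1) := by positivity
  rw [Real.dist_eq, sub_zero, abs_of_nonneg (by positivity), h4, div_lt_iff₀ (by positivity)]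
  nlinarith [mul_pos hε h5]

end Pool.Agent.Lib.MP_769d0b_pr
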