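import Pool.Agent.Lib.MP_769d0b_pr.Defs

/-!
LW-GeoK: the exponent K with |y|^K about 3/10.

PROOF.
`K` minimal with `‖y‖^K ≤ 3/10` (exists: powers tend to `0`; `Nat.find`), `K ≥ 1` as `1 > 3/10`. `‖y‖^(K-1) > 3/10`, so `‖y‖^K ≥ (3/10)‖y‖`.
With `s = 1 - ‖y‖ ∈ (0, 1/100]`: `(1-s)^(K-1) ≤ exp(-s(K-1))`, so `s (K-1) ≤ log (10/3) ≤ 1.21` and `K s ≤ 1.21 + s ≤ 2`.
Lower bound: `(1-s)^K ≥ 1 - K s`(Bernoulli `one_add_mul_le_pow`) would only give `K s ≥ 7/10`; use `1 - s ≥ exp(-s/(1-s))`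
(`Real.add_one_le_exp` for `1/(1-s) ≤ exp(s/(1-s))`): `3/10 ≥ exp(-K s/(1-s))`, so `K s ≥ (1-s) log(10/3) ≥ 0.99 · 1.2 ≥ 1`
(`log (10/3) ≥ 1.2` : `exp 1.2 ≤ 10/3`; e.g. `exp 1 < 2.7183`, or only use `log(10/3) ≥ log 2.9 ≥ 1.05`: `0.99·1.05 ≥ 1`, `exp 1.05 = exp 1 · exp 0.05 ≤ 2.7183·1.0513 ≤ 2.9`).
-/

set_option autoImplicit false

open Finset Polynomial

namespace Pool.Agent.Lib.MP_769d0b_pr

open Pool.Agent.Lib.MP_7ab245_nt.Cnt Pool.Agent.Lib.MP_7ab245_nt.LogVar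

theorem exists_K (y : ℂ) (hy : 99 / 100 ≤ ‖y‖) (hy1 : ‖y‖ < 1) :
    ∃ K : ℕ, 1 ≤ K ∧ ‖y‖ ^ K ≤ 3 / 10 ∧ 3 / 10 * ‖y‖ ≤ ‖y‖ ^ K ∧
      (K : ℝ) * (1 - ‖y‖) ≤ 2 ∧ 1 ≤ (K : ℝ) * (1 - ‖y‖) := by
  classical
  set r := ‖y‖ with hr
  have hr0 : 0 < r := by linarith
  have hex : ∃ K : ℕ, r ^ K ≤ 3 / 10 := by
    obtain ⟨K, hK⟩ := exists_pow_lt_of_lt_one (show (0 : ℝ) < 3 / 10 by norm_num) hy1
    exact ⟨K, hK.le⟩
  set K := Nat.find hex with hKdef
  have hK : r ^ K ≤ 3 / 10 := Nat.find_spec hex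
  have hK1 : 1 ≤ K := by
    rw [Nat.one_le_iff_ne_zero]
    intro h
    rw [h, pow_zero] at hK
    norm_num at hK
  have hK2 : 3 / 10 < r ^ (K - 1) := by
    have := Nat.find_min hex (m := K - 1) (by omega)
    linarith
  have hpow : r ^ K = r ^ (K - 1) * r := by
    rw [← pow_succ]
    congr 1
    omega
  refine ⟨K, hK1, hK, ?_, ?_, ?_⟩
  · rw [hpow]
    gcongr
  · by_contra hlt
    push Not at hlt
    have h1 : r ≤ Real.exp (-(1 - r)) := by
      have := Real.add_one_le_exp (-(1 - r))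
      linarith
    have h2 : r ^ (K - 1) ≤ Real.exp (-(199 / 100)) := by
      calc r ^ (K - 1) ≤ Real.exp (-(1 - r)) ^ (K - 1) := pow_le_pow_left₀ hr0.le h1 _
        _ = Real.exp ((K - 1 : ℕ) * (-(1 - r))) := by rw [Real.exp_nat_mul]
        _ ≤ _ := by
            apply Real.exp_le_exp.2
            have : ((K - 1 : ℕ) : ℝ) = K - 1 := by
              rw [Nat.cast_sub hK1, Nat.cast_one]
            rw [this]
            linarith
    have h3 : (10 / 3 : ℝ) ≤ Real.exp (199 / 100) := by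
      have := Real.quadratic_le_exp_of_nonneg (x := 199 / 100) (by norm_num)
      refine le_trans ?_ this
      norm_num
    have h4 : Real.exp (-(199 / 100)) ≤ 3 / 10 := by
      rw [Real.exp_neg]
      calc (Real.exp (199 / 100))⁻¹ ≤ (10 / 3 : ℝ)⁻¹ := by gcongr
        _ = _ := by norm_num
    linarith
  · by_contra hlt
    push Not at hlt
    have h1 : Real.exp (-((1 - r) / r)) ≤ r := by
      have h2 := Real.add_one_le_exp ((1 - r) / r)
      have h3 : (1 - r) / r + 1 = r⁻¹ := by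
        field_simp
        ring
      rw [h3] at h2
      rw [Real.exp_neg]
      exact inv_le_of_inv_le₀ hr0 h2
    have h2 : Real.exp (-(100 / 99)) ≤ r ^ K := by
      calc Real.exp (-(100 / 99)) ≤ Real.exp (K * (-((1 - r) / r))) := by
            apply Real.exp_le_exp.2
            have h3 : (K : ℝ) * ((1 - r) / r) ≤ 100 / 99 := by
              rw [← mul_div_assoc, div_le_div_iff₀ hr0 (by norm_num)]
              nlinarith
            linarith
        _ = Real.exp (-((1 - r) / r)) ^ K := by rw [Real.exp_nat_mul]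
        _ ≤ _ := pow_le_pow_left₀ (Real.exp_pos _).le h1 _
    have h3 : Real.exp (100 / 99) < 10 / 3 := by
      have h4 : Real.exp (100 / 99) = Real.exp 1 * Real.exp (1 / 99) := by
        rw [← Real.exp_add]
        norm_num
      have h5 : Real.exp (1 / 99) ≤ 99 / 98 := by
        have h6 := Real.add_one_le_exp (-(1 / 99) : ℝ)
        rw [Real.exp_neg] at h6
        have h7 : (98 / 99 : ℝ) ≤ (Real.exp (1 / 99))⁻¹ := by
          refine le_trans ?_ h6
          norm_num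
        have h8 := inv_anti₀ (by norm_num) h7
        rw [inv_inv] at h8
        refine h8.trans ?_
        norm_num
      have h6 := Real.exp_one_lt_d9
      rw [h4]
      calc Real.exp 1 * Real.exp (1 / 99) ≤ 2.7182818286 * (99 / 98) := by gcongr
        _ < _ := by norm_num
    have h4 : (3 / 10 : ℝ) < Real.exp (-(100 / 99)) := by
      rw [Real.exp_neg]
      calc (3 / 10 : ℝ) = (10 / 3 : ℝ)⁻¹ := by norm_num
        _ < _ := by
            have := Real.exp_pos (100 / 99)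
            gcongr
    linarith

end Pool.Agent.Lib.MP_769d0b_pr
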