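import Pool.Agent.Lib.MP_769d0b_pr.Defs

/-!
LW-GeoSep: geometric separation.

PROOF.
`j₀` = the first `j < J` with `c j ≠ 0`. `∑_{j<J} c_j q^j = q^{j₀} (c_{j₀} + ∑_{1 ≤ i < J - j₀} c_{j₀+i} q^i)`, and
`‖∑_{i≥1} c_{j₀+i} q^i‖ ≤ 2 ∑_{i≥1} (3/10)^i = 6/7`, `19/20 - 6/7 ≥ 9/100`. Finally `‖q‖^{j₀} ≥ ‖q‖^{J-1}` as `‖q‖ ≤ 1`.
(If `q = 0`: the same.)
-/

set_option autoImplicit false

open Finset Polynomial

namespace Pool.Agent.Lib.MP_769d0b_pr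

open Pool.Agent.Lib.MP_7ab245_nt.Cnt Pool.Agent.Lib.MP_7ab245_nt.LogVar

theorem geo_sep (q : ℂ) (hq : ‖q‖ ≤ 3 / 10) (J : ℕ) (c : ℕ → ℂ) (hc : ∀ j < J, ‖c j‖ ≤ 2)
    (hc' : ∀ j < J, c j = 0 ∨ 19 / 20 ≤ ‖c j‖) (hne : ∃ j < J, c j ≠ 0) :
    9 / 100 * ‖q‖ ^ (J - 1) ≤ ‖∑ j ∈ range J, c j * q ^ j‖ := by
  classical
  obtain ⟨j₀, ⟨hj₀, hcj₀⟩, hmin⟩ : ∃ j₀, (j₀ < J ∧ c j₀ ≠ 0) ∧ ∀ j < j₀, c j = 0 := by
    refine ⟨Nat.find hne, Nat.find_spec hne, ?_⟩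
    intro j hj
    have h := Nat.find_min hne hj
    by_contra h1
    exact h ⟨lt_trans hj (Nat.find_spec hne).1, h1⟩
  obtain ⟨K, rfl⟩ : ∃ K, J = j₀ + (K + 1) := ⟨J - j₀ - 1, by omega⟩
  have hq0 : 0 ≤ ‖q‖ := norm_nonneg q
  have hq1 : ‖q‖ ≤ 1 := by linarith
  have hsplit : ∑ j ∈ range (j₀ + (K + 1)), c j * q ^ j =
      q ^ j₀ * (c j₀ + q * ∑ i ∈ range K, c (j₀ + (i + 1)) * q ^ i) := by
    rw [Finset.sum_range_add, Finset.sum_eq_zero (fun j hj => by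
      rw [hmin j (Finset.mem_range.mp hj), zero_mul]), zero_add, Finset.sum_range_succ',
      mul_add, Finset.mul_sum, Finset.mul_sum, add_comm]
    congr 1
    · rw [add_zero]
      ring
    · apply Finset.sum_congr rfl
      intro i _
      ring
  have hgeo : ∀ K : ℕ, ∑ i ∈ range K, ‖q‖ ^ i ≤ 10 / 7 := by
    intro K
    have h1 : (∑ i ∈ range K, ‖q‖ ^ i) * (1 - ‖q‖) = 1 - ‖q‖ ^ K := geom_sum_mul_neg ‖q‖ K
    have h2 : 0 ≤ ‖q‖ ^ K := pow_nonneg hq0 K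
    have h3 : 0 ≤ ∑ i ∈ range K, ‖q‖ ^ i := Finset.sum_nonneg (fun i _ => pow_nonneg hq0 i)
    nlinarith
  have htail : ‖q * ∑ i ∈ range K, c (j₀ + (i + 1)) * q ^ i‖ ≤ 6 / 7 := by
    rw [norm_mul]
    have h1 : ‖∑ i ∈ range K, c (j₀ + (i + 1)) * q ^ i‖ ≤ 20 / 7 := by
      calc ‖∑ i ∈ range K, c (j₀ + (i + 1)) * q ^ i‖
          ≤ ∑ i ∈ range K, ‖c (j₀ + (i + 1)) * q ^ i‖ := norm_sum_le _ _
        _ ≤ ∑ i ∈ range K, 2 * ‖q‖ ^ i := by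
            apply Finset.sum_le_sum
            intro i hi
            rw [norm_mul, norm_pow]
            apply mul_le_mul_of_nonneg_right _ (pow_nonneg hq0 i)
            apply hc
            have := Finset.mem_range.mp hi
            omega
        _ = 2 * ∑ i ∈ range K, ‖q‖ ^ i := by rw [Finset.mul_sum]
        _ ≤ 20 / 7 := by linarith [hgeo K]
    calc ‖q‖ * ‖∑ i ∈ range K, c (j₀ + (i + 1)) * q ^ i‖ ≤ 3 / 10 * (20 / 7) :=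
          mul_le_mul hq h1 (norm_nonneg _) (by norm_num)
      _ = 6 / 7 := by norm_num
  have hc0 : 19 / 20 ≤ ‖c j₀‖ := by
    rcases hc' j₀ hj₀ with h | h
    · exact absurd h hcj₀
    · exact h
  have hmain : 9 / 100 ≤ ‖c j₀ + q * ∑ i ∈ range K, c (j₀ + (i + 1)) * q ^ i‖ := by
    have h1 := norm_sub_le_norm_add (c j₀) (q * ∑ i ∈ range K, c (j₀ + (i + 1)) * q ^ i)
    linarith
  rw [hsplit, norm_mul, norm_pow]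
  have hpow : ‖q‖ ^ (j₀ + (K + 1) - 1) ≤ ‖q‖ ^ j₀ :=
    pow_le_pow_of_le_one hq0 hq1 (by omega)
  calc 9 / 100 * ‖q‖ ^ (j₀ + (K + 1) - 1) ≤ 9 / 100 * ‖q‖ ^ j₀ :=
        mul_le_mul_of_nonneg_left hpow (by norm_num)
    _ = ‖q‖ ^ j₀ * (9 / 100) := by ring
    _ ≤ ‖q‖ ^ j₀ * ‖c j₀ + q * ∑ i ∈ range K, c (j₀ + (i + 1)) * q ^ i‖ :=
        mul_le_mul_of_nonneg_left hmain (pow_nonneg hq0 j₀)

end Pool.Agent.Lib.MP_769d0b_pr
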