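import Pool.Agent.Lib.MP_769d0b_pr.Basic
import Pool.Agent.Lib.MP_769d0b_pr.Cnt
import Pool.Agent.Lib.MP_769d0b_pr.Anti

/-!
LW-LO: small ball by Littlewood-Offord.
-/

set_option autoImplicit false

open Finset Polynomial

namespace Pool.Agent.Lib.MP_769d0b_pr

open Pool.Agent.Lib.MP_7ab245_nt.Cnt Pool.Agent.Lib.MP_7ab245_nt.LogVar

/-- a closed interval of length `L` is covered by half-open ones -/
private theorem interval_count (v : ℕ → ℝ) (c : ℝ) (hc : 0 < c) (I : Finset ℕ)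
    (hv : ∀ k ∈ I, c ≤ |v k|) (t L : ℝ) (hL : 0 ≤ L) :
    {A : Finset ℕ | A ⊆ I ∧ t ≤ ∑ k ∈ A, v k ∧ ∑ k ∈ A, v k ≤ t + L}.ncard ≤
      (⌊L / c⌋₊ + 1) * I.card.choose (I.card / 2) := by
  classical
  have hsub : {A : Finset ℕ | A ⊆ I ∧ t ≤ ∑ k ∈ A, v k ∧ ∑ k ∈ A, v k ≤ t + L} ⊆
      ⋃ i ∈ Finset.range (⌊L / c⌋₊ + 1),
        {A : Finset ℕ | A ⊆ I ∧ t + i * c ≤ ∑ k ∈ A, v k ∧ ∑ k ∈ A, v k < t + i * c + c} := by
    rintro A ⟨hA, h1, h2⟩
    set s := ∑ k ∈ A, v k with hs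
    have h0 : 0 ≤ (s - t) / c := div_nonneg (by linarith) hc.le
    simp only [Set.mem_iUnion, Finset.mem_range]
    refine ⟨⌊(s - t) / c⌋₊, ?_, hA, ?_, ?_⟩
    · have : ⌊(s - t) / c⌋₊ ≤ ⌊L / c⌋₊ := Nat.floor_le_floor (by gcongr; linarith)
      omega
    · have := Nat.floor_le h0
      rw [le_div_iff₀ hc] at this
      linarith
    · have := Nat.lt_floor_add_one ((s - t) / c)
      rw [div_lt_iff₀ hc] at this
      linarith
  have hfin : ∀ i : ℕ, {A : Finset ℕ | A ⊆ I ∧ t + i * c ≤ ∑ k ∈ A, v k ∧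
      ∑ k ∈ A, v k < t + i * c + c}.Finite := by
    intro i
    apply Set.Finite.subset (I.powerset : Finset (Finset ℕ)).finite_toSet
    rintro A ⟨hA, _⟩
    simpa using hA
  refine le_trans (Set.ncard_le_ncard hsub ?_) ?_
  · exact Set.Finite.biUnion (Finset.range _).finite_toSet fun i _ => hfin i
  · refine le_trans (Finset.set_ncard_biUnion_le _ _) ?_
    refine le_trans (Finset.sum_le_card_nsmul _ _ (I.card.choose (I.card / 2)) ?_) ?_
    · intro i _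
      exact antichain_count v c hc I hv (t + i * c)
    · simp

theorem cnt_lo {n : ℕ} {b : ℤ[X]} {d : ℤ} (h : MD n b d) (y : ℂ) (ρ c : ℝ) (hρ : 0 ≤ ρ)
    (hc : 0 < c) (I : Finset ℕ) (hI : I ⊆ Ioo 0 n) (hI0 : I.Nonempty)
    (hv : ∀ k ∈ I, c ≤ |(y ^ k).re|) :
    (cnt n (fun E => ‖ev b d E y‖ ≤ ρ) : ℝ) ≤ (2 * ρ / c + 1) * 2 ^ (n - 1) / √(I.card) := by
  classical
  have hd1 : (1 : ℝ) ≤ d := by
    rcases h.hd with hd | hd <;> simp [hd]
  have hd0 : (0 : ℝ) < d := by linarith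
  have hcard : 1 ≤ I.card := hI0.card_pos
  have hcardn : I.card ≤ n - 1 := by
    have := Finset.card_le_card hI
    simpa using this
  have h1 := cnt_cond n (fun E => ‖ev b d E y‖ ≤ ρ) I hI
    ((⌊2 * ρ / c⌋₊ + 1) * I.card.choose (I.card / 2)) (by
      intro D hD
      have hdisj : ∀ A, A ⊆ I → Disjoint A D := by
        intro A hA
        rw [Finset.disjoint_left]
        intro x hx hx'
        exact (Finset.mem_sdiff.mp (hD hx')).2 (hA hx)
      set w : ℝ := ((cx b).eval y).re + d * (∑ k ∈ D, (y ^ k).re) with hw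
      have hre : ∀ A, A ⊆ I → (ev b d (A ∪ D) y).re = w + d * ∑ k ∈ A, (y ^ k).re := by
        intro A hA
        rw [ev_eq, Finset.sum_union (hdisj A hA)]
        have : ((d : ℂ)) = ((d : ℝ) : ℂ) := by push_cast; rfl
        rw [Complex.add_re, this, Complex.re_ofReal_mul, Complex.add_re, Complex.re_sum,
          Complex.re_sum, hw]
        ring
      refine le_trans (Set.ncard_le_ncard (t := {A : Finset ℕ | A ⊆ I ∧
        (-ρ - w) / d ≤ ∑ k ∈ A, (y ^ k).re ∧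
        ∑ k ∈ A, (y ^ k).re ≤ (-ρ - w) / d + 2 * ρ}) ?_ ?_) ?_
      · rintro A ⟨hA, hq⟩
        have h2 := Complex.abs_re_le_norm (ev b d (A ∪ D) y)
        have h3 : |w + d * ∑ k ∈ A, (y ^ k).re| ≤ ρ := by
          rw [← hre A hA]; exact h2.trans hq
        rw [abs_le] at h3
        refine ⟨hA, ?_, ?_⟩
        · rw [div_le_iff₀ hd0]; nlinarith [h3.1]
        · rw [← sub_le_iff_le_add, le_div_iff₀ hd0]
          nlinarith [h3.2]
      · apply Set.Finite.subset (I.powerset : Finset (Finset ℕ)).finite_toSet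
        rintro A ⟨hA, _⟩
        simpa using hA
      · exact interval_count (fun k => (y ^ k).re) c hc I hv _ _ (by linarith))
  have h2 : (cnt n (fun E => ‖ev b d E y‖ ≤ ρ) : ℝ) ≤
      ((⌊2 * ρ / c⌋₊ + 1 : ℕ) : ℝ) * (I.card.choose (I.card / 2) : ℝ) * 2 ^ (n - 1 - I.card) := by
    exact_mod_cast h1
  have h3 : ((⌊2 * ρ / c⌋₊ + 1 : ℕ) : ℝ) ≤ 2 * ρ / c + 1 := by
    push_cast
    have := Nat.floor_le (show 0 ≤ 2 * ρ / c by positivity)
    linarith
  have h4 := choose_half I.card hcard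
  have h5 : (2 : ℝ) ^ (n - 1) = 2 ^ I.card * 2 ^ (n - 1 - I.card) := by
    rw [← pow_add]; congr 1; omega
  calc (cnt n (fun E => ‖ev b d E y‖ ≤ ρ) : ℝ)
      ≤ ((⌊2 * ρ / c⌋₊ + 1 : ℕ) : ℝ) * (I.card.choose (I.card / 2) : ℝ) * 2 ^ (n - 1 - I.card) := h2
    _ ≤ (2 * ρ / c + 1) * (2 ^ I.card / √I.card) * 2 ^ (n - 1 - I.card) := by
        gcongr
    _ = (2 * ρ / c + 1) * 2 ^ (n - 1) / √(I.card) := by rw [h5]; ring

end Pool.Agent.Lib.MP_769d0b_pr
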