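import Pool.Agent.Lib.MP_769d0b_pr.Defs
import Pool.Agent.Lib.MP_7ab245_nt.Cnt.Uni

/-!
LW-MCount: MeasureCount of helper74 as a lemma.

PROOF.
Copy of the proof in `Pool/Agent/Results/MP_7ab245_nt/MeasureCount.lean` for `r = 1` from `Pool.Agent.Lib.MP_7ab245_nt.Cnt.uni n 1 T`.
-/

set_option autoImplicit false

open Finset Polynomial

namespace Pool.Agent.Lib.MP_769d0b_pr

open Pool.Agent.Lib.MP_7ab245_nt.Cnt Pool.Agent.Lib.MP_7ab245_nt.LogVar

theorem mcount (n : ℕ) (T : ℝ) (hn : 1 ≤ n) (hT : 1 ≤ T) :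
    {f : ℤ[X] | f.natDegree = n ∧ MM f ≤ T}.Finite ∧
      ({f : ℤ[X] | f.natDegree = n ∧ MM f ≤ T}.ncard : ℝ) ≤
        4 * Real.exp (32000 * (T ^ 2 * √(n * Real.log (2 * n * T)))) := by
  have key : ∀ F : Finset ℤ[X], (∀ f ∈ F, f ∈ {f : ℤ[X] | f.natDegree = n ∧ MM f ≤ T}) →
      (F.card : ℝ) ≤ 4 * Real.exp (32000 * (T ^ 2 * √(n * Real.log (2 * n * T)))) := by
    intro F hF
    have h1 := uni n 1 T hn le_rfl hT F (fun f hf => by
      obtain ⟨h2, h3⟩ := hF f hf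
      exact ⟨h2, by rw [pow_one]; exact h3, Or.inl rfl⟩)
    simpa using h1
  have hfin : {f : ℤ[X] | f.natDegree = n ∧ MM f ≤ T}.Finite := by
    by_contra hinf
    obtain ⟨F, hF, hc⟩ := Set.Infinite.exists_subset_card_eq hinf
      (⌊4 * Real.exp (32000 * (T ^ 2 * √(n * Real.log (2 * n * T))))⌋₊ + 1)
    have h1 := key F (fun f hf => hF hf)
    rw [hc] at h1
    push_cast at h1
    exact absurd h1 (not_le.mpr (Nat.lt_floor_add_one _))
  refine ⟨hfin, ?_⟩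
  rw [Set.ncard_eq_toFinset_card _ hfin]
  exact key _ (fun f hf => (hfin.mem_toFinset.mp hf))

end Pool.Agent.Lib.MP_769d0b_pr
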