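import Pool.Agent.Lib.MP_769d0b_pr.Defs

/-!
LW-MMcomp: Mahler measure of p(c + rho x) by the roots.

PROOF.
`p = lc ∏ (X - z)` over the roots (`IsAlgClosed.splits`, `Splits.eq_prod_roots`), so `p.comp (C c + C ρ X) = C lc ∏ (C ρ X + C (c - z))`
(`Polynomial.multiset_prod_comp`). `mahlerMeasure_mul`, and `Polynomial.mahlerMeasure_C_mul_X_add_C`(or similar): measure of `ρ X + (c-z)` is `max ‖ρ‖ ‖c-z‖`
(`ρ ≠ 0`). Induction on the multiset. `p = 0`: both sides `0`.
-/

set_option autoImplicit false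

open Finset Polynomial

namespace Pool.Agent.Lib.MP_769d0b_pr

open Pool.Agent.Lib.MP_7ab245_nt.Cnt Pool.Agent.Lib.MP_7ab245_nt.LogVar

private theorem comp_prod_aux (s : Multiset ℂ) (c : ℂ) (ρ : ℝ) (hρ : 0 < ρ) :
    (((s.map (fun z => X - C z)).prod).comp (C c + C (ρ : ℂ) * X)).mahlerMeasure =
      (s.map (fun z => max ρ ‖z - c‖)).prod := by
  induction s using Multiset.induction_on with
  | empty => simp
  | cons a s ih =>
    rw [Multiset.map_cons, Multiset.prod_cons, mul_comp, mahlerMeasure_mul, ih, Multiset.map_cons,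
      Multiset.prod_cons]
    congr 1
    have h1 : (X - C a).comp (C c + C (ρ : ℂ) * X) = C (ρ : ℂ) * X + C (c - a) := by
      simp only [sub_comp, X_comp, C_comp, C_sub]
      ring
    have h2 : (ρ : ℂ) ≠ 0 := by exact_mod_cast hρ.ne'
    rw [h1, mahlerMeasure_C_mul_X_add_C h2, Complex.norm_real, Real.norm_of_nonneg hρ.le,
      norm_sub_rev]

private theorem eq_prod (p : ℂ[X]) :
    p = C p.leadingCoeff * (p.roots.map (fun z => X - C z)).prod :=
  (IsAlgClosed.splits p).eq_prod_roots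

theorem mcr_eq (p : ℂ[X]) (c : ℂ) (ρ : ℝ) (hρ : 0 < ρ) :
    mcr p c ρ = ‖p.leadingCoeff‖ * (p.roots.map (fun z => max ρ ‖z - c‖)).prod := by
  unfold mcr
  conv_lhs => rw [eq_prod p]
  rw [mul_comp, C_comp, mahlerMeasure_mul, mahlerMeasure_const, comp_prod_aux _ _ _ hρ]

theorem mcr_pos (p : ℂ[X]) (hp : p ≠ 0) (c : ℂ) (ρ : ℝ) (hρ : 0 < ρ) : 0 < mcr p c ρ := by
  rw [mcr_eq p c ρ hρ]
  refine mul_pos (norm_pos_iff.mpr (leadingCoeff_ne_zero.mpr hp)) ?_
  induction p.roots using Multiset.induction_on with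
  | empty => simp
  | cons a s ih =>
    rw [Multiset.map_cons, Multiset.prod_cons]
    exact mul_pos (lt_of_lt_of_le hρ (le_max_left _ _)) ih

theorem mcr_one (p : ℂ[X]) : mcr p 0 1 = p.mahlerMeasure := by
  rw [mcr_eq p 0 1 one_pos, mahlerMeasure_eq_leadingCoeff_mul_prod_roots]
  simp

/-- the value at a point -/
theorem eval_eq_prod (p : ℂ[X]) (c : ℂ) :
    ‖p.eval c‖ = ‖p.leadingCoeff‖ * (p.roots.map (fun z => ‖z - c‖)).prod := by
  conv_lhs => rw [eq_prod p]
  rw [eval_mul, eval_C, norm_mul]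
  congr 1
  induction p.roots using Multiset.induction_on with
  | empty => simp
  | cons a s ih =>
    rw [Multiset.map_cons, Multiset.prod_cons, Multiset.map_cons, Multiset.prod_cons, eval_mul,
      norm_mul, ih, eval_sub, eval_X, eval_C, norm_sub_rev]

end Pool.Agent.Lib.MP_769d0b_pr
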