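import Pool.Agent.Lib.MP_769d0b_pr.Cnt

/-!
LW-Small: events of small probability: union, monotonicity.

PROOF.
`small_or`: use `ε/2` for both and `cnt_or`, `N = max`. `small_mono`: `cnt_mono`. `small_of_bound`: for `ε > 0` eventually `f n ≤ ε`.
-/

set_option autoImplicit false

open Finset Polynomial

namespace Pool.Agent.Lib.MP_769d0b_pr

open Pool.Agent.Lib.MP_7ab245_nt.Cnt Pool.Agent.Lib.MP_7ab245_nt.LogVar

theorem small_or {Q Q' : ℕ → ℤ[X] → ℤ → Finset ℕ → Prop} (h : small Q) (h' : small Q') :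
    small (fun n b d E => Q n b d E ∨ Q' n b d E) := by
  intro ε hε
  obtain ⟨N, hN⟩ := h (ε / 2) (by linarith)
  obtain ⟨N', hN'⟩ := h' (ε / 2) (by linarith)
  refine ⟨max N N', fun n hn b d hM => ?_⟩
  have h1 := hN n (le_trans (le_max_left _ _) hn) b d hM
  have h2 := hN' n (le_trans (le_max_right _ _) hn) b d hM
  have h3 : (cnt n (fun E => Q n b d E ∨ Q' n b d E) : ℝ) ≤ cnt n (Q n b d) + cnt n (Q' n b d) := by
    exact_mod_cast cnt_or n (Q n b d) (Q' n b d)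
  linarith

theorem small_mono {Q Q' : ℕ → ℤ[X] → ℤ → Finset ℕ → Prop} (N₀ : ℕ)
    (h : ∀ n, N₀ ≤ n → ∀ b d, MD n b d → ∀ E, E ⊆ Ioo 0 n → Q n b d E → Q' n b d E)
    (h' : small Q') : small Q := by
  intro ε hε
  obtain ⟨N, hN⟩ := h' ε hε
  refine ⟨max N₀ N, fun n hn b d hM => ?_⟩
  have h1 := hN n (le_trans (le_max_right _ _) hn) b d hM
  have h2 : (cnt n (Q n b d) : ℝ) ≤ cnt n (Q' n b d) := by
    exact_mod_cast cnt_mono (fun E hE => h n (le_trans (le_max_left _ _) hn) b d hM E hE)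
  exact h2.trans h1

theorem small_of_bound (Q : ℕ → ℤ[X] → ℤ → Finset ℕ → Prop) (f : ℕ → ℝ)
    (hf : Filter.Tendsto f Filter.atTop (nhds 0)) (N₀ : ℕ)
    (h : ∀ n, N₀ ≤ n → ∀ b d, MD n b d → (cnt n (Q n b d) : ℝ) ≤ f n * 2 ^ (n - 1)) : small Q := by
  intro ε hε
  obtain ⟨N, hN⟩ := Filter.eventually_atTop.mp (hf.eventually (Iic_mem_nhds hε))
  refine ⟨max N₀ N, fun n hn b d hM => ?_⟩
  have h1 := h n (le_trans (le_max_left _ _) hn) b d hM
  have h2 : f n ≤ ε := hN n (le_trans (le_max_right _ _) hn)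
  have h3 : (0 : ℝ) ≤ 2 ^ (n - 1) := by positivity
  nlinarith [mul_le_mul_of_nonneg_right h2 h3]

end Pool.Agent.Lib.MP_769d0b_pr
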