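import Pool.Agent.Lib.MP_769d0b_pr.MCount
import Pool.Agent.Lib.MP_769d0b_pr.CntDvd
import Pool.Agent.Lib.MP_769d0b_pr.Small

/-!
LW-SmallA: event (A) is small.

PROOF.
`EvA`: some `l` with `n ≤ 2l`, `l < n`, and `H ∈ S_l := {natDegree = l, MM ≤ TA n}` (finite, `mcount`) with `H ∣ PE`. `cnt_exists` twice, `cnt_dvd`: `cnt ≤ ∑_l |S_l| 2^(n-l) ≤ ∑_l 4 exp(32000 n^(48/100) √(l log(2 l n^(24/100)))) 2^(n-l)`. For large `n`, `l ≥ n/2`: the exponent is
`≤ 32000 n^(48/100) √(n · 3 log n) ≤ n^(99/100)`, so each term divided by `2^(n-1)` is `≤ 8 exp(n^(99/100)) 2^(-n/2)`, and the sum over `l < n` tends to `0`.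
-/

set_option autoImplicit false

open Finset Polynomial

namespace Pool.Agent.Lib.MP_769d0b_pr

open Pool.Agent.Lib.MP_7ab245_nt.Cnt Pool.Agent.Lib.MP_7ab245_nt.LogVar

/-- the numerical estimates for large `n` -/
private lemma ev_bounds : ∃ N : ℕ, 2 ≤ N ∧ ∀ n : ℕ, N ≤ n →
    Real.log (8 * n) ≤ (n : ℝ) / 10 ∧
      32000 * ((n : ℝ) ^ (48 / 100 : ℝ) * √(3 * n * Real.log n)) ≤ (n : ℝ) / 10 := by
  have h1 : ∀ᶠ x : ℝ in Filter.atTop, Real.log x ≤ 1 / 80 * x := by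
    have := (Real.isLittleO_log_id_atTop).bound (show (0 : ℝ) < 1 / 80 by norm_num)
    filter_upwards [this, Filter.eventually_ge_atTop (1 : ℝ)] with x hx hx1
    have h2 := hx
    rw [Real.norm_eq_abs, Real.norm_eq_abs] at h2
    simp only [id] at h2
    rw [abs_of_nonneg (Real.log_nonneg hx1), abs_of_nonneg (by linarith)] at h2
    exact h2
  have h2 : ∀ᶠ x : ℝ in Filter.atTop, Real.log x ≤ 1 / 3 * x ^ (2 / 100 : ℝ) := by
    have := (isLittleO_log_rpow_atTop (show (0 : ℝ) < 2 / 100 by norm_num)).bound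
      (show (0 : ℝ) < 1 / 3 by norm_num)
    filter_upwards [this, Filter.eventually_ge_atTop (1 : ℝ)] with x hx hx1
    have h2 := hx
    rw [Real.norm_eq_abs, Real.norm_eq_abs] at h2
    rw [abs_of_nonneg (Real.log_nonneg hx1), abs_of_nonneg (by positivity)] at h2
    exact h2
  have h3 : ∀ᶠ x : ℝ in Filter.atTop, (320000 : ℝ) ≤ x ^ (1 / 100 : ℝ) :=
    (tendsto_rpow_atTop (show (0 : ℝ) < 1 / 100 by norm_num)).eventually_ge_atTop _
  have h4 : ∀ᶠ n : ℕ in Filter.atTop, Real.log (8 * n : ℝ) ≤ 1 / 80 * (8 * n) := by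
    have : Filter.Tendsto (fun n : ℕ => 8 * (n : ℝ)) Filter.atTop Filter.atTop :=
      Filter.Tendsto.const_mul_atTop (by norm_num) tendsto_natCast_atTop_atTop
    exact this.eventually h1
  obtain ⟨N, hN⟩ := Filter.eventually_atTop.mp
    (h4.and ((tendsto_natCast_atTop_atTop (R := ℝ)).eventually (h2.and h3)))
  refine ⟨max 2 N, le_max_left _ _, fun n hn => ?_⟩
  obtain ⟨a1, a2, a3⟩ := hN n (le_trans (le_max_right _ _) hn)
  have hn2 : 2 ≤ n := le_trans (le_max_left _ _) hn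
  have hn0 : (0 : ℝ) < n := by
    have : 0 < n := by omega
    exact_mod_cast this
  refine ⟨by linarith, ?_⟩
  have b1 : √(3 * n * Real.log n) ≤ (n : ℝ) ^ (51 / 100 : ℝ) := by
    rw [Real.sqrt_le_left (by positivity)]
    have : ((n : ℝ) ^ (51 / 100 : ℝ)) ^ 2 = n * (n : ℝ) ^ (2 / 100 : ℝ) := by
      rw [← Real.rpow_natCast, ← Real.rpow_mul hn0.le]
      nth_rewrite 2 [← Real.rpow_one (n : ℝ)]
      rw [← Real.rpow_add hn0]
      norm_num
    rw [this]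
    nlinarith
  have b2 : (n : ℝ) ^ (48 / 100 : ℝ) * (n : ℝ) ^ (51 / 100 : ℝ) * (n : ℝ) ^ (1 / 100 : ℝ) = n := by
    rw [← Real.rpow_add hn0, ← Real.rpow_add hn0]
    norm_num
  have b3 : (0 : ℝ) < (n : ℝ) ^ (48 / 100 : ℝ) := Real.rpow_pos_of_pos hn0 _
  have b4 : (0 : ℝ) < (n : ℝ) ^ (51 / 100 : ℝ) := Real.rpow_pos_of_pos hn0 _
  have b5 : (n : ℝ) ^ (48 / 100 : ℝ) * √(3 * n * Real.log n) ≤
      (n : ℝ) ^ (48 / 100 : ℝ) * (n : ℝ) ^ (51 / 100 : ℝ) :=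
    mul_le_mul_of_nonneg_left b1 b3.le
  have b6 : (n : ℝ) ^ (48 / 100 : ℝ) * (n : ℝ) ^ (51 / 100 : ℝ) * 320000 ≤ n := by
    calc (n : ℝ) ^ (48 / 100 : ℝ) * (n : ℝ) ^ (51 / 100 : ℝ) * 320000
        ≤ (n : ℝ) ^ (48 / 100 : ℝ) * (n : ℝ) ^ (51 / 100 : ℝ) * (n : ℝ) ^ (1 / 100 : ℝ) :=
          mul_le_mul_of_nonneg_left a3 (mul_pos b3 b4).le
      _ = n := b2
  linarith

/-- the union bound -/
private lemma cnt_evA {n : ℕ} {b : ℤ[X]} {d : ℤ} (h : MD n b d) (B : ℝ)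
    (hB : ∀ l : ℕ, n ≤ 2 * l → l < n → {f : ℤ[X] | f.natDegree = l ∧ MM f ≤ TA n}.Finite ∧
      ({f : ℤ[X] | f.natDegree = l ∧ MM f ≤ TA n}.ncard : ℝ) ≤ B) (hB0 : 0 ≤ B) :
    (cnt n (EvA n b d) : ℝ) ≤ n * (B * (2 : ℝ) ^ ((n : ℝ) / 2)) := by
  classical
  set I : Finset ℕ := (range n).filter (fun l => n ≤ 2 * l) with hI
  have hI' : ∀ l ∈ I, n ≤ 2 * l ∧ l < n := by
    intro l hl
    rw [hI, Finset.mem_filter, Finset.mem_range] at hl
    exact ⟨hl.2, hl.1⟩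
  have h1 : cnt n (EvA n b d) ≤
      cnt n (fun E => ∃ l ∈ I, ∃ H : ℤ[X], H.natDegree = l ∧ MM H ≤ TA n ∧ H ∣ PE b d E) := by
    refine cnt_mono fun E _ hQ => ?_
    obtain ⟨H, a1, a2, a3, a4⟩ := hQ
    refine ⟨H.natDegree, ?_, H, rfl, a4, a1⟩
    rw [hI, Finset.mem_filter, Finset.mem_range]
    exact ⟨a3, a2⟩
  have h2 := cnt_exists n I
    (fun l E => ∃ H : ℤ[X], H.natDegree = l ∧ MM H ≤ TA n ∧ H ∣ PE b d E)
  have h3 : ∀ l ∈ I, (cnt n (fun E => ∃ H : ℤ[X], H.natDegree = l ∧ MM H ≤ TA n ∧ H ∣ PE b d E) : ℝ)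
      ≤ B * (2 : ℝ) ^ ((n : ℝ) / 2) := by
    intro l hl
    obtain ⟨c1, c2⟩ := hI' l hl
    obtain ⟨d1, d2⟩ := hB l c1 c2
    set S := d1.toFinset with hS
    have e1 : cnt n (fun E => ∃ H : ℤ[X], H.natDegree = l ∧ MM H ≤ TA n ∧ H ∣ PE b d E) ≤
        cnt n (fun E => ∃ H ∈ S, H ∣ PE b d E) := by
      refine cnt_mono fun E _ hQ => ?_
      obtain ⟨H, a1, a2, a3⟩ := hQ
      exact ⟨H, d1.mem_toFinset.mpr ⟨a1, a2⟩, a3⟩
    have e2 := cnt_exists n S (fun H E => H ∣ PE b d E)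
    have e3 : ∑ H ∈ S, cnt n (fun E => H ∣ PE b d E) ≤ ∑ _H ∈ S, 2 ^ (n - l) :=
      Finset.sum_le_sum fun H hH => cnt_dvd h H l (d1.mem_toFinset.mp hH).1 c2.le
    rw [Finset.sum_const, smul_eq_mul] at e3
    have e4 : cnt n (fun E => ∃ H : ℤ[X], H.natDegree = l ∧ MM H ≤ TA n ∧ H ∣ PE b d E) ≤
        S.card * 2 ^ (n - l) := e1.trans (e2.trans e3)
    have e5 : (S.card : ℝ) ≤ B := by
      rw [Set.ncard_eq_toFinset_card _ d1] at d2
      exact d2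
    have e6 : (2 : ℝ) ^ (n - l) ≤ (2 : ℝ) ^ ((n : ℝ) / 2) := by
      rw [← Real.rpow_natCast]
      refine Real.rpow_le_rpow_of_exponent_le (by norm_num) ?_
      rw [Nat.cast_sub c2.le]
      have : (n : ℝ) ≤ 2 * l := by exact_mod_cast c1
      linarith
    calc (cnt n (fun E => ∃ H : ℤ[X], H.natDegree = l ∧ MM H ≤ TA n ∧ H ∣ PE b d E) : ℝ)
        ≤ ((S.card * 2 ^ (n - l) : ℕ) : ℝ) := by exact_mod_cast e4
      _ = S.card * (2 : ℝ) ^ (n - l) := by push_cast; ring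
      _ ≤ B * (2 : ℝ) ^ ((n : ℝ) / 2) := mul_le_mul e5 e6 (by positivity) hB0
  calc (cnt n (EvA n b d) : ℝ)
      ≤ ((∑ l ∈ I, cnt n (fun E => ∃ H : ℤ[X], H.natDegree = l ∧ MM H ≤ TA n ∧ H ∣ PE b d E) :
          ℕ) : ℝ) := by exact_mod_cast h1.trans h2
    _ = ∑ l ∈ I, (cnt n (fun E => ∃ H : ℤ[X], H.natDegree = l ∧ MM H ≤ TA n ∧ H ∣ PE b d E) :
          ℝ) := by push_cast; rfl
    _ ≤ ∑ _l ∈ I, B * (2 : ℝ) ^ ((n : ℝ) / 2) := Finset.sum_le_sum h3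
    _ = I.card * (B * (2 : ℝ) ^ ((n : ℝ) / 2)) := by rw [Finset.sum_const, nsmul_eq_mul]
    _ ≤ n * (B * (2 : ℝ) ^ ((n : ℝ) / 2)) := by
        refine mul_le_mul_of_nonneg_right ?_ (by positivity)
        have : I.card ≤ n := by
          calc I.card ≤ (range n).card := Finset.card_filter_le _ _
            _ = n := Finset.card_range n
        exact_mod_cast this

theorem smallA : small EvA := by
  obtain ⟨N, hN2, hN⟩ := ev_bounds
  refine small_of_bound EvA (fun n => Real.exp (-((n : ℝ) / 10))) ?_ N ?_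
  · have h1 : Filter.Tendsto (fun n : ℕ => (n : ℝ) / 10) Filter.atTop Filter.atTop :=
      Filter.Tendsto.atTop_div_const (by norm_num) tendsto_natCast_atTop_atTop
    exact Real.tendsto_exp_neg_atTop_nhds_zero.comp h1
  intro n hn b d hM
  obtain ⟨a1, a2⟩ := hN n hn
  have hn2 : 2 ≤ n := hN2.trans hn
  have hn2' : (2 : ℝ) ≤ n := by exact_mod_cast hn2
  have hn0 : (0 : ℝ) < n := by linarith
  have hT1 : 1 ≤ TA n := by
    unfold TA
    exact Real.one_le_rpow (by linarith) (by norm_num)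
  have hTn : TA n ≤ n := by
    unfold TA
    calc (n : ℝ) ^ (24 / 100 : ℝ) ≤ (n : ℝ) ^ (1 : ℝ) :=
          Real.rpow_le_rpow_of_exponent_le (by linarith) (by norm_num)
      _ = n := Real.rpow_one _
  have hT2 : TA n ^ 2 = (n : ℝ) ^ (48 / 100 : ℝ) := by
    unfold TA
    rw [← Real.rpow_natCast, ← Real.rpow_mul hn0.le]
    norm_num
  have hlog0 : 0 ≤ Real.log n := Real.log_nonneg (by linarith)
  have key := cnt_evA hM (4 * Real.exp ((n : ℝ) / 10)) (fun l c1 c2 => by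
    have hl1 : 1 ≤ l := by omega
    obtain ⟨m1, m2⟩ := mcount l (TA n) hl1 hT1
    refine ⟨m1, m2.trans ?_⟩
    refine mul_le_mul_of_nonneg_left ?_ (by norm_num)
    refine Real.exp_le_exp.mpr (le_trans ?_ a2)
    refine mul_le_mul_of_nonneg_left ?_ (by norm_num)
    rw [hT2]
    refine mul_le_mul_of_nonneg_left ?_ (by positivity)
    refine Real.sqrt_le_sqrt ?_
    have hl1' : (1 : ℝ) ≤ l := by exact_mod_cast hl1
    have hln : (l : ℝ) ≤ n := by exact_mod_cast c2.le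
    have f1 : Real.log (2 * l * TA n) ≤ 3 * Real.log n := by
      have : 3 * Real.log n = Real.log ((n : ℝ) ^ 3) := by
        rw [Real.log_pow]; norm_num
      rw [this]
      refine Real.log_le_log (by positivity) ?_
      have g1 : 2 * (l : ℝ) * TA n ≤ 2 * n * n :=
        mul_le_mul (by linarith) hTn (by linarith) (by positivity)
      nlinarith [mul_nonneg hn0.le hn0.le]
    have f2 : 0 ≤ Real.log (2 * l * TA n) := by
      refine Real.log_nonneg ?_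
      nlinarith
    calc (l : ℝ) * Real.log (2 * l * TA n) ≤ n * (3 * Real.log n) :=
          mul_le_mul hln f1 f2 hn0.le
      _ = 3 * n * Real.log n := by ring) (by positivity)
  refine key.trans ?_
  have hp : (2 : ℝ) ^ (n - 1) = (2 : ℝ) ^ ((n : ℝ) / 2) * (2 : ℝ) ^ ((n : ℝ) / 2) / 2 := by
    rw [← Real.rpow_add (by norm_num), add_halves, Real.rpow_natCast]
    obtain ⟨k, rfl⟩ : ∃ k, n = k + 1 := ⟨n - 1, by omega⟩
    rw [Nat.add_sub_cancel, pow_succ]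
    ring
  rw [hp]
  have hlog2 : (0.69 : ℝ) < Real.log 2 := by
    have := Real.log_two_gt_d9
    linarith
  have h2 : (2 : ℝ) ^ ((n : ℝ) / 2) = Real.exp (Real.log 2 * ((n : ℝ) / 2)) :=
    Real.rpow_def_of_pos (by norm_num) _
  have h8 : (8 : ℝ) * n = Real.exp (Real.log (8 * n)) := (Real.exp_log (by positivity)).symm
  have h3 : 8 * (n : ℝ) * Real.exp ((n : ℝ) / 10) ≤
      Real.exp (-((n : ℝ) / 10)) * (2 : ℝ) ^ ((n : ℝ) / 2) := by
    rw [h8, h2, ← Real.exp_add, ← Real.exp_add]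
    refine Real.exp_le_exp.mpr ?_
    nlinarith
  have h4 : (0 : ℝ) < (2 : ℝ) ^ ((n : ℝ) / 2) := by positivity
  nlinarith [mul_le_mul_of_nonneg_right h3 h4.le]

end Pool.Agent.Lib.MP_769d0b_pr
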