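import Pool.Agent.Lib.MP_769d0b_pr.CntG
import Pool.Agent.Lib.MP_769d0b_pr.MCount
import Pool.Agent.Lib.MP_769d0b_pr.Small

/-!
LW-SmallB: event (B) is small.

PROOF.
`EvB`: some `m ∈ Icc 1 n`, `m ≤ n^(9/10)`, and `G ∈ {natDegree = m, MM ≤ TT n}` (finite, `mcount`), irreducible, `MM G > 1`, `G ∣ PE`. `cnt_exists`, `cnt_g`: `cnt ≤ ∑_m 4 exp(32000 n^(54/100) √(m log(2 m n^(27/100)))) 2^(-n/(2 (log n)^10)) 2^(n-1)`. As `m ≤ n^(9/10)`: the exponent is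
`≤ 32000 n^(54/100) n^(45/100) √(3 log n) ≤ n^(995/1000)` for large `n`, and `exp(n^(995/1000)) 2^(-n/(2(log n)^10)) · 4n → 0`.
-/

set_option autoImplicit false

open Finset Polynomial

namespace Pool.Agent.Lib.MP_769d0b_pr

open Pool.Agent.Lib.MP_7ab245_nt.Cnt Pool.Agent.Lib.MP_7ab245_nt.LogVar

private theorem sb_ev : ∀ᶠ x : ℝ in Filter.atTop, 1 ≤ x ∧
    Real.log x ≤ (1 / (32000 ^ 2 * 3)) * x ^ (1 / 100 : ℝ) ∧
    Real.log x ≤ (1 / 2) * x ^ (1 / 2000 : ℝ) ∧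
    Real.log x ≤ (1 / 2) * x ^ (995 / 1000 : ℝ) ∧ 4 ≤ x ^ (995 / 1000 : ℝ) ∧ 4 ≤ x := by
  have hl : ∀ c r : ℝ, 0 < c → 0 < r → ∀ᶠ x : ℝ in Filter.atTop, Real.log x ≤ c * x ^ r := by
    intro c r hc hr
    have := (isLittleO_log_rpow_atTop hr).bound hc
    filter_upwards [this, Filter.eventually_ge_atTop 1] with x hx h1
    rw [Real.norm_of_nonneg (Real.log_nonneg h1), Real.norm_of_nonneg (by positivity)] at hx
    exact hx
  filter_upwards [Filter.eventually_ge_atTop 1, hl (1 / (32000 ^ 2 * 3)) (1 / 100) (by norm_num)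
    (by norm_num), hl (1 / 2) (1 / 2000) (by norm_num) (by norm_num),
    hl (1 / 2) (995 / 1000) (by norm_num) (by norm_num),
    (tendsto_rpow_atTop (show (0 : ℝ) < 995 / 1000 by norm_num)).eventually_ge_atTop 4,
    Filter.eventually_ge_atTop 4] with x h1 h2 h3 h4 h5 h6
  exact ⟨h1, h2, h3, h4, h5, h6⟩

/-- the exponent -/
private theorem sb_exp (x : ℝ) (hx : 4 ≤ x)
    (h1 : Real.log x ≤ (1 / (32000 ^ 2 * 3)) * x ^ (1 / 100 : ℝ)) (m : ℕ) (hm : 1 ≤ m)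
    (hmx : (m : ℝ) ≤ x ^ (9 / 10 : ℝ)) :
    32000 * ((x ^ (27 / 100 : ℝ)) ^ 2 * √(m * Real.log (2 * m * x ^ (27 / 100 : ℝ)))) ≤
      x ^ (995 / 1000 : ℝ) := by
  have x0 : 0 < x := by linarith
  have x1 : 1 ≤ x := by linarith
  have m1 : (1 : ℝ) ≤ m := by exact_mod_cast hm
  have hl0 : 0 ≤ Real.log x := Real.log_nonneg x1
  have hmx' : (m : ℝ) ≤ x := hmx.trans (by
    calc x ^ (9 / 10 : ℝ) ≤ x ^ (1 : ℝ) := Real.rpow_le_rpow_of_exponent_le x1 (by norm_num)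
      _ = x := Real.rpow_one x)
  have hT : x ^ (27 / 100 : ℝ) ≤ x := by
    calc x ^ (27 / 100 : ℝ) ≤ x ^ (1 : ℝ) := Real.rpow_le_rpow_of_exponent_le x1 (by norm_num)
      _ = x := Real.rpow_one x
  have hT0 : 0 < x ^ (27 / 100 : ℝ) := by positivity
  have hlog : Real.log (2 * m * x ^ (27 / 100 : ℝ)) ≤ 3 * Real.log x := by
    rw [show (3 : ℝ) * Real.log x = Real.log (x ^ 3) by rw [Real.log_pow]; norm_num]
    apply Real.log_le_log (by positivity)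
    calc 2 * (m : ℝ) * x ^ (27 / 100 : ℝ) ≤ x * x * x := by
          gcongr
          linarith
      _ = x ^ 3 := by ring
  have hs : (m : ℝ) * Real.log (2 * m * x ^ (27 / 100 : ℝ)) ≤
      (x ^ (455 / 1000 : ℝ) / 32000) ^ 2 := by
    calc (m : ℝ) * Real.log (2 * m * x ^ (27 / 100 : ℝ)) ≤
          x ^ (9 / 10 : ℝ) * (3 * ((1 / (32000 ^ 2 * 3)) * x ^ (1 / 100 : ℝ))) := by
          have h3 : Real.log (2 * m * x ^ (27 / 100 : ℝ)) ≤
            3 * ((1 / (32000 ^ 2 * 3)) * x ^ (1 / 100 : ℝ)) := hlog.trans (by linarith)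
          have h4 : 0 ≤ 3 * ((1 / (32000 ^ 2 * 3)) * x ^ (1 / 100 : ℝ)) := by positivity
          calc (m : ℝ) * Real.log (2 * m * x ^ (27 / 100 : ℝ)) ≤
              m * (3 * ((1 / (32000 ^ 2 * 3)) * x ^ (1 / 100 : ℝ))) :=
                mul_le_mul_of_nonneg_left h3 (by positivity)
            _ ≤ _ := mul_le_mul_of_nonneg_right hmx h4
      _ = (x ^ (455 / 1000 : ℝ) / 32000) ^ 2 := by
          rw [div_pow, ← Real.rpow_natCast (x ^ (455 / 1000 : ℝ)) 2, ← Real.rpow_mul x0.le,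
            show (455 / 1000 : ℝ) * ((2 : ℕ) : ℝ) = 9 / 10 + 1 / 100 by norm_num,
            Real.rpow_add x0]
          ring
  have hsq : √(m * Real.log (2 * m * x ^ (27 / 100 : ℝ))) ≤ x ^ (455 / 1000 : ℝ) / 32000 := by
    rw [Real.sqrt_le_left (by positivity)]
    exact hs
  calc 32000 * ((x ^ (27 / 100 : ℝ)) ^ 2 * √(m * Real.log (2 * m * x ^ (27 / 100 : ℝ)))) ≤
      32000 * ((x ^ (27 / 100 : ℝ)) ^ 2 * (x ^ (455 / 1000 : ℝ) / 32000)) := by gcongr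
    _ = x ^ (995 / 1000 : ℝ) := by
      rw [← Real.rpow_natCast (x ^ (27 / 100 : ℝ)) 2, ← Real.rpow_mul x0.le,
        show (995 / 1000 : ℝ) = (27 / 100 : ℝ) * ((2 : ℕ) : ℝ) + 455 / 1000 by norm_num,
        Real.rpow_add x0]
      ring

private theorem sb_fin (x : ℝ) (hx : 4 ≤ x)
    (h2 : Real.log x ≤ (1 / 2) * x ^ (1 / 2000 : ℝ))
    (h3 : Real.log x ≤ (1 / 2) * x ^ (995 / 1000 : ℝ)) (h4 : 4 ≤ x ^ (995 / 1000 : ℝ)) :
    x * (4 * Real.exp (x ^ (995 / 1000 : ℝ))) * (2 : ℝ) ^ (-(x / (2 * Real.log x ^ 10))) ≤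
      Real.exp (-x ^ (995 / 1000 : ℝ)) := by
  have x0 : 0 < x := by linarith
  have hl1 : 1 ≤ Real.log x := by
    rw [Real.le_log_iff_exp_le x0]
    have := Real.exp_one_lt_d9
    linarith
  have hl0 : 0 < Real.log x := by linarith
  set y := x ^ (995 / 1000 : ℝ) with hy
  have e1 : x * 4 ≤ Real.exp y := by
    calc x * 4 = Real.exp (Real.log x) * 4 := by rw [Real.exp_log x0]
      _ ≤ Real.exp (y / 2) * Real.exp (y / 2) := by
          have h5 : (4 : ℝ) ≤ Real.exp (y / 2) := by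
            have h6 : Real.exp 2 ≤ Real.exp (y / 2) := Real.exp_le_exp.2 (by linarith)
            have h7 : (4 : ℝ) ≤ Real.exp 2 := by
              have h8 := Real.exp_one_gt_d9
              have h9 : Real.exp 2 = Real.exp 1 * Real.exp 1 := by
                rw [← Real.exp_add]; norm_num
              rw [h9]
              nlinarith
            linarith
          have h6 : Real.exp (Real.log x) ≤ Real.exp (y / 2) := Real.exp_le_exp.2 (by linarith)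
          exact mul_le_mul h6 h5 (by norm_num) (Real.exp_pos _).le
      _ = Real.exp y := by rw [← Real.exp_add]; ring_nf
  have e2 : Real.log x ^ 10 ≤ (1 / 1024) * x ^ (5 / 1000 : ℝ) := by
    calc Real.log x ^ 10 ≤ ((1 / 2) * x ^ (1 / 2000 : ℝ)) ^ 10 :=
          pow_le_pow_left₀ hl0.le h2 10
      _ = (1 / 1024) * x ^ (5 / 1000 : ℝ) := by
          rw [mul_pow, ← Real.rpow_natCast (x ^ (1 / 2000 : ℝ)) 10, ← Real.rpow_mul x0.le,
            show (1 / 2000 : ℝ) * ((10 : ℕ) : ℝ) = 5 / 1000 by norm_num]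
          norm_num
  have e3 : 512 * y ≤ x / (2 * Real.log x ^ 10) := by
    rw [le_div_iff₀ (by positivity)]
    calc 512 * y * (2 * Real.log x ^ 10) ≤ 512 * y * (2 * ((1 / 1024) * x ^ (5 / 1000 : ℝ))) := by
          gcongr
      _ = x := by
          rw [hy, show (512 : ℝ) * x ^ (995 / 1000 : ℝ) * (2 * ((1 / 1024) * x ^ (5 / 1000 : ℝ))) =
            x ^ (995 / 1000 : ℝ) * x ^ (5 / 1000 : ℝ) by ring, ← Real.rpow_add x0]
          norm_num
  have e4 : (2 : ℝ) ^ (-(x / (2 * Real.log x ^ 10))) ≤ Real.exp (-(3 * y)) := by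
    rw [Real.rpow_def_of_pos (by norm_num)]
    apply Real.exp_le_exp.2
    have h5 := Real.log_two_gt_d9
    have y0 : 0 < y := by positivity
    have h7 : 1 / 2 * (512 * y) ≤ Real.log 2 * (x / (2 * Real.log x ^ 10)) :=
      mul_le_mul (by linarith) e3 (by positivity) (by linarith)
    linarith
  calc x * (4 * Real.exp y) * (2 : ℝ) ^ (-(x / (2 * Real.log x ^ 10))) =
      (x * 4) * Real.exp y * (2 : ℝ) ^ (-(x / (2 * Real.log x ^ 10))) := by ring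
    _ ≤ Real.exp y * Real.exp y * Real.exp (-(3 * y)) := by gcongr
    _ = Real.exp (-y) := by rw [← Real.exp_add, ← Real.exp_add]; ring_nf

theorem smallB : small EvB := by
  classical
  obtain ⟨N1, hN1⟩ := cnt_g
  obtain ⟨x0, hx0⟩ := Filter.eventually_atTop.1 sb_ev
  refine small_of_bound EvB (fun n => Real.exp (-(n : ℝ) ^ (995 / 1000 : ℝ))) ?_
    (max N1 ⌈x0⌉₊) ?_
  · exact Real.tendsto_exp_neg_atTop_nhds_zero.comp
      ((tendsto_rpow_atTop (by norm_num)).comp tendsto_natCast_atTop_atTop)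
  intro n hn b d h
  have hn1 : N1 ≤ n := (le_max_left _ _).trans hn
  have hnx : x0 ≤ (n : ℝ) := (Nat.le_ceil x0).trans (by exact_mod_cast (le_max_right _ _).trans hn)
  obtain ⟨h1, h2, h3, h4, h5, h6⟩ := hx0 n hnx
  have hT : 1 ≤ TT n := Real.one_le_rpow h1 (by norm_num)
  set M := ⌊(n : ℝ) ^ (9 / 10 : ℝ)⌋₊ with hM
  have hMn : M ≤ n := by
    have : (M : ℝ) ≤ (n : ℝ) := by
      calc (M : ℝ) ≤ (n : ℝ) ^ (9 / 10 : ℝ) := Nat.floor_le (by positivity)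
        _ ≤ (n : ℝ) ^ (1 : ℝ) := Real.rpow_le_rpow_of_exponent_le h1 (by norm_num)
        _ = n := Real.rpow_one _
    exact_mod_cast this
  let U : ℕ → Finset ℤ[X] := fun m =>
    if hm : 1 ≤ m then (mcount m (TT n) hm hT).1.toFinset else ∅
  have hU : ∀ m, 1 ≤ m → ∀ G : ℤ[X], G ∈ U m ↔ G.natDegree = m ∧ MM G ≤ TT n := by
    intro m hm G
    simp only [U, dif_pos hm, Set.Finite.mem_toFinset, Set.mem_ofPred_eq]
  have hUc : ∀ m ∈ Icc 1 M, ((U m).card : ℝ) ≤ 4 * Real.exp ((n : ℝ) ^ (995 / 1000 : ℝ)) := by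
    intro m hm
    rw [mem_Icc] at hm
    have h7 := (mcount m (TT n) hm.1 hT).2
    have h8 : ((U m).card : ℝ) = ({f : ℤ[X] | f.natDegree = m ∧ MM f ≤ TT n}.ncard : ℝ) := by
      simp only [U, dif_pos hm.1]
      exact congrArg Nat.cast (Set.ncard_eq_toFinset_card _ (mcount m (TT n) hm.1 hT).1).symm
    rw [h8]
    refine h7.trans ?_
    have hmx : (m : ℝ) ≤ (n : ℝ) ^ (9 / 10 : ℝ) := (Nat.le_floor_iff (by positivity)).1 hm.2
    have := sb_exp n h6 h2 m hm.1 hmx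
    gcongr
    exact this
  have hb1 : cnt n (EvB n b d) ≤ cnt n (fun E => ∃ m ∈ Icc 1 M, ∃ G ∈ U m,
      Irreducible G ∧ 1 ≤ G.natDegree ∧ G.natDegree ≤ n ∧ 1 < MM G ∧ G ∣ PE b d E) := by
    apply cnt_mono
    rintro E - ⟨G, g1, g2, g3, g4, g5, g6⟩
    have g7 : G.natDegree ≤ M := Nat.le_floor g4
    exact ⟨G.natDegree, mem_Icc.2 ⟨g3, g7⟩, G, (hU _ g3 G).2 ⟨rfl, g6⟩, g1, g3, g7.trans hMn, g5, g2⟩
  set c : ℝ := (2 : ℝ) ^ (-((n : ℝ) / (2 * Real.log n ^ 10))) * 2 ^ (n - 1) with hc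
  have hc0 : 0 ≤ c := by positivity
  have hb2 : ∀ G : ℤ[X], (cnt n (fun E => Irreducible G ∧ 1 ≤ G.natDegree ∧ G.natDegree ≤ n ∧
      1 < MM G ∧ G ∣ PE b d E) : ℝ) ≤ c := by
    intro G
    by_cases hG : Irreducible G ∧ 1 ≤ G.natDegree ∧ G.natDegree ≤ n ∧ 1 < MM G
    · obtain ⟨g1, g2, g3, g4⟩ := hG
      refine le_trans ?_ (hN1 n hn1 b d h G g1 g2 g3 g4)
      have h9 : cnt n (fun E => Irreducible G ∧ 1 ≤ G.natDegree ∧ G.natDegree ≤ n ∧
          1 < MM G ∧ G ∣ PE b d E) ≤ cnt n (fun E => G ∣ PE b d E) :=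
        cnt_mono (fun E _ hE => hE.2.2.2.2)
      exact_mod_cast h9
    · have : cnt n (fun E => Irreducible G ∧ 1 ≤ G.natDegree ∧ G.natDegree ≤ n ∧
          1 < MM G ∧ G ∣ PE b d E) = 0 := by
        unfold cnt
        rw [Set.ncard_eq_zero (cnt_fin n _)]
        ext E
        simp only [Set.mem_ofPred_eq, Set.mem_empty_iff_false, iff_false]
        rintro ⟨-, g1, g2, g3, g4, -⟩
        exact hG ⟨g1, g2, g3, g4⟩
      rw [this]
      simpa using hc0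
  have hb3 : (cnt n (EvB n b d) : ℝ) ≤
      n * (4 * Real.exp ((n : ℝ) ^ (995 / 1000 : ℝ))) * c := by
    calc (cnt n (EvB n b d) : ℝ) ≤ (cnt n (fun E => ∃ m ∈ Icc 1 M, ∃ G ∈ U m,
          Irreducible G ∧ 1 ≤ G.natDegree ∧ G.natDegree ≤ n ∧ 1 < MM G ∧ G ∣ PE b d E) : ℝ) := by
          exact_mod_cast hb1
      _ ≤ ∑ m ∈ Icc 1 M, (cnt n (fun E => ∃ G ∈ U m,
          Irreducible G ∧ 1 ≤ G.natDegree ∧ G.natDegree ≤ n ∧ 1 < MM G ∧ G ∣ PE b d E) : ℝ) := by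
          exact_mod_cast cnt_exists n (Icc 1 M) (fun m E => ∃ G ∈ U m,
            Irreducible G ∧ 1 ≤ G.natDegree ∧ G.natDegree ≤ n ∧ 1 < MM G ∧ G ∣ PE b d E)
      _ ≤ ∑ m ∈ Icc 1 M, (4 * Real.exp ((n : ℝ) ^ (995 / 1000 : ℝ))) * c := by
          apply Finset.sum_le_sum
          intro m hm
          calc (cnt n (fun E => ∃ G ∈ U m,
              Irreducible G ∧ 1 ≤ G.natDegree ∧ G.natDegree ≤ n ∧ 1 < MM G ∧ G ∣ PE b d E) : ℝ) ≤
              ∑ G ∈ U m, (cnt n (fun E => Irreducible G ∧ 1 ≤ G.natDegree ∧ G.natDegree ≤ n ∧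
                1 < MM G ∧ G ∣ PE b d E) : ℝ) := by
                exact_mod_cast cnt_exists n (U m) (fun G E => Irreducible G ∧ 1 ≤ G.natDegree ∧
                  G.natDegree ≤ n ∧ 1 < MM G ∧ G ∣ PE b d E)
            _ ≤ ∑ G ∈ U m, c := Finset.sum_le_sum (fun G _ => hb2 G)
            _ = (U m).card * c := by rw [Finset.sum_const, nsmul_eq_mul]
            _ ≤ _ := mul_le_mul_of_nonneg_right (hUc m hm) hc0
      _ = M * ((4 * Real.exp ((n : ℝ) ^ (995 / 1000 : ℝ))) * c) := by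
          rw [Finset.sum_const, nsmul_eq_mul, Nat.card_Icc, Nat.add_sub_cancel]
      _ ≤ n * ((4 * Real.exp ((n : ℝ) ^ (995 / 1000 : ℝ))) * c) := by
          have : (M : ℝ) ≤ n := by exact_mod_cast hMn
          gcongr
      _ = _ := by ring
  refine hb3.trans ?_
  have h7 := sb_fin n h6 h3 h4 h5
  calc (n : ℝ) * (4 * Real.exp ((n : ℝ) ^ (995 / 1000 : ℝ))) * c =
      (n : ℝ) * (4 * Real.exp ((n : ℝ) ^ (995 / 1000 : ℝ))) *
        (2 : ℝ) ^ (-((n : ℝ) / (2 * Real.log n ^ 10))) * 2 ^ (n - 1) := by rw [hc]; ring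
    _ ≤ _ := by gcongr

end Pool.Agent.Lib.MP_769d0b_pr
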