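import Pool.Agent.Lib.MP_769d0b_pr.StepC
import Pool.Agent.Lib.MP_769d0b_pr.Small

/-!
LW-SmallC: event (C) is small.

PROOF.
`EvC` = some `m ∈ Icc 1 (n/2)` with `n^(9/10) < m` and `EvM m`: `cnt_exists`, `step_c` with `L = ⌈n^(85/100)⌉₊`. For `m > n^(9/10)`, `n` large, the bound divided by `2^(n-1)` is `≤ 2^(-m + L + 1) 2^(n^(4/5) log(n+1)) exp(14800·3·n^(42/100) √(m log n))`:
`TN n TT n = n^(42/100)`, `log(2mTT n) ≤ 3 log n`, so `37·TN·TT·√(m·3 log n)·400 ≤ 30000 n^(42/100) √(m log n)` (and the `max` with `1` is harmless), and with `m > n^(9/10)`: `n^(42/100)√(log n) ≤ n^(43/100) ≤ √m · n^(-2/100)`, so it is `≤ 30000 n^(-2/100) m ≤ m/10`;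
`L + 1 ≤ m/10`, `n^(4/5) log(n+1) ≤ m/10`. So each term is `≤ 2^(-m/2) ≤ 2^(-n^(9/10)/2)`, and the sum over `m ≤ n` is `≤ n 2^(-n^(9/10)/2) → 0`. `small_of_bound`.
-/

set_option autoImplicit false

open Finset Polynomial

namespace Pool.Agent.Lib.MP_769d0b_pr

open Pool.Agent.Lib.MP_7ab245_nt.Cnt Pool.Agent.Lib.MP_7ab245_nt.LogVar

private lemma ev_log (r c : ℝ) (hr : 0 < r) (hc : 0 < c) :
    ∃ N : ℕ, ∀ n : ℕ, N ≤ n → Real.log n ≤ c * (n : ℝ) ^ r := by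
  have h := (isLittleO_log_rpow_atTop hr).def hc
  have h2 := tendsto_natCast_atTop_atTop.eventually h
  obtain ⟨N, hN⟩ := Filter.eventually_atTop.1 h2
  refine ⟨N, fun n hn => ?_⟩
  have h3 := hN n hn
  rw [Real.norm_eq_abs, Real.norm_eq_abs, abs_of_nonneg (Real.rpow_nonneg (Nat.cast_nonneg n) r)] at h3
  exact (le_abs_self _).trans h3

private lemma ev_const (r c : ℝ) (hr : 0 < r) :
    ∃ N : ℕ, ∀ n : ℕ, N ≤ n → c ≤ (n : ℝ) ^ r := by
  have h := (tendsto_rpow_atTop hr).eventually_ge_atTop c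
  have h2 := tendsto_natCast_atTop_atTop.eventually h
  obtain ⟨N, hN⟩ := Filter.eventually_atTop.1 h2
  exact ⟨N, fun n hn => hN n hn⟩

/-- the main term -/
private lemma main_le (n m : ℕ) (h2m : 2 * m ≤ n) (hm : 1 ≤ m)
    (hmn : (n : ℝ) ^ (9 / 10 : ℝ) < m)
    (h1 : Real.log n ≤ 1 / 10 ^ 13 * (n : ℝ) ^ (6 / 100 : ℝ)) :
    TN n * TT n * √(m * Real.log (2 * m * TT n)) ≤ 1 / 10 ^ 6 * m := by
  have hn1 : (1 : ℝ) ≤ n := by
    have : 1 ≤ n := by omega
    exact_mod_cast this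
  have hn0 : (0 : ℝ) < n := by linarith
  have hm0 : (0 : ℝ) < m := by
    have : (1 : ℝ) ≤ m := by exact_mod_cast hm
    linarith
  have hTT : 0 < TT n := Real.rpow_pos_of_pos hn0 _
  have hTN : 0 < TN n := Real.rpow_pos_of_pos hn0 _
  have hTT1 : 1 ≤ TT n := Real.one_le_rpow hn1 (by norm_num)
  have hlog0 : 0 ≤ Real.log n := Real.log_nonneg hn1
  have hlog1 : Real.log (2 * m * TT n) ≤ 127 / 100 * Real.log n := by
    have h2 : (2 : ℝ) * m ≤ n := by exact_mod_cast h2m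
    calc Real.log (2 * m * TT n) ≤ Real.log (n * TT n) := by
          apply Real.log_le_log (by positivity)
          exact mul_le_mul_of_nonneg_right h2 hTT.le
      _ = Real.log n + 27 / 100 * Real.log n := by
          rw [Real.log_mul hn0.ne' hTT.ne']
          unfold TT
          rw [Real.log_rpow hn0]
      _ = _ := by ring
  have hlog2 : 0 ≤ Real.log (2 * m * TT n) := by
    apply Real.log_nonneg
    have : (1 : ℝ) ≤ m := by exact_mod_cast hm
    nlinarith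
  have hA : 0 ≤ (m : ℝ) * Real.log (2 * m * TT n) := mul_nonneg hm0.le hlog2
  apply le_of_sq_le_sq _ (by positivity)
  rw [mul_pow, mul_pow, Real.sq_sqrt hA]
  have hTN2 : TN n ^ 2 * TT n ^ 2 = (n : ℝ) ^ (84 / 100 : ℝ) := by
    unfold TN TT
    rw [← Real.rpow_natCast, ← Real.rpow_natCast, ← Real.rpow_mul hn0.le, ← Real.rpow_mul hn0.le,
      ← Real.rpow_add hn0]
    norm_num
  rw [hTN2]
  calc (n : ℝ) ^ (84 / 100 : ℝ) * (m * Real.log (2 * m * TT n))
      ≤ (n : ℝ) ^ (84 / 100 : ℝ) * (m * (127 / 100 * (1 / 10 ^ 13 * (n : ℝ) ^ (6 / 100 : ℝ)))) := by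
        refine mul_le_mul_of_nonneg_left ?_ (Real.rpow_nonneg hn0.le _)
        refine mul_le_mul_of_nonneg_left ?_ hm0.le
        refine hlog1.trans ?_
        exact mul_le_mul_of_nonneg_left h1 (by norm_num)
    _ = (127 / 100 * (1 / 10 ^ 13)) * m * ((n : ℝ) ^ (84 / 100 : ℝ) * (n : ℝ) ^ (6 / 100 : ℝ)) := by
        ring
    _ = (127 / 100 * (1 / 10 ^ 13)) * m * (n : ℝ) ^ (9 / 10 : ℝ) := by
        rw [← Real.rpow_add hn0]
        norm_num
    _ ≤ (127 / 100 * (1 / 10 ^ 13)) * m * m := by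
        refine mul_le_mul_of_nonneg_left hmn.le ?_
        positivity
    _ ≤ (1 / 10 ^ 6 * (m : ℝ)) ^ 2 := by
        nlinarith [mul_pos hm0 hm0]

private lemma tendsto_f : Filter.Tendsto (fun n : ℕ => (n : ℝ) * Real.exp (-((n : ℝ) ^ (9 / 10 : ℝ) / 2)))
    Filter.atTop (nhds 0) := by
  have h1 : Filter.Tendsto (fun n : ℕ => (n : ℝ) ^ (9 / 10 : ℝ) / 2) Filter.atTop Filter.atTop := by
    apply Filter.Tendsto.atTop_div_const (by norm_num)
    exact (tendsto_rpow_atTop (by norm_num)).comp tendsto_natCast_atTop_atTop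
  have h2 := (Real.tendsto_pow_mul_exp_neg_atTop_nhds_zero 2).comp h1
  have h3 : Filter.Tendsto (fun n : ℕ => 4 * ((fun x : ℝ => x ^ 2 * Real.exp (-x)) ∘
      (fun n : ℕ => (n : ℝ) ^ (9 / 10 : ℝ) / 2)) n) Filter.atTop (nhds 0) := by
    simpa using h2.const_mul 4
  refine squeeze_zero' ?_ ?_ h3
  · exact Filter.Eventually.of_forall fun n => by positivity
  · filter_upwards [Filter.eventually_ge_atTop 1] with n hn
    have hn1 : (1 : ℝ) ≤ n := by exact_mod_cast hn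
    have hn0 : (0 : ℝ) < n := by linarith
    simp only [Function.comp]
    have h4 : (n : ℝ) ≤ ((n : ℝ) ^ (9 / 10 : ℝ)) ^ 2 := by
      rw [← Real.rpow_natCast, ← Real.rpow_mul hn0.le]
      calc (n : ℝ) = (n : ℝ) ^ (1 : ℝ) := (Real.rpow_one _).symm
        _ ≤ _ := Real.rpow_le_rpow_of_exponent_le hn1 (by norm_num)
    have h5 := Real.exp_pos (-((n : ℝ) ^ (9 / 10 : ℝ) / 2))
    calc (n : ℝ) * Real.exp (-((n : ℝ) ^ (9 / 10 : ℝ) / 2))
        ≤ ((n : ℝ) ^ (9 / 10 : ℝ)) ^ 2 * Real.exp (-((n : ℝ) ^ (9 / 10 : ℝ) / 2)) :=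
          mul_le_mul_of_nonneg_right h4 h5.le
      _ = _ := by ring

theorem smallC : small EvC := by
  obtain ⟨N₀, h₀⟩ := step_c
  obtain ⟨N₁, h₁⟩ := ev_log (6 / 100) (1 / 10 ^ 13) (by norm_num) (by norm_num)
  obtain ⟨N₂, h₂⟩ := ev_log (1 / 10) (1 / 400) (by norm_num) (by norm_num)
  obtain ⟨N₃, h₃⟩ := ev_const (5 / 100) 200 (by norm_num)
  obtain ⟨N₄, h₄⟩ := ev_const (9 / 10) 40000 (by norm_num)
  apply small_of_bound EvC (fun n : ℕ => (n : ℝ) * Real.exp (-((n : ℝ) ^ (9 / 10 : ℝ) / 2)))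
    tendsto_f (max (max N₀ N₁) (max (max N₂ N₃) N₄))
  intro n hn b d hMD
  have hn0 : N₀ ≤ n := by omega
  have hl1 := h₁ n (by omega)
  have hl2 := h₂ n (by omega)
  have hc3 := h₃ n (by omega)
  have hc4 := h₄ n (by omega)
  have hn2 := hMD.pos
  have hn1' : (1 : ℝ) ≤ n := by
    have : 1 ≤ n := by omega
    exact_mod_cast this
  have hnpos : (0 : ℝ) < n := by linarith
  set L := ⌈(n : ℝ) ^ (85 / 100 : ℝ)⌉₊ with hLdef
  have hL1 : (n : ℝ) ^ (85 / 100 : ℝ) ≤ L := Nat.le_ceil _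
  have hL2 : (L : ℝ) < (n : ℝ) ^ (85 / 100 : ℝ) + 1 := Nat.ceil_lt_add_one (Real.rpow_nonneg hnpos.le _)
  have hLy : (n : ℝ) ^ (85 / 100 : ℝ) ≤ 1 / 200 * (n : ℝ) ^ (9 / 10 : ℝ) := by
    have : (n : ℝ) ^ (9 / 10 : ℝ) = (n : ℝ) ^ (5 / 100 : ℝ) * (n : ℝ) ^ (85 / 100 : ℝ) := by
      rw [← Real.rpow_add hnpos]
      norm_num
    rw [this]
    have := mul_le_mul_of_nonneg_right hc3 (Real.rpow_nonneg hnpos.le (85 / 100 : ℝ))
    linarith
  -- the log term
  have hlg : Real.log (n + 1) / dl n ≤ 1 / 100 * (n : ℝ) ^ (9 / 10 : ℝ) := by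
    have e1 : Real.log (n + 1) ≤ 2 * Real.log n := by
      have : Real.log ((n : ℝ) + 1) ≤ Real.log ((n : ℝ) ^ 2) := by
        apply Real.log_le_log (by linarith)
        have : (2 : ℝ) ≤ n := by exact_mod_cast hn2
        nlinarith
      rw [Real.log_pow] at this
      simpa using this
    have e2 : (1 : ℝ) / dl n = (n : ℝ) ^ (4 / 5 : ℝ) := by
      unfold dl
      rw [Real.rpow_neg hnpos.le, one_div, inv_inv]
    calc Real.log (n + 1) / dl n = Real.log (n + 1) * (1 / dl n) := by ring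
      _ = Real.log (n + 1) * (n : ℝ) ^ (4 / 5 : ℝ) := by rw [e2]
      _ ≤ (2 * (1 / 400 * (n : ℝ) ^ (1 / 10 : ℝ))) * (n : ℝ) ^ (4 / 5 : ℝ) := by
          refine mul_le_mul_of_nonneg_right ?_ (Real.rpow_nonneg hnpos.le _)
          linarith
      _ = 1 / 200 * ((n : ℝ) ^ (1 / 10 : ℝ) * (n : ℝ) ^ (4 / 5 : ℝ)) := by ring
      _ = 1 / 200 * (n : ℝ) ^ (9 / 10 : ℝ) := by
          rw [← Real.rpow_add hnpos]
          norm_num
      _ ≤ 1 / 100 * (n : ℝ) ^ (9 / 10 : ℝ) := by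
          have := Real.rpow_nonneg hnpos.le (9 / 10 : ℝ)
          linarith
  have hlog2 : Real.log 2 ≤ 1 := by
    have := Real.log_two_lt_d9
    linarith
  have hlog2' : (69 : ℝ) / 100 ≤ Real.log 2 := by
    have := Real.log_two_gt_d9
    linarith
  -- every m
  have hterm : ∀ m ∈ Icc 1 n, (cnt n (fun E => ((n : ℝ) ^ (9 / 10 : ℝ) < m ∧ 2 * m ≤ n) ∧
      EvM m n b d E) : ℝ) ≤ Real.exp (-((n : ℝ) ^ (9 / 10 : ℝ) / 2)) * 2 ^ (n - 1) := by
    intro m hm
    rw [Finset.mem_Icc] at hm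
    by_cases hc : (n : ℝ) ^ (9 / 10 : ℝ) < m ∧ 2 * m ≤ n
    · obtain ⟨hc1, hc2⟩ := hc
      have hle : (cnt n (fun E => ((n : ℝ) ^ (9 / 10 : ℝ) < m ∧ 2 * m ≤ n) ∧
          EvM m n b d E) : ℝ) ≤ cnt n (EvM m n b d) := by
        have h10 : cnt n (fun E => ((n : ℝ) ^ (9 / 10 : ℝ) < m ∧ 2 * m ≤ n) ∧ EvM m n b d E) ≤
            cnt n (EvM m n b d) := cnt_mono (fun E _ h => h.2)
        exact_mod_cast h10
      refine hle.trans ((h₀ n hn0 b d hMD m L hm.1 hc2 hL1).trans ?_)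
      have hmain := main_le n m hc2 hm.1 hc1 hl1
      have hmpos : (0 : ℝ) < m := by
        have : (1 : ℝ) ≤ m := by exact_mod_cast hm.1
        linarith
      set W := √((m : ℝ) * Real.log (2 * m * TT n)) with hW
      have hmax : 400 * max 1 (37 * TN n * TT n * W) ≤ 2 / 100 * (m : ℝ) := by
        rcases max_cases (1 : ℝ) (37 * TN n * TT n * W) with ⟨h5, _⟩ | ⟨h5, _⟩
        · rw [h5]
          linarith
        · rw [h5]
          have : 37 * TN n * TT n * W = 37 * (TN n * TT n * W) := by ring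
          rw [this]
          linarith
      have e3 : (2 : ℝ) ^ (n - m + L) = Real.exp (((n : ℝ) - m + L) * Real.log 2) := by
        have hcast : ((n : ℝ) - m + L) = ((n - m + L : ℕ) : ℝ) := by
          rw [Nat.cast_add, Nat.cast_sub (by omega)]
        rw [hcast, mul_comm, Real.exp_mul, Real.exp_log (by norm_num), Real.rpow_natCast]
      have e4 : (2 : ℝ) ^ (Real.log (n + 1) / dl n) =
          Real.exp (Real.log (n + 1) / dl n * Real.log 2) := by
        rw [Real.rpow_def_of_pos (by norm_num), mul_comm]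
      have e5 : (2 : ℝ) ^ (n - 1) = Real.exp (((n : ℝ) - 1) * Real.log 2) := by
        have hcast : ((n : ℝ) - 1) = ((n - 1 : ℕ) : ℝ) := by
          rw [Nat.cast_sub (by omega)]
          simp
        rw [hcast, mul_comm, Real.exp_mul, Real.exp_log (by norm_num), Real.rpow_natCast]
      rw [e3, e4, e5, ← Real.exp_add, ← Real.exp_add, ← Real.exp_add]
      apply Real.exp_le_exp.2
      have hlgm : Real.log (n + 1) / dl n * Real.log 2 ≤ 1 / 100 * (m : ℝ) := by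
        have h6 : 0 ≤ 1 / 100 * (n : ℝ) ^ (9 / 10 : ℝ) := by positivity
        calc Real.log (n + 1) / dl n * Real.log 2
            ≤ (1 / 100 * (n : ℝ) ^ (9 / 10 : ℝ)) * Real.log 2 :=
              mul_le_mul_of_nonneg_right hlg (by linarith)
          _ ≤ (1 / 100 * (n : ℝ) ^ (9 / 10 : ℝ)) * 1 := mul_le_mul_of_nonneg_left hlog2 h6
          _ ≤ 1 / 100 * (m : ℝ) := by linarith
      have hLm : ((L : ℝ) + 1) * Real.log 2 ≤ 1 / 100 * (m : ℝ) := by
        have h7 : (L : ℝ) + 1 ≤ 1 / 100 * (m : ℝ) := by linarith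
        have h8 : 0 ≤ (L : ℝ) + 1 := by positivity
        calc ((L : ℝ) + 1) * Real.log 2 ≤ ((L : ℝ) + 1) * 1 :=
              mul_le_mul_of_nonneg_left hlog2 h8
          _ ≤ _ := by linarith
      have hml : 69 / 100 * (m : ℝ) ≤ m * Real.log 2 := by
        have := mul_le_mul_of_nonneg_left hlog2' hmpos.le
        linarith
      nlinarith
    · have hz : cnt n (fun E => ((n : ℝ) ^ (9 / 10 : ℝ) < m ∧ 2 * m ≤ n) ∧
          EvM m n b d E) = 0 := by
        unfold cnt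
        rw [Set.ncard_eq_zero (cnt_fin n _)]
        ext E
        simp only [Set.mem_ofPred_eq, Set.mem_empty_iff_false, iff_false]
        intro h
        exact hc h.2.1
      rw [hz]
      simp only [Nat.cast_zero]
      positivity
  have hcov : cnt n (EvC n b d) ≤ ∑ m ∈ Icc 1 n,
      cnt n (fun E => ((n : ℝ) ^ (9 / 10 : ℝ) < m ∧ 2 * m ≤ n) ∧ EvM m n b d E) := by
    refine (cnt_mono (Q' := fun E => ∃ m ∈ Icc 1 n,
      ((n : ℝ) ^ (9 / 10 : ℝ) < m ∧ 2 * m ≤ n) ∧ EvM m n b d E) ?_).trans ?_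
    · intro E _ hE
      obtain ⟨m, hm1, hm2, hm3⟩ := hE
      refine ⟨m, ?_, ⟨hm1, hm2⟩, hm3⟩
      rw [Finset.mem_Icc]
      constructor
      · by_contra h0
        have : m = 0 := by omega
        rw [this] at hm1
        have := Real.rpow_pos_of_pos hnpos (9 / 10 : ℝ)
        simp only [Nat.cast_zero] at hm1
        linarith
      · omega
    · exact cnt_exists n (Icc 1 n) (fun m E =>
        ((n : ℝ) ^ (9 / 10 : ℝ) < m ∧ 2 * m ≤ n) ∧ EvM m n b d E)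
  calc (cnt n (EvC n b d) : ℝ) ≤ ((∑ m ∈ Icc 1 n,
      cnt n (fun E => ((n : ℝ) ^ (9 / 10 : ℝ) < m ∧ 2 * m ≤ n) ∧ EvM m n b d E) : ℕ) : ℝ) := by
        exact_mod_cast hcov
    _ = ∑ m ∈ Icc 1 n,
      (cnt n (fun E => ((n : ℝ) ^ (9 / 10 : ℝ) < m ∧ 2 * m ≤ n) ∧ EvM m n b d E) : ℝ) := by
        push_cast
        rfl
    _ ≤ ∑ m ∈ Icc 1 n, Real.exp (-((n : ℝ) ^ (9 / 10 : ℝ) / 2)) * 2 ^ (n - 1) :=
        Finset.sum_le_sum hterm
    _ = (n : ℝ) * Real.exp (-((n : ℝ) ^ (9 / 10 : ℝ) / 2)) * 2 ^ (n - 1) := by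
        rw [Finset.sum_const, Nat.card_Icc, nsmul_eq_mul]
        simp only [Nat.add_sub_cancel]
        ring

end Pool.Agent.Lib.MP_769d0b_pr
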