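import Pool.Agent.Lib.MP_769d0b_pr.Defs

/-!
LW-Totient: k <= 2 phi(k)^2.

PROOF.
`Nat.recOnPosPrimePosCoprime` (or strong induction on the factorization): prime powers: `φ(p^a) = p^(a-1)(p-1)`; `φ(p^a)² ≥ p^a` unless `p^a = 2`, where `2 φ(2)² = 2`. For `k = 2^a k'`, `k'` odd: show `φ(k')² ≥ k'` for odd `k'` (multiplicative, `(p-1)² p^(2a-2) ≥ p^a` for `p ≥ 3`) and `2φ(2^a)² ≥ 2^a`.
-/

set_option autoImplicit false

open Finset Polynomial

namespace Pool.Agent.Lib.MP_769d0b_pr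

open Pool.Agent.Lib.MP_7ab245_nt.Cnt Pool.Agent.Lib.MP_7ab245_nt.LogVar

private theorem tot_pp (p a : ℕ) (hp : p.Prime) (ha : 0 < a) (h2 : p ≠ 2) :
    p ^ a ≤ Nat.totient (p ^ a) ^ 2 := by
  rw [Nat.totient_prime_pow hp ha, mul_pow]
  have hp3 : 3 ≤ p := by
    have := hp.two_le
    omega
  obtain ⟨q, rfl⟩ : ∃ q, p = q + 1 := ⟨p - 1, by omega⟩
  obtain ⟨c, rfl⟩ : ∃ c, a = c + 1 := ⟨a - 1, by omega⟩
  simp only [Nat.add_sub_cancel]
  have h1 : q + 1 ≤ q ^ 2 := by nlinarith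
  have h2 : (q + 1) ^ c ≤ ((q + 1) ^ c) ^ 2 := by
    have : 1 ≤ (q + 1) ^ c := Nat.one_le_pow _ _ (by omega)
    nlinarith
  calc (q + 1) ^ (c + 1) = (q + 1) ^ c * (q + 1) := pow_succ _ _
    _ ≤ ((q + 1) ^ c) ^ 2 * q ^ 2 := Nat.mul_le_mul h2 h1

private theorem tot_two (a : ℕ) : 2 ^ a ≤ 2 * Nat.totient (2 ^ a) ^ 2 := by
  rcases Nat.eq_zero_or_pos a with rfl | ha
  · simp
  · rw [Nat.totient_prime_pow Nat.prime_two ha]
    obtain ⟨c, rfl⟩ : ∃ c, a = c + 1 := ⟨a - 1, by omega⟩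
    simp only [Nat.add_sub_cancel]
    have : 1 ≤ 2 ^ c := Nat.one_le_pow _ _ (by norm_num)
    rw [pow_succ]
    nlinarith

private theorem tot_odd (k : ℕ) : Odd k → k ≤ Nat.totient k ^ 2 := by
  induction k using Nat.recOnPosPrimePosCoprime with
  | prime_pow p a hp ha =>
    intro ho
    apply tot_pp p a hp ha
    rintro rfl
    have := (Nat.even_pow.mpr ⟨even_two, ha.ne'⟩ : Even (2 ^ a))
    exact (Nat.not_even_iff_odd.mpr ho) this
  | zero => intro h; exact absurd h (by decide)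
  | one => intro _; simp
  | coprime a b ha hb hab iha ihb =>
    intro ho
    have h1 := Nat.odd_mul.mp ho
    rw [Nat.totient_mul hab, mul_pow]
    exact Nat.mul_le_mul (iha h1.1) (ihb h1.2)

theorem le_two_totient_sq (k : ℕ) : k ≤ 2 * Nat.totient k ^ 2 := by
  rcases Nat.eq_zero_or_pos k with rfl | hk
  · simp
  · obtain ⟨a, m, hm, rfl⟩ := Nat.exists_eq_two_pow_mul_odd hk.ne'
    have hco : Nat.Coprime (2 ^ a) m :=
      Nat.Coprime.pow_left a (Nat.coprime_two_left.mpr hm)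
    rw [Nat.totient_mul hco, mul_pow, ← mul_assoc]
    exact Nat.mul_le_mul (tot_two a) (tot_odd m hm)

end Pool.Agent.Lib.MP_769d0b_pr
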