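import Pool.Agent.Lib.MP_769d0b_pr.LO
import Pool.Agent.Lib.MP_769d0b_pr.CosCount

/-!
LW-ZetaB: probability that a unit complex number is a zero: C/sqrt n.

PROOF.
`I` from `cos_count ζ (n-1)` (`⊆ Icc 1 (n-1) = Ioo 0 n`), `|I| ≥ (n-2)/4 ≥ n/8` for `n ≥ 4`, nonempty. `cnt_lo` with `ρ = 0`, `c = 1/2`: `≤ 2^(n-1)/√|I| ≤ 3/√n 2^(n-1)` (`√8 ≤ 3`). (`ev = 0` implies `‖ev‖ ≤ 0`.)
-/

set_option autoImplicit false

open Finset Polynomial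

namespace Pool.Agent.Lib.MP_769d0b_pr

open Pool.Agent.Lib.MP_7ab245_nt.Cnt Pool.Agent.Lib.MP_7ab245_nt.LogVar

theorem cnt_unit {n : ℕ} {b : ℤ[X]} {d : ℤ} (h : MD n b d) (hn : 4 ≤ n) (ζ : ℂ) (hζ : ‖ζ‖ = 1) :
    (cnt n (fun E => ev b d E ζ = 0) : ℝ) ≤ 3 / √n * 2 ^ (n - 1) := by
  obtain ⟨I, hI, hc, hr⟩ := cos_count ζ hζ (n - 1)
  have hI' : I ⊆ Ioo 0 n := by
    intro k hk
    have := mem_Icc.1 (hI hk)
    rw [mem_Ioo]
    omega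
  have hcard : n ≤ 8 * I.card := by omega
  have hpos : 0 < I.card := by omega
  have h1 := cnt_lo h ζ 0 (1 / 2) le_rfl (by norm_num) I hI' (card_pos.1 hpos) hr
  have h2 : (cnt n (fun E => ev b d E ζ = 0) : ℝ) ≤ (cnt n (fun E => ‖ev b d E ζ‖ ≤ 0) : ℝ) := by
    have : cnt n (fun E => ev b d E ζ = 0) ≤ cnt n (fun E => ‖ev b d E ζ‖ ≤ 0) :=
      cnt_mono (fun E _ hE => by rw [hE]; simp)
    exact_mod_cast this
  refine h2.trans (h1.trans ?_)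
  have n0 : (0 : ℝ) < n := by exact_mod_cast (by omega : 0 < n)
  have hs : √(n : ℝ) ≤ 3 * √(I.card : ℝ) := by
    have h3 : (n : ℝ) ≤ 9 * (I.card : ℝ) := by
      have : (n : ℝ) ≤ 8 * (I.card : ℝ) := by exact_mod_cast hcard
      have h4 : (0 : ℝ) ≤ (I.card : ℝ) := Nat.cast_nonneg _
      linarith
    calc √(n : ℝ) ≤ √(9 * (I.card : ℝ)) := Real.sqrt_le_sqrt h3
      _ = 3 * √(I.card : ℝ) := by
        rw [Real.sqrt_mul (by norm_num), show (9 : ℝ) = 3 ^ 2 by norm_num,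
          Real.sqrt_sq (by norm_num)]
  have s0 : 0 < √(n : ℝ) := Real.sqrt_pos.2 n0
  have s1 : 0 < √(I.card : ℝ) := Real.sqrt_pos.2 (by exact_mod_cast hpos)
  rw [mul_zero, zero_div, zero_add, one_mul, div_mul_eq_mul_div, div_le_div_iff₀ s1 s0]
  calc (2 : ℝ) ^ (n - 1) * √(n : ℝ) ≤ 2 ^ (n - 1) * (3 * √(I.card : ℝ)) := by gcongr
    _ = 3 * 2 ^ (n - 1) * √(I.card : ℝ) := by ring

end Pool.Agent.Lib.MP_769d0b_pr
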