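import Pool.Agent.Lib.MP_769d0b_pr.ZetaA
import Pool.Agent.Lib.MP_769d0b_pr.ZetaB
import Pool.Agent.Lib.MP_769d0b_pr.Totient
import Pool.Agent.Lib.MP_769d0b_pr.Small

/-!
LW-SmallZ: event (Z) is small.

PROOF.
By `zeta_conj`, `totient_le`, `le_two_totient_sq`: `EvZ` implies that some `k ∈ Icc 1 (2n²)` has `Q k: ev b d E ζ_k = 0`, `ζ_k = exp(2πi/k)`, `φ k ≤ n`. Split by `φ k ≥ 4 log₂ n` or not (take `l = 4 (Nat.log 2 n + 1)`, `l ≤ φ k` or `φ k < l`). Large: `cnt_zeta`: `min (φ k) (n-1) ≥ l - 1 + ...`: `φ k ≤ n`, so `min ≥ φ k - 1 ≥ l - 1`,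
`2^(-(l-1)) ≤ 2·2^(-l) ≤ 2 n^(-4)`; there are `≤ 2n²` such `k`: total `≤ 4 n^(-2)`. Small: `k ≤ 2 l²`: at most `2 l²` values, each `≤ 3/√n` (`cnt_unit`): total `≤ 6 l²/√n → 0`.
-/

set_option autoImplicit false

open Finset Polynomial

namespace Pool.Agent.Lib.MP_769d0b_pr

open Pool.Agent.Lib.MP_7ab245_nt.Cnt Pool.Agent.Lib.MP_7ab245_nt.LogVar

private noncomputable def zt (k : ℕ) : ℂ := Complex.exp (2 * Real.pi * Complex.I / k)

private theorem zt_norm (k : ℕ) : ‖zt k‖ = 1 := by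
  unfold zt
  rw [show (2 * Real.pi * Complex.I / k : ℂ) = ((2 * Real.pi / k : ℝ) : ℂ) * Complex.I by
    push_cast; ring]
  exact Complex.norm_exp_ofReal_mul_I _

private theorem natlog_le (n : ℕ) (hn : 1 ≤ n) :
    (Nat.log 2 n : ℝ) + 1 ≤ 17 * (n : ℝ) ^ (1 / 8 : ℝ) := by
  have h1 : (Nat.log 2 n : ℝ) ≤ Real.log n / Real.log 2 := by
    have h2 : (2 : ℝ) ^ (Nat.log 2 n) ≤ n := by
      exact_mod_cast Nat.pow_log_le_self 2 (by omega : n ≠ 0)
    have h3 := Real.log_le_log (by positivity) h2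
    rw [Real.log_pow] at h3
    rw [le_div_iff₀ (Real.log_pos (by norm_num))]
    exact h3
  have h4 : Real.log n ≤ (n : ℝ) ^ (1 / 8 : ℝ) / (1 / 8) :=
    Real.log_natCast_le_rpow_div n (by norm_num)
  have h5 : (1 : ℝ) ≤ (n : ℝ) ^ (1 / 8 : ℝ) :=
    Real.one_le_rpow (by exact_mod_cast hn) (by norm_num)
  have h6 : (1 / 2 : ℝ) ≤ Real.log 2 := by
    have := Real.log_two_gt_d9
    linarith
  have h7 : Real.log n / Real.log 2 ≤ 16 * (n : ℝ) ^ (1 / 8 : ℝ) := by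
    rw [div_le_iff₀ (Real.log_pos (by norm_num))]
    have h8 : (0 : ℝ) ≤ (n : ℝ) ^ (1 / 8 : ℝ) := by positivity
    nlinarith
  linarith

theorem smallZ : small EvZ := by
  apply small_of_bound EvZ (fun n => 27748 * (n : ℝ) ^ (-(1 / 4) : ℝ)) ?_ 4
  · intro n hn b d hM
    set l : ℕ := 4 * (Nat.log 2 n + 1) with hl
    set S1 : Finset ℕ := (Icc 1 (2 * n ^ 2)).filter (fun k => l ≤ Nat.totient k ∧
      Nat.totient k ≤ n) with hS1
    set S2 : Finset ℕ := Icc 1 (2 * l ^ 2) with hS2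
    have hn0 : (0 : ℝ) < n := by
      have : 0 < n := by omega
      exact_mod_cast this
    have hn1 : (1 : ℝ) ≤ n := by
      have : 1 ≤ n := by omega
      exact_mod_cast this
    have h1 : cnt n (EvZ n b d) ≤
        cnt n (fun E => (∃ k ∈ S1, ev b d E (zt k) = 0) ∨ (∃ k ∈ S2, ev b d E (zt k) = 0)) := by
      apply cnt_mono
      rintro E hE ⟨k, ζ, hk, hζ, h0⟩
      have hA := totient_le hM hE k hk ζ hζ h0
      have hB := zeta_conj b d E k hk ζ hζ h0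
      have hC := le_two_totient_sq k
      by_cases hD : l ≤ Nat.totient k
      · left
        refine ⟨k, ?_, hB⟩
        rw [hS1, Finset.mem_filter, Finset.mem_Icc]
        refine ⟨⟨hk, hC.trans ?_⟩, hD, hA⟩
        have := Nat.pow_le_pow_left hA 2
        omega
      · right
        refine ⟨k, ?_, hB⟩
        rw [hS2, Finset.mem_Icc]
        refine ⟨hk, hC.trans ?_⟩
        have := Nat.pow_le_pow_left (Nat.le_of_lt (Nat.lt_of_not_le hD)) 2
        omega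
    have h2 : (cnt n (fun E => (∃ k ∈ S1, ev b d E (zt k) = 0) ∨
        (∃ k ∈ S2, ev b d E (zt k) = 0)) : ℝ) ≤
        ∑ k ∈ S1, (cnt n (fun E => ev b d E (zt k) = 0) : ℝ) +
        ∑ k ∈ S2, (cnt n (fun E => ev b d E (zt k) = 0) : ℝ) := by
      have h3 := cnt_or n (fun E => ∃ k ∈ S1, ev b d E (zt k) = 0)
        (fun E => ∃ k ∈ S2, ev b d E (zt k) = 0)
      have h4 := cnt_exists n S1 (fun k E => ev b d E (zt k) = 0)
      have h5 := cnt_exists n S2 (fun k E => ev b d E (zt k) = 0)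
      exact_mod_cast h3.trans (add_le_add h4 h5)
    have h3 : ∑ k ∈ S1, (cnt n (fun E => ev b d E (zt k) = 0) : ℝ) ≤
        ∑ k ∈ S1, 2 * 2 ^ (n - 1) / (n : ℝ) ^ 4 := by
      apply Finset.sum_le_sum
      intro k hk
      rw [hS1, Finset.mem_filter, Finset.mem_Icc] at hk
      obtain ⟨⟨hk1, _⟩, hk3, hk4⟩ := hk
      have h5 : cnt n (fun E => ev b d E (zt k) = 0) ≤
          2 ^ (n - 1 - min (Nat.totient k) (n - 1)) := cnt_zeta hM k hk1
      have h6 : l - 1 ≤ min (Nat.totient k) (n - 1) := by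
        apply le_min
        · omega
        · omega
      have h7 : 2 ^ (n - 1 - min (Nat.totient k) (n - 1)) ≤ 2 ^ (n - 1 - (l - 1)) :=
        Nat.pow_le_pow_right (by norm_num) (by omega)
      have h8 : (cnt n (fun E => ev b d E (zt k) = 0) : ℝ) ≤ 2 ^ (n - 1 - (l - 1)) := by
        exact_mod_cast h5.trans h7
      refine h8.trans ?_
      rw [pow_sub₀ (2 : ℝ) (by norm_num) (by omega : l - 1 ≤ n - 1), ← div_eq_mul_inv,
        div_le_div_iff₀ (by positivity) (by positivity)]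
      have h9 : (n : ℝ) ^ 4 ≤ 2 * 2 ^ (l - 1) := by
        rw [← pow_succ', show l - 1 + 1 = (Nat.log 2 n + 1) * 4 by omega, pow_mul]
        apply pow_le_pow_left₀ (by positivity)
        have := Nat.lt_pow_succ_log_self (b := 2) (by norm_num) n
        exact_mod_cast this.le
      have h10 : (0 : ℝ) < 2 ^ (n - 1) := by positivity
      nlinarith
    have h4 : ∑ k ∈ S1, 2 * 2 ^ (n - 1) / (n : ℝ) ^ 4 ≤ 4 * (n : ℝ) ^ (-(1 / 4) : ℝ) *
        2 ^ (n - 1) := by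
      rw [Finset.sum_const, nsmul_eq_mul]
      have h5 : (S1.card : ℝ) ≤ 2 * (n : ℝ) ^ 2 := by
        have h6 : S1.card ≤ 2 * n ^ 2 := by
          refine (Finset.card_filter_le _ _).trans ?_
          rw [Nat.card_Icc]
          omega
        exact_mod_cast h6
      have h6 : (1 : ℝ) / (n : ℝ) ^ 2 ≤ (n : ℝ) ^ (-(1 / 4) : ℝ) := by
        rw [one_div, ← Real.rpow_natCast, ← Real.rpow_neg hn0.le]
        apply Real.rpow_le_rpow_of_exponent_le hn1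
        norm_num
      calc (S1.card : ℝ) * (2 * 2 ^ (n - 1) / (n : ℝ) ^ 4)
          ≤ 2 * (n : ℝ) ^ 2 * (2 * 2 ^ (n - 1) / (n : ℝ) ^ 4) := by gcongr
        _ = 4 * (1 / (n : ℝ) ^ 2) * 2 ^ (n - 1) := by field_simp; ring
        _ ≤ 4 * (n : ℝ) ^ (-(1 / 4) : ℝ) * 2 ^ (n - 1) := by gcongr
    have h5 : ∑ k ∈ S2, (cnt n (fun E => ev b d E (zt k) = 0) : ℝ) ≤
        ∑ k ∈ S2, 3 / √n * 2 ^ (n - 1) := by
      apply Finset.sum_le_sum
      intro k _
      exact cnt_unit hM hn (zt k) (zt_norm k)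
    have h6 : ∑ k ∈ S2, 3 / √(n : ℝ) * 2 ^ (n - 1) ≤ 27744 * (n : ℝ) ^ (-(1 / 4) : ℝ) *
        2 ^ (n - 1) := by
      rw [Finset.sum_const, nsmul_eq_mul, hS2, Nat.card_Icc]
      have h7 : ((2 * l ^ 2 + 1 - 1 : ℕ) : ℝ) ≤ 9248 * (n : ℝ) ^ (1 / 4 : ℝ) := by
        have h8 := natlog_le n (by omega)
        have h9 : ((n : ℝ) ^ (1 / 8 : ℝ)) ^ 2 = (n : ℝ) ^ (1 / 4 : ℝ) := by
          rw [← Real.rpow_natCast, ← Real.rpow_mul hn0.le]
          norm_num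
        have h10 : ((Nat.log 2 n : ℝ) + 1) ^ 2 ≤ 289 * (n : ℝ) ^ (1 / 4 : ℝ) := by
          rw [← h9]
          calc ((Nat.log 2 n : ℝ) + 1) ^ 2 ≤ (17 * (n : ℝ) ^ (1 / 8 : ℝ)) ^ 2 :=
                pow_le_pow_left₀ (by positivity) h8 2
            _ = 289 * ((n : ℝ) ^ (1 / 8 : ℝ)) ^ 2 := by ring
        rw [Nat.add_sub_cancel, hl]
        push_cast
        nlinarith
      have h8 : √(n : ℝ) = (n : ℝ) ^ (1 / 2 : ℝ) := Real.sqrt_eq_rpow _
      have h9 : (n : ℝ) ^ (1 / 4 : ℝ) / √(n : ℝ) = (n : ℝ) ^ (-(1 / 4) : ℝ) := by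
        rw [h8, ← Real.rpow_sub hn0]
        norm_num
      have h10 : 0 < √(n : ℝ) := Real.sqrt_pos.mpr hn0
      calc ((2 * l ^ 2 + 1 - 1 : ℕ) : ℝ) * (3 / √(n : ℝ) * 2 ^ (n - 1))
          ≤ 9248 * (n : ℝ) ^ (1 / 4 : ℝ) * (3 / √(n : ℝ) * 2 ^ (n - 1)) := by gcongr
        _ = 27744 * ((n : ℝ) ^ (1 / 4 : ℝ) / √(n : ℝ)) * 2 ^ (n - 1) := by ring
        _ = 27744 * (n : ℝ) ^ (-(1 / 4) : ℝ) * 2 ^ (n - 1) := by rw [h9]
    have h7 : (cnt n (EvZ n b d) : ℝ) ≤ cnt n (fun E => (∃ k ∈ S1, ev b d E (zt k) = 0) ∨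
        (∃ k ∈ S2, ev b d E (zt k) = 0)) := by exact_mod_cast h1
    have h8 := (h7.trans h2).trans (add_le_add (h3.trans h4) (h5.trans h6))
    refine h8.trans (le_of_eq ?_)
    ring
  · have h1 : Filter.Tendsto (fun n : ℕ => (n : ℝ) ^ (-(1 / 4) : ℝ)) Filter.atTop (nhds 0) :=
      (tendsto_rpow_neg_atTop (show (0 : ℝ) < 1 / 4 by norm_num)).comp
        tendsto_natCast_atTop_atTop
    have h2 := h1.const_mul 27748
    rw [mul_zero] at h2
    exact h2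

end Pool.Agent.Lib.MP_769d0b_pr
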