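import Pool.Agent.Lib.MP_769d0b_pr.GeoSep
import Pool.Agent.Lib.MP_769d0b_pr.GeoK

/-!
LW-SetA: separated set of exponents, single geometric progression.

PROOF.
`K` from `exists_K`, `I = {1 + K j : j < J}` (image of `range J`, injective as `K ≥ 1`). `I ⊆ Ioo 0 n`: for `j < J`, `1 + K j ≤ 1 + K (J-1)` and
`K J (1-‖y‖) ≤ 2 J ≤ (n-1)(1-‖y‖)` gives `K J ≤ n - 1`, so `1 + K(J-1) ≤ n - K < n`. For `A ≠ B ⊆ I`:
`∑_A y^k - ∑_B y^k = y ∑_{j<J} e_j q^j`, `q = y^K`, `e_j = [1+Kj ∈ A] - [1+Kj ∈ B] ∈ {-1,0,1}`, not all `0`. `geo_sep`: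
`≥ ‖y‖ · (9/100) ‖q‖^(J-1)`, `‖q‖ ≥ (3/10)(99/100) = 0.297`, `0.99·0.09 · 0.297^(J-1) > 0.08 · 0.29^J`.
-/

set_option autoImplicit false

open Finset Polynomial

namespace Pool.Agent.Lib.MP_769d0b_pr

open Pool.Agent.Lib.MP_7ab245_nt.Cnt Pool.Agent.Lib.MP_7ab245_nt.LogVar

theorem single_set (y : ℂ) (hy : 99 / 100 ≤ ‖y‖) (hy1 : ‖y‖ < 1) (J n : ℕ)
    (hn : 2 * (J : ℝ) ≤ ((n : ℝ) - 1) * (1 - ‖y‖)) :
    ∃ I : Finset ℕ, I ⊆ Ioo 0 n ∧ I.card = J ∧ ∀ A, A ⊆ I → ∀ B, B ⊆ I → A ≠ B →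
      8 / 100 * (29 / 100) ^ J < ‖∑ k ∈ A, y ^ k - ∑ k ∈ B, y ^ k‖ := by
  classical
  obtain ⟨K, hK1, hK2, hK3, hK4, -⟩ := exists_K y hy hy1
  have hinj : Function.Injective (fun j : ℕ => 1 + K * j) := by
    intro a b hab
    simp only at hab
    have : K * a = K * b := by omega
    exact Nat.eq_of_mul_eq_mul_left (by omega) this
  have hs : 0 < 1 - ‖y‖ := by linarith
  refine ⟨(range J).image (fun j => 1 + K * j), ?_, ?_, ?_⟩
  · intro k hk
    obtain ⟨j, hj, rfl⟩ := mem_image.1 hk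
    rw [mem_range] at hj
    rw [mem_Ioo]
    have h1 : (K : ℝ) * J ≤ (n : ℝ) - 1 := by
      have h2 : ((K : ℝ) * J) * (1 - ‖y‖) ≤ ((n : ℝ) - 1) * (1 - ‖y‖) := by
        calc ((K : ℝ) * J) * (1 - ‖y‖) = ((K : ℝ) * (1 - ‖y‖)) * J := by ring
          _ ≤ 2 * J := by gcongr
          _ ≤ _ := hn
      exact le_of_mul_le_mul_right h2 hs
    have h3 : K * J + 1 ≤ n := by
      have : ((K * J + 1 : ℕ) : ℝ) ≤ n := by push_cast; linarith
      exact_mod_cast this
    have h4 : K * j + K ≤ K * J := by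
      calc K * j + K = K * (j + 1) := by ring
        _ ≤ K * J := Nat.mul_le_mul_left K hj
    constructor
    · omega
    · show 1 + K * j < n
      omega
  · rw [card_image_of_injective _ hinj, card_range]
  · intro A hA B hB hAB
    have hsum : ∀ S : Finset ℕ, S ⊆ (range J).image (fun j => 1 + K * j) →
        ∑ k ∈ S, y ^ k = y * ∑ j ∈ range J, (if 1 + K * j ∈ S then (1 : ℂ) else 0) * (y ^ K) ^ j := by
      intro S hS
      have h1 : ∑ k ∈ S, y ^ k = ∑ k ∈ (range J).image (fun j => 1 + K * j),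
          (if k ∈ S then y ^ k else 0) := by
        rw [← sum_filter]
        congr 1
        ext k
        simp only [mem_filter]
        exact ⟨fun h => ⟨hS h, h⟩, fun h => h.2⟩
      rw [h1, sum_image (fun a _ b _ h => hinj h), mul_sum]
      apply sum_congr rfl
      intro j _
      split_ifs
      · rw [pow_add, pow_one, pow_mul, one_mul]
      · rw [zero_mul, mul_zero]
    rw [hsum A hA, hsum B hB, ← mul_sub, ← sum_sub_distrib]
    simp_rw [← sub_mul]
    set c : ℕ → ℂ := fun j => (if 1 + K * j ∈ A then (1 : ℂ) else 0) - (if 1 + K * j ∈ B then 1 else 0)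
      with hc
    have hq : ‖y ^ K‖ ≤ 3 / 10 := by rw [norm_pow]; exact hK2
    have hne : ∃ j < J, c j ≠ 0 := by
      by_contra hcon
      push Not at hcon
      apply hAB
      have h0 : ∀ j < J, (1 + K * j ∈ A ↔ 1 + K * j ∈ B) := by
        intro j hj
        have := hcon j hj
        simp only [hc] at this
        by_cases ha : 1 + K * j ∈ A <;> by_cases hb : 1 + K * j ∈ B <;> simp_all
      ext k
      constructor
      · intro hk
        obtain ⟨j, hj, rfl⟩ := mem_image.1 (hA hk)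
        exact (h0 j (mem_range.1 hj)).1 hk
      · intro hk
        obtain ⟨j, hj, rfl⟩ := mem_image.1 (hB hk)
        exact (h0 j (mem_range.1 hj)).2 hk
    have hg := geo_sep (y ^ K) hq J c (by
      intro j _
      simp only [hc]
      split_ifs <;> norm_num) (by
      intro j _
      simp only [hc]
      split_ifs <;> norm_num) hne
    rw [norm_mul]
    have hJ : 1 ≤ J := by
      obtain ⟨j, hj, _⟩ := hne
      omega
    have hq2 : (297 / 1000 : ℝ) ≤ ‖y ^ K‖ := by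
      rw [norm_pow]
      linarith
    obtain ⟨J', rfl⟩ : ∃ J', J = J' + 1 := ⟨J - 1, by omega⟩
    simp only [Nat.add_sub_cancel] at hg
    have h5 : (29 / 100 : ℝ) ^ J' ≤ ‖y ^ K‖ ^ J' :=
      pow_le_pow_left₀ (by norm_num) (by linarith) J'
    have h6 : (0 : ℝ) < (29 / 100 : ℝ) ^ J' := by positivity
    have h7 : 9 / 100 * (29 / 100 : ℝ) ^ J' ≤ ‖∑ j ∈ range (J' + 1), c j * (y ^ K) ^ j‖ :=
      le_trans (by gcongr) hg
    calc 8 / 100 * (29 / 100 : ℝ) ^ (J' + 1) = (8 / 100 * (29 / 100)) * (29 / 100 : ℝ) ^ J' := by ring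
      _ < (99 / 100) * (9 / 100 * (29 / 100 : ℝ) ^ J') := by nlinarith
      _ ≤ ‖y‖ * ‖∑ j ∈ range (J' + 1), c j * (y ^ K) ^ j‖ := by gcongr

end Pool.Agent.Lib.MP_769d0b_pr
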