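import Pool.Agent.Lib.MP_769d0b_pr.Sep
import Pool.Agent.Lib.MP_769d0b_pr.SetA

/-!
LW-T1b: no deep small values on the circle |y| = r.
-/

set_option autoImplicit false

open Finset Polynomial

namespace Pool.Agent.Lib.MP_769d0b_pr

open Pool.Agent.Lib.MP_7ab245_nt.Cnt Pool.Agent.Lib.MP_7ab245_nt.LogVar

private theorem ev_large : ∃ N : ℕ, 1024 ≤ N ∧ ∀ n : ℕ, N ≤ n →
    2 * (4 * Real.log n + 1) ≤ ((n : ℝ) - 1) * (n : ℝ) ^ (-(4 / 5) : ℝ) := by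
  have h1 : Filter.Tendsto (fun x : ℝ => Real.log x / x ^ (1 / 5 : ℝ)) Filter.atTop (nhds 0) :=
    (isLittleO_log_rpow_atTop (by norm_num : (0 : ℝ) < 1 / 5)).tendsto_div_nhds_zero
  have h2 := (h1.comp tendsto_natCast_atTop_atTop).eventually
    (Iic_mem_nhds (show (0 : ℝ) < 1 / 32 by norm_num))
  have h3 : Filter.Tendsto (fun n : ℕ => (n : ℝ) ^ (1 / 5 : ℝ)) Filter.atTop Filter.atTop :=
    (tendsto_rpow_atTop (by norm_num)).comp tendsto_natCast_atTop_atTop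
  have h4 := h3.eventually_ge_atTop 8
  obtain ⟨N, hN⟩ := Filter.eventually_atTop.mp (h2.and h4)
  refine ⟨max 1024 N, le_max_left _ _, fun n hn => ?_⟩
  obtain ⟨h5, h6⟩ := hN n (le_trans (le_max_right _ _) hn)
  have hn1 : 1024 ≤ n := le_trans (le_max_left _ _) hn
  have hn' : (1024 : ℝ) ≤ n := by exact_mod_cast hn1
  have hn0 : (0 : ℝ) < n := by linarith
  have h6' : (8 : ℝ) ≤ (n : ℝ) ^ (1 / 5 : ℝ) := h6
  have h5' : Real.log n / (n : ℝ) ^ (1 / 5 : ℝ) ≤ 1 / 32 := h5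
  rw [div_le_iff₀ (by linarith)] at h5'
  have h7 : (n : ℝ) ^ (-(4 / 5) : ℝ) * n = (n : ℝ) ^ (1 / 5 : ℝ) := by
    conv_lhs => rw [← Real.rpow_one (n : ℝ), ← Real.rpow_mul hn0.le, ← Real.rpow_add hn0]
    norm_num
  have h8 : 0 ≤ (n : ℝ) ^ (-(4 / 5) : ℝ) := by positivity
  have h9 : ((n : ℝ) / 2) * (n : ℝ) ^ (-(4 / 5) : ℝ) ≤ ((n : ℝ) - 1) * (n : ℝ) ^ (-(4 / 5) : ℝ) :=
    mul_le_mul_of_nonneg_right (by linarith) h8
  nlinarith

theorem t1b : ∃ N : ℕ, ∀ n : ℕ, N ≤ n → ∀ b d, MD n b d → ∀ y : ℂ, ‖y‖ = rr n →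
    (cnt n (fun E => ‖ev b d E y‖ ≤ 1 / (n : ℝ) ^ 8) : ℝ) ≤ 1 / (n : ℝ) ^ 2 * 2 ^ (n - 1) := by
  obtain ⟨N, hN1, hN⟩ := ev_large
  refine ⟨N, fun n hn b d hM y hy => ?_⟩
  have hn1 : 1024 ≤ n := hN1.trans hn
  have hn' : (1024 : ℝ) ≤ n := by exact_mod_cast hn1
  have hn0 : (0 : ℝ) < n := by linarith
  have hlog0 : 0 ≤ Real.log n := Real.log_nonneg (by linarith)
  have hL := hN n hn
  have hdl0 : 0 < dl n := by unfold dl; positivity
  have hdl1 : dl n ≤ 1 / 100 := by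
    unfold dl
    rw [Real.rpow_neg hn0.le, one_div]
    apply inv_anti₀ (by norm_num)
    have h1 : ((1024 : ℝ)) ^ (4 / 5 : ℝ) ≤ (n : ℝ) ^ (4 / 5 : ℝ) :=
      Real.rpow_le_rpow (by norm_num) hn' (by norm_num)
    have h2 : ((1024 : ℝ)) ^ (4 / 5 : ℝ) = 256 := by
      rw [show (1024 : ℝ) = 2 ^ (10 : ℝ) by norm_num, ← Real.rpow_mul (by norm_num)]
      norm_num
    linarith
  have hy1 : 1 - ‖y‖ = dl n := by rw [hy]; unfold rr; ring
  set J : ℕ := ⌈4 * Real.log n⌉₊ with hJ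
  have hJ1 : 4 * Real.log n ≤ J := Nat.le_ceil _
  have hJ2 : (J : ℝ) < 4 * Real.log n + 1 := Nat.ceil_lt_add_one (by linarith)
  obtain ⟨I, hI, hIc, hIs⟩ := single_set y (by linarith) (by linarith) J n (by
    rw [hy1]
    unfold dl
    linarith)
  have hdeep : 2 * (1 / (n : ℝ) ^ 8) ≤ 8 / 100 * (29 / 100) ^ J := by
    have h1 : Real.exp (-(3 / 2)) ≤ 29 / 100 := by
      rw [Real.exp_neg, inv_le_comm₀ (Real.exp_pos _) (by norm_num)]
      have h2 := Real.quadratic_le_exp_of_nonneg (show (0 : ℝ) ≤ 3 / 2 by norm_num)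
      linarith
    have h2 : Real.exp (-(3 / 2)) ^ J ≤ (29 / 100) ^ J :=
      pow_le_pow_left₀ (Real.exp_pos _).le h1 J
    have h3 : Real.exp (-2) * (1 / (n : ℝ) ^ 6) ≤ Real.exp (-(3 / 2)) ^ J := by
      rw [← Real.exp_nat_mul]
      have h4 : (1 / (n : ℝ) ^ 6) = Real.exp (-(6 * Real.log n)) := by
        rw [Real.exp_neg, one_div]
        congr 1
        rw [show 6 * Real.log n = ((6 : ℕ) : ℝ) * Real.log n by norm_num, Real.exp_nat_mul,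
          Real.exp_log hn0]
      rw [h4, ← Real.exp_add]
      apply Real.exp_le_exp.mpr
      nlinarith
    have h5 : (1 / 8 : ℝ) ≤ Real.exp (-2) := by
      rw [Real.exp_neg, one_div]
      apply inv_anti₀ (Real.exp_pos _)
      have h4 : Real.exp 2 = Real.exp 1 * Real.exp 1 := by rw [← Real.exp_add]; norm_num
      rw [h4]
      have h5 := Real.exp_one_lt_d9
      have h6 := Real.exp_pos 1
      nlinarith
    have h6 : (0 : ℝ) < 1 / (n : ℝ) ^ 6 := by positivity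
    have h7 : 2 * (1 / (n : ℝ) ^ 8) ≤ 1 / 100 * (1 / (n : ℝ) ^ 6) := by
      rw [show (n : ℝ) ^ 8 = (n : ℝ) ^ 6 * (n : ℝ) ^ 2 by ring]
      have h8 : (0 : ℝ) < (n : ℝ) ^ 6 := by positivity
      have h9 : (0 : ℝ) < (n : ℝ) ^ 2 := by positivity
      have h10 : (200 : ℝ) ≤ (n : ℝ) ^ 2 := by nlinarith
      rw [show 2 * (1 / ((n : ℝ) ^ 6 * (n : ℝ) ^ 2)) = (1 / (n : ℝ) ^ 6) * (2 / (n : ℝ) ^ 2) by
        field_simp]
      rw [mul_comm (1 / 100 : ℝ)]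
      apply mul_le_mul_of_nonneg_left _ h6.le
      rw [div_le_div_iff₀ h9 (by norm_num)]
      linarith
    have h11 : 1 / 8 * (1 / (n : ℝ) ^ 6) ≤ Real.exp (-2) * (1 / (n : ℝ) ^ 6) :=
      mul_le_mul_of_nonneg_right h5 h6.le
    have h12 : 8 / 100 * (1 / 8 * (1 / (n : ℝ) ^ 6)) ≤ 8 / 100 * (29 / 100 : ℝ) ^ J := by
      apply mul_le_mul_of_nonneg_left _ (by norm_num)
      linarith
    linarith
  have hsep := cnt_sep hM y (1 / (n : ℝ) ^ 8) I hI (fun A hA B hB hAB =>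
    lt_of_le_of_lt hdeep (hIs A hA B hB hAB))
  rw [hIc] at hsep
  have hJn : J ≤ n - 1 := by
    have h1 := Finset.card_le_card hI
    rw [hIc, Nat.card_Ioo] at h1
    omega
  have h1 : (cnt n (fun E => ‖ev b d E y‖ ≤ 1 / (n : ℝ) ^ 8) : ℝ) ≤ 2 ^ (n - 1 - J) := by
    exact_mod_cast hsep
  refine h1.trans ?_
  have h2 : (2 : ℝ) ^ (n - 1) = 2 ^ (n - 1 - J) * 2 ^ J := by
    rw [← pow_add, Nat.sub_add_cancel hJn]
  have h3 : (n : ℝ) ^ 2 ≤ 2 ^ J := by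
    have h4 : (2 : ℝ) ^ J = Real.exp (J * Real.log 2) := by
      rw [Real.exp_nat_mul, Real.exp_log (by norm_num)]
    have h5 : (n : ℝ) ^ 2 = Real.exp (2 * Real.log n) := by
      rw [show 2 * Real.log n = ((2 : ℕ) : ℝ) * Real.log n by norm_num, Real.exp_nat_mul,
        Real.exp_log hn0]
    rw [h4, h5]
    apply Real.exp_le_exp.mpr
    have h6 := Real.log_two_gt_d9
    nlinarith
  have h4 : (0 : ℝ) < (n : ℝ) ^ 2 := by positivity
  have h5 : (0 : ℝ) < 2 ^ (n - 1 - J) := by positivity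
  rw [h2, one_div, inv_mul_eq_div, le_div_iff₀ h4]
  exact mul_le_mul_of_nonneg_left h3 h5.le

end Pool.Agent.Lib.MP_769d0b_pr
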