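import Pool.Agent.Lib.MP_769d0b_pr.T1a
import Pool.Agent.Lib.MP_769d0b_pr.T1b
import Pool.Agent.Lib.MP_769d0b_pr.Disc
import Pool.Agent.Lib.MP_769d0b_pr.Small

/-!
LW-T1: event (1): M(P(rx)) is large.

PROOF.
`y_j = rr n · exp(2πi j/n)`, `‖y_j‖ = rr n` (`rr n > 0`). Let `Q1 E`: some `j < n` has `‖ev b d E y_j‖ ≤ 1/n^8`; `Q2 E`: at least `t := n/(100 log n)` of the `j < n`
have `‖ev b d E y_j‖ ≤ n^(39/100)`. `cnt Q1 ≤ n · n^(-2) 2^(n-1)` (`cnt_exists`, t1b), `cnt Q2 ≤ (n · C n^(-1/100) 2^(n-1))/t = 100 C log n · n^(-1/100) 2^(n-1)` (`cnt_markov`, t1a): both tend to `0`.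
If neither holds: `β` := the number of bad `j`, `β < t`: `∏_j ‖ev y_j‖ ≥ (n^(39/100))^(n-β) (n^(-8))^β = n^(39n/100) n^(-(8+39/100)β) ≥ n^(39n/100) exp(-(8.39/100) n)`,
as `β log n ≤ n/100`. `disc_prod`: `2^n M^n ≥ ` this, so `M := mcr ≥ (1/2) exp(-0.0839) n^(39/100) ≥ 0.4 n^(39/100) ≥ n^(38/100)` for large `n`: not `Ev1`. `small_of_bound`/`small_or`/`small_mono`.
-/

set_option autoImplicit false

open Finset Polynomial

namespace Pool.Agent.Lib.MP_769d0b_pr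

open Pool.Agent.Lib.MP_7ab245_nt.Cnt Pool.Agent.Lib.MP_7ab245_nt.LogVar

/-- the points -/
private noncomputable def yj (n j : ℕ) : ℂ :=
  ((rr n : ℝ) : ℂ) * Complex.exp (2 * Real.pi * Complex.I * (j / n))

private lemma norm_yj (n j : ℕ) (h : 0 < rr n) : ‖yj n j‖ = rr n := by
  unfold yj
  rw [norm_mul, Complex.norm_real, Real.norm_of_nonneg h.le]
  have : (2 * (Real.pi : ℂ) * Complex.I * ((j : ℂ) / (n : ℂ))) =
      ((2 * Real.pi * (j / n) : ℝ) : ℂ) * Complex.I := by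
    push_cast
    ring
  rw [this, Complex.norm_exp_ofReal_mul_I, mul_one]

private def Q1 (n : ℕ) (b : ℤ[X]) (d : ℤ) (E : Finset ℕ) : Prop :=
  ∃ j ∈ range n, ‖ev b d E (yj n j)‖ ≤ 1 / (n : ℝ) ^ 8

private def Q2 (n : ℕ) (b : ℤ[X]) (d : ℤ) (E : Finset ℕ) : Prop :=
  (n : ℝ) / (100 * Real.log n) ≤
    (({j | j ∈ range n ∧ ‖ev b d E (yj n j)‖ ≤ (n : ℝ) ^ (39 / 100 : ℝ)} : Set ℕ).ncard : ℝ)

/-- facts about `n` large -/
private lemma n_large : ∃ N : ℕ, 3 ≤ N ∧ ∀ n : ℕ, N ≤ n → 81 ≤ Real.log n ∧ 0 < rr n := by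
  have h1 : ∀ᶠ n : ℕ in Filter.atTop, (81 : ℝ) ≤ Real.log (n : ℝ) :=
    (Real.tendsto_log_atTop.comp (tendsto_natCast_atTop_atTop (R := ℝ))).eventually_ge_atTop 81
  obtain ⟨N, hN⟩ := Filter.eventually_atTop.mp h1
  refine ⟨max 3 N, le_max_left _ _, fun n hn => ⟨hN n (le_trans (le_max_right _ _) hn), ?_⟩⟩
  have h3 : 3 ≤ n := le_trans (le_max_left _ _) hn
  have h3' : (3 : ℝ) ≤ n := by exact_mod_cast h3
  unfold rr dl
  have : (n : ℝ) ^ (-(4 / 5) : ℝ) < 1 :=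
    Real.rpow_lt_one_of_one_lt_of_neg (by linarith) (by norm_num)
  linarith

private lemma cover {n : ℕ} (hn3 : 3 ≤ n) (hlog : 81 ≤ Real.log n) (hr : 0 < rr n) {b : ℤ[X]}
    {d : ℤ} (h : MD n b d) {E : Finset ℕ} (hE : E ⊆ Ioo 0 n) (h1 : Ev1 n b d E) :
    Q1 n b d E ∨ Q2 n b d E := by
  classical
  by_contra hcon
  rw [not_or] at hcon
  obtain ⟨q1, q2⟩ := hcon
  have hn3' : (3 : ℝ) ≤ n := by exact_mod_cast hn3
  have hn0 : (0 : ℝ) < n := by linarith
  set L : ℝ := Real.log n with hL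
  have hL0 : 0 < L := by linarith
  unfold Q1 at q1
  push Not at q1
  unfold Q2 at q2
  rw [not_le] at q2
  set S : Finset ℕ := (range n).filter
    (fun j => ‖ev b d E (yj n j)‖ ≤ (n : ℝ) ^ (39 / 100 : ℝ)) with hS
  have hSc : ({j | j ∈ range n ∧ ‖ev b d E (yj n j)‖ ≤ (n : ℝ) ^ (39 / 100 : ℝ)} : Set ℕ).ncard =
      S.card := by
    rw [← Set.ncard_coe_finset]
    congr 1
    ext j
    simp [hS]
  rw [hSc] at q2
  have q2' : (S.card : ℝ) * L ≤ n / 100 := by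
    have : (S.card : ℝ) * (100 * L) ≤ n := by
      rw [lt_div_iff₀ (by positivity)] at q2
      exact q2.le
    linarith
  -- the logarithms
  have hpos : ∀ j ∈ range n, 0 < ‖ev b d E (yj n j)‖ := by
    intro j hj
    refine lt_trans ?_ (q1 j hj)
    positivity
  have hlogj : ∀ j ∈ range n, 39 / 100 * L - (if j ∈ S then (8 + 39 / 100) * L else 0) ≤
      Real.log ‖ev b d E (yj n j)‖ := by
    intro j hj
    by_cases hjS : j ∈ S
    · rw [if_pos hjS]
      have := Real.log_le_log (by positivity) (q1 j hj).le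
      rw [one_div, Real.log_inv, Real.log_pow] at this
      push_cast at this
      linarith
    · rw [if_neg hjS]
      have h2 : (n : ℝ) ^ (39 / 100 : ℝ) < ‖ev b d E (yj n j)‖ := by
        by_contra h3
        exact hjS (by rw [hS, Finset.mem_filter]; exact ⟨hj, not_lt.mp h3⟩)
      have := Real.log_le_log (by positivity) h2.le
      rw [Real.log_rpow hn0] at this
      linarith
  have hsum : (n : ℝ) * (39 / 100 * L) - S.card * ((8 + 39 / 100) * L) ≤
      Real.log (∏ j ∈ range n, ‖ev b d E (yj n j)‖) := by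
    rw [Real.log_prod (fun j hj => (hpos j hj).ne')]
    refine le_trans (le_of_eq ?_) (Finset.sum_le_sum hlogj)
    rw [Finset.sum_sub_distrib, Finset.sum_const, Finset.card_range, nsmul_eq_mul,
      ← Finset.sum_filter, Finset.sum_const, nsmul_eq_mul]
    congr 3
    rw [Finset.filter_mem_eq_inter, Finset.inter_eq_right.mpr (Finset.filter_subset _ _)]
  have hcx := h.cx_facts hE
  have hdisc := disc_prod (cx (PE b d E)) n (by omega) hcx.2.2.2.1.le (rr n) hr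
  have hM0 : 0 ≤ mcr (cx (PE b d E)) 0 (rr n) := by
    unfold mcr
    exact Polynomial.mahlerMeasure_nonneg _
  have hprod : ∏ j ∈ range n, ‖ev b d E (yj n j)‖ ≤ 2 ^ n * ((n : ℝ) ^ (38 / 100 : ℝ)) ^ n := by
    refine le_trans hdisc ?_
    refine mul_le_mul_of_nonneg_left ?_ (by positivity)
    exact pow_le_pow_left₀ hM0 (le_of_lt h1) n
  have hlogprod := Real.log_le_log (Finset.prod_pos hpos) hprod
  rw [Real.log_mul (by positivity) (by positivity), Real.log_pow, Real.log_pow,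
    Real.log_rpow hn0, ← hL] at hlogprod
  have hlog2 : Real.log 2 < 0.7 := by
    have := Real.log_two_lt_d9
    linarith
  have hfin := hsum.trans hlogprod
  have e1 : (n : ℝ) * (1 / 100 * L) ≤ n * Real.log 2 + (8 + 39 / 100) * (S.card * L) := by
    linarith
  have e2 : (n : ℝ) * (1 / 100 * L) ≤ n * 0.7 + (8 + 39 / 100) * (n / 100) := by
    nlinarith
  have e3 : 1 / 100 * L ≤ 0.7 + (8 + 39 / 100) / 100 := by
    have : (n : ℝ) * (1 / 100 * L) ≤ n * (0.7 + (8 + 39 / 100) / 100) := by linarith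
    exact le_of_mul_le_mul_left this hn0
  linarith

theorem small1 : small Ev1 := by
  obtain ⟨N₀, hN₀3, hN₀⟩ := n_large
  obtain ⟨C, N₁, hC, hN₁⟩ := t1a
  obtain ⟨N₂, hN₂⟩ := t1b
  have s1 : small Q1 := by
    refine small_of_bound Q1 (fun n => 1 / (n : ℝ)) tendsto_one_div_atTop_nhds_zero_nat
      (max N₀ N₂) fun n hn b d hM => ?_
    obtain ⟨hl, hr⟩ := hN₀ n (le_trans (le_max_left _ _) hn)
    have hn3 : 3 ≤ n := hN₀3.trans (le_trans (le_max_left _ _) hn)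
    have hn3' : (3 : ℝ) ≤ n := by exact_mod_cast hn3
    have h1 : cnt n (Q1 n b d) ≤
        ∑ j ∈ range n, cnt n (fun E => ‖ev b d E (yj n j)‖ ≤ 1 / (n : ℝ) ^ 8) :=
      cnt_exists n (range n) (fun j E => ‖ev b d E (yj n j)‖ ≤ 1 / (n : ℝ) ^ 8)
    calc (cnt n (Q1 n b d) : ℝ)
        ≤ ((∑ j ∈ range n, cnt n (fun E => ‖ev b d E (yj n j)‖ ≤ 1 / (n : ℝ) ^ 8) : ℕ) : ℝ) := by
          exact_mod_cast h1
      _ = ∑ j ∈ range n, (cnt n (fun E => ‖ev b d E (yj n j)‖ ≤ 1 / (n : ℝ) ^ 8) : ℝ) := by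
          push_cast; rfl
      _ ≤ ∑ _j ∈ range n, 1 / (n : ℝ) ^ 2 * 2 ^ (n - 1) :=
          Finset.sum_le_sum fun j _ => hN₂ n (le_trans (le_max_right _ _) hn) b d hM (yj n j)
            (norm_yj n j hr)
      _ = 1 / (n : ℝ) * 2 ^ (n - 1) := by
          rw [Finset.sum_const, Finset.card_range, nsmul_eq_mul]
          field_simp
  have s2 : small Q2 := by
    refine small_of_bound Q2 (fun n => 100 * C * (Real.log n * (n : ℝ) ^ (-(1 / 100) : ℝ))) ?_
      (max N₀ N₁) fun n hn b d hM => ?_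
    · have h1 : Filter.Tendsto (fun x : ℝ => Real.log x / x ^ (1 / 100 : ℝ)) Filter.atTop
          (nhds 0) := (isLittleO_log_rpow_atTop (by norm_num)).tendsto_div_nhds_zero
      have h2 := (h1.comp (tendsto_natCast_atTop_atTop (R := ℝ))).const_mul (100 * C)
      rw [mul_zero] at h2
      refine h2.congr fun n => ?_
      simp only [Function.comp]
      rw [Real.rpow_neg (Nat.cast_nonneg n), div_eq_mul_inv]
    · obtain ⟨hl, hr⟩ := hN₀ n (le_trans (le_max_left _ _) hn)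
      have hn3 : 3 ≤ n := hN₀3.trans (le_trans (le_max_left _ _) hn)
      have hn3' : (3 : ℝ) ≤ n := by exact_mod_cast hn3
      have hn0 : (0 : ℝ) < n := by linarith
      have hl0 : 0 < Real.log n := by linarith
      have ht : 0 < (n : ℝ) / (100 * Real.log n) := by positivity
      have h1 := cnt_markov n (range n)
        (fun j E => ‖ev b d E (yj n j)‖ ≤ (n : ℝ) ^ (39 / 100 : ℝ)) ((n : ℝ) / (100 * Real.log n)) ht
      have h2 : ∑ j ∈ range n,
          (cnt n (fun E => ‖ev b d E (yj n j)‖ ≤ (n : ℝ) ^ (39 / 100 : ℝ)) : ℝ) ≤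
          n * (C * (n : ℝ) ^ (-(1 / 100) : ℝ) * 2 ^ (n - 1)) := by
        calc ∑ j ∈ range n,
          (cnt n (fun E => ‖ev b d E (yj n j)‖ ≤ (n : ℝ) ^ (39 / 100 : ℝ)) : ℝ)
            ≤ ∑ _j ∈ range n, C * (n : ℝ) ^ (-(1 / 100) : ℝ) * 2 ^ (n - 1) :=
              Finset.sum_le_sum fun j _ => hN₁ n (le_trans (le_max_right _ _) hn) b d hM (yj n j)
                (norm_yj n j hr)
          _ = n * (C * (n : ℝ) ^ (-(1 / 100) : ℝ) * 2 ^ (n - 1)) := by
              rw [Finset.sum_const, Finset.card_range, nsmul_eq_mul]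
      have h3 : (n : ℝ) / (100 * Real.log n) * (cnt n (Q2 n b d) : ℝ) ≤
          n * (C * (n : ℝ) ^ (-(1 / 100) : ℝ) * 2 ^ (n - 1)) := h1.trans h2
      have h4 : (n : ℝ) / (100 * Real.log n) * (100 * C * (Real.log n *
          (n : ℝ) ^ (-(1 / 100) : ℝ)) * 2 ^ (n - 1)) =
          n * (C * (n : ℝ) ^ (-(1 / 100) : ℝ) * 2 ^ (n - 1)) := by
        field_simp
      rw [← h4] at h3
      exact le_of_mul_le_mul_left h3 ht
  refine small_mono N₀ (fun n hn b d hM E hE hEv => ?_) (small_or s1 s2)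
  obtain ⟨hl, hr⟩ := hN₀ n hn
  exact cover (hN₀3.trans hn) hl hr hM hE hEv

end Pool.Agent.Lib.MP_769d0b_pr
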