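import Pool.Agent.Lib.MP_769d0b_pr.T2a
import Pool.Agent.Lib.MP_769d0b_pr.Taylor
import Pool.Agent.Lib.MP_769d0b_pr.Small

/-!
LW-T2: event (2): no nearly double zeros in the good zone.

PROOF.
Grid: `S = Icc (-n^25) (n^25) ×ˢ Icc (-n^25) (n^25)` (integers), `y_{a,c} = (a + i c)/n^25`; `|S| = (2n^25+1)² ≤ 9 n^50`. Let `Q_{a,c} E`: `y = y_{a,c}` satisfies
`1 - 2/10^4 ≤ ‖y‖ ≤ 1 - dl n/2`, `49(1-‖y‖) ≤ |Im y|` and `‖ev b d E y‖ ≤ 1/n^46`. By t2a `cnt (∃ ∈ S) ≤ 9n^50 · n^(-51) 2^(n-1) = (9/n) 2^(n-1)`, tends to `0`.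
If `Ev2` holds with `z`: `a = ⌊n^25 Re z⌋`, `c = ⌊n^25 Im z⌋` (in range as `‖z‖ < 1`), `‖y - z‖ ≤ 2/n^25`. `h := 1/n^25`. `‖y‖ ≤ ‖z‖ + 2h ≤ 1 - δ + 2h ≤ 1 - δ/2`; `‖y‖ ≥ 1 - 1/10^4 - 2h ≥ 1 - 2/10^4`;
`|Im y| ≥ |Im z| - 2h ≥ 50(1-‖z‖) - 2h ≥ 50(1 - ‖y‖ - 2h) - 2h ≥ 49(1-‖y‖)` as `1 - ‖y‖ ≥ δ/2 ≥ 102 h`. `taylor2`: `‖ev y‖ ≤ ‖ev' z‖ ‖y-z‖ + n³‖y-z‖² ≤ 2h² + 4 n³ h² ≤ 5 n^(-47)... `
precisely `2 n^(-50) + 4 n^(-47) ≤ n^(-46)` for `n ≥ 6`. So some `Q_{a,c}` holds.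
-/

set_option autoImplicit false

open Finset Polynomial

namespace Pool.Agent.Lib.MP_769d0b_pr

open Pool.Agent.Lib.MP_7ab245_nt.Cnt Pool.Agent.Lib.MP_7ab245_nt.LogVar

private noncomputable def gp (n : ℕ) (p : ℤ × ℤ) : ℂ :=
  ⟨(p.1 : ℝ) / (n : ℝ) ^ 25, (p.2 : ℝ) / (n : ℝ) ^ 25⟩

private noncomputable def gS (n : ℕ) : Finset (ℤ × ℤ) :=
  Icc (-(n : ℤ) ^ 25) ((n : ℤ) ^ 25) ×ˢ Icc (-(n : ℤ) ^ 25) ((n : ℤ) ^ 25)

private def gQ (n : ℕ) (b : ℤ[X]) (d : ℤ) (p : ℤ × ℤ) (E : Finset ℕ) : Prop :=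
  1 - 2 / 10 ^ 4 ≤ ‖gp n p‖ ∧ ‖gp n p‖ ≤ 1 - dl n / 2 ∧ 49 * (1 - ‖gp n p‖) ≤ |(gp n p).im| ∧
    ‖ev b d E (gp n p)‖ ≤ 1 / (n : ℝ) ^ 46

private lemma gS_card (n : ℕ) (hn : 1 ≤ n) : ((gS n).card : ℝ) ≤ 9 * (n : ℝ) ^ 50 := by
  have h1 : (Icc (-(n : ℤ) ^ 25) ((n : ℤ) ^ 25)).card = 2 * n ^ 25 + 1 := by
    rw [Int.card_Icc]
    have : (n : ℤ) ^ 25 + 1 - -(n : ℤ) ^ 25 = ((2 * n ^ 25 + 1 : ℕ) : ℤ) := by
      push_cast
      ring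
    rw [this, Int.toNat_natCast]
  unfold gS
  rw [card_product, h1]
  push_cast
  have h2 : (1 : ℝ) ≤ (n : ℝ) ^ 25 := one_le_pow₀ (by exact_mod_cast hn)
  have h3 : (n : ℝ) ^ 50 = ((n : ℝ) ^ 25) ^ 2 := by ring
  rw [h3]
  nlinarith

private lemma floor_close (M x : ℝ) (hM : 0 < M) : |(⌊M * x⌋ : ℝ) / M - x| ≤ 1 / M := by
  have h1 := Int.floor_le (M * x)
  have h2 := Int.lt_floor_add_one (M * x)
  rw [abs_le]
  constructor
  · rw [neg_le, neg_sub, sub_le_iff_le_add, ← add_div, le_div_iff₀ hM]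
    linarith
  · rw [sub_le_iff_le_add, div_le_iff₀ hM, add_mul, one_div, inv_mul_cancel₀ hM.ne']
    linarith

private lemma floor_range (n : ℕ) (x : ℝ) (hx : |x| ≤ 1) :
    ⌊(n : ℝ) ^ 25 * x⌋ ∈ Icc (-(n : ℤ) ^ 25) ((n : ℤ) ^ 25) := by
  have hM : (0 : ℝ) ≤ (n : ℝ) ^ 25 := by positivity
  rw [abs_le] at hx
  rw [mem_Icc]
  constructor
  · rw [Int.le_floor]
    push_cast
    nlinarith
  · have h1 := Int.floor_le ((n : ℝ) ^ 25 * x)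
    have h2 : (n : ℝ) ^ 25 * x ≤ (n : ℝ) ^ 25 := by nlinarith
    have h3 : ((⌊(n : ℝ) ^ 25 * x⌋ : ℤ) : ℝ) ≤ (((n : ℤ) ^ 25 : ℤ) : ℝ) := by
      push_cast
      linarith
    exact_mod_cast h3

private lemma ev2_gQ (n : ℕ) (hn : 10 ≤ n) (b : ℤ[X]) (d : ℤ) (hM : MD n b d) (E : Finset ℕ)
    (hE : E ⊆ Ioo 0 n) (h : Ev2 n b d E) : ∃ p ∈ gS n, gQ n b d p E := by
  obtain ⟨z, ⟨hz1, hz2, hz3⟩, hz4, hz5⟩ := h
  have hnR : (10 : ℝ) ≤ n := by exact_mod_cast hn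
  have hn0 : (0 : ℝ) < n := by linarith
  have hn1 : (1 : ℝ) ≤ n := by linarith
  set M : ℝ := (n : ℝ) ^ 25 with hMdef
  have hM0 : 0 < M := by positivity
  have hdl : 1 / (n : ℝ) ≤ dl n := by
    unfold dl
    rw [one_div, ← Real.rpow_neg_one]
    exact Real.rpow_le_rpow_of_exponent_le hn1 (by norm_num)
  have hMn : (10 : ℝ) ^ 24 * n ≤ M := by
    have : M = (n : ℝ) ^ 24 * n := by rw [hMdef]; ring
    rw [this]
    gcongr
  have hM25 : (10 : ℝ) ^ 25 ≤ M := by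
    rw [hMdef]
    gcongr
  have hh1 : 1 / M ≤ dl n / 10 ^ 24 := by
    refine le_trans ?_ (div_le_div_of_nonneg_right hdl (by positivity))
    rw [div_div]
    apply one_div_le_one_div_of_le (by positivity)
    linarith
  have hh2 : 1 / M ≤ 1 / 10 ^ 25 := one_div_le_one_div_of_le (by positivity) hM25
  have hh0 : 0 < 1 / M := by positivity
  have hdl1 : dl n ≤ 1 := by
    unfold dl
    exact Real.rpow_le_one_of_one_le_of_nonpos hn1 (by norm_num)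
  unfold rr at hz2
  have hdl0 : 0 < dl n := Real.rpow_pos_of_pos hn0 _
  have hzn : ‖z‖ ≤ 1 := by linarith
  set p : ℤ × ℤ := (⌊M * z.re⌋, ⌊M * z.im⌋) with hp
  have hre := Complex.abs_re_le_norm z
  have him := Complex.abs_im_le_norm z
  have hpS : p ∈ gS n := by
    unfold gS
    rw [mem_product]
    exact ⟨floor_range n _ (hre.trans hzn), floor_range n _ (him.trans hzn)⟩
  have hyre : |(gp n p - z).re| ≤ 1 / M := by
    have := floor_close M z.re hM0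
    simpa [gp, hp] using this
  have hyim : |(gp n p - z).im| ≤ 1 / M := by
    have := floor_close M z.im hM0
    simpa [gp, hp] using this
  have hyz : ‖gp n p - z‖ ≤ 2 * (1 / M) := by
    have := Complex.norm_le_abs_re_add_abs_im (gp n p - z)
    linarith
  set y := gp n p with hy
  have hn1' : ‖y‖ ≤ ‖z‖ + 2 * (1 / M) := by
    have := norm_sub_norm_le y z
    linarith
  have hn2' : ‖z‖ - 2 * (1 / M) ≤ ‖y‖ := by
    have := norm_sub_norm_le z y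
    rw [norm_sub_rev] at this
    linarith
  have him2 : |z.im| - 1 / M ≤ |y.im| := by
    have h1 : |z.im| ≤ |y.im| + |(y - z).im| := by
      have : z.im = y.im - (y - z).im := by simp
      rw [this]
      exact abs_sub _ _
    linarith
  have hyn : ‖y‖ ≤ 1 - dl n / 2 := by
    have : 2 * (1 / M) ≤ dl n / 2 := by
      have : dl n / 10 ^ 24 ≤ dl n / 4 := by
        gcongr
        norm_num
      linarith
    linarith
  refine ⟨p, hpS, ?_, hyn, ?_, ?_⟩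
  · have : (1 : ℝ) / 10 ^ 25 ≤ 1 / (2 * 10 ^ 4) := by norm_num
    linarith
  · have h1 : dl n / 10 ^ 24 ≤ dl n / 1000 := by
      gcongr
      norm_num
    have h2 : 1 / M ≤ dl n / 1000 := hh1.trans h1
    nlinarith
  · have hyn1 : ‖y‖ ≤ 1 := by linarith
    have h1 := taylor2 hM hE y z hyn1 hzn
    rw [hz4, sub_zero] at h1
    have h2 : ‖ev b d E y‖ ≤ ‖ev' b d E z * (y - z)‖ + (n : ℝ) ^ 3 * ‖y - z‖ ^ 2 := by
      have := norm_sub_norm_le (ev b d E y) (ev' b d E z * (y - z))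
      linarith
    rw [norm_mul] at h2
    have h3 : ‖ev' b d E z‖ * ‖y - z‖ ≤ (1 / M) * (2 * (1 / M)) := by
      gcongr
    have h4 : (n : ℝ) ^ 3 * ‖y - z‖ ^ 2 ≤ (n : ℝ) ^ 3 * (2 * (1 / M)) ^ 2 := by
      gcongr
    have h5 : (1 / M) * (2 * (1 / M)) + (n : ℝ) ^ 3 * (2 * (1 / M)) ^ 2 =
        (2 + 4 * (n : ℝ) ^ 3) / (n : ℝ) ^ 50 := by
      rw [hMdef]
      field_simp
      ring
    have h6 : (2 + 4 * (n : ℝ) ^ 3) / (n : ℝ) ^ 50 ≤ 1 / (n : ℝ) ^ 46 := by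
      rw [div_le_div_iff₀ (by positivity) (by positivity)]
      have h7 : (n : ℝ) ^ 50 = (n : ℝ) ^ 4 * (n : ℝ) ^ 46 := by ring
      rw [h7, one_mul]
      gcongr
      have h8 : (n : ℝ) ^ 4 = n * (n : ℝ) ^ 3 := by ring
      have h9 : (1 : ℝ) ≤ (n : ℝ) ^ 3 := one_le_pow₀ hn1
      nlinarith
    linarith

theorem small2 : small Ev2 := by
  obtain ⟨Na, hNa⟩ := t2a
  apply small_of_bound Ev2 (fun n => 9 / (n : ℝ)) (tendsto_const_div_atTop_nhds_zero_nat 9)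
    (max Na 10)
  intro n hn b d hM
  have hn10 : 10 ≤ n := (le_max_right _ _).trans hn
  have hnNa : Na ≤ n := (le_max_left _ _).trans hn
  have hnR : (10 : ℝ) ≤ n := by exact_mod_cast hn10
  have hn0 : (0 : ℝ) < n := by linarith
  have h1 : cnt n (Ev2 n b d) ≤ cnt n (fun E => ∃ p ∈ gS n, gQ n b d p E) :=
    cnt_mono (fun E hE hQ => ev2_gQ n hn10 b d hM E hE hQ)
  have h2 := h1.trans (cnt_exists n (gS n) (gQ n b d))
  have h3 : ∀ p ∈ gS n, (cnt n (gQ n b d p) : ℝ) ≤ 1 / (n : ℝ) ^ 51 * 2 ^ (n - 1) := by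
    intro p _
    by_cases hc : 1 - 2 / 10 ^ 4 ≤ ‖gp n p‖ ∧ ‖gp n p‖ ≤ 1 - dl n / 2 ∧
        49 * (1 - ‖gp n p‖) ≤ |(gp n p).im|
    · have h4 := hNa n hnNa b d hM (gp n p) hc.1 hc.2.1 hc.2.2
      refine le_trans ?_ h4
      have h5 : cnt n (gQ n b d p) ≤ cnt n (fun E => ‖ev b d E (gp n p)‖ ≤ 1 / (n : ℝ) ^ 46) :=
        cnt_mono (fun E _ hQ => hQ.2.2.2)
      exact_mod_cast h5
    · have h5 : cnt n (gQ n b d p) = 0 := by
        unfold cnt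
        have : {E : Finset ℕ | E ⊆ Ioo 0 n ∧ gQ n b d p E} = ∅ := by
          ext E
          simp only [Set.mem_ofPred_eq, Set.mem_empty_iff_false, iff_false, not_and]
          intro _ hQ
          exact hc ⟨hQ.1, hQ.2.1, hQ.2.2.1⟩
        rw [this, Set.ncard_empty]
      rw [h5, Nat.cast_zero]
      positivity
  calc (cnt n (Ev2 n b d) : ℝ) ≤ ((∑ i ∈ gS n, cnt n (gQ n b d i) : ℕ) : ℝ) := by exact_mod_cast h2
    _ = ∑ i ∈ gS n, (cnt n (gQ n b d i) : ℝ) := by push_cast; rfl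
    _ ≤ (gS n).card • (1 / (n : ℝ) ^ 51 * 2 ^ (n - 1)) := sum_le_card_nsmul _ _ _ h3
    _ = (gS n).card * (1 / (n : ℝ) ^ 51 * 2 ^ (n - 1)) := by rw [nsmul_eq_mul]
    _ ≤ 9 * (n : ℝ) ^ 50 * (1 / (n : ℝ) ^ 51 * 2 ^ (n - 1)) := by
        have := gS_card n (by omega)
        gcongr
    _ = 9 / (n : ℝ) * 2 ^ (n - 1) := by
        field_simp

end Pool.Agent.Lib.MP_769d0b_pr
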