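import Pool.Agent.Lib.MP_769d0b_pr.Sep
import Pool.Agent.Lib.MP_769d0b_pr.Small

/-!
LW-T3: event (3): P(1/2), P(-1/2) are not small.

PROOF.
For `y = ±1/2` and `I = Icc 1 J`, `J ≤ n - 1`: for `A ≠ B ⊆ I` let `k₀` be the smallest element of the symmetric difference: `‖∑_A y^k - ∑_B y^k‖ ≥ 2^(-k₀) - ∑_{k₀<k≤J} 2^(-k) = 2^(-J)`.
So with `2ρ < 2^(-J)`, `cnt_sep`: `cnt(‖ev y‖ ≤ ρ) ≤ 2^(n-1-J)`. `ρ = n^(-1/400)`, `J = ⌊log₂(n^(1/400))⌋ - 2` (as natural number; `n` large; e.g. `J = ⌊(1/400) log n/log 2⌋₊ - 2`):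
`2^(-J) ≥ 4 n^(-1/400)` and `2^(-J) ≤ 8 n^(-1/400)`, tends to `0`. `small_of_bound` with `f n = 16 n^(-1/400)` (`cnt_or`).
-/

set_option autoImplicit false

open Finset Polynomial

namespace Pool.Agent.Lib.MP_769d0b_pr

open Pool.Agent.Lib.MP_7ab245_nt.Cnt Pool.Agent.Lib.MP_7ab245_nt.LogVar

private theorem sum_half (a J : ℕ) (h : a ≤ J) :
    ∑ k ∈ Ioc a J, (1 / 2 : ℝ) ^ k = (1 / 2 : ℝ) ^ a - (1 / 2 : ℝ) ^ J := by
  induction J, h using Nat.le_induction with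
  | base => simp
  | succ m hm ih =>
    rw [Finset.sum_Ioc_succ_top hm, ih, pow_succ]
    ring

/-- the powers of `±1/2` separate the subsets of `Icc 1 J` -/
private theorem sep_half (y : ℂ) (hy : ‖y‖ = 1 / 2) (J : ℕ) :
    ∀ A, A ⊆ Icc 1 J → ∀ B, B ⊆ Icc 1 J → A ≠ B →
      (1 / 2 : ℝ) ^ J ≤ ‖∑ k ∈ A, y ^ k - ∑ k ∈ B, y ^ k‖ := by
  intro A hA B hB hAB
  classical
  -- the symmetric difference
  have hne : ((A \ B) ∪ (B \ A)).Nonempty := by
    rw [Finset.nonempty_iff_ne_empty]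
    intro h0
    rw [Finset.union_eq_empty, Finset.sdiff_eq_empty_iff_subset,
      Finset.sdiff_eq_empty_iff_subset] at h0
    exact hAB (Finset.Subset.antisymm h0.1 h0.2)
  set D : Finset ℕ := (A \ B) ∪ (B \ A) with hD
  set k₀ : ℕ := D.min' hne with hk₀
  have hk₀D : k₀ ∈ D := Finset.min'_mem _ _
  set e : ℕ → ℂ := fun k => (if k ∈ A then 1 else 0) - (if k ∈ B then 1 else 0) with he
  have hDI : D ⊆ Icc 1 J := by
    intro k hk
    rw [hD, Finset.mem_union, Finset.mem_sdiff, Finset.mem_sdiff] at hk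
    rcases hk with hk | hk
    · exact hA hk.1
    · exact hB hk.1
  have h1 : ∑ k ∈ A, y ^ k - ∑ k ∈ B, y ^ k = ∑ k ∈ D, e k * y ^ k := by
    have h2 : ∀ S : Finset ℕ, S ⊆ Icc 1 J → ∑ k ∈ S, y ^ k =
        ∑ k ∈ Icc 1 J, (if k ∈ S then 1 else 0) * y ^ k := by
      intro S hS
      have h3 : ∀ k, ((if k ∈ S then 1 else 0) * y ^ k : ℂ) = if k ∈ S then y ^ k else 0 := by
        intro k; split_ifs <;> simp
      simp_rw [h3]
      rw [← Finset.sum_filter]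
      congr 1
      ext k
      rw [Finset.mem_filter]
      exact ⟨fun h => ⟨hS h, h⟩, fun h => h.2⟩
    rw [h2 A hA, h2 B hB, ← Finset.sum_sub_distrib]
    have h4 : ∑ k ∈ Icc 1 J, ((if k ∈ A then 1 else 0) * y ^ k - (if k ∈ B then 1 else 0) * y ^ k)
        = ∑ k ∈ Icc 1 J, e k * y ^ k := by
      apply Finset.sum_congr rfl
      intro k _
      rw [he]; ring
    rw [h4]
    symm
    apply Finset.sum_subset hDI
    intro k _ hk
    have h5 : e k = 0 := by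
      rw [hD, Finset.mem_union, Finset.mem_sdiff, Finset.mem_sdiff] at hk
      simp only [he]
      by_cases hkA : k ∈ A <;> by_cases hkB : k ∈ B <;> simp_all
    rw [h5, zero_mul]
  have heD : ∀ k ∈ D, ‖e k‖ = 1 := by
    intro k hk
    rw [hD, Finset.mem_union, Finset.mem_sdiff, Finset.mem_sdiff] at hk
    simp only [he]
    rcases hk with ⟨h5, h6⟩ | ⟨h5, h6⟩ <;> simp [h5, h6]
  rw [h1, ← Finset.add_sum_erase D (fun k => e k * y ^ k) hk₀D]
  have h6 : ‖∑ k ∈ D.erase k₀, e k * y ^ k‖ ≤ ∑ k ∈ D.erase k₀, (1 / 2 : ℝ) ^ k := by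
    refine (norm_sum_le _ _).trans (Finset.sum_le_sum fun k hk => ?_)
    rw [norm_mul, norm_pow, hy, heD k (Finset.mem_of_mem_erase hk), one_mul]
  have h7 : ∑ k ∈ D.erase k₀, (1 / 2 : ℝ) ^ k ≤ ∑ k ∈ Ioc k₀ J, (1 / 2 : ℝ) ^ k := by
    apply Finset.sum_le_sum_of_subset_of_nonneg
    · intro k hk
      rw [Finset.mem_Ioc]
      have h8 := Finset.mem_of_mem_erase hk
      have h9 : k₀ ≤ k := Finset.min'_le _ _ h8
      have h10 : k ≠ k₀ := Finset.ne_of_mem_erase hk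
      have h11 := Finset.mem_Icc.mp (hDI h8)
      omega
    · intro k _ _
      positivity
  have hk₀J : k₀ ≤ J := (Finset.mem_Icc.mp (hDI hk₀D)).2
  have h8 := sum_half k₀ J hk₀J
  have h9 : ‖e k₀ * y ^ k₀‖ = (1 / 2 : ℝ) ^ k₀ := by
    rw [norm_mul, norm_pow, hy, heD k₀ hk₀D, one_mul]
  have h10 := norm_sub_norm_le (e k₀ * y ^ k₀) (-∑ k ∈ D.erase k₀, e k * y ^ k)
  rw [norm_neg, sub_neg_eq_add] at h10
  linarith

theorem small3 : small Ev3 := by
  have hT : Filter.Tendsto (fun n : ℕ => (n : ℝ) ^ (1 / 400 : ℝ)) Filter.atTop Filter.atTop :=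
    (tendsto_rpow_atTop (show (0 : ℝ) < 1 / 400 by norm_num)).comp tendsto_natCast_atTop_atTop
  obtain ⟨N₀, hN₀⟩ := Filter.eventually_atTop.mp (hT.eventually (Filter.eventually_ge_atTop 4))
  apply small_of_bound Ev3 (fun n => 16 * (n : ℝ) ^ (-(1 / 400) : ℝ)) ?_ (max N₀ 1)
  · intro n hn b d hM
    have hn1' : 1 ≤ n := le_trans (le_max_right _ _) hn
    have hn1 : (1 : ℝ) ≤ n := by exact_mod_cast hn1'
    have hn0 : (0 : ℝ) < n := by linarith
    have ht4 := hN₀ n (le_trans (le_max_left _ _) hn)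
    set t : ℝ := (n : ℝ) ^ (1 / 400 : ℝ) with ht
    have ht0 : 0 < t := by linarith
    have htn : t ≤ n := by
      calc t ≤ (n : ℝ) ^ (1 : ℝ) := Real.rpow_le_rpow_of_exponent_le hn1 (by norm_num)
        _ = n := Real.rpow_one _
    have htinv : (n : ℝ) ^ (-(1 / 400) : ℝ) = 1 / t := by
      rw [Real.rpow_neg hn0.le, ← ht, inv_eq_one_div]
    set m : ℕ := ⌊t⌋₊ with hm
    have hm4 : 4 ≤ m := Nat.le_floor (by exact_mod_cast ht4)
    have hmt : (m : ℝ) ≤ t := Nat.floor_le ht0.le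
    have htm : t < m + 1 := Nat.lt_floor_add_one t
    have hL2 : 2 ≤ Nat.log 2 m := by
      have h1 : Nat.log 2 4 ≤ Nat.log 2 m := Nat.log_mono_right hm4
      have h2 : Nat.log 2 4 = 2 := by
        rw [show (4 : ℕ) = 2 ^ 2 by norm_num, Nat.log_pow (by norm_num)]
      omega
    obtain ⟨J, hJ⟩ : ∃ J, Nat.log 2 m = J + 2 := ⟨Nat.log 2 m - 2, by omega⟩
    have h2a : (2 : ℝ) ^ (J + 2) ≤ t := by
      have h1 : 2 ^ Nat.log 2 m ≤ m := Nat.pow_log_le_self 2 (by omega)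
      rw [hJ] at h1
      have h2 : ((2 : ℝ) ^ (J + 2)) ≤ m := by exact_mod_cast h1
      linarith
    have h2b : t ≤ 8 * 2 ^ J := by
      have h1 := Nat.lt_pow_succ_log_self (b := 2) (by norm_num) m
      rw [hJ] at h1
      have h2 : m + 1 ≤ 2 ^ (J + 2 + 1) := h1
      have h3 : ((m : ℝ) + 1) ≤ 2 ^ (J + 2 + 1) := by exact_mod_cast h2
      rw [pow_succ, pow_succ, pow_succ] at h3
      linarith
    have hJn : J < n := by
      have h1 : J < 2 ^ J := Nat.lt_two_pow_self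
      have h2 : ((J : ℝ)) < 2 ^ J := by exact_mod_cast h1
      have h3 : (2 : ℝ) ^ J ≤ 2 ^ (J + 2) := pow_le_pow_right₀ (by norm_num) (by omega)
      have h4 : (J : ℝ) < n := by linarith
      exact_mod_cast h4
    have hI : Icc 1 J ⊆ Ioo 0 n := by
      intro k hk
      rw [Finset.mem_Icc] at hk
      rw [Finset.mem_Ioo]
      omega
    have key : ∀ y : ℂ, ‖y‖ = 1 / 2 →
        (cnt n (fun E => ‖ev b d E y‖ < (n : ℝ) ^ (-(1 / 400) : ℝ)) : ℝ) ≤
          8 * (n : ℝ) ^ (-(1 / 400) : ℝ) * 2 ^ (n - 1) := by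
      intro y hy
      have h1 := cnt_sep hM y ((n : ℝ) ^ (-(1 / 400) : ℝ)) (Icc 1 J) hI (by
        intro A hA B hB hAB
        refine lt_of_lt_of_le ?_ (sep_half y hy J A hA B hB hAB)
        rw [htinv, one_div_pow, mul_one_div, div_lt_div_iff₀ ht0 (by positivity), one_mul]
        rw [pow_succ, pow_succ] at h2a
        have : (0 : ℝ) < 2 ^ J := by positivity
        linarith)
      have h2 : cnt n (fun E => ‖ev b d E y‖ < (n : ℝ) ^ (-(1 / 400) : ℝ)) ≤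
          cnt n (fun E => ‖ev b d E y‖ ≤ (n : ℝ) ^ (-(1 / 400) : ℝ)) :=
        cnt_mono fun E _ h => le_of_lt h
      have h3 : (cnt n (fun E => ‖ev b d E y‖ < (n : ℝ) ^ (-(1 / 400) : ℝ)) : ℝ) ≤
          2 ^ (n - 1 - (Icc 1 J).card) := by exact_mod_cast h2.trans h1
      refine h3.trans ?_
      rw [Nat.card_Icc, Nat.add_sub_cancel, pow_sub₀ (2 : ℝ) (by norm_num) (by omega), htinv,
        mul_comm]
      have h4 : ((2 : ℝ) ^ J)⁻¹ ≤ 8 * (1 / t) := by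
        rw [mul_one_div, inv_eq_one_div, div_le_div_iff₀ (by positivity) ht0, one_mul]
        exact h2b
      gcongr
    have h1 := cnt_or n (fun E => ‖ev b d E (1 / 2)‖ < (n : ℝ) ^ (-(1 / 400) : ℝ))
      (fun E => ‖ev b d E (-(1 / 2))‖ < (n : ℝ) ^ (-(1 / 400) : ℝ))
    have h2 : (cnt n (Ev3 n b d) : ℝ) ≤
        cnt n (fun E => ‖ev b d E (1 / 2)‖ < (n : ℝ) ^ (-(1 / 400) : ℝ)) +
        cnt n (fun E => ‖ev b d E (-(1 / 2))‖ < (n : ℝ) ^ (-(1 / 400) : ℝ)) := by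
      exact_mod_cast h1
    have h3 := key (1 / 2) (by norm_num)
    have h4 := key (-(1 / 2)) (by rw [norm_neg]; norm_num)
    linarith
  · have h1 : Filter.Tendsto (fun n : ℕ => (n : ℝ) ^ (-(1 / 400) : ℝ)) Filter.atTop (nhds 0) :=
      (tendsto_rpow_neg_atTop (show (0 : ℝ) < 1 / 400 by norm_num)).comp
        tendsto_natCast_atTop_atTop
    have h2 := h1.const_mul 16
    rw [mul_zero] at h2
    exact h2

end Pool.Agent.Lib.MP_769d0b_pr
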