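import Pool.Agent.Lib.MP_769d0b_pr.Red
import Pool.Agent.Lib.MP_769d0b_pr.SmallA
import Pool.Agent.Lib.MP_769d0b_pr.SmallB
import Pool.Agent.Lib.MP_769d0b_pr.SmallC
import Pool.Agent.Lib.MP_769d0b_pr.SmallZ
import Pool.Agent.Lib.MP_769d0b_pr.T1
import Pool.Agent.Lib.MP_769d0b_pr.T2
import Pool.Agent.Lib.MP_769d0b_pr.T3

/-!
The main theorem: the random polynomials of the model are irreducible with probability tending
to `1`.
-/

set_option autoImplicit false

open Finset Polynomial

namespace Pool.Agent.Lib.MP_769d0b_pr

theorem main : small (fun _ b d E => ¬ Irreducible (PE b d E)) := by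
  obtain ⟨N, hN⟩ := reduction
  exact small_mono N hN (small_or smallA (small_or smallB (small_or smallZ (small_or small1
    (small_or small2 (small_or small3 smallC))))))

end Pool.Agent.Lib.MP_769d0b_pr
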