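import Pool.Agent.Lib.MP_769d0b_pr.Basic
import Pool.Agent.Lib.MP_7ab245_nt.Mono.Dobro
import Pool.Agent.Lib.MP_7ab245_nt.Cnt.Split

/-!
LW-Red: reducible polynomials are in one of the events.

PROOF.
`P = PE b d E` is primitive of degree `n ≥ 2`, not irreducible, `≠ 0`, not a unit: `P = A B` with non-units; a non-unit constant cannot divide a primitive polynomial, so both have degree `≥ 1`; say `deg A ≤ deg B`, `2 deg A ≤ n`. `A` has an irreducible factor of degree `≥ 1` (`A` is primitive, `WfDvdMonoid.exists_irreducible_factor`, irreducible factors of a primitive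
polynomial have degree `≥ 1`). So `P = G H`, `G` irreducible, `1 ≤ m = deg G`, `2m ≤ n`, `deg H = n - m`, `n ≤ 2 deg H`, `deg H < n`. If not EvA: `MM H > TA n`, `MM G = MM P/MM H < √(n+1)/n^(24/100) ≤ n^(27/100) = TT n` for large `n` (MM_mul, MD.MM_le). If `MM G ≤ 1` (then `= 1`): Kronecker:
all roots are roots of unity (`G(0) ≠ 0`; Mathlib `Mathlib/NumberTheory/MahlerMeasure.lean`: `isPrimitiveRoot_of_mahlerMeasure_eq_one`, `one_le_mahlerMeasure_of_ne_zero`; a root exists as `m ≥ 1`) so EvZ. Otherwise `m ≤ n^(9/10)`: EvB; else EvC or one of Ev1, Ev2, Ev3.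
-/

set_option autoImplicit false

open Finset Polynomial

namespace Pool.Agent.Lib.MP_769d0b_pr

open Pool.Agent.Lib.MP_7ab245_nt.Cnt Pool.Agent.Lib.MP_7ab245_nt.LogVar

private lemma sqrt_bound (n : ℕ) (hn : 2 ^ 50 ≤ n) : √((n : ℝ) + 1) ≤ TT n * TA n := by
  have hnR : (2 : ℝ) ^ 50 ≤ n := by exact_mod_cast hn
  have hn0 : (0 : ℝ) < n := lt_of_lt_of_le (by positivity) hnR
  have h1 : TT n * TA n = (n : ℝ) ^ (1 / 2 : ℝ) * (n : ℝ) ^ (1 / 100 : ℝ) := by
    unfold TT TA
    rw [← Real.rpow_add hn0, ← Real.rpow_add hn0]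
    norm_num
  have h2 : √(2 : ℝ) ≤ (n : ℝ) ^ (1 / 100 : ℝ) := by
    calc √(2 : ℝ) = ((2 : ℝ) ^ 50) ^ (1 / 100 : ℝ) := by
          rw [Real.sqrt_eq_rpow, ← Real.rpow_natCast, ← Real.rpow_mul (by norm_num)]
          norm_num
      _ ≤ _ := Real.rpow_le_rpow (by positivity) hnR (by norm_num)
  rw [h1]
  calc √((n : ℝ) + 1) ≤ √(n * 2) := Real.sqrt_le_sqrt (by nlinarith)
    _ = √(n : ℝ) * √2 := by rw [Real.sqrt_mul hn0.le]
    _ ≤ _ := by
        rw [← Real.sqrt_eq_rpow]
        gcongr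

theorem reduction : ∃ N : ℕ, ∀ n : ℕ, N ≤ n → ∀ b d, MD n b d → ∀ E, E ⊆ Ioo 0 n →
    ¬ Irreducible (PE b d E) → EvA n b d E ∨ EvB n b d E ∨ EvZ n b d E ∨ Ev1 n b d E ∨
      Ev2 n b d E ∨ Ev3 n b d E ∨ EvC n b d E := by
  refine ⟨2 ^ 50, fun n hn b d hM E hE hirr => ?_⟩
  have hlead := hM.lead hE
  have h0 := hM.coeff_zero hE
  have hdeg := hM.natDegree hE
  have hne := hM.ne_zero hE
  have hn2 := hM.pos
  have hlead' : IsUnit (PE b d E).leadingCoeff := Int.isUnit_iff_abs_eq.2 hlead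
  have key : ∀ A : ℤ[X], A ∣ PE b d E → ¬ IsUnit A → 1 ≤ A.natDegree := by
    intro A hA hAu
    by_contra hlt
    have hA0 : A.natDegree = 0 := by omega
    obtain ⟨B, hB⟩ := hA
    apply hAu
    have h2 : A.leadingCoeff ∣ (PE b d E).leadingCoeff := by
      rw [hB, leadingCoeff_mul]
      exact dvd_mul_right _ _
    have h3 := isUnit_of_dvd_unit h2 hlead'
    rw [leadingCoeff, hA0] at h3
    rw [eq_C_of_natDegree_eq_zero hA0]
    exact h3.map C
  have hPu : ¬ IsUnit (PE b d E) := by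
    intro h
    have := natDegree_eq_zero_of_isUnit h
    omega
  obtain ⟨A, B, hAB, hA, hB, hle⟩ : ∃ A B : ℤ[X], PE b d E = A * B ∧ ¬ IsUnit A ∧ ¬ IsUnit B ∧
      A.natDegree ≤ B.natDegree := by
    rw [irreducible_iff] at hirr
    push Not at hirr
    obtain ⟨A, B, hAB, hA, hB⟩ := hirr hPu
    rcases le_total A.natDegree B.natDegree with h | h
    · exact ⟨A, B, hAB, hA, hB, h⟩
    · exact ⟨B, A, by rw [hAB, mul_comm], hB, hA, h⟩
  have hA0 : A ≠ 0 := by
    rintro rfl
    rw [zero_mul] at hAB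
    exact hne hAB
  have hB0 : B ≠ 0 := by
    rintro rfl
    rw [mul_zero] at hAB
    exact hne hAB
  have hdAB : A.natDegree + B.natDegree = n := by
    rw [← natDegree_mul hA0 hB0, ← hAB, hdeg]
  obtain ⟨G, hG, hGA⟩ := WfDvdMonoid.exists_irreducible_factor hA hA0
  have hGP : G ∣ PE b d E := by
    rw [hAB]
    exact hGA.mul_right B
  have hGdeg : G.natDegree ≤ A.natDegree := natDegree_le_of_dvd hGA hA0
  have hG1 := key G hGP hG.not_isUnit
  obtain ⟨H, hH⟩ := hGP
  have hH0 : H ≠ 0 := by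
    rintro rfl
    rw [mul_zero] at hH
    exact hne hH
  have hdGH : G.natDegree + H.natDegree = n := by
    rw [← natDegree_mul hG.ne_zero hH0, ← hH, hdeg]
  by_cases hTA : MM H ≤ TA n
  · left
    exact ⟨H, ⟨G, by rw [hH, mul_comm]⟩, by omega, by omega, hTA⟩
  right
  push Not at hTA
  have hMMG : MM G ≤ TT n := by
    have h1 : MM G * MM H ≤ TT n * TA n := by
      rw [← MM_mul, ← hH]
      exact (hM.MM_le hE).trans (sqrt_bound n hn)
    have h2 : 1 ≤ MM G := one_le_MM G hG.ne_zero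
    have hn0 : (0 : ℝ) < n := by
      have : 0 < n := by omega
      exact_mod_cast this
    have h3 : 0 < TA n := Real.rpow_pos_of_pos hn0 _
    have h4 : MM G * TA n ≤ TT n * TA n := by
      refine le_trans ?_ h1
      gcongr
    exact le_of_mul_le_mul_right h4 h3
  have hG1' : 1 ≤ MM G := one_le_MM G hG.ne_zero
  rcases hG1'.eq_or_lt with h1 | h1
  · -- Kronecker
    right
    left
    have hcx : cx G = G.map (Int.castRingHom ℂ) := rfl
    have hdegG : (G.map (Int.castRingHom ℂ)).natDegree = G.natDegree :=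
      natDegree_map_eq_of_injective (Int.castRingHom ℂ).injective_int G
    obtain ⟨z, hz⟩ : ∃ z : ℂ, (G.map (Int.castRingHom ℂ)).IsRoot z := by
      apply Complex.exists_root
      rw [← natDegree_pos_iff_degree_pos, hdegG]
      exact hG1
    have hGmap : G.map (Int.castRingHom ℂ) ≠ 0 := by
      intro h
      rw [h, natDegree_zero] at hdegG
      omega
    have hPz : ev b d E z = 0 := by
      unfold ev
      have : cx (PE b d E) = cx G * cx H := by
        rw [hH]
        exact Polynomial.map_mul _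
      rw [this, eval_mul, hcx, hz, zero_mul]
    have hz0 : z ≠ 0 := by
      rintro rfl
      have h2 : (cx (PE b d E)).coeff 0 = 0 := by
        rw [coeff_zero_eq_eval_zero]
        exact hPz
      have h3 := (hM.cx_facts hE).2.1
      rw [h2] at h3
      simp at h3
    have hroots : z ∈ G.aroots ℂ := by
      rw [mem_aroots]
      refine ⟨hG.ne_zero, ?_⟩
      rw [aeval_def, ← eval_map]
      exact hz
    obtain ⟨k, hk, hzk⟩ := pow_eq_one_of_mahlerMeasure_eq_one (p := G) h1.symm hz0 hroots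
    refine ⟨orderOf z, z, ?_, IsPrimitiveRoot.orderOf z, hPz⟩
    exact orderOf_pos_iff.2 (isOfFinOrder_iff_pow_eq_one.2 ⟨k, hk, hzk⟩)
  by_cases hm : (G.natDegree : ℝ) ≤ (n : ℝ) ^ (9 / 10 : ℝ)
  · left
    exact ⟨G, hG, ⟨H, hH⟩, hG1, hm, h1, hMMG⟩
  push Not at hm
  by_cases e1 : Ev1 n b d E
  · exact Or.inr (Or.inr (Or.inl e1))
  by_cases e2 : Ev2 n b d E
  · exact Or.inr (Or.inr (Or.inr (Or.inl e2)))
  by_cases e3 : Ev3 n b d E
  · exact Or.inr (Or.inr (Or.inr (Or.inr (Or.inl e3))))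
  refine Or.inr (Or.inr (Or.inr (Or.inr (Or.inr ?_))))
  exact ⟨G.natDegree, hm, by omega, e1, e2, e3, G, hG, ⟨H, hH⟩, rfl, hMMG⟩

end Pool.Agent.Lib.MP_769d0b_pr
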