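import Pool.Agent.Lib.MP_769d0b_pr.Defs

/-!
LW-Turn: a small power of y has argument near pi/2 mod pi.

PROOF.
Write `y = ‖y‖ exp(iθ)` (`Complex.norm_mul_exp_arg_mul_I`), `y^t = ‖y‖^t exp(i t θ)`, `Re y^t = ‖y‖^t cos(tθ)`, `|Im y| = ‖y‖ |sin θ|`.
Let `φ ∈ (0, π/2]` be `min |θ| (π - |θ|)`: `sin φ = |sin θ| > 0` and `|cos (tθ)| = |cos (tφ)|` for all `t ∈ ℕ`
(`cos(t(π - θ)) = ± cos(tθ)`). If `φ ≥ π/3`: `t = 1`, `|cos φ| ≤ 1/2`, `|Im y| ≤ ‖y‖ ≤ 2.1 ‖y‖`. If `φ < π/3`: `t = ⌈(π/3)/φ⌉₊`: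
`π/3 ≤ t φ < π/3 + φ < 2π/3`, so `|cos(tφ)| ≤ 1/2`, and `t |Im y| = t ‖y‖ sin φ ≤ ‖y‖ t φ ≤ (2π/3) ‖y‖ ≤ 2.1 ‖y‖` (`π < 3.15`: `Real.pi_lt_d2`).
-/

set_option autoImplicit false

open Finset Polynomial

namespace Pool.Agent.Lib.MP_769d0b_pr

open Pool.Agent.Lib.MP_7ab245_nt.Cnt Pool.Agent.Lib.MP_7ab245_nt.LogVar

private theorem abs_cos_nat_pi (t : ℕ) : |Real.cos (t * Real.pi)| = 1 := by
  rw [Real.cos_nat_mul_pi, abs_pow, abs_neg, abs_one, one_pow]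

theorem turn (y : ℂ) (hy : y.im ≠ 0) :
    ∃ t : ℕ, 1 ≤ t ∧ (t : ℝ) * |y.im| ≤ 21 / 10 * ‖y‖ ∧ |(y ^ t).re| ≤ 1 / 2 * ‖y‖ ^ t := by
  have hy0 : y ≠ 0 := by
    rintro rfl
    simp at hy
  have hn : 0 < ‖y‖ := norm_pos_iff.mpr hy0
  have hre : ∀ t : ℕ, (y ^ t).re = ‖y‖ ^ t * Real.cos (t * y.arg) := by
    intro t
    have h1 : y ^ t = (((‖y‖ ^ t : ℝ)) : ℂ) *
        Complex.exp (((t * y.arg : ℝ) : ℂ) * Complex.I) := by
      conv_lhs => rw [← Complex.norm_mul_exp_arg_mul_I y]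
      rw [mul_pow, ← Complex.exp_nat_mul]
      push_cast
      ring_nf
    rw [h1, Complex.re_ofReal_mul, Complex.exp_ofReal_mul_I_re]
  have him : |y.im| = ‖y‖ * |Real.sin y.arg| := by
    have h := Complex.norm_mul_sin_arg y
    calc |y.im| = |‖y‖ * Real.sin y.arg| := by rw [h]
      _ = ‖y‖ * |Real.sin y.arg| := by rw [abs_mul, abs_of_pos hn]
  have hsin0 : Real.sin y.arg ≠ 0 := by
    intro h0
    rw [h0, abs_zero, mul_zero, abs_eq_zero] at him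
    exact hy him
  have hpi := Real.pi_pos
  have harg : |y.arg| ≤ Real.pi := Complex.abs_arg_le_pi y
  have hs1 : |Real.sin y.arg| = Real.sin |y.arg| := Real.abs_sin_eq_sin_abs_of_abs_le_pi harg
  have hc1 : ∀ t : ℕ, Real.cos (t * y.arg) = Real.cos (t * |y.arg|) := by
    intro t
    rcases abs_choice y.arg with h | h
    · rw [h]
    · rw [h, mul_neg, Real.cos_neg]
  have hθ0 : 0 < |y.arg| := by
    rw [abs_pos]
    intro h0
    rw [h0, Real.sin_zero] at hsin0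
    exact hsin0 rfl
  have hθ1 : |y.arg| < Real.pi := by
    rcases lt_or_eq_of_le harg with h | h
    · exact h
    · exfalso
      rw [h, Real.sin_pi, abs_eq_zero] at hs1
      exact hsin0 hs1
  obtain ⟨φ, hφ0, hφ1, hs, hc⟩ : ∃ φ : ℝ, 0 < φ ∧ φ ≤ Real.pi / 2 ∧
      |Real.sin y.arg| = Real.sin φ ∧
      ∀ t : ℕ, |Real.cos (t * y.arg)| = |Real.cos (t * φ)| := by
    rcases le_total |y.arg| (Real.pi / 2) with h | h
    · exact ⟨|y.arg|, hθ0, h, hs1, fun t => by rw [hc1 t]⟩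
    · refine ⟨Real.pi - |y.arg|, by linarith, by linarith, ?_, ?_⟩
      · rw [hs1, Real.sin_pi_sub]
      · intro t
        rw [hc1 t, mul_sub, Real.cos_sub, Real.sin_nat_mul_pi, zero_mul, add_zero, abs_mul,
          abs_cos_nat_pi t, one_mul]
  have hcos3 : Real.cos (Real.pi / 3) = 1 / 2 := Real.cos_pi_div_three
  by_cases h3 : Real.pi / 3 ≤ φ
  · refine ⟨1, le_rfl, ?_, ?_⟩
    · rw [him]
      have := Real.abs_sin_le_one y.arg
      push_cast
      nlinarith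
    · rw [hre, abs_mul, abs_of_pos (pow_pos hn 1), hc 1, mul_comm]
      apply mul_le_mul_of_nonneg_right _ (pow_pos hn 1).le
      rw [Nat.cast_one, one_mul, abs_of_nonneg]
      · rw [← hcos3]
        exact Real.cos_le_cos_of_nonneg_of_le_pi (by linarith) (by linarith) h3
      · exact Real.cos_nonneg_of_mem_Icc ⟨by linarith, hφ1⟩
  · rw [not_le] at h3
    have hq : 0 < Real.pi / 3 / φ := by positivity
    have hceil1 : Real.pi / 3 / φ ≤ (⌈Real.pi / 3 / φ⌉₊ : ℝ) := Nat.le_ceil _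
    have hceil2 : (⌈Real.pi / 3 / φ⌉₊ : ℝ) < Real.pi / 3 / φ + 1 := Nat.ceil_lt_add_one hq.le
    have ht1 : 1 ≤ ⌈Real.pi / 3 / φ⌉₊ := Nat.one_le_iff_ne_zero.mpr (by
      intro h0
      rw [h0] at hceil1
      push_cast at hceil1
      linarith)
    generalize ⌈Real.pi / 3 / φ⌉₊ = t at hceil1 hceil2 ht1
    have ha : Real.pi / 3 ≤ t * φ := by
      rw [div_le_iff₀ hφ0] at hceil1
      exact hceil1
    have hb : (t : ℝ) * φ < Real.pi / 3 + φ := by
      have h := mul_lt_mul_of_pos_right hceil2 hφ0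
      rw [add_mul, div_mul_cancel₀ _ hφ0.ne', one_mul] at h
      exact h
    refine ⟨t, ht1, ?_, ?_⟩
    · rw [him, hs]
      have hsφ : Real.sin φ ≤ φ := Real.sin_le hφ0.le
      have hp2 : Real.pi < 3.15 := Real.pi_lt_d2
      have ht0 : (0 : ℝ) ≤ t := Nat.cast_nonneg t
      have h1 : (t : ℝ) * Real.sin φ ≤ 21 / 10 := by
        calc (t : ℝ) * Real.sin φ ≤ t * φ := mul_le_mul_of_nonneg_left hsφ ht0
          _ ≤ 21 / 10 := by linarith
      calc (t : ℝ) * (‖y‖ * Real.sin φ) = (t * Real.sin φ) * ‖y‖ := by ring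
        _ ≤ 21 / 10 * ‖y‖ := mul_le_mul_of_nonneg_right h1 hn.le
    · rw [hre, abs_mul, abs_of_pos (pow_pos hn t), hc t, mul_comm]
      apply mul_le_mul_of_nonneg_right _ (pow_pos hn t).le
      rw [abs_le]
      constructor
      · have h1 : Real.cos (Real.pi - t * φ) ≤ 1 / 2 := by
          rw [← hcos3]
          exact Real.cos_le_cos_of_nonneg_of_le_pi (by linarith) (by linarith) (by linarith)
        rw [Real.cos_pi_sub] at h1
        linarith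
      · rw [← hcos3]
        exact Real.cos_le_cos_of_nonneg_of_le_pi (by linarith) (by linarith) ha

end Pool.Agent.Lib.MP_769d0b_pr
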