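import Pool.Agent.Lib.MP_769d0b_pr.GeoSep
import Pool.Agent.Lib.MP_769d0b_pr.GeoK
import Pool.Agent.Lib.MP_769d0b_pr.Turn

/-!
LW-SetB: separated set of exponents, pairs (two-dimensional).

PROOF.
Write `s = 1 - ‖y‖ ∈ (0, 2/10^4]`. `K` from `exists_K`, `t` from `turn` (`|Im y| ≥ 49 s > 0`): `49 s t ≤ t |Im y| ≤ 2.1`, so `t s ≤ 3/70 < 1 ≤ K s` and
`t < K`. `w = y^t`: `‖w‖ = (1-s)^t ≥ 1 - t s ≥ 0.957 ≥ 19/20` (Bernoulli), `‖w‖ ≤ 1`, `|Re w| ≤ ‖w‖/2`. For `e, e' ∈ {-1,0,1}` not both `0`: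
`19/20 ≤ ‖e + e' w‖ ≤ 2`: if one is `0` clear; else `‖1 ± w‖² = 1 ± 2 Re w + ‖w‖² ≥ 1 - ‖w‖ + ‖w‖² ≥ (19/20)²`.
`I = {1+Kj : j<J} ∪ {1+Kj+t : j<J}`: `2J` different numbers as `0 < t < K`; `< n`: `1 + K(J-1) + t < 1 + K J ≤ n` (`K J ≤ n-1` as in SetA).
`∑_A y^k - ∑_B y^k = y ∑_{j<J} (e_j + e'_j w) q^j`, `q = y^K`, `e_j = [1+Kj∈A] - [1+Kj∈B]`, `e'_j = [1+Kj+t∈A] - [1+Kj+t∈B]`, not all `0`.
`geo_sep`: `≥ ‖y‖ (9/100) ‖q‖^(J-1)`, `‖q‖ ≥ (3/10)(1 - 2/10^4) = 0.29994`, and `0.9998·0.09·0.29994^(J-1) > 0.08 · 0.2999^J` (`J ≥ 1`, as `A ≠ B`).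
-/

set_option autoImplicit false

open Finset Polynomial

namespace Pool.Agent.Lib.MP_769d0b_pr

open Pool.Agent.Lib.MP_7ab245_nt.Cnt Pool.Agent.Lib.MP_7ab245_nt.LogVar

private theorem comb_lower (w : ℂ) (hw : 19 / 20 ≤ ‖w‖) (hre : |w.re| ≤ 1 / 2 * ‖w‖) (e e' : ℂ)
    (he : e = -1 ∨ e = 0 ∨ e = 1) (he' : e' = -1 ∨ e' = 0 ∨ e' = 1) (hne : e ≠ 0 ∨ e' ≠ 0) :
    19 / 20 ≤ ‖e + e' * w‖ := by
  have hsq : ‖w‖ ^ 2 = w.re ^ 2 + w.im ^ 2 := by
    rw [← Complex.normSq_eq_norm_sq, Complex.normSq_apply]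
    ring
  have h1 := abs_le.1 hre
  have hp : 19 / 20 ≤ ‖1 + w‖ := by
    have h2 : ‖1 + w‖ ^ 2 = (1 + w.re) ^ 2 + w.im ^ 2 := by
      rw [← Complex.normSq_eq_norm_sq, Complex.normSq_apply]
      simp
      ring
    have h3 : (19 / 20 : ℝ) ^ 2 ≤ ‖1 + w‖ ^ 2 := by nlinarith
    exact le_of_sq_le_sq h3 (norm_nonneg _)
  have hm : 19 / 20 ≤ ‖1 - w‖ := by
    have h2 : ‖1 - w‖ ^ 2 = (1 - w.re) ^ 2 + w.im ^ 2 := by
      rw [← Complex.normSq_eq_norm_sq, Complex.normSq_apply]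
      simp
      ring
    have h3 : (19 / 20 : ℝ) ^ 2 ≤ ‖1 - w‖ ^ 2 := by nlinarith
    exact le_of_sq_le_sq h3 (norm_nonneg _)
  rcases he with rfl | rfl | rfl <;> rcases he' with rfl | rfl | rfl
  · rw [show (-1 : ℂ) + -1 * w = -(1 + w) by ring, norm_neg]; exact hp
  · simp; norm_num
  · rw [show (-1 : ℂ) + 1 * w = -(1 - w) by ring, norm_neg]; exact hm
  · simpa using hw
  · simp at hne
  · simpa using hw
  · rw [show (1 : ℂ) + -1 * w = 1 - w by ring]; exact hm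
  · simp; norm_num
  · rw [show (1 : ℂ) + 1 * w = 1 + w by ring]; exact hp

theorem pair_set (y : ℂ) (hy : 1 - 2 / 10 ^ 4 ≤ ‖y‖) (hy1 : ‖y‖ < 1)
    (him : 49 * (1 - ‖y‖) ≤ |y.im|) (J n : ℕ)
    (hn : 2 * (J : ℝ) ≤ ((n : ℝ) - 1) * (1 - ‖y‖)) :
    ∃ I : Finset ℕ, I ⊆ Ioo 0 n ∧ I.card = 2 * J ∧ ∀ A, A ⊆ I → ∀ B, B ⊆ I → A ≠ B →
      8 / 100 * (2999 / 10000) ^ J < ‖∑ k ∈ A, y ^ k - ∑ k ∈ B, y ^ k‖ := by
  classical
  set s : ℝ := 1 - ‖y‖ with hs
  have hs0 : 0 < s := by rw [hs]; linarith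
  obtain ⟨K, hK1, hK2, hK3, hK4, hK5⟩ := exists_K y (by norm_num at hy ⊢; linarith) hy1
  have him0 : y.im ≠ 0 := by
    intro h
    rw [h, abs_zero] at him
    linarith
  obtain ⟨t, ht1, ht2, ht3⟩ := turn y him0
  have ht1' : (1 : ℝ) ≤ t := by exact_mod_cast ht1
  have hts : (t : ℝ) * s ≤ 3 / 70 := by
    have h1 : (t : ℝ) * (49 * s) ≤ t * |y.im| := mul_le_mul_of_nonneg_left him (by linarith)
    nlinarith
  have htK : t < K := by
    have h1 : (t : ℝ) * s < K * s := by linarith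
    have h2 : (t : ℝ) < K := lt_of_mul_lt_mul_right h1 hs0.le
    exact_mod_cast h2
  set w : ℂ := y ^ t with hw
  have hwn : ‖w‖ = ‖y‖ ^ t := by rw [hw, norm_pow]
  have hw1 : ‖w‖ ≤ 1 := by
    rw [hwn]; exact pow_le_one₀ (norm_nonneg _) hy1.le
  have hw2 : 19 / 20 ≤ ‖w‖ := by
    rw [hwn]
    have h1 := one_add_mul_le_pow (a := ‖y‖ - 1) (by norm_num at hy ⊢; linarith) t
    have h2 : 1 + (‖y‖ - 1) = ‖y‖ := by ring
    rw [h2] at h1
    have h3 : (t : ℝ) * (‖y‖ - 1) = -(t * s) := by rw [hs]; ring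
    rw [h3] at h1
    linarith
  have hw3 : |w.re| ≤ 1 / 2 * ‖w‖ := by rw [hwn]; exact ht3
  set q : ℂ := y ^ K with hq
  have hqn : ‖q‖ = ‖y‖ ^ K := by rw [hq, norm_pow]
  -- K J ≤ n - 1
  have hKJ : (K : ℝ) * J ≤ (n : ℝ) - 1 := by
    have h1 : (K : ℝ) * J * s ≤ ((n : ℝ) - 1) * s := by
      have h2 : (K : ℝ) * s * J ≤ 2 * J := mul_le_mul_of_nonneg_right hK4 (Nat.cast_nonneg _)
      nlinarith
    exact le_of_mul_le_mul_right h1 hs0
  have hKJ' : K * J + 1 ≤ n := by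
    have : ((K * J + 1 : ℕ) : ℝ) ≤ n := by push_cast; linarith
    exact_mod_cast this
  have hinj1 : Function.Injective (fun j : ℕ => 1 + K * j) := by
    intro a b hab
    have h1 : K * a = K * b := by simpa using hab
    exact Nat.eq_of_mul_eq_mul_left (by omega) h1
  have hinj2 : Function.Injective (fun j : ℕ => 1 + K * j + t) := by
    intro a b hab
    have h1 : K * a = K * b := by simpa using hab
    exact Nat.eq_of_mul_eq_mul_left (by omega) h1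
  have hdisj : Disjoint ((range J).image (fun j : ℕ => 1 + K * j))
      ((range J).image (fun j : ℕ => 1 + K * j + t)) := by
    rw [Finset.disjoint_left]
    intro k hk hk'
    obtain ⟨a, -, rfl⟩ := Finset.mem_image.1 hk
    obtain ⟨b, -, hb⟩ := Finset.mem_image.1 hk'
    have h1 : K * b + t = K * a := by
      have : 1 + K * b + t = 1 + K * a := hb
      omega
    have h2 : (K * b + t) % K = t := by
      rw [Nat.mul_add_mod]
      exact Nat.mod_eq_of_lt htK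
    rw [h1, Nat.mul_mod_right] at h2
    omega
  set I : Finset ℕ := (range J).image (fun j : ℕ => 1 + K * j) ∪
    (range J).image (fun j : ℕ => 1 + K * j + t) with hI
  have hlt : ∀ j < J, 1 + K * j + t < n := by
    intro j hj
    have h1 : K * (j + 1) ≤ K * J := Nat.mul_le_mul_left K hj
    rw [mul_add, mul_one] at h1
    omega
  refine ⟨I, ?_, ?_, ?_⟩
  · intro k hk
    rw [hI, Finset.mem_union, Finset.mem_image, Finset.mem_image] at hk
    rw [Finset.mem_Ioo]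
    rcases hk with ⟨j, hj, rfl⟩ | ⟨j, hj, rfl⟩
    · have := hlt j (Finset.mem_range.1 hj)
      omega
    · have := hlt j (Finset.mem_range.1 hj)
      omega
  · rw [hI, Finset.card_union_of_disjoint hdisj, Finset.card_image_of_injective _ hinj1,
      Finset.card_image_of_injective _ hinj2, Finset.card_range]
    ring
  · intro A hA B hB hAB
    set g : ℕ → ℂ := fun k => (if k ∈ A then 1 else 0) - (if k ∈ B then 1 else 0) with hg
    have hgv : ∀ k, g k = -1 ∨ g k = 0 ∨ g k = 1 := by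
      intro k
      simp only [hg]
      by_cases h1 : k ∈ A <;> by_cases h2 : k ∈ B <;> simp [h1, h2]
    have hsumI : ∀ f : ℕ → ℂ, ∑ k ∈ I, f k =
        ∑ j ∈ range J, (f (1 + K * j) + f (1 + K * j + t)) := by
      intro f
      rw [hI, Finset.sum_union hdisj, Finset.sum_image (fun a _ b _ h => hinj1 h),
        Finset.sum_image (fun a _ b _ h => hinj2 h), Finset.sum_add_distrib]
    have hset : ∀ S : Finset ℕ, S ⊆ I →
        ∑ k ∈ S, y ^ k = ∑ k ∈ I, (if k ∈ S then (1 : ℂ) else 0) * y ^ k := by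
      intro S hS
      rw [← Finset.sum_subset hS (f := fun k => (if k ∈ S then (1 : ℂ) else 0) * y ^ k)]
      · refine Finset.sum_congr rfl fun k hk => ?_
        rw [if_pos hk, one_mul]
      · intro k _ hk
        simp only [if_neg hk, zero_mul]
    set c : ℕ → ℂ := fun j => g (1 + K * j) + g (1 + K * j + t) * w with hc
    have hdiff : ∑ k ∈ A, y ^ k - ∑ k ∈ B, y ^ k = y * ∑ j ∈ range J, c j * q ^ j := by
      rw [hset A hA, hset B hB, ← Finset.sum_sub_distrib, hsumI, Finset.mul_sum]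
      refine Finset.sum_congr rfl fun j _ => ?_
      simp only [hc, hg, hq, hw]
      ring
    have hcz : ∀ j, (g (1 + K * j) ≠ 0 ∨ g (1 + K * j + t) ≠ 0) → 19 / 20 ≤ ‖c j‖ := by
      intro j hj
      exact comb_lower w hw2 hw3 _ _ (hgv _) (hgv _) hj
    have hc2 : ∀ j < J, ‖c j‖ ≤ 2 := by
      intro j _
      have hgn : ∀ k, ‖g k‖ ≤ 1 := by
        intro k
        rcases hgv k with h | h | h <;> rw [h] <;> simp
      calc ‖c j‖ ≤ ‖g (1 + K * j)‖ + ‖g (1 + K * j + t) * w‖ := norm_add_le _ _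
        _ = ‖g (1 + K * j)‖ + ‖g (1 + K * j + t)‖ * ‖w‖ := by rw [norm_mul]
        _ ≤ 1 + 1 * 1 := by
            gcongr
            · exact hgn _
            · exact hgn _
        _ = 2 := by norm_num
    have hc3 : ∀ j < J, c j = 0 ∨ 19 / 20 ≤ ‖c j‖ := by
      intro j _
      by_cases h : g (1 + K * j) ≠ 0 ∨ g (1 + K * j + t) ≠ 0
      · exact Or.inr (hcz j h)
      · push Not at h
        left
        simp only [hc]
        rw [h.1, h.2]
        ring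
    have hne : ∃ j < J, c j ≠ 0 := by
      obtain ⟨k, hk⟩ : ∃ k, ¬ (k ∈ A ↔ k ∈ B) := by
        by_contra h
        push Not at h
        exact hAB (Finset.ext h)
      have hgk : g k ≠ 0 := by
        simp only [hg]
        by_cases h1 : k ∈ A <;> by_cases h2 : k ∈ B <;> simp [h1, h2] at hk ⊢
      have hkI : k ∈ I := by
        by_cases h1 : k ∈ A
        · exact hA h1
        · exact hB (by tauto)
      rw [hI, Finset.mem_union, Finset.mem_image, Finset.mem_image] at hkI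
      have hcj : ∀ j, (g (1 + K * j) ≠ 0 ∨ g (1 + K * j + t) ≠ 0) → c j ≠ 0 := by
        intro j hj h0
        have := hcz j hj
        rw [h0, norm_zero] at this
        norm_num at this
      rcases hkI with ⟨j, hj, rfl⟩ | ⟨j, hj, rfl⟩
      · exact ⟨j, Finset.mem_range.1 hj, hcj j (Or.inl hgk)⟩
      · exact ⟨j, Finset.mem_range.1 hj, hcj j (Or.inr hgk)⟩
    have hsep := geo_sep q (by rw [hqn]; exact hK2) J c hc2 hc3 hne
    have hJ : 1 ≤ J := by
      obtain ⟨j, hj, -⟩ := hne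
      omega
    rw [hdiff, norm_mul]
    have hq1 : (2999 / 10000 : ℝ) ≤ ‖q‖ := by
      rw [hqn]
      norm_num at hy
      linarith
    have hpow : (2999 / 10000 : ℝ) ^ (J - 1) ≤ ‖q‖ ^ (J - 1) :=
      pow_le_pow_left₀ (by norm_num) hq1 _
    have hJ' : (2999 / 10000 : ℝ) ^ J = 2999 / 10000 * (2999 / 10000 : ℝ) ^ (J - 1) := by
      rw [← pow_succ']
      congr 1
      omega
    rw [hJ']
    have hpos : (0 : ℝ) < (2999 / 10000 : ℝ) ^ (J - 1) := by positivity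
    have hyy : (9 / 10 : ℝ) ≤ ‖y‖ := by norm_num at hy ⊢; linarith
    calc 8 / 100 * (2999 / 10000 * (2999 / 10000 : ℝ) ^ (J - 1))
        < 9 / 10 * (9 / 100 * (2999 / 10000 : ℝ) ^ (J - 1)) := by nlinarith
      _ ≤ ‖y‖ * (9 / 100 * ‖q‖ ^ (J - 1)) := by gcongr
      _ ≤ ‖y‖ * ‖∑ j ∈ range J, c j * q ^ j‖ := by gcongr

end Pool.Agent.Lib.MP_769d0b_pr
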