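import Pool.Agent.Lib.MP_769d0b_pr.MMcomp

/-!
LW-Zcount: few zeros in |z| <= 1 - s.

PROOF.
`‖F(0)‖ = 1 = ‖lc‖ ∏ ‖z‖` and `mahlerMeasure F = ‖lc‖ ∏ max 1 ‖z‖ ≤ √(∑‖a_k‖²) ≤ √(n+1)` (Landau, at most `n + 1` coefficients). So `∏_{z ∈ roots} (max 1 ‖z‖)/‖z‖ ≤ √(n+1)`; all factors are `≥ 1`; the elements of `Z` are roots, each contributes `1/‖z‖ ≥ 1/(1-s)`
(`Z.val ≤ roots`). So `(1-s)^(-|Z|) ≤ √(n+1)` and `|Z| s ≤ |Z| log(1/(1-s)) ≤ (1/2) log (n+1)`.
-/

set_option autoImplicit false

open Finset Polynomial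

namespace Pool.Agent.Lib.MP_769d0b_pr

open Pool.Agent.Lib.MP_7ab245_nt.Cnt Pool.Agent.Lib.MP_7ab245_nt.LogVar

theorem zcount (F : ℂ[X]) (n : ℕ) (hF : F.natDegree ≤ n) (hc : ∀ k, ‖F.coeff k‖ ≤ 1)
    (h0 : ‖F.coeff 0‖ = 1) (s : ℝ) (hs : 0 < s) (hs1 : s < 1) (Z : Finset ℂ)
    (hZ : ∀ z ∈ Z, F.eval z = 0 ∧ ‖z‖ ≤ 1 - s) :
    (Z.card : ℝ) ≤ Real.log (n + 1) / (2 * s) := by
  classical
  have hF0 : F ≠ 0 := by
    rintro rfl
    simp at h0
  have hlc : 0 < ‖F.leadingCoeff‖ := norm_pos_iff.mpr (leadingCoeff_ne_zero.mpr hF0)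
  -- value at zero
  have hv : (1 : ℝ) = ‖F.leadingCoeff‖ * (F.roots.map (fun z => ‖z‖)).prod := by
    have := eval_eq_prod F 0
    rw [← coeff_zero_eq_eval_zero, h0] at this
    simpa using this
  have hm : F.mahlerMeasure = ‖F.leadingCoeff‖ * (F.roots.map (fun z => max 1 ‖z‖)).prod :=
    mahlerMeasure_eq_leadingCoeff_mul_prod_roots F
  have hmle : F.mahlerMeasure ≤ √(n + 1) := by
    refine (mahlerMeasure_le_sqrt_sum_sq_norm_coeff F).trans (Real.sqrt_le_sqrt ?_)
    calc ∑ i ∈ F.support, ‖F.coeff i‖ ^ 2 ≤ ∑ i ∈ F.support, (1 : ℝ) := by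
          apply Finset.sum_le_sum
          intro i _
          have := hc i
          have h' := norm_nonneg (F.coeff i)
          nlinarith
      _ = F.support.card := by simp
      _ ≤ (n + 1 : ℝ) := by
          have h1 : F.support.card ≤ (Finset.range (F.natDegree + 1)).card :=
            Finset.card_le_card (supp_subset_range_natDegree_succ)
          rw [Finset.card_range] at h1
          exact_mod_cast h1.trans (by omega)
  -- all roots nonzero
  have hr0 : ∀ z ∈ F.roots, 0 < ‖z‖ := by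
    intro z hz
    rw [norm_pos_iff]
    rintro rfl
    have := (mem_roots hF0).mp hz
    rw [IsRoot, ← coeff_zero_eq_eval_zero] at this
    rw [this] at h0
    simp at h0
  -- key multiset inequality
  have hsub : Z.val ≤ F.roots := by
    rw [Multiset.le_iff_subset Z.nodup]
    intro z hz
    exact (mem_roots hF0).mpr (hZ z hz).1
  obtain ⟨t, ht⟩ := Multiset.le_iff_exists_add.mp hsub
  have hkey : ∀ t : Multiset ℂ, (t.map (fun z => ‖z‖)).prod ≤ (t.map (fun z => max 1 ‖z‖)).prod := by
    intro t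
    induction t using Multiset.induction with
    | empty => simp
    | cons a t ih =>
      simp only [Multiset.map_cons, Multiset.prod_cons]
      refine mul_le_mul (le_max_right _ _) ih ?_ (by positivity)
      exact Multiset.prod_nonneg (by
        intro x hx
        obtain ⟨y, _, rfl⟩ := Multiset.mem_map.mp hx
        positivity)
  have hZp : (Z.val.map (fun z => ‖z‖)).prod ≤ (1 - s) ^ Z.card * (Z.val.map (fun z => max 1 ‖z‖)).prod := by
    have h1 : (Z.val.map (fun z => ‖z‖)).prod = ∏ z ∈ Z, ‖z‖ := rfl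
    have h2 : (Z.val.map (fun z => max 1 ‖z‖)).prod = ∏ z ∈ Z, max 1 ‖z‖ := rfl
    rw [h1, h2, ← Finset.prod_const, ← Finset.prod_mul_distrib]
    apply Finset.prod_le_prod
    · intro i _; positivity
    · intro i hi
      have := (hZ i hi).2
      have h1s : 0 < 1 - s := by linarith
      calc ‖i‖ ≤ (1 - s) * 1 := by linarith
        _ ≤ (1 - s) * max 1 ‖i‖ := by
          apply mul_le_mul_of_nonneg_left (le_max_left _ _) h1s.le
  have hfin : 1 ≤ (1 - s) ^ Z.card * √(n + 1) := by
    have h1s : 0 < 1 - s := by linarith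
    calc (1 : ℝ) = ‖F.leadingCoeff‖ * (F.roots.map (fun z => ‖z‖)).prod := hv
      _ = ‖F.leadingCoeff‖ * ((Z.val.map (fun z => ‖z‖)).prod * (t.map (fun z => ‖z‖)).prod) := by
          rw [ht, Multiset.map_add, Multiset.prod_add]
      _ ≤ ‖F.leadingCoeff‖ * (((1 - s) ^ Z.card * (Z.val.map (fun z => max 1 ‖z‖)).prod) *
            (t.map (fun z => max 1 ‖z‖)).prod) := by
          apply mul_le_mul_of_nonneg_left _ hlc.le
          apply mul_le_mul hZp (hkey t)
          · exact Multiset.prod_nonneg (by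
              intro x hx
              obtain ⟨y, _, rfl⟩ := Multiset.mem_map.mp hx
              positivity)
          · refine mul_nonneg (by positivity) (Multiset.prod_nonneg (by
              intro x hx
              obtain ⟨y, _, rfl⟩ := Multiset.mem_map.mp hx
              positivity))
      _ = (1 - s) ^ Z.card * F.mahlerMeasure := by
          rw [hm, ht, Multiset.map_add, Multiset.prod_add]; ring
      _ ≤ (1 - s) ^ Z.card * √(n + 1) := by
          apply mul_le_mul_of_nonneg_left hmle (by positivity)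
  have hlog : 0 ≤ Z.card * Real.log (1 - s) + 1 / 2 * Real.log (n + 1) := by
    have h1s : 0 < 1 - s := by linarith
    have hn1 : (0 : ℝ) < n + 1 := by positivity
    have := Real.log_le_log one_pos hfin
    rw [Real.log_one, Real.log_mul (by positivity) (by positivity), Real.log_pow,
      Real.log_sqrt hn1.le] at this
    linarith
  have hls : Real.log (1 - s) ≤ -s := by
    have := Real.log_le_sub_one_of_pos (show 0 < 1 - s by linarith)
    linarith
  rw [le_div_iff₀ (by positivity)]
  have : (Z.card : ℝ) * Real.log (1 - s) ≤ Z.card * (-s) :=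
    mul_le_mul_of_nonneg_left hls (by positivity)
  nlinarith

end Pool.Agent.Lib.MP_769d0b_pr
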