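import Pool.Agent.Lib.MP_769d0b_pr.ClassA
import Pool.Agent.Lib.MP_769d0b_pr.Zcount
import Pool.Agent.Lib.MP_769d0b_pr.Cnt

/-!
LW-StepC: counting the typical E with a factor of degree m.

PROOF.
`R = n - m + L`. For `E ⊆ Ioo 0 n` with `EvM m n b d E` let `D = E ∩ Icc 0 R` (`filter (· ≤ R)`), a subset of `Icc 1 R`: `≤ 2^R` possibilities. `F = cx (tr R (PE b d D))` (`= cx (tr R (PE b d E))` by `tr_congr`) depends on `D` only; `Z_D` := the finite set of the zeros of `F` with `‖z‖ ≤ 1 - dl n/2`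
(`F.roots.toFinset.filter`): `|Z_D| ≤ log(n+1)/dl n` (`zcount`, `s = dl n/2`; `D ⊆ Ioo 0 n`? `D ⊆ E ⊆ Ioo 0 n` yes). The factor `G` of `EvM` (sign: `coeff 0 = 1`) and `σ` of `star`: `σ` is injective on `zg n G` (its elements are good zeros of `PE`, as `G ∣ PE`), `S := image σ (zg n G) ⊆ Z_D`
(`star`), so `CL n m b d S E` (`‖σ z‖ ≤ 1 - dl n/2 ≤ 1`). So the set of the `E` is contained in the union over `D ⊆ Icc 1 R` and `S ⊆ Z_D` of the sets of `class_size` (elements of `Z_D` are `≠ 0` as `‖F(0)‖ = 1`; restrict to `D` which occur). The number of pairs `(D, S)` is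
`≤ 2^R · 2^{log(n+1)/dl n}` (real power). (`star` needs `2m ≤ n`, `n^(85/100) ≤ L`.)
-/

set_option autoImplicit false

open Finset Polynomial

namespace Pool.Agent.Lib.MP_769d0b_pr

open Pool.Agent.Lib.MP_7ab245_nt.Cnt Pool.Agent.Lib.MP_7ab245_nt.LogVar

open Classical in
/-- the zeros of the truncation in the disc of radius `1 - dl n / 2` -/
private noncomputable def ZD (n R : ℕ) (b : ℤ[X]) (d : ℤ) (D : Finset ℕ) : Finset ℂ :=
  (cx (tr R (PE b d D))).roots.toFinset.filter (fun z => ‖z‖ ≤ 1 - dl n / 2)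

private lemma MM_neg (G : ℤ[X]) : MM (-G) = MM G := by
  unfold MM cx
  have h : (-G).map (Int.castRingHom ℂ) = C (-1) * G.map (Int.castRingHom ℂ) := by
    simp
  rw [h, mahlerMeasure_mul, mahlerMeasure_const]
  simp

private lemma dl_pos (n : ℕ) (hn : 2 ≤ n) : 0 < dl n := by
  unfold dl
  have : (0 : ℝ) < n := by
    have : (2 : ℝ) ≤ n := by exact_mod_cast hn
    linarith
  exact Real.rpow_pos_of_pos this _

private lemma dl_le_one (n : ℕ) (hn : 2 ≤ n) : dl n ≤ 1 := by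
  unfold dl
  have : (1 : ℝ) ≤ n := by
    have : (2 : ℝ) ≤ n := by exact_mod_cast hn
    linarith
  exact Real.rpow_le_one_of_one_le_of_nonpos this (by norm_num)

/-- the choice of the sign -/
private lemma sign_choice {n : ℕ} {b : ℤ[X]} {d : ℤ} (h : MD n b d) {E : Finset ℕ}
    (hE : E ⊆ Ioo 0 n) {G : ℤ[X]} (hG : Irreducible G) (hd : G ∣ PE b d E) :
    ∃ G' : ℤ[X], Irreducible G' ∧ G' ∣ PE b d E ∧ G'.natDegree = G.natDegree ∧
      MM G' = MM G ∧ G'.coeff 0 = 1 := by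
  obtain ⟨H, hH⟩ := hd
  have h0 : |(PE b d E).coeff 0| = 1 := h.coeff_zero hE
  have h1 : (PE b d E).coeff 0 = G.coeff 0 * H.coeff 0 := by
    rw [hH, mul_coeff_zero]
  rw [h1, abs_mul] at h0
  have h2 : |G.coeff 0| = 1 := by
    have h3 : IsUnit (|G.coeff 0|) := IsUnit.of_mul_eq_one _ h0
    have h4 := Int.isUnit_iff.1 h3
    rcases h4 with h4 | h4
    · exact h4
    · have := abs_nonneg (G.coeff 0)
      omega
  rcases (abs_eq (by norm_num : (0 : ℤ) ≤ 1)).1 h2 with h5 | h5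
  · exact ⟨G, hG, ⟨H, hH⟩, rfl, rfl, h5⟩
  · refine ⟨-G, ?_, ?_, natDegree_neg G, MM_neg G, ?_⟩
    · exact (Associated.irreducible_iff (Associated.neg_left (Associated.refl G))).2 hG
    · exact (neg_dvd).2 ⟨H, hH⟩
    · rw [coeff_neg, h5]; norm_num

/-- the class of a typical set -/
private lemma covered {n : ℕ} {b : ℤ[X]} {d : ℤ} (h : MD n b d) {m L : ℕ}
    (hst : ∀ E, E ⊆ Ioo 0 n → ¬ Ev2 n b d E →
      ∃ σ : ℂ → ℂ, Set.InjOn σ {z | good n z ∧ ev b d E z = 0} ∧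
      ∀ z, good n z → ev b d E z = 0 →
        (cx (tr (n - m + L) (PE b d E))).eval (σ z) = 0 ∧ 1 / 2 < ‖σ z‖ ∧
          ‖σ z‖ ≤ 1 - dl n / 2 ∧ ‖z - σ z‖ ≤ kp n * ‖z‖ ^ m)
    {E : Finset ℕ} (hE : E ⊆ Ioo 0 n) (hM : EvM m n b d E) :
    ∃ D ∈ (Ioo 0 n ∩ Icc 1 (n - m + L)).powerset, ∃ S ∈ (ZD n (n - m + L) b d D).powerset,
      CL n m b d S E ∧ ∀ k ≤ n - m + L, k ∈ E ↔ k ∈ D := by
  classical
  set R := n - m + L with hR
  obtain ⟨h1, h2, h3, G₀, hG₀, hd₀, hm₀, hT₀⟩ := hM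
  obtain ⟨G, hG, hd, hm, hT, hc⟩ := sign_choice h hE hG₀ hd₀
  obtain ⟨σ, hinj, hσ⟩ := hst E hE h2
  have hcong : ∀ k ≤ R, k ∈ E ↔ k ∈ E.filter (· ≤ R) := by
    intro k hk
    simp [hk]
  have htr : tr R (PE b d E) = tr R (PE b d (E.filter (· ≤ R))) :=
    tr_congr b d R _ _ hcong
  have hzg : ∀ z ∈ zg n G, good n z ∧ ev b d E z = 0 := by
    intro z hz
    unfold zg at hz
    rw [Finset.mem_filter, Multiset.mem_toFinset, mem_roots'] at hz
    refine ⟨hz.2.2, ?_⟩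
    obtain ⟨H, hH⟩ := hd
    unfold ev
    rw [hH]
    unfold cx
    rw [Polynomial.map_mul, eval_mul]
    have : eval z (map (Int.castRingHom ℂ) G) = 0 := hz.1.2
    rw [this, zero_mul]
  have hDsub : E.filter (· ≤ R) ⊆ Ioo 0 n := (Finset.filter_subset _ _).trans hE
  refine ⟨E.filter (· ≤ R), ?_, (zg n G).image σ, ?_, ⟨h1, h3, G, σ, hG, hd, by rw [hm, hm₀],
    by rw [hT]; exact hT₀, hc, ?_, ?_⟩, hcong⟩
  · rw [Finset.mem_powerset]
    intro k hk
    rw [Finset.mem_filter] at hk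
    have := hE hk.1
    rw [Finset.mem_Ioo] at this
    rw [Finset.mem_inter, Finset.mem_Ioo, Finset.mem_Icc]
    omega
  · rw [Finset.mem_powerset]
    intro w hw
    rw [Finset.mem_image] at hw
    obtain ⟨z, hz, rfl⟩ := hw
    obtain ⟨hg, he⟩ := hzg z hz
    obtain ⟨a1, a2, a3, a4⟩ := hσ z hg he
    unfold ZD
    rw [Finset.mem_filter, Multiset.mem_toFinset, mem_roots']
    refine ⟨⟨?_, ?_⟩, a3⟩
    · intro h0
      have := (tr_facts h hDsub R).2.2
      rw [h0] at this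
      simp at this
    · rw [← htr]
      exact a1
  · refine ⟨?_, ?_, ?_⟩
    · intro z hz
      simp only [Finset.coe_image]
      exact ⟨z, hz, rfl⟩
    · intro z hz w hw hzw
      exact hinj (hzg z hz) (hzg w hw) hzw
    · intro w hw
      simp only [Finset.coe_image] at hw
      exact hw
  · intro z hz
    obtain ⟨hg, he⟩ := hzg z hz
    obtain ⟨a1, a2, a3, a4⟩ := hσ z hg he
    refine ⟨a2, ?_, a4⟩
    have := dl_pos n h.pos
    linarith

theorem step_c : ∃ N : ℕ, ∀ n : ℕ, N ≤ n → ∀ b d, MD n b d → ∀ (m L : ℕ), 1 ≤ m → 2 * m ≤ n →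
    (n : ℝ) ^ (85 / 100 : ℝ) ≤ L →
    (cnt n (EvM m n b d) : ℝ) ≤ 2 ^ (n - m + L) * (2 : ℝ) ^ (Real.log (n + 1) / dl n) *
      Real.exp (400 * max 1 (37 * TN n * TT n * √(m * Real.log (2 * m * TT n)))) := by
  classical
  obtain ⟨N₁, hN₁⟩ := class_size
  obtain ⟨N₂, hN₂⟩ := star
  refine ⟨max N₁ N₂, ?_⟩
  intro n hn b d hMD m L hm h2m hL
  have hst := fun E hE h2 => hN₂ n ((le_max_right _ _).trans hn) b d hMD E hE h2 m L h2m hL
  have hcl := hN₁ n ((le_max_left _ _).trans hn) b d hMD m (n - m + L) hm (by omega) (by omega)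
  set R := n - m + L with hR
  set X := Real.exp (400 * max 1 (37 * TN n * TT n * √(m * Real.log (2 * m * TT n)))) with hX
  have hX0 : 0 ≤ X := (Real.exp_pos _).le
  -- the union
  have hc1 : cnt n (EvM m n b d) ≤ ∑ D ∈ (Ioo 0 n ∩ Icc 1 R).powerset,
      ∑ S ∈ (ZD n R b d D).powerset,
        cnt n (fun E => CL n m b d S E ∧ ∀ k ≤ R, k ∈ E ↔ k ∈ D) := by
    refine (cnt_mono (Q' := fun E => ∃ D ∈ (Ioo 0 n ∩ Icc 1 R).powerset,
      ∃ S ∈ (ZD n R b d D).powerset, CL n m b d S E ∧ ∀ k ≤ R, k ∈ E ↔ k ∈ D) ?_).trans ?_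
    · intro E hE hM
      exact covered hMD hst hE hM
    · refine (cnt_exists n (Ioo 0 n ∩ Icc 1 R).powerset (fun D E =>
        ∃ S ∈ (ZD n R b d D).powerset, CL n m b d S E ∧ ∀ k ≤ R, k ∈ E ↔ k ∈ D)).trans ?_
      refine Finset.sum_le_sum fun D _ => ?_
      exact cnt_exists n (ZD n R b d D).powerset (fun S E =>
        CL n m b d S E ∧ ∀ k ≤ R, k ∈ E ↔ k ∈ D)
  have hdl := dl_pos n hMD.pos
  have hdl1 := dl_le_one n hMD.pos
  -- every inner sum
  have hc2 : ∀ D ∈ (Ioo 0 n ∩ Icc 1 R).powerset, ∑ S ∈ (ZD n R b d D).powerset,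
      (cnt n (fun E => CL n m b d S E ∧ ∀ k ≤ R, k ∈ E ↔ k ∈ D) : ℝ) ≤
        (2 : ℝ) ^ (Real.log (n + 1) / dl n) * X := by
    intro D hD
    rw [Finset.mem_powerset] at hD
    have hD' : D ⊆ Ioo 0 n := hD.trans Finset.inter_subset_left
    have hF := tr_facts hMD hD' R
    have hz : ∀ z ∈ ZD n R b d D, (cx (tr R (PE b d D))).eval z = 0 ∧ ‖z‖ ≤ 1 - dl n / 2 := by
      intro z hz
      unfold ZD at hz
      rw [Finset.mem_filter, Multiset.mem_toFinset, mem_roots'] at hz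
      exact ⟨hz.1.2, hz.2⟩
    have hcard : ((ZD n R b d D).card : ℝ) ≤ Real.log (n + 1) / dl n := by
      have := zcount _ n hF.1 hF.2.1 hF.2.2 (dl n / 2) (by linarith) (by linarith) _ hz
      calc ((ZD n R b d D).card : ℝ) ≤ _ := this
        _ = Real.log (n + 1) / dl n := by
          congr 1
          ring
    have hz0 : ∀ z ∈ ZD n R b d D, z ≠ 0 := by
      intro z hzz h0
      have h1 := (hz z hzz).1
      rw [h0, ← coeff_zero_eq_eval_zero] at h1
      have h2 := hF.2.2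
      rw [h1] at h2
      simp at h2
    calc ∑ S ∈ (ZD n R b d D).powerset,
        (cnt n (fun E => CL n m b d S E ∧ ∀ k ≤ R, k ∈ E ↔ k ∈ D) : ℝ)
        ≤ ∑ S ∈ (ZD n R b d D).powerset, X := by
          refine Finset.sum_le_sum fun S hS => ?_
          rw [Finset.mem_powerset] at hS
          exact hcl S (fun z hz => hz0 z (hS hz)) D
      _ = (2 : ℝ) ^ ((ZD n R b d D).card : ℝ) * X := by
          rw [Finset.sum_const, Finset.card_powerset, nsmul_eq_mul, Real.rpow_natCast]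
          push_cast
          ring
      _ ≤ (2 : ℝ) ^ (Real.log (n + 1) / dl n) * X := by
          refine mul_le_mul_of_nonneg_right ?_ hX0
          exact Real.rpow_le_rpow_of_exponent_le (by norm_num) hcard
  have hpos : 0 ≤ (2 : ℝ) ^ (Real.log (n + 1) / dl n) * X :=
    mul_nonneg (Real.rpow_nonneg (by norm_num) _) hX0
  calc (cnt n (EvM m n b d) : ℝ) ≤ ((∑ D ∈ (Ioo 0 n ∩ Icc 1 R).powerset,
      ∑ S ∈ (ZD n R b d D).powerset,
        cnt n (fun E => CL n m b d S E ∧ ∀ k ≤ R, k ∈ E ↔ k ∈ D) : ℕ) : ℝ) := by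
        exact_mod_cast hc1
    _ = ∑ D ∈ (Ioo 0 n ∩ Icc 1 R).powerset, ∑ S ∈ (ZD n R b d D).powerset,
        (cnt n (fun E => CL n m b d S E ∧ ∀ k ≤ R, k ∈ E ↔ k ∈ D) : ℝ) := by
        push_cast
        rfl
    _ ≤ ∑ D ∈ (Ioo 0 n ∩ Icc 1 R).powerset, (2 : ℝ) ^ (Real.log (n + 1) / dl n) * X :=
        Finset.sum_le_sum hc2
    _ = (2 : ℝ) ^ (Ioo 0 n ∩ Icc 1 R).card * ((2 : ℝ) ^ (Real.log (n + 1) / dl n) * X) := by
        rw [Finset.sum_const, Finset.card_powerset, nsmul_eq_mul]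
        push_cast
        ring
    _ ≤ (2 : ℝ) ^ R * ((2 : ℝ) ^ (Real.log (n + 1) / dl n) * X) := by
        refine mul_le_mul_of_nonneg_right ?_ hpos
        refine pow_le_pow_right₀ (by norm_num) ?_
        calc (Ioo 0 n ∩ Icc 1 R).card ≤ (Icc 1 R).card :=
              Finset.card_le_card Finset.inter_subset_right
          _ = R := by simp
    _ = 2 ^ R * (2 : ℝ) ^ (Real.log (n + 1) / dl n) * X := by ring

end Pool.Agent.Lib.MP_769d0b_pr
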