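import Pool.Agent.Lib.MP_769d0b_pr.LO
import Pool.Agent.Lib.MP_769d0b_pr.CosCount

/-!
LW-T1a: small ball on the circle |y| = r at scale n^(39/100).
-/

set_option autoImplicit false

open Finset Polynomial

namespace Pool.Agent.Lib.MP_769d0b_pr

open Pool.Agent.Lib.MP_7ab245_nt.Cnt Pool.Agent.Lib.MP_7ab245_nt.LogVar

private theorem exp_le_aux (x : ℝ) (h0 : 0 ≤ x) (h1 : x ≤ 1 / 2) : Real.exp (-(2 * x)) ≤ 1 - x := by
  have h2 := Real.add_one_le_exp (2 * x)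
  have h3 : 0 < Real.exp (2 * x) := Real.exp_pos _
  rw [Real.exp_neg, inv_le_comm₀ h3 (by linarith)]
  refine le_trans ?_ h2
  rw [inv_le_comm₀ (by linarith) (by linarith), inv_eq_one_div, div_le_iff₀ (by linarith)]
  nlinarith

private theorem pow_ge_aux (δ : ℝ) (h0 : 0 ≤ δ) (h1 : δ ≤ 1 / 2) (k : ℕ) (hk : δ * k ≤ 1) :
    1 / 8 ≤ (1 - δ) ^ k := by
  have h2 : Real.exp (-(2 * δ)) ^ k ≤ (1 - δ) ^ k :=
    pow_le_pow_left₀ (Real.exp_pos _).le (exp_le_aux δ h0 h1) k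
  refine le_trans ?_ h2
  rw [← Real.exp_nat_mul]
  have h3 : Real.exp (-2) ≤ Real.exp (k * -(2 * δ)) := by
    apply Real.exp_le_exp.mpr
    nlinarith
  refine le_trans ?_ h3
  rw [Real.exp_neg, one_div]
  apply inv_anti₀ (Real.exp_pos _)
  have h4 : Real.exp 2 = Real.exp 1 * Real.exp 1 := by rw [← Real.exp_add]; norm_num
  rw [h4]
  have h5 := Real.exp_one_lt_d9
  have h6 := Real.exp_pos 1
  nlinarith

theorem t1a : ∃ C : ℝ, ∃ N : ℕ, 0 < C ∧ ∀ n : ℕ, N ≤ n → ∀ b d, MD n b d → ∀ y : ℂ, ‖y‖ = rr n →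
    (cnt n (fun E => ‖ev b d E y‖ ≤ (n : ℝ) ^ (39 / 100 : ℝ)) : ℝ) ≤
      C * (n : ℝ) ^ (-(1 / 100) : ℝ) * 2 ^ (n - 1) := by
  refine ⟨99, 32, by norm_num, fun n hn b d hM y hy => ?_⟩
  have hn' : (32 : ℝ) ≤ n := by exact_mod_cast hn
  have hn0 : (0 : ℝ) < n := by linarith
  -- the size of n^(4/5)
  have hq : (16 : ℝ) ≤ (n : ℝ) ^ (4 / 5 : ℝ) := by
    have h1 : ((32 : ℝ)) ^ (4 / 5 : ℝ) ≤ (n : ℝ) ^ (4 / 5 : ℝ) :=
      Real.rpow_le_rpow (by norm_num) hn' (by norm_num)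
    have h2 : ((32 : ℝ)) ^ (4 / 5 : ℝ) = 16 := by
      rw [show (32 : ℝ) = 2 ^ (5 : ℝ) by norm_num, ← Real.rpow_mul (by norm_num)]
      norm_num
    linarith
  have hqn : (n : ℝ) ^ (4 / 5 : ℝ) < n := by
    conv_rhs => rw [← Real.rpow_one (n : ℝ)]
    exact Real.rpow_lt_rpow_of_exponent_lt (by linarith) (by norm_num)
  have hdl : dl n = ((n : ℝ) ^ (4 / 5 : ℝ))⁻¹ := by
    unfold dl
    rw [Real.rpow_neg hn0.le]
  have hdl0 : 0 ≤ dl n := by rw [hdl]; positivity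
  have hdl1 : dl n ≤ 1 / 16 := by
    rw [hdl, one_div]
    exact inv_anti₀ (by norm_num) hq
  set q : ℝ := (n : ℝ) ^ (4 / 5 : ℝ) with hqdef
  set K : ℕ := ⌊q⌋₊ with hK
  have hKq : (K : ℝ) ≤ q := Nat.floor_le (by linarith)
  have hqK : q < K + 1 := Nat.lt_floor_add_one q
  have hKn : K < n := by
    have : (K : ℝ) < n := lt_of_le_of_lt hKq hqn
    exact_mod_cast this
  have hr0 : 0 < rr n := by unfold rr; linarith
  have hy0 : 0 < ‖y‖ := by rw [hy]; exact hr0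
  have hyne : y ≠ 0 := norm_pos_iff.mp hy0
  set u : ℂ := y / (‖y‖ : ℂ) with hu
  have hu1 : ‖u‖ = 1 := by
    rw [hu, norm_div, Complex.norm_real, norm_norm, div_self hy0.ne']
  have hyu : y = (‖y‖ : ℂ) * u := by
    rw [hu, mul_div_cancel₀]
    exact_mod_cast hy0.ne'
  obtain ⟨I, hI, hIc, hIr⟩ := cos_count u hu1 K
  have hcard : q / 5 ≤ I.card := by
    have h1 : (K : ℝ) ≤ 4 * I.card + 1 := by exact_mod_cast hIc
    linarith
  have hcard0 : 0 < (I.card : ℝ) := by linarith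
  have hIne : I.Nonempty := by
    rw [← Finset.card_pos]
    exact_mod_cast hcard0
  have hI' : I ⊆ Ioo 0 n := by
    intro k hk
    have h1 := Finset.mem_Icc.mp (hI hk)
    exact Finset.mem_Ioo.mpr ⟨by omega, by omega⟩
  have hv : ∀ k ∈ I, (1 / 16 : ℝ) ≤ |(y ^ k).re| := by
    intro k hk
    have h1 := Finset.mem_Icc.mp (hI hk)
    have h2 : y ^ k = ((‖y‖ ^ k : ℝ) : ℂ) * u ^ k := by
      conv_lhs => rw [hyu]
      rw [mul_pow]
      push_cast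
      ring
    rw [h2, Complex.re_ofReal_mul, abs_mul, abs_of_nonneg (pow_nonneg hy0.le k), hy]
    have h3 : (1 / 8 : ℝ) ≤ rr n ^ k := by
      unfold rr
      apply pow_ge_aux _ hdl0 (by linarith)
      have h4 : (k : ℝ) ≤ q := le_trans (by exact_mod_cast h1.2) hKq
      rw [hdl]
      calc q⁻¹ * (k : ℝ) ≤ q⁻¹ * q := by gcongr
        _ = 1 := inv_mul_cancel₀ (by linarith)
    have h5 := hIr k hk
    nlinarith
  have hmain := cnt_lo hM y ((n : ℝ) ^ (39 / 100 : ℝ)) (1 / 16) (by positivity) (by norm_num) I hI'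
    hIne hv
  refine hmain.trans ?_
  have h39 : (1 : ℝ) ≤ (n : ℝ) ^ (39 / 100 : ℝ) := Real.one_le_rpow (by linarith) (by norm_num)
  have hs : (n : ℝ) ^ (2 / 5 : ℝ) / 3 ≤ √(I.card) := by
    have h1 : √(q / 5) ≤ √(I.card) := Real.sqrt_le_sqrt hcard
    refine le_trans ?_ h1
    apply Real.le_sqrt_of_sq_le
    have h2 : ((n : ℝ) ^ (2 / 5 : ℝ)) ^ 2 = q := by
      rw [hqdef, ← Real.rpow_natCast, ← Real.rpow_mul hn0.le]
      norm_num
    rw [div_pow, h2]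
    linarith
  have hs0 : 0 < (n : ℝ) ^ (2 / 5 : ℝ) / 3 := by positivity
  have h2n : (0 : ℝ) < 2 ^ (n - 1) := by positivity
  calc (2 * (n : ℝ) ^ (39 / 100 : ℝ) / (1 / 16) + 1) * 2 ^ (n - 1) / √(I.card)
      ≤ (33 * (n : ℝ) ^ (39 / 100 : ℝ)) * 2 ^ (n - 1) / ((n : ℝ) ^ (2 / 5 : ℝ) / 3) := by
        gcongr
        linarith
    _ = 99 * ((n : ℝ) ^ (39 / 100 : ℝ) / (n : ℝ) ^ (2 / 5 : ℝ)) * 2 ^ (n - 1) := by
        field_simp
        ring
    _ = 99 * (n : ℝ) ^ (-(1 / 100) : ℝ) * 2 ^ (n - 1) := by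
        rw [← Real.rpow_sub hn0]
        norm_num

end Pool.Agent.Lib.MP_769d0b_pr
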