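import Pool.Agent.Lib.MP_769d0b_pr.Sep
import Pool.Agent.Lib.MP_769d0b_pr.SetB

/-!
LW-T2a: small ball at a point of the good zone: exponent > 1.

PROOF.
`J = ⌈37 log n⌉₊`, `37 log n ≤ J ≤ 37 log n + 1`. `pair_set y` : `2J ≤ (n-1)(1-‖y‖)` since `1 - ‖y‖ ≥ dl n/2 = n^(-4/5)/2` (`n` large).
`0.08·0.2999^J ≥ 0.08·0.2999·exp(-37·1.21·log n) ≥ 0.02·n^(-44.8) > 2/n^46` for large `n` (`log(10000/2999) ≤ 1.21`, i.e. `exp(-1.21) ≤ 0.2999`: `exp(-1.21) = 0.2982`).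
`cnt_sep` with `ρ = 1/n^46`: `cnt ≤ 2^(n-1-2J)`, `4^(-J) ≤ exp(-37·log 4·log n) ≤ n^(-51)` as `37 log 4 ≥ 37·1.386 = 51.28 ≥ 51` (`Real.log_two_gt_d9`).
-/

set_option autoImplicit false

open Finset Polynomial

namespace Pool.Agent.Lib.MP_769d0b_pr

open Pool.Agent.Lib.MP_7ab245_nt.Cnt Pool.Agent.Lib.MP_7ab245_nt.LogVar

private lemma exp121 : Real.exp (-(121 / 100)) ≤ 2999 / 10000 := by
  have h1 : ∑ i ∈ range 8, (121 / 100 : ℝ) ^ i / (i.factorial : ℝ) ≤ Real.exp (121 / 100) :=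
    Real.sum_le_exp_of_nonneg (by norm_num) 8
  have h2 : (10000 / 2999 : ℝ) ≤ Real.exp (121 / 100) := by
    refine le_trans ?_ h1
    simp only [sum_range_succ, sum_range_zero, Nat.factorial]
    norm_num
  rw [Real.exp_neg]
  calc (Real.exp (121 / 100))⁻¹ ≤ (10000 / 2999 : ℝ)⁻¹ := by gcongr
    _ = _ := by norm_num

private lemma exp121' : 1 / 4 ≤ Real.exp (-(121 / 100)) := by
  rw [Real.exp_neg, one_div]
  have h1 : Real.exp (121 / 100) ≤ 4 := by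
    have h2 : (121 / 100 : ℝ) ≤ Real.log 4 := by
      have h3 : Real.log 4 = 2 * Real.log 2 := by
        rw [show (4 : ℝ) = 2 ^ 2 by norm_num, Real.log_pow]
        norm_num
      rw [h3]
      have := Real.log_two_gt_d9
      linarith
    calc Real.exp (121 / 100) ≤ Real.exp (Real.log 4) := Real.exp_le_exp.2 h2
      _ = 4 := Real.exp_log (by norm_num)
  gcongr

private lemma low (n J : ℕ) (hn : 100 ≤ n) (hJ : (J : ℝ) ≤ 37 * Real.log n + 1) :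
    2 * (1 / (n : ℝ) ^ 46) ≤ 8 / 100 * (2999 / 10000) ^ J := by
  have hnR : (100 : ℝ) ≤ n := by exact_mod_cast hn
  have hn0 : (0 : ℝ) < n := by linarith
  have hlog : 0 ≤ Real.log n := Real.log_nonneg (by linarith)
  have h1 : 1 / (n : ℝ) ^ 45 * (1 / 4) ≤ (2999 / 10000 : ℝ) ^ J := by
    calc 1 / (n : ℝ) ^ 45 * (1 / 4) ≤ 1 / (n : ℝ) ^ 45 * Real.exp (-(121 / 100)) := by
          have := exp121'
          gcongr
      _ = Real.exp (-(45 * Real.log n) - 121 / 100) := by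
          have h2 : Real.exp (45 * Real.log n) = (n : ℝ) ^ 45 := by
            rw [mul_comm, Real.exp_mul, Real.exp_log hn0]
            exact_mod_cast Real.rpow_natCast (n : ℝ) 45
          rw [sub_eq_add_neg, Real.exp_add, Real.exp_neg (45 * Real.log n), h2, one_div]
      _ ≤ Real.exp (J * (-(121 / 100))) := by
          apply Real.exp_le_exp.2
          nlinarith
      _ = Real.exp (-(121 / 100)) ^ J := by rw [Real.exp_nat_mul]
      _ ≤ _ := pow_le_pow_left₀ (Real.exp_pos _).le exp121 J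
  have h3 : 2 * (1 / (n : ℝ) ^ 46) ≤ 8 / 100 * (1 / (n : ℝ) ^ 45 * (1 / 4)) := by
    have h4 : (n : ℝ) ^ 46 = n * (n : ℝ) ^ 45 := by ring
    rw [h4]
    have h5 : 0 < (n : ℝ) ^ 45 := by positivity
    have h6 : 2 * (1 / (n * (n : ℝ) ^ 45)) = (2 / n) * (1 / (n : ℝ) ^ 45) := by field_simp
    have h7 : 8 / 100 * (1 / (n : ℝ) ^ 45 * (1 / 4)) = (1 / 50) * (1 / (n : ℝ) ^ 45) := by ring
    rw [h6, h7]
    have h8 : 2 / (n : ℝ) ≤ 1 / 50 := by
      rw [div_le_div_iff₀ hn0 (by norm_num)]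
      linarith
    gcongr
  linarith

private lemma up (n J : ℕ) (hn : 100 ≤ n) (hJ : 37 * Real.log n ≤ J) :
    (n : ℝ) ^ 51 ≤ 4 ^ J := by
  have hnR : (100 : ℝ) ≤ n := by exact_mod_cast hn
  have hn0 : (0 : ℝ) < n := by linarith
  have hlog : 0 ≤ Real.log n := Real.log_nonneg (by linarith)
  have h2 : Real.exp (51 * Real.log n) = (n : ℝ) ^ 51 := by
    rw [mul_comm, Real.exp_mul, Real.exp_log hn0]
    exact_mod_cast Real.rpow_natCast (n : ℝ) 51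
  have h3 : Real.exp (J * Real.log 4) = (4 : ℝ) ^ J := by
    rw [Real.exp_nat_mul, Real.exp_log (by norm_num)]
  rw [← h2, ← h3]
  apply Real.exp_le_exp.2
  have h4 : Real.log 4 = 2 * Real.log 2 := by
    rw [show (4 : ℝ) = 2 ^ 2 by norm_num, Real.log_pow]
    norm_num
  rw [h4]
  have h5 := Real.log_two_gt_d9
  have h6 : (51 : ℝ) ≤ 37 * (2 * Real.log 2) := by linarith
  calc 51 * Real.log n ≤ 37 * (2 * Real.log 2) * Real.log n := by gcongr
    _ = (37 * Real.log n) * (2 * Real.log 2) := by ring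
    _ ≤ _ := by gcongr

private lemma logs : ∃ N : ℕ, ∀ n : ℕ, N ≤ n →
    2 * (37 * Real.log n + 1) ≤ (n : ℝ) ^ (1 / 5 : ℝ) / 4 := by
  have h1 := isLittleO_log_rpow_atTop (r := 1 / 5) (by norm_num)
  have h2 := (h1.bound (c := 1 / 600) (by norm_num)).and
    (tendsto_rpow_atTop (show (0 : ℝ) < 1 / 5 by norm_num) |>.eventually_ge_atTop 32)
  have h3 := tendsto_natCast_atTop_atTop (R := ℝ) |>.eventually h2
  obtain ⟨N, hN⟩ := Filter.eventually_atTop.1 h3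
  refine ⟨max N 1, fun n hn => ?_⟩
  obtain ⟨h4, h5⟩ := hN n ((le_max_left _ _).trans hn)
  have h6 : (1 : ℝ) ≤ n := by exact_mod_cast (le_max_right _ _).trans hn
  have h7 : 0 ≤ Real.log n := Real.log_nonneg h6
  have h8 : (0 : ℝ) ≤ (n : ℝ) ^ (1 / 5 : ℝ) := by positivity
  rw [Real.norm_of_nonneg h7, Real.norm_of_nonneg h8] at h4
  linarith

theorem t2a : ∃ N : ℕ, ∀ n : ℕ, N ≤ n → ∀ b d, MD n b d → ∀ y : ℂ, 1 - 2 / 10 ^ 4 ≤ ‖y‖ →
    ‖y‖ ≤ 1 - dl n / 2 → 49 * (1 - ‖y‖) ≤ |y.im| →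
    (cnt n (fun E => ‖ev b d E y‖ ≤ 1 / (n : ℝ) ^ 46) : ℝ) ≤ 1 / (n : ℝ) ^ 51 * 2 ^ (n - 1) := by
  obtain ⟨N₁, hN₁⟩ := logs
  refine ⟨max N₁ 100, fun n hn b d hM y hy1 hy2 hy3 => ?_⟩
  have hn1 : N₁ ≤ n := (le_max_left _ _).trans hn
  have hn2 : 100 ≤ n := (le_max_right _ _).trans hn
  have hnR : (100 : ℝ) ≤ n := by exact_mod_cast hn2
  have hn0 : (0 : ℝ) < n := by linarith
  have hlog : 0 ≤ Real.log n := Real.log_nonneg (by linarith)
  have hdl0 : 0 < dl n := Real.rpow_pos_of_pos hn0 _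
  set J := ⌈37 * Real.log n⌉₊ with hJ
  have hJ1 : 37 * Real.log n ≤ J := Nat.le_ceil _
  have hJ2 : (J : ℝ) ≤ 37 * Real.log n + 1 := (Nat.ceil_lt_add_one (by positivity)).le
  have h1 := hN₁ n hn1
  have h2 : 2 * (J : ℝ) ≤ ((n : ℝ) - 1) * (1 - ‖y‖) := by
    calc 2 * (J : ℝ) ≤ 2 * (37 * Real.log n + 1) := by linarith
      _ ≤ (n : ℝ) ^ (1 / 5 : ℝ) / 4 := h1
      _ = (n / 2) * (dl n / 2) := by
          unfold dl
          have : (n : ℝ) ^ (1 / 5 : ℝ) = n * (n : ℝ) ^ (-(4 / 5) : ℝ) := by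
            nth_rw 2 [← Real.rpow_one (n : ℝ)]
            rw [← Real.rpow_add hn0]
            norm_num
          rw [this]
          ring
      _ ≤ ((n : ℝ) - 1) * (1 - ‖y‖) := by
          apply mul_le_mul
          · linarith
          · linarith
          · positivity
          · linarith
  obtain ⟨I, hI, hIc, hs⟩ := pair_set y hy1 (by linarith) hy3 J n h2
  have h3 := low n J hn2 hJ2
  have h4 := cnt_sep hM y (1 / (n : ℝ) ^ 46) I hI
    (fun A hA B hB hAB => lt_of_le_of_lt h3 (hs A hA B hB hAB))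
  rw [hIc] at h4
  have h5 := up n J hn2 hJ1
  have h6 : 2 * J ≤ n - 1 := by
    have : I.card ≤ (Ioo 0 n).card := card_le_card hI
    rw [Nat.card_Ioo, hIc] at this
    omega
  have h7 : (2 : ℝ) ^ (n - 1) = 2 ^ (n - 1 - 2 * J) * 4 ^ J := by
    have : (4 : ℝ) ^ J = 2 ^ (2 * J) := by
      rw [pow_mul]
      norm_num
    rw [this, ← pow_add]
    congr 1
    omega
  calc (cnt n (fun E => ‖ev b d E y‖ ≤ 1 / (n : ℝ) ^ 46) : ℝ) ≤ ((2 ^ (n - 1 - 2 * J) : ℕ) : ℝ) := by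
        exact_mod_cast h4
    _ = 2 ^ (n - 1 - 2 * J) := by push_cast; rfl
    _ = 1 / (n : ℝ) ^ 51 * (2 ^ (n - 1 - 2 * J) * (n : ℝ) ^ 51) := by field_simp
    _ ≤ 1 / (n : ℝ) ^ 51 * (2 ^ (n - 1 - 2 * J) * 4 ^ J) := by gcongr
    _ = _ := by rw [h7]

end Pool.Agent.Lib.MP_769d0b_pr
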