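import Pool.Agent.Lib.MP_769d0b_pr.Basic

/-!
LW-Trunc: truncation: values and derivatives in the disc.

PROOF.
`tr R p` has coefficients `p.coeff k` for `k ≤ R`, `0` for `k > R`. `PE - tr` has coefficients `a_k`, `R < k ≤ n`, `|a_k| ≤ 1`: `‖·‖ ≤ ∑_{k>R} ‖z‖^k ≤ ‖z‖^(R+1)/(1-‖z‖)`, derivative `≤ ∑_{R<k≤n} k‖z‖^(k-1) ≤ n ‖z‖^R/(1-‖z‖)`.
`tr_facts`: clear. `tr_congr`: `PE_coeff` for `k ≤ R`.
-/

set_option autoImplicit false

open Finset Polynomial

namespace Pool.Agent.Lib.MP_769d0b_pr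

open Pool.Agent.Lib.MP_7ab245_nt.Cnt Pool.Agent.Lib.MP_7ab245_nt.LogVar

theorem tr_coeff (R : ℕ) (p : ℤ[X]) (k : ℕ) : (tr R p).coeff k = if k ≤ R then p.coeff k else 0 := by
  unfold tr
  rw [finsetSum_coeff]
  simp only [coeff_C_mul_X_pow]
  rw [Finset.sum_ite_eq]
  simp only [mem_range]
  congr 1
  exact propext Nat.lt_succ_iff

private theorem eval_small (q : ℤ[X]) (n R : ℕ) (hdeg : ∀ k, n < k → q.coeff k = 0)
    (h0 : ∀ k, k ≤ R → q.coeff k = 0) (h1 : ∀ k, |q.coeff k| ≤ 1) (z : ℂ) (hz : ‖z‖ < 1) :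
    ‖(cx q).eval z‖ ≤ ‖z‖ ^ (R + 1) / (1 - ‖z‖) ∧
      ‖(derivative (cx q)).eval z‖ ≤ n * ‖z‖ ^ R / (1 - ‖z‖) := by
  have hc : ∀ k, ‖(cx q).coeff k‖ = ((|q.coeff k| : ℤ) : ℝ) := by
    intro k
    unfold cx
    rw [coeff_map]
    simp
  have hnd : (cx q).natDegree ≤ n := by
    refine natDegree_le_iff_coeff_eq_zero.mpr fun k hk => ?_
    unfold cx
    rw [coeff_map, hdeg k hk, map_zero]
  have hb : ∀ k, ‖(cx q).coeff k‖ ≤ if R + 1 ≤ k then 1 else 0 := by
    intro k
    rw [hc]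
    split_ifs with hk
    · exact_mod_cast h1 k
    · rw [h0 k (by omega)]
      simp
  constructor
  · rw [eval_eq_sum_range' (Nat.lt_succ_of_le hnd)]
    refine (norm_sum_le _ _).trans ?_
    calc ∑ i ∈ range (n + 1), ‖(cx q).coeff i * z ^ i‖
        ≤ ∑ i ∈ range (n + 1), if R + 1 ≤ i then ‖z‖ ^ i else 0 := by
          refine Finset.sum_le_sum fun i _ => ?_
          rw [norm_mul, norm_pow]
          have := hb i
          split_ifs with hk
          · rw [if_pos hk] at this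
            exact mul_le_of_le_one_left (by positivity) this
          · rw [if_neg hk] at this
            have h2 : ‖(cx q).coeff i‖ = 0 := le_antisymm this (norm_nonneg _)
            rw [h2, zero_mul]
      _ = ∑ i ∈ (range (n + 1)).filter (fun i => R + 1 ≤ i), ‖z‖ ^ i := by
          rw [Finset.sum_filter]
      _ ≤ ∑ i ∈ Ico (R + 1) (n + 1), ‖z‖ ^ i := by
          refine Finset.sum_le_sum_of_subset_of_nonneg ?_ (fun _ _ _ => by positivity)
          intro i hi
          rw [mem_filter, mem_range] at hi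
          exact mem_Ico.mpr ⟨hi.2, hi.1⟩
      _ ≤ _ := geom_sum_Ico_le_of_lt_one (norm_nonneg z) hz
  · rcases Nat.eq_zero_or_pos n with hn0 | hn0
    · have h3 : derivative (cx q) = 0 := derivative_of_natDegree_zero (by omega)
      rw [h3, eval_zero, norm_zero]
      have : 0 < 1 - ‖z‖ := by linarith
      positivity
    have hnd2 : (derivative (cx q)).natDegree < n := by
      have := natDegree_derivative_le (cx q)
      omega
    rw [eval_eq_sum_range' hnd2]
    refine (norm_sum_le _ _).trans ?_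
    calc ∑ i ∈ range n, ‖(derivative (cx q)).coeff i * z ^ i‖
        ≤ ∑ i ∈ range n, if R ≤ i then (n : ℝ) * ‖z‖ ^ i else 0 := by
          refine Finset.sum_le_sum fun i hi => ?_
          rw [coeff_derivative, norm_mul, norm_mul, norm_pow]
          have h4 := hb (i + 1)
          have h5 : ‖((i : ℂ) + 1)‖ ≤ n := by
            have h6 : ((i : ℂ) + 1) = ((i + 1 : ℕ) : ℂ) := by push_cast; ring
            rw [h6, Complex.norm_natCast]
            exact_mod_cast mem_range.mp hi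
          split_ifs with hk
          · rw [if_pos (by omega)] at h4
            calc ‖(cx q).coeff (i + 1)‖ * ‖((i : ℂ) + 1)‖ * ‖z‖ ^ i ≤ 1 * n * ‖z‖ ^ i := by gcongr
              _ = _ := by ring
          · rw [if_neg (by omega)] at h4
            have h2 : ‖(cx q).coeff (i + 1)‖ = 0 := le_antisymm h4 (norm_nonneg _)
            rw [h2, zero_mul, zero_mul]
      _ = ∑ i ∈ (range n).filter (fun i => R ≤ i), (n : ℝ) * ‖z‖ ^ i := by
          rw [Finset.sum_filter]
      _ ≤ ∑ i ∈ Ico R n, (n : ℝ) * ‖z‖ ^ i := by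
          refine Finset.sum_le_sum_of_subset_of_nonneg ?_ (fun _ _ _ => by positivity)
          intro i hi
          rw [mem_filter, mem_range] at hi
          exact mem_Ico.mpr ⟨hi.2, hi.1⟩
      _ = n * ∑ i ∈ Ico R n, ‖z‖ ^ i := by rw [Finset.mul_sum]
      _ ≤ n * (‖z‖ ^ R / (1 - ‖z‖)) :=
          mul_le_mul_of_nonneg_left (geom_sum_Ico_le_of_lt_one (norm_nonneg z) hz) (by positivity)
      _ = _ := by ring

theorem tr_close {n : ℕ} {b : ℤ[X]} {d : ℤ} (h : MD n b d) {E : Finset ℕ} (hE : E ⊆ Ioo 0 n)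
    (R : ℕ) (z : ℂ) (hz : ‖z‖ < 1) :
    ‖(cx (tr R (PE b d E))).eval z - ev b d E z‖ ≤ ‖z‖ ^ (R + 1) / (1 - ‖z‖) ∧
      ‖(derivative (cx (tr R (PE b d E)))).eval z - ev' b d E z‖ ≤
        n * ‖z‖ ^ R / (1 - ‖z‖) := by
  have h1 : ∀ k, n < k → (PE b d E).coeff k = 0 := fun k hk =>
    coeff_eq_zero_of_natDegree_lt (by rw [h.natDegree hE]; exact hk)
  have h2 := eval_small (tr R (PE b d E) - PE b d E) n R
    (fun k hk => by
      rw [coeff_sub, tr_coeff, h1 k hk]
      split_ifs <;> simp)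
    (fun k hk => by
      rw [coeff_sub, tr_coeff, if_pos hk, sub_self])
    (fun k => by
      rw [coeff_sub, tr_coeff]
      split_ifs with hk
      · simp
      · rw [zero_sub, abs_neg]
        exact h.coeff_le hE k) z hz
  have h3 : cx (tr R (PE b d E) - PE b d E) = cx (tr R (PE b d E)) - cx (PE b d E) := by
    unfold cx
    rw [Polynomial.map_sub]
  rw [h3, derivative_sub, eval_sub, eval_sub] at h2
  exact h2

theorem tr_facts {n : ℕ} {b : ℤ[X]} {d : ℤ} (h : MD n b d) {E : Finset ℕ} (hE : E ⊆ Ioo 0 n)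
    (R : ℕ) : (cx (tr R (PE b d E))).natDegree ≤ n ∧
      (∀ k, ‖(cx (tr R (PE b d E))).coeff k‖ ≤ 1) ∧ ‖(cx (tr R (PE b d E))).coeff 0‖ = 1 := by
  have hc : ∀ k, ‖(cx (tr R (PE b d E))).coeff k‖ = ((|(tr R (PE b d E)).coeff k| : ℤ) : ℝ) := by
    intro k
    unfold cx
    rw [coeff_map]
    simp
  have h1 : ∀ k, n < k → (PE b d E).coeff k = 0 := fun k hk =>
    coeff_eq_zero_of_natDegree_lt (by rw [h.natDegree hE]; exact hk)
  refine ⟨natDegree_le_iff_coeff_eq_zero.mpr fun k hk => ?_, fun k => ?_, ?_⟩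
  · unfold cx
    rw [coeff_map, tr_coeff, h1 k hk]
    split_ifs <;> simp
  · rw [hc, tr_coeff]
    split_ifs with hk
    · exact_mod_cast h.coeff_le hE k
    · simp
  · rw [hc, tr_coeff, if_pos (Nat.zero_le _), h.coeff_zero hE]
    simp

theorem tr_congr (b : ℤ[X]) (d : ℤ) (R : ℕ) (E₁ E₂ : Finset ℕ)
    (h : ∀ k ≤ R, k ∈ E₁ ↔ k ∈ E₂) : tr R (PE b d E₁) = tr R (PE b d E₂) := by
  ext k
  rw [tr_coeff, tr_coeff]
  split_ifs with hk
  · rw [PE_coeff, PE_coeff]
    simp only [h k hk]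
  · rfl

end Pool.Agent.Lib.MP_769d0b_pr
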