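import Pool.Agent.Lib.MP_769d0b_pr.L1p

/-!
LW-Wf: the quotient of two nearby Blaschke factors has prefix norm close to 1.

PROOF.
`wf_mul`: `bl z * (1 - C z̄ X) = X - C z` (`LogVar.bl_mul`) and `C (-z)⁻¹ (X - C z) = 1 - C z⁻¹ X`; the inverses of series with constant coefficient `1` cancel.
`wf_l1p`: coefficient of `x^k`, `k ≥ 1`, of `(1 - X/z')(1 - X/z)⁻¹ = (1 - X/z') ∑ z^{-k} X^k` is `z^{-(k-1)} (z⁻¹ - z'⁻¹)`; norm `≤ ‖z‖^{-(k-1)} ‖z-z'‖/(‖z‖‖z'‖) ≤ κ ‖z‖^{m-k}/‖z'‖ ≤ 2κ` for `1 ≤ k ≤ m`;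
the coefficient of `x^k` of `(1 - z̄X)(1 - z̄'X)⁻¹` is `z̄'^{k-1}(z̄' - z̄)`, norm `≤ ‖z-z'‖ ≤ κ`. Constant coefficients `1`. So both have prefix norm `≤ 1 + 2mκ`; `l1p_mul`.
-/

set_option autoImplicit false

open Finset Polynomial

namespace Pool.Agent.Lib.MP_769d0b_pr

open Pool.Agent.Lib.MP_7ab245_nt.Cnt Pool.Agent.Lib.MP_7ab245_nt.LogVar

private theorem Wf_C (z : ℂ) (hz : z ≠ 0) :
    PowerSeries.C (-z)⁻¹ * bl z * (1 - PowerSeries.C ((starRingEnd ℂ) z) * PowerSeries.X) =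
      1 - PowerSeries.C z⁻¹ * PowerSeries.X := by
  rw [mul_assoc, bl_mul, mul_sub, ← map_mul, inv_neg, neg_mul, inv_mul_cancel₀ hz, map_neg, map_neg,
    map_one]
  ring

theorem wf_mul (z z' : ℂ) (hz : z ≠ 0) (hz' : z' ≠ 0) :
    PowerSeries.C (-z')⁻¹ * bl z' = wf z z' * (PowerSeries.C (-z)⁻¹ * bl z) := by
  have h1 := Wf_C z hz
  have h2 := Wf_C z' hz'
  have e1 : (1 - PowerSeries.C ((starRingEnd ℂ) z') * PowerSeries.X : PowerSeries ℂ) *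
      (1 - PowerSeries.C ((starRingEnd ℂ) z') * PowerSeries.X)⁻¹ = 1 :=
    PowerSeries.mul_inv_cancel _ (den_ne _)
  have e2 : (1 - PowerSeries.C z⁻¹ * PowerSeries.X : PowerSeries ℂ) *
      (1 - PowerSeries.C z⁻¹ * PowerSeries.X)⁻¹ = 1 :=
    PowerSeries.mul_inv_cancel _ (den_ne _)
  have h3 : PowerSeries.C (-z')⁻¹ * bl z' = (1 - PowerSeries.C z'⁻¹ * PowerSeries.X) *
      (1 - PowerSeries.C ((starRingEnd ℂ) z') * PowerSeries.X)⁻¹ := by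
    rw [← h2, mul_assoc, e1, mul_one]
  have h4 : wf z z' * (PowerSeries.C (-z)⁻¹ * bl z) =
      (1 - PowerSeries.C z'⁻¹ * PowerSeries.X) * (1 - PowerSeries.C z⁻¹ * PowerSeries.X)⁻¹ *
        (1 - PowerSeries.C ((starRingEnd ℂ) z') * PowerSeries.X)⁻¹ *
        (PowerSeries.C (-z)⁻¹ * bl z * (1 - PowerSeries.C ((starRingEnd ℂ) z) * PowerSeries.X)) := by
    unfold wf
    ring
  rw [h4, h1, h3]
  calc (1 - PowerSeries.C z'⁻¹ * PowerSeries.X) *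
      (1 - PowerSeries.C ((starRingEnd ℂ) z') * PowerSeries.X)⁻¹ =
      (1 - PowerSeries.C z'⁻¹ * PowerSeries.X) *
      (1 - PowerSeries.C ((starRingEnd ℂ) z') * PowerSeries.X)⁻¹ *
      ((1 - PowerSeries.C z⁻¹ * PowerSeries.X) * (1 - PowerSeries.C z⁻¹ * PowerSeries.X)⁻¹) := by
        rw [e2, mul_one]
    _ = _ := by ring

/-- coefficients of `(1 - v X) / (1 - u X)` -/
private theorem Wf_coeff (u v : ℂ) (k : ℕ) :
    PowerSeries.coeff (k + 1) ((1 - PowerSeries.C v * PowerSeries.X) *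
      (1 - PowerSeries.C u * PowerSeries.X)⁻¹) = u ^ k * (u - v) := by
  have hg : ∀ k, PowerSeries.coeff k ((1 - PowerSeries.C u * PowerSeries.X : PowerSeries ℂ)⁻¹) =
      u ^ k := by
    intro k
    have e : (1 - PowerSeries.C u * PowerSeries.X : PowerSeries ℂ) *
        (1 - PowerSeries.C u * PowerSeries.X)⁻¹ = 1 := PowerSeries.mul_inv_cancel _ (den_ne _)
    induction k with
    | zero =>
      have h := congrArg (PowerSeries.coeff 0) e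
      rw [coeff_1C_zero] at h
      rw [h]
      simp
    | succ k ih =>
      have h := congrArg (PowerSeries.coeff (k + 1)) e
      rw [coeff_1C_succ, ih] at h
      have h1 : PowerSeries.coeff (k + 1) (1 : PowerSeries ℂ) = 0 := by
        simp [PowerSeries.coeff_one]
      rw [h1] at h
      rw [pow_succ']
      linear_combination h
  rw [coeff_1C_succ, hg, hg]
  ring

private theorem Wf_coeff0 (u v : ℂ) :
    PowerSeries.coeff 0 ((1 - PowerSeries.C v * PowerSeries.X : PowerSeries ℂ) *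
      (1 - PowerSeries.C u * PowerSeries.X)⁻¹) = 1 := by
  rw [PowerSeries.coeff_zero_eq_constantCoeff_apply, map_mul, PowerSeries.constantCoeff_inv]
  simp

private theorem Wf_l1 (u v : ℂ) (m : ℕ) (κ : ℝ) (h : ∀ k < m, ‖u ^ k * (u - v)‖ ≤ 2 * κ) :
    l1p ((1 - PowerSeries.C v * PowerSeries.X) * (1 - PowerSeries.C u * PowerSeries.X)⁻¹) (m + 1) ≤
      1 + 2 * m * κ := by
  unfold l1p
  rw [Finset.sum_range_succ', Wf_coeff0, norm_one]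
  have h1 : ∑ k ∈ range m, ‖PowerSeries.coeff (k + 1) ((1 - PowerSeries.C v * PowerSeries.X) *
      (1 - PowerSeries.C u * PowerSeries.X)⁻¹)‖ ≤ ∑ _k ∈ range m, 2 * κ := by
    refine Finset.sum_le_sum fun k hk => ?_
    rw [Wf_coeff]
    exact h k (Finset.mem_range.mp hk)
  rw [Finset.sum_const, Finset.card_range, nsmul_eq_mul] at h1
  linarith

theorem wf_l1p (z z' : ℂ) (m : ℕ) (κ : ℝ) (hκ : 0 ≤ κ) (hz : 1 / 2 < ‖z‖) (hz1 : ‖z‖ < 1)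
    (hz' : 1 / 2 < ‖z'‖) (hz'1 : ‖z'‖ ≤ 1) (h : ‖z - z'‖ ≤ κ * ‖z‖ ^ m) :
    l1p (wf z z') (m + 1) ≤ (1 + 2 * m * κ) ^ 2 := by
  have hz0 : 0 < ‖z‖ := by linarith
  have hz'0 : 0 < ‖z'‖ := by linarith
  have hzn : z ≠ 0 := norm_pos_iff.mp hz0
  have hz'n : z' ≠ 0 := norm_pos_iff.mp hz'0
  have hA : l1p ((1 - PowerSeries.C z'⁻¹ * PowerSeries.X) *
      (1 - PowerSeries.C z⁻¹ * PowerSeries.X)⁻¹) (m + 1) ≤ 1 + 2 * m * κ := by
    refine Wf_l1 _ _ m κ fun k hk => ?_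
    have h1 : z⁻¹ - z'⁻¹ = (z' - z) * (z⁻¹ * z'⁻¹) := by
      field_simp
    rw [h1, norm_mul, norm_mul, norm_mul, norm_pow, norm_inv, norm_inv, norm_sub_rev]
    have h2 : ‖z‖⁻¹ ^ k * (‖z - z'‖ * (‖z‖⁻¹ * ‖z'‖⁻¹)) ≤
        ‖z‖⁻¹ ^ k * ((κ * ‖z‖ ^ m) * (‖z‖⁻¹ * ‖z'‖⁻¹)) := by gcongr
    refine h2.trans ?_
    have h3 : ‖z‖ ^ m = ‖z‖ ^ (m - (k + 1)) * ‖z‖ ^ (k + 1) := by
      rw [← pow_add]
      congr 1
      omega
    have h4 : ‖z‖⁻¹ ^ k * ((κ * ‖z‖ ^ m) * (‖z‖⁻¹ * ‖z'‖⁻¹)) =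
        κ * ‖z‖ ^ (m - (k + 1)) * ‖z'‖⁻¹ := by
      rw [h3, pow_succ, inv_pow]
      have h5 : ‖z‖ ^ k ≠ 0 := pow_ne_zero _ hz0.ne'
      field_simp
    rw [h4]
    have h5 : ‖z‖ ^ (m - (k + 1)) ≤ 1 := pow_le_one₀ hz0.le hz1.le
    have h6 : ‖z'‖⁻¹ ≤ 2 := by
      rw [inv_le_comm₀ hz'0 (by norm_num)]
      linarith
    calc κ * ‖z‖ ^ (m - (k + 1)) * ‖z'‖⁻¹ ≤ κ * 1 * 2 := by gcongr
      _ = 2 * κ := by ring
  have hB : l1p ((1 - PowerSeries.C ((starRingEnd ℂ) z) * PowerSeries.X) *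
      (1 - PowerSeries.C ((starRingEnd ℂ) z') * PowerSeries.X)⁻¹) (m + 1) ≤ 1 + 2 * m * κ := by
    refine Wf_l1 _ _ m κ fun k _ => ?_
    rw [norm_mul, norm_pow, ← map_sub, Complex.norm_conj, Complex.norm_conj, norm_sub_rev]
    have h5 : ‖z'‖ ^ k ≤ 1 := pow_le_one₀ hz'0.le hz'1
    have h6 : ‖z‖ ^ m ≤ 1 := pow_le_one₀ hz0.le hz1.le
    have h7 : ‖z - z'‖ ≤ κ := h.trans (by nlinarith)
    have h8 : 0 ≤ ‖z - z'‖ := norm_nonneg _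
    have h9 : 0 ≤ ‖z'‖ ^ k := by positivity
    nlinarith
  have hn : ∀ A : PowerSeries ℂ, 0 ≤ l1p A (m + 1) := fun A =>
    Finset.sum_nonneg fun _ _ => norm_nonneg _
  unfold wf
  refine (l1p_mul _ _ (m + 1)).trans ?_
  rw [pow_two]
  exact mul_le_mul hA hB (hn _) (by positivity)

end Pool.Agent.Lib.MP_769d0b_pr
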