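import Pool.Agent.Lib.MP_769d0b_pr.Sep

/-!
LW-ZetaA: probability that a primitive k-th root of unity is a zero: large phi(k).

PROOF.
`I = Icc 1 (min (φ k) (n-1))`. If `A ≠ B ⊆ I`, `∑_A ζ^i = ∑_B ζ^i`: `f = ∑_A X^(i-1) - ∑_B X^(i-1) ≠ 0` has degree `< φ k`, `f(ζ) = 0` (`ζ ≠ 0`), but the minimal polynomial of `ζ` over `ℚ` (or ℤ) is the cyclotomic polynomial of degree `φ k` (`IsPrimitiveRoot.minpoly_dvd...`,
`Polynomial.cyclotomic_eq_minpoly`, `natDegree_cyclotomic`; `minpoly.natDegree_le`/`degree_le_of_ne_zero`). `cnt_sep_zero`. All primitive `k`-th roots at once: `ev b d E ζ = 0` for one primitive `ζ` iff for all (the cyclotomic polynomial divides), so the event is the one for `ζ₀ = exp(2πi/k)`.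
-/

set_option autoImplicit false

open Finset Polynomial

namespace Pool.Agent.Lib.MP_769d0b_pr

open Pool.Agent.Lib.MP_7ab245_nt.Cnt Pool.Agent.Lib.MP_7ab245_nt.LogVar

private theorem ev_aeval (b : ℤ[X]) (d : ℤ) (E : Finset ℕ) (y : ℂ) :
    ev b d E y = aeval y (PE b d E) := by
  rw [ev, cx, eval_map, aeval_def]
  rfl

private theorem cyc_dvd {k : ℕ} (hk : 1 ≤ k) {ζ : ℂ} (hζ : IsPrimitiveRoot ζ k) {f : ℤ[X]}
    (h : aeval ζ f = 0) : cyclotomic k ℤ ∣ f := by
  rw [cyclotomic_eq_minpoly hζ hk]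
  exact minpoly.isIntegrallyClosed_dvd (hζ.isIntegral hk) h

/-- one primitive root is enough -/
theorem zeta_conj (b : ℤ[X]) (d : ℤ) (E : Finset ℕ) (k : ℕ) (hk : 1 ≤ k) (ζ : ℂ)
    (hζ : IsPrimitiveRoot ζ k) (h : ev b d E ζ = 0) :
    ev b d E (Complex.exp (2 * Real.pi * Complex.I / k)) = 0 := by
  rw [ev_aeval] at h ⊢
  obtain ⟨g, hg⟩ := cyc_dvd hk hζ h
  have hp : IsPrimitiveRoot (Complex.exp (2 * Real.pi * Complex.I / k)) k :=
    Complex.isPrimitiveRoot_exp k (by omega)
  have h0 : aeval (Complex.exp (2 * Real.pi * Complex.I / k)) (cyclotomic k ℤ) = 0 := by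
    rw [cyclotomic_eq_minpoly hp hk]
    exact minpoly.aeval _ _
  rw [hg, map_mul, h0, zero_mul]

private noncomputable def gA (A : Finset ℕ) : ℤ[X] := ∑ i ∈ A, X ^ (i - 1)

private theorem gA_coeff {A : Finset ℕ} (hA : ∀ i ∈ A, 1 ≤ i) (j : ℕ) :
    (gA A).coeff j = if j + 1 ∈ A then 1 else 0 := by
  rw [gA, finsetSum_coeff]
  have h1 : ∀ i ∈ A, (X ^ (i - 1) : ℤ[X]).coeff j = if j + 1 = i then 1 else 0 := by
    intro i hi
    rw [coeff_X_pow]
    have := hA i hi
    refine if_congr ?_ rfl rfl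
    omega
  rw [Finset.sum_congr rfl h1, Finset.sum_ite_eq]

private theorem gA_eval {A : Finset ℕ} (hA : ∀ i ∈ A, 1 ≤ i) (ζ : ℂ) :
    ζ * aeval ζ (gA A) = ∑ i ∈ A, ζ ^ i := by
  rw [gA, map_sum, Finset.mul_sum]
  refine Finset.sum_congr rfl fun i hi => ?_
  rw [map_pow, aeval_X, ← pow_succ', Nat.sub_add_cancel (hA i hi)]

theorem cnt_zeta {n : ℕ} {b : ℤ[X]} {d : ℤ} (h : MD n b d) (k : ℕ) (hk : 1 ≤ k) :
    cnt n (fun E => ev b d E (Complex.exp (2 * Real.pi * Complex.I / k)) = 0) ≤
      2 ^ (n - 1 - min (Nat.totient k) (n - 1)) := by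
  have hp : IsPrimitiveRoot (Complex.exp (2 * Real.pi * Complex.I / k)) k :=
    Complex.isPrimitiveRoot_exp k (by omega)
  have hn := h.pos
  have hc := cnt_sep_zero h (Complex.exp (2 * Real.pi * Complex.I / k))
    (Icc 1 (min (Nat.totient k) (n - 1))) (by
      intro i hi
      rw [Finset.mem_Icc] at hi
      rw [Finset.mem_Ioo]
      have := hi.2.trans (min_le_right _ _)
      omega) (by
      intro A hA B hB hAB heq
      apply hAB
      have hA1 : ∀ i ∈ A, 1 ≤ i := fun i hi => (Finset.mem_Icc.1 (hA hi)).1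
      have hB1 : ∀ i ∈ B, 1 ≤ i := fun i hi => (Finset.mem_Icc.1 (hB hi)).1
      have hA2 : ∀ i ∈ A, i ≤ Nat.totient k := fun i hi =>
        ((Finset.mem_Icc.1 (hA hi)).2).trans (min_le_left _ _)
      have hB2 : ∀ i ∈ B, i ≤ Nat.totient k := fun i hi =>
        ((Finset.mem_Icc.1 (hB hi)).2).trans (min_le_left _ _)
      have hz : Complex.exp (2 * Real.pi * Complex.I / k) ≠ 0 := Complex.exp_ne_zero _
      have h1 : aeval (Complex.exp (2 * Real.pi * Complex.I / k)) (gA A - gA B) = 0 := by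
        have h2 : Complex.exp (2 * Real.pi * Complex.I / k)
            * aeval (Complex.exp (2 * Real.pi * Complex.I / k)) (gA A - gA B) = 0 := by
          rw [map_sub, mul_sub, gA_eval hA1, gA_eval hB1, heq, sub_self]
        exact (mul_eq_zero.1 h2).resolve_left hz
      have h3 := cyc_dvd hk hp h1
      have h4 : gA A - gA B = 0 := by
        by_contra hne
        have h5 := natDegree_le_of_dvd h3 hne
        rw [natDegree_cyclotomic] at h5
        have h6 : (gA A - gA B).coeff (gA A - gA B).natDegree ≠ 0 := by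
          rw [coeff_natDegree]
          exact leadingCoeff_ne_zero.2 hne
        apply h6
        rw [coeff_sub, gA_coeff hA1, gA_coeff hB1, if_neg, if_neg, sub_self]
        · intro hh
          have := hB2 _ hh
          omega
        · intro hh
          have := hA2 _ hh
          omega
      ext i
      rcases Nat.eq_zero_or_pos i with hi | hi
      · subst hi
        constructor
        · intro hh
          exact absurd (hA1 0 hh) (by omega)
        · intro hh
          exact absurd (hB1 0 hh) (by omega)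
      · have h5 : (gA A - gA B).coeff (i - 1) = 0 := by rw [h4, coeff_zero]
        rw [coeff_sub, gA_coeff hA1, gA_coeff hB1, Nat.sub_add_cancel hi] at h5
        by_cases ha : i ∈ A
        · by_cases hb : i ∈ B
          · exact iff_of_true ha hb
          · rw [if_pos ha, if_neg hb] at h5
            norm_num at h5
        · by_cases hb : i ∈ B
          · rw [if_neg ha, if_pos hb] at h5
            norm_num at h5
          · exact iff_of_false ha hb)
  rw [Nat.card_Icc, Nat.add_sub_cancel] at hc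
  exact hc

/-- a primitive `k`-th root can only be a zero if `φ k ≤ n` -/
theorem totient_le {n : ℕ} {b : ℤ[X]} {d : ℤ} (h : MD n b d) {E : Finset ℕ} (hE : E ⊆ Ioo 0 n)
    (k : ℕ) (hk : 1 ≤ k) (ζ : ℂ) (hζ : IsPrimitiveRoot ζ k) (h0 : ev b d E ζ = 0) :
    Nat.totient k ≤ n := by
  rw [ev_aeval] at h0
  have h1 := natDegree_le_of_dvd (cyc_dvd hk hζ h0) (h.ne_zero hE)
  rw [natDegree_cyclotomic, h.natDegree hE] at h1
  exact h1

end Pool.Agent.Lib.MP_769d0b_pr
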